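import Pool.Agent.SerreK.QDefs

/-!
# PIDM: class number one for `n = 0, 1, 2, 4, 10, 16, 40` (`D = 4n+3 = 3,7,11,19,43,67,163`)
-/

namespace SerreK

/-- the norm -/
def PIDM_nm {n : ℕ} (x : OK n) : ℤ := x.re ^ 2 + x.re * x.im + (n + 1) * x.im ^ 2

theorem PIDM_nm_mul {n : ℕ} (x y : OK n) : PIDM_nm (x * y) = PIDM_nm x * PIDM_nm y := by
  simp only [PIDM_nm, QuadraticAlgebra.re_mul, QuadraticAlgebra.im_mul]
  ring

theorem PIDM_nm_four {n : ℕ} (x : OK n) :
    4 * PIDM_nm x = (2 * x.re + x.im) ^ 2 + (4 * n + 3) * x.im ^ 2 := by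
  simp only [PIDM_nm]; ring

theorem PIDM_nm_nonneg {n : ℕ} (x : OK n) : 0 ≤ PIDM_nm x := by
  have h := PIDM_nm_four x
  have : 0 ≤ (2 * x.re + x.im) ^ 2 + (4 * (n : ℤ) + 3) * x.im ^ 2 := by positivity
  linarith

theorem PIDM_nm_pos {n : ℕ} (x : OK n) (hx : x ≠ 0) : 0 < PIDM_nm x := by
  have h := PIDM_nm_four x
  by_contra hn
  push Not at hn
  have h1 : 0 ≤ (2 * x.re + x.im) ^ 2 := sq_nonneg _
  have h2 : 0 ≤ x.im ^ 2 := sq_nonneg _
  have h3 : 0 ≤ (4 * (n : ℤ)) * x.im ^ 2 := by positivity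
  have h4 : x.im ^ 2 = 0 := by nlinarith
  have h5 : x.im = 0 := by simpa using h4
  have h6 : (2 * x.re + x.im) ^ 2 = 0 := by rw [h5] at h ⊢; nlinarith
  have h7 : 2 * x.re + x.im = 0 := by simpa using h6
  apply hx
  apply QuadraticAlgebra.ext
  · change x.re = 0; omega
  · exact h5

/-- the Dirichlet step -/
theorem PIDM_step (n M : ℕ) (hM : 0 < M) (hD : 4 * n + 3 < 3 * (M + 1) ^ 2) (b c : OK n)
    (hc : c ≠ 0) : ∃ s : ℕ, 0 < s ∧ s ≤ M ∧ ∃ t : OK n, PIDM_nm ((s : OK n) * b - t * c) <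
      PIDM_nm c := by
  have hN : 0 < PIDM_nm c := PIDM_nm_pos c hc
  set N : ℤ := PIDM_nm c with hNdef
  set X : ℤ := b.re * (c.re + c.im) + (n + 1) * b.im * c.im with hX
  set Y : ℤ := b.im * c.re - b.re * c.im with hY
  have hNr : (0 : ℝ) < N := by exact_mod_cast hN
  obtain ⟨s, hs0, hsM, hs⟩ := Real.exists_nat_abs_mul_sub_round_le ((Y : ℝ) / N) hM
  set k : ℤ := round ((s : ℝ) * (Y / N)) with hk
  set B : ℝ := s * (Y / N) - k with hB
  set l : ℤ := round ((s : ℝ) * (X / N) + B / 2) with hl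
  set A : ℝ := s * (X / N) - l with hA
  have hAB : |A + B / 2| ≤ 1 / 2 := by
    have := abs_sub_round ((s : ℝ) * (X / N) + B / 2)
    rw [← hl] at this
    have e : A + B / 2 = (s : ℝ) * (X / N) + B / 2 - l := by rw [hA]; ring
    rw [e]
    exact this
  refine ⟨s, hs0, hsM, ⟨l, k⟩, ?_⟩
  set r : OK n := (s : OK n) * b - ⟨l, k⟩ * c with hr
  have e1 : (PIDM_nm r : ℝ) * N = N ^ 2 * (A ^ 2 + A * B + (n + 1) * B ^ 2) := by
    have hA' : A * N = s * X - l * N := by
      rw [hA, sub_mul, mul_assoc, div_mul_cancel₀ _ hNr.ne']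
    have hB' : B * N = s * Y - k * N := by
      rw [hB, sub_mul, mul_assoc, div_mul_cancel₀ _ hNr.ne']
    have e2 : PIDM_nm r * N = (s * X - l * N) ^ 2 + (s * X - l * N) * (s * Y - k * N) +
        (n + 1) * (s * Y - k * N) ^ 2 := by
      rw [hr, hNdef, hX, hY]
      simp only [PIDM_nm, QuadraticAlgebra.re_sub, QuadraticAlgebra.im_sub,
        QuadraticAlgebra.re_mul, QuadraticAlgebra.im_mul, QuadraticAlgebra.re_natCast,
        QuadraticAlgebra.im_natCast]
      ring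
    have e3 : ((PIDM_nm r : ℤ) : ℝ) * N = (s * X - l * N) ^ 2 + (s * X - l * N) * (s * Y - k * N) +
        (n + 1) * (s * Y - k * N) ^ 2 := by exact_mod_cast e2
    rw [e3, ← hA', ← hB']
    ring
  have hB2 : B ^ 2 ≤ (1 / ((M : ℝ) + 1)) ^ 2 := by
    rw [← sq_abs B]
    exact pow_le_pow_left₀ (abs_nonneg _) hs 2
  have hAB2 : (A + B / 2) ^ 2 ≤ (1 / 2) ^ 2 := by
    rw [← sq_abs (A + B / 2)]
    exact pow_le_pow_left₀ (abs_nonneg _) hAB 2
  have hlt : A ^ 2 + A * B + (n + 1) * B ^ 2 < 1 := by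
    have e4 : A ^ 2 + A * B + (n + 1) * B ^ 2 = (A + B / 2) ^ 2 + (4 * n + 3) / 4 * B ^ 2 := by
      ring
    have hDr : (4 * (n : ℝ) + 3) < 3 * ((M : ℝ) + 1) ^ 2 := by exact_mod_cast hD
    have e5 : (4 * (n : ℝ) + 3) / 4 * B ^ 2 < 3 / 4 := by
      calc (4 * (n : ℝ) + 3) / 4 * B ^ 2 ≤ (4 * (n : ℝ) + 3) / 4 * (1 / ((M : ℝ) + 1)) ^ 2 :=
            mul_le_mul_of_nonneg_left hB2 (by positivity)
        _ = (4 * (n : ℝ) + 3) / (4 * ((M : ℝ) + 1) ^ 2) := by
            field_simp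
        _ < 3 / 4 := by
            rw [div_lt_div_iff₀ (by positivity) (by norm_num)]
            nlinarith
    rw [e4]
    nlinarith
  have h3 : (PIDM_nm r : ℝ) * N < N * N := by
    rw [e1]
    have : (0 : ℝ) < (N : ℝ) ^ 2 := by positivity
    nlinarith
  have h4 : (PIDM_nm r : ℝ) < N := lt_of_mul_lt_mul_right h3 hNr.le
  exact_mod_cast h4

/-- the prime `q` is inert -/
def PIDM_Inert (n q : ℕ) : Prop :=
  ∀ a b : ZMod q, a ^ 2 + a * b + (n + 1) * b ^ 2 = 0 → a = 0 ∧ b = 0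

/-- the descent step -/
theorem PIDM_descent (n q : ℕ) (hq : q.Prime) (hin : PIDM_Inert n q) (I : Ideal (OK n))
    (c : OK n) (hc : c ∈ I) (hc0 : c ≠ 0) (hmin : ∀ x ∈ I, x ≠ 0 → PIDM_nm c ≤ PIDM_nm x)
    (b : OK n) (hb : b ∈ I) (t : OK n) (h : (q : OK n) * b = t * c) : c ∣ b := by
  have hq0 : (q : ℤ) ≠ 0 := by exact_mod_cast hq.ne_zero
  have : Fact q.Prime := ⟨hq⟩
  have cancel : ∀ x y : OK n, (q : OK n) * x = (q : OK n) * y → x = y := by
    intro x y hxy
    have h1 := congrArg QuadraticAlgebra.re hxy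
    have h2 := congrArg QuadraticAlgebra.im hxy
    simp only [QuadraticAlgebra.re_mul, QuadraticAlgebra.im_mul, QuadraticAlgebra.re_natCast,
      QuadraticAlgebra.im_natCast, zero_mul, mul_zero, add_zero] at h1 h2
    apply QuadraticAlgebra.ext
    · exact mul_left_cancel₀ hq0 h1
    · exact mul_left_cancel₀ hq0 h2
  by_cases hdiv : (q : ℤ) ∣ PIDM_nm t
  · -- `q` divides `t`
    have hz : ((PIDM_nm t : ℤ) : ZMod q) = 0 := (ZMod.intCast_zmod_eq_zero_iff_dvd _ q).2 hdiv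
    have hz2 := hin (t.re : ZMod q) (t.im : ZMod q) (by
      rw [← hz]; simp only [PIDM_nm]; push_cast; ring)
    obtain ⟨t1, ht1⟩ := (ZMod.intCast_zmod_eq_zero_iff_dvd _ q).1 hz2.1
    obtain ⟨t2, ht2⟩ := (ZMod.intCast_zmod_eq_zero_iff_dvd _ q).1 hz2.2
    have ht : t = (q : OK n) * ⟨t1, t2⟩ := by
      apply QuadraticAlgebra.ext
      · simp only [QuadraticAlgebra.re_mul, QuadraticAlgebra.re_natCast,
          QuadraticAlgebra.im_natCast, zero_mul, mul_zero, add_zero]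
        exact ht1
      · simp only [QuadraticAlgebra.im_mul, QuadraticAlgebra.re_natCast,
          QuadraticAlgebra.im_natCast, zero_mul, mul_zero, add_zero]
        exact ht2
    refine ⟨⟨t1, t2⟩, ?_⟩
    apply cancel
    rw [h, ht]
    ring
  · -- `t` is invertible modulo `q`
    exfalso
    have hcop : IsCoprime (PIDM_nm t) (q : ℤ) := by
      rw [isCoprime_comm]
      exact (Nat.prime_iff_prime_int.1 hq).coprime_iff_not_dvd.2 hdiv
    obtain ⟨u, v, huv⟩ := hcop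
    -- `u * conj t * t = 1 - q v`
    set w : OK n := ((u : ℤ) : OK n) * ⟨t.re + t.im, -t.im⟩ with hw
    have hwt : w * t = 1 - (q : OK n) * ((v : ℤ) : OK n) := by
      have e : ((⟨t.re + t.im, -t.im⟩ : OK n)) * t = ((PIDM_nm t : ℤ) : OK n) := by
        apply QuadraticAlgebra.ext
        · simp only [QuadraticAlgebra.re_mul, QuadraticAlgebra.re_intCast, PIDM_nm]
          push_cast
          ring
        · simp only [QuadraticAlgebra.im_mul, QuadraticAlgebra.im_intCast]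
          ring
      rw [hw, mul_assoc, e]
      have e2 : ((u : ℤ) : OK n) * ((PIDM_nm t : ℤ) : OK n) + ((v : ℤ) : OK n) * (((q : ℤ) : ℤ) : OK n) = 1 := by
        rw [← Int.cast_mul, ← Int.cast_mul, ← Int.cast_add, huv, Int.cast_one]
      rw [← e2]
      push_cast
      ring
    set g : OK n := w * b + ((v : ℤ) : OK n) * c with hg
    have hgI : g ∈ I := I.add_mem (I.mul_mem_left _ hb) (I.mul_mem_left _ hc)
    have hqg : (q : OK n) * g = c := by
      calc (q : OK n) * g = w * ((q : OK n) * b) + (q : OK n) * ((v : ℤ) : OK n) * c := by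
            rw [hg]; ring
        _ = (w * t) * c + (q : OK n) * ((v : ℤ) : OK n) * c := by rw [h]; ring
        _ = c := by rw [hwt]; ring
    have hg0 : g ≠ 0 := by
      intro h0
      rw [h0, mul_zero] at hqg
      exact hc0 hqg.symm
    have h1 := hmin g hgI hg0
    have h2 : PIDM_nm c = (q : ℤ) ^ 2 * PIDM_nm g := by
      rw [← hqg, PIDM_nm_mul]
      have : PIDM_nm ((q : OK n)) = (q : ℤ) ^ 2 := by
        simp [PIDM_nm]
      rw [this]
    have h3 : 0 < PIDM_nm g := PIDM_nm_pos g hg0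
    have h4 : (2 : ℤ) ≤ q := by exact_mod_cast hq.two_le
    have h5 : (4 : ℤ) ≤ (q : ℤ) ^ 2 := by nlinarith
    have h6 := mul_le_mul_of_nonneg_right h5 h3.le
    linarith

theorem PIDM_main (n M : ℕ) (hM : 0 < M) (hD : 4 * n + 3 < 3 * (M + 1) ^ 2)
    (hin : ∀ q : ℕ, q.Prime → q ≤ M → PIDM_Inert n q) : IsPrincipalIdealRing (OK n) := by
  refine ⟨fun I => ?_⟩
  by_cases hI : I = ⊥
  · rw [hI]; exact ⟨0, by simp⟩
  obtain ⟨x0, hx0, hx0'⟩ := Submodule.exists_mem_ne_zero_of_ne_bot hI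
  -- an element of minimal norm
  have hex : ∃ m : ℕ, ∃ x ∈ I, x ≠ 0 ∧ (PIDM_nm x).toNat = m := ⟨_, x0, hx0, hx0', rfl⟩
  classical
  obtain ⟨c, hc, hc0, hcm⟩ := Nat.find_spec hex
  have hmin : ∀ x ∈ I, x ≠ 0 → PIDM_nm c ≤ PIDM_nm x := by
    intro x hx hx'
    have h1 := Nat.find_min' hex ⟨x, hx, hx', rfl⟩
    rw [← hcm] at h1
    have h2 := PIDM_nm_nonneg x
    have h3 := PIDM_nm_nonneg c
    omega
  have key : ∀ s : ℕ, 0 < s → s ≤ M → ∀ b ∈ I, (∃ t : OK n, (s : OK n) * b = t * c) → c ∣ b := by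
    intro s
    induction s using Nat.strong_induction_on with
    | _ s ih =>
      intro hs0 hsM b hb hst
      obtain ⟨t, ht⟩ := hst
      by_cases h1 : s = 1
      · subst h1
        exact ⟨t, by rw [Nat.cast_one, one_mul] at ht; rw [ht]; ring⟩
      · have hq := Nat.minFac_prime h1
        obtain ⟨s', hs'⟩ := Nat.minFac_dvd s
        set q := s.minFac with hqdef
        have hqM : q ≤ M := (Nat.minFac_le hs0).trans hsM
        have hs'0 : 0 < s' := by
          rcases Nat.eq_zero_or_pos s' with h | h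
          · rw [h] at hs'; omega
          · exact h
        have hs'lt : s' < s := by
          rw [hs']
          have := hq.two_le
          nlinarith
        have hb' : (s' : OK n) * b ∈ I := I.mul_mem_left _ hb
        have h2 : c ∣ (s' : OK n) * b := by
          apply PIDM_descent n q hq (hin q hq hqM) I c hc hc0 hmin _ hb' t
          rw [← ht, ← mul_assoc, ← Nat.cast_mul, ← hs']
        obtain ⟨t', ht'⟩ := h2
        exact ih s' hs'lt hs'0 (hs'lt.le.trans hsM) b hb ⟨t', by rw [ht']; ring⟩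
  refine ⟨c, ?_⟩
  apply le_antisymm
  · intro b hb
    obtain ⟨s, hs0, hsM, t, hst⟩ := PIDM_step n M hM hD b c hc0
    have hz : (s : OK n) * b - t * c = 0 := by
      by_contra hne
      have := hmin _ (I.sub_mem (I.mul_mem_left _ hb) (I.mul_mem_left _ hc)) hne
      omega
    have := key s hs0 hsM b hb ⟨t, sub_eq_zero.1 hz⟩
    exact Ideal.mem_span_singleton.2 this
  · rw [Ideal.submodule_span_eq, Ideal.span_le]
    intro x hx
    rw [Set.mem_singleton_iff.1 hx]
    exact hc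

theorem PIDM_prime_le (M q : ℕ) (hq : q.Prime) (h : q ≤ M) (hM : M ≤ 7) :
    q = 2 ∨ (q = 3 ∧ 3 ≤ M) ∨ (q = 5 ∧ 5 ≤ M) ∨ (q = 7 ∧ 7 ≤ M) := by
  have : q ≤ 7 := h.trans hM
  interval_cases q <;> first | omega | (exfalso; revert hq; decide)

theorem pidm (n : ℕ) (hn : n ∈ ({0, 1, 2, 4, 10, 16, 40} : Finset ℕ)) :
    IsPrincipalIdealRing (OK n) := by
  have hsmall : ∀ q : ℕ, q.Prime → q ≤ 1 → ∀ n, PIDM_Inert n q := by
    intro q hq h
    have := hq.two_le
    omega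
  simp only [Finset.mem_insert, Finset.mem_singleton] at hn
  rcases hn with rfl | rfl | rfl | rfl | rfl | rfl | rfl
  · exact PIDM_main 0 1 (by norm_num) (by norm_num) (fun q hq h => hsmall q hq h _)
  · exact PIDM_main 1 1 (by norm_num) (by norm_num) (fun q hq h => hsmall q hq h _)
  · exact PIDM_main 2 1 (by norm_num) (by norm_num) (fun q hq h => hsmall q hq h _)
  · refine PIDM_main 4 2 (by norm_num) (by norm_num) (fun q hq h => ?_)
    rcases PIDM_prime_le 2 q hq h (by norm_num) with rfl | ⟨rfl, h'⟩ | ⟨rfl, h'⟩ | ⟨rfl, h'⟩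
    · unfold PIDM_Inert; decide
    · omega
    · omega
    · omega
  · refine PIDM_main 10 3 (by norm_num) (by norm_num) (fun q hq h => ?_)
    rcases PIDM_prime_le 3 q hq h (by norm_num) with rfl | ⟨rfl, h'⟩ | ⟨rfl, h'⟩ | ⟨rfl, h'⟩
    · unfold PIDM_Inert; decide
    · unfold PIDM_Inert; decide
    · omega
    · omega
  · refine PIDM_main 16 4 (by norm_num) (by norm_num) (fun q hq h => ?_)
    rcases PIDM_prime_le 4 q hq h (by norm_num) with rfl | ⟨rfl, h'⟩ | ⟨rfl, h'⟩ | ⟨rfl, h'⟩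
    · unfold PIDM_Inert; decide
    · unfold PIDM_Inert; decide
    · omega
    · omega
  · refine PIDM_main 40 7 (by norm_num) (by norm_num) (fun q hq h => ?_)
    rcases PIDM_prime_le 7 q hq h (by norm_num) with rfl | ⟨rfl, h'⟩ | ⟨rfl, h'⟩ | ⟨rfl, h'⟩
    · unfold PIDM_Inert; decide
    · unfold PIDM_Inert; decide
    · unfold PIDM_Inert; decide
    · unfold PIDM_Inert; decide

end SerreK
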