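import Mathlib

/-!
# Geometry of positive definite hermitian forms: definitions

`V = ℝ⁴` with coordinates `(s, t, u, v)` is the space of hermitian matrices
`[[s, u + i v], [u - i v, t]]`; `InC v` says that the matrix is positive definite.
-/

open Complex

namespace SerreK

/-- hermitian `2 × 2` matrices -/
abbrev V := Fin 4 → ℝ

/-- positive definite -/
def InC (v : V) : Prop := 0 < v 0 ∧ v 2 ^ 2 + v 3 ^ 2 < v 0 * v 1

/-- the open cone spanned by `a, b, c` meets the open cone spanned by `p, q`. -/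
def Hit (a b c p q : V) : Prop :=
  ∃ x y z s t : ℝ, 0 < x ∧ 0 < y ∧ 0 < z ∧ 0 < s ∧ 0 < t ∧
    x • a + y • b + z • c = s • p + t • q

/-- a relation between the six vectors with two vanishing coefficients is trivial (any four of the
six vectors are linearly independent). -/
def Gen6 (a b c p q r : V) : Prop :=
  ∀ x : Fin 6 → ℝ, x 0 • a + x 1 • b + x 2 • c + x 3 • p + x 4 • q + x 5 • r = 0 →
    ∀ i j, i ≠ j → x i = 0 → x j = 0 → x = 0

open Classical in
/-- the indicator of a proposition -/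
noncomputable def ind (k : Type*) [Field k] (P : Prop) : k := if P then 1 else 0

/-- `t` is strictly between `u` and `v` -/
def btw (t u v : ℝ) : Prop := (u < t ∧ t < v) ∨ (v < t ∧ t < u)

/-- the action `H ↦ M H M*` of a complex matrix on hermitian matrices. -/
noncomputable def act (M : Matrix (Fin 2) (Fin 2) ℂ) : V →ₗ[ℝ] V where
  toFun v :=
    ![normSq (M 0 0) * v 0 + normSq (M 0 1) * v 1 +
        2 * (M 0 0 * star (M 0 1) * (v 2 + v 3 * I)).re,
      normSq (M 1 0) * v 0 + normSq (M 1 1) * v 1 +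
        2 * (M 1 0 * star (M 1 1) * (v 2 + v 3 * I)).re,
      (M 0 0 * star (M 1 0) * v 0 + M 0 1 * star (M 1 1) * v 1 +
        M 0 0 * star (M 1 1) * (v 2 + v 3 * I) + M 0 1 * star (M 1 0) * (v 2 - v 3 * I)).re,
      (M 0 0 * star (M 1 0) * v 0 + M 0 1 * star (M 1 1) * v 1 +
        M 0 0 * star (M 1 1) * (v 2 + v 3 * I) + M 0 1 * star (M 1 0) * (v 2 - v 3 * I)).im]
  map_add' v w := by
    ext i
    fin_cases i <;> simp <;> ring
  map_smul' c v := by
    ext i
    fin_cases i <;> simp <;> ring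

/-- the ring `O` is embedded by `σ` as a discrete subring of `ℂ` with integral absolute values:
the case of an imaginary quadratic order. -/
structure ImQ {O : Type} [CommRing O] (σ : O →+* ℂ) : Prop where
  inj : Function.Injective σ
  int : ∀ x : O, ∃ n : ℕ, normSq (σ x) = n
  fin : ∀ B : ℝ, {x : O | normSq (σ x) ≤ B}.Finite

/-- the matrix `U σ(g) U⁻¹` with `U = [[1, i], [1, -i]]`, which diagonalises `J = [[0,-1],[1,0]]`. -/
noncomputable def mM {O : Type} [CommRing O] (σ : O →+* ℂ) (g : Matrix (Fin 2) (Fin 2) O) :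
    Matrix (Fin 2) (Fin 2) ℂ :=
  !![(σ (g 0 0) + σ (g 1 1) + I * (σ (g 1 0) - σ (g 0 1))) / 2,
     (σ (g 0 0) - σ (g 1 1) + I * (σ (g 1 0) + σ (g 0 1))) / 2;
     (σ (g 0 0) - σ (g 1 1) - I * (σ (g 1 0) + σ (g 0 1))) / 2,
     (σ (g 0 0) + σ (g 1 1) - I * (σ (g 1 0) - σ (g 0 1))) / 2]

end SerreK
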