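import Pool.Agent.SerreK.GDefs

/-!
# ACT: the action of complex matrices on hermitian matrices
-/

open Complex

namespace SerreK

/-- the hermitian form of `v` -/
noncomputable def ACT_form (v : V) (a b : ℂ) : ℝ :=
  normSq a * v 0 + normSq b * v 1 + 2 * ((a.re * b.re + a.im * b.im) * v 2 -
    (a.im * b.re - a.re * b.im) * v 3)

/-- the determinant -/
def ACT_det (v : V) : ℝ := v 0 * v 1 - v 2 ^ 2 - v 3 ^ 2

theorem ACT_0 (M : Matrix (Fin 2) (Fin 2) ℂ) (v : V) :
    act M v 0 = ACT_form v (M 0 0) (M 0 1) := by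
  simp only [act, LinearMap.coe_mk, AddHom.coe_mk, ACT_form, Matrix.cons_val_zero]
  simp only [normSq_apply, star_def, mul_re, mul_im, conj_re, conj_im, add_re, add_im, ofReal_re,
    ofReal_im, I_re, I_im]
  ring

theorem ACT_1 (M : Matrix (Fin 2) (Fin 2) ℂ) (v : V) :
    act M v 1 = ACT_form v (M 1 0) (M 1 1) := by
  simp only [act, LinearMap.coe_mk, AddHom.coe_mk, ACT_form, Matrix.cons_val_one]
  simp only [normSq_apply, star_def, mul_re, mul_im, conj_re, conj_im, add_re, add_im, ofReal_re,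
    ofReal_im, I_re, I_im, Matrix.cons_val_zero]
  ring

theorem ACT_2 (M : Matrix (Fin 2) (Fin 2) ℂ) (v : V) :
    act M v 2 = ((M 0 0).re * (M 1 0).re + (M 0 0).im * (M 1 0).im) * v 0 +
      ((M 0 1).re * (M 1 1).re + (M 0 1).im * (M 1 1).im) * v 1 +
      (((M 0 0).re * (M 1 1).re + (M 0 0).im * (M 1 1).im) * v 2 -
        ((M 0 0).im * (M 1 1).re - (M 0 0).re * (M 1 1).im) * v 3) +
      (((M 0 1).re * (M 1 0).re + (M 0 1).im * (M 1 0).im) * v 2 +
        ((M 0 1).im * (M 1 0).re - (M 0 1).re * (M 1 0).im) * v 3) := by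
  simp [act]
  ring

theorem ACT_3 (M : Matrix (Fin 2) (Fin 2) ℂ) (v : V) :
    act M v 3 = ((M 0 0).im * (M 1 0).re - (M 0 0).re * (M 1 0).im) * v 0 +
      ((M 0 1).im * (M 1 1).re - (M 0 1).re * (M 1 1).im) * v 1 +
      (((M 0 0).im * (M 1 1).re - (M 0 0).re * (M 1 1).im) * v 2 +
        ((M 0 0).re * (M 1 1).re + (M 0 0).im * (M 1 1).im) * v 3) +
      (((M 0 1).im * (M 1 0).re - (M 0 1).re * (M 1 0).im) * v 2 -
        ((M 0 1).re * (M 1 0).re + (M 0 1).im * (M 1 0).im) * v 3) := by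
  simp [act]
  ring

/-- the hermitian matrix with coordinates `v` -/
noncomputable def ACT_hm (v : V) : Matrix (Fin 2) (Fin 2) ℂ :=
  !![(v 0 : ℂ), v 2 + v 3 * I; v 2 - v 3 * I, (v 1 : ℂ)]

theorem ACT_hm_inj {v w : V} (h : ACT_hm v = ACT_hm w) : v = w := by
  have h0 := congrFun (congrFun h 0) 0
  have h1 := congrFun (congrFun h 1) 1
  have h2 := congrFun (congrFun h 0) 1
  simp only [ACT_hm, Matrix.of_apply, Matrix.cons_val', Matrix.cons_val_zero,
    Matrix.cons_val_one, Matrix.cons_val_fin_one] at h0 h1 h2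
  have h3 := congrArg re h2
  have h4 := congrArg im h2
  simp only [add_re, add_im, mul_re, mul_im, ofReal_re, ofReal_im, I_re, I_im, mul_zero,
    mul_one, sub_zero, add_zero, zero_add] at h3 h4
  funext i
  fin_cases i
  · exact ofReal_injective h0
  · exact ofReal_injective h1
  · exact h3
  · exact h4

theorem ACT_hm_act (M : Matrix (Fin 2) (Fin 2) ℂ) (v : V) :
    ACT_hm (act M v) = M * ACT_hm v * M.conjTranspose := by
  have e0 : act M v 0 = normSq (M 0 0) * v 0 + normSq (M 0 1) * v 1 +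
        2 * (M 0 0 * star (M 0 1) * (v 2 + v 3 * I)).re := rfl
  have e1 : act M v 1 = normSq (M 1 0) * v 0 + normSq (M 1 1) * v 1 +
        2 * (M 1 0 * star (M 1 1) * (v 2 + v 3 * I)).re := rfl
  have e2 : act M v 2 = (M 0 0 * star (M 1 0) * v 0 + M 0 1 * star (M 1 1) * v 1 +
        M 0 0 * star (M 1 1) * (v 2 + v 3 * I) + M 0 1 * star (M 1 0) * (v 2 - v 3 * I)).re := rfl
  have e3 : act M v 3 = (M 0 0 * star (M 1 0) * v 0 + M 0 1 * star (M 1 1) * v 1 +
        M 0 0 * star (M 1 1) * (v 2 + v 3 * I) + M 0 1 * star (M 1 0) * (v 2 - v 3 * I)).im := rfl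
  have hc : ∀ z : ℂ, ((z.re : ℝ) : ℂ) + (z.im : ℝ) * I = z := re_add_im
  have hc' : ∀ z : ℂ, ((z.re : ℝ) : ℂ) - (z.im : ℝ) * I = star z := by
    intro z
    apply Complex.ext <;> simp
  have h2 : ∀ z : ℂ, ((2 * z.re : ℝ) : ℂ) = z + star z := by
    intro z
    apply Complex.ext
    · simp
      ring
    · simp
  have hn : ∀ z : ℂ, ((normSq z : ℝ) : ℂ) = z * star z := by
    intro z
    rw [star_def, mul_conj]
  have hI : star I = -I := conj_I
  have hr : ∀ r : ℝ, star (r : ℂ) = r := conj_ofReal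
  apply Matrix.ext
  intro i j
  fin_cases i <;> fin_cases j
  · change ((act M v 0 : ℝ) : ℂ) = (M * ACT_hm v * M.conjTranspose) 0 0
    rw [e0]
    simp only [Matrix.mul_apply, Fin.sum_univ_two, Matrix.conjTranspose_apply, ACT_hm,
      Matrix.of_apply, Matrix.cons_val', Matrix.cons_val_zero, Matrix.cons_val_one,
      Matrix.cons_val_fin_one]
    rw [ofReal_add, h2]
    push_cast
    rw [hn, hn]
    simp only [star_mul', star_add, star_star, hI, hr]
    ring
  · change ((act M v 2 : ℝ) : ℂ) + (act M v 3 : ℝ) * I = (M * ACT_hm v * M.conjTranspose) 0 1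
    rw [e2, e3, hc]
    simp only [Matrix.mul_apply, Fin.sum_univ_two, Matrix.conjTranspose_apply, ACT_hm,
      Matrix.of_apply, Matrix.cons_val', Matrix.cons_val_zero, Matrix.cons_val_one,
      Matrix.cons_val_fin_one]
    ring
  · change ((act M v 2 : ℝ) : ℂ) - (act M v 3 : ℝ) * I = (M * ACT_hm v * M.conjTranspose) 1 0
    rw [e2, e3, hc']
    simp only [Matrix.mul_apply, Fin.sum_univ_two, Matrix.conjTranspose_apply, ACT_hm,
      Matrix.of_apply, Matrix.cons_val', Matrix.cons_val_zero, Matrix.cons_val_one,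
      Matrix.cons_val_fin_one]
    simp only [star_mul', star_add, star_sub, star_star, hI, hr]
    ring
  · change ((act M v 1 : ℝ) : ℂ) = (M * ACT_hm v * M.conjTranspose) 1 1
    rw [e1]
    simp only [Matrix.mul_apply, Fin.sum_univ_two, Matrix.conjTranspose_apply, ACT_hm,
      Matrix.of_apply, Matrix.cons_val', Matrix.cons_val_zero, Matrix.cons_val_one,
      Matrix.cons_val_fin_one]
    rw [ofReal_add, h2]
    push_cast
    rw [hn, hn]
    simp only [star_mul', star_add, star_star, hI, hr]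
    ring

theorem ACT_hm_det (v : V) : (ACT_hm v).det = ((ACT_det v : ℝ) : ℂ) := by
  rw [Matrix.det_fin_two]
  simp only [ACT_hm, Matrix.of_apply, Matrix.cons_val', Matrix.cons_val_zero, Matrix.cons_val_one,
    Matrix.cons_val_fin_one, ACT_det]
  push_cast
  linear_combination (v 3 : ℂ) ^ 2 * I_mul_I

theorem ACT_detM (M : Matrix (Fin 2) (Fin 2) ℂ) (v : V) :
    ACT_det (act M v) = normSq M.det * ACT_det v := by
  apply ofReal_injective
  rw [← ACT_hm_det, ACT_hm_act, Matrix.det_mul, Matrix.det_mul, Matrix.det_conjTranspose,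
    ACT_hm_det, ofReal_mul, ← mul_conj, star_def]
  ring

theorem act_mul (M N : Matrix (Fin 2) (Fin 2) ℂ) : act (M * N) = act M * act N := by
  apply LinearMap.ext
  intro v
  change act (M * N) v = act M (act N v)
  apply ACT_hm_inj
  rw [ACT_hm_act, ACT_hm_act, ACT_hm_act, Matrix.conjTranspose_mul]
  simp only [Matrix.mul_assoc]

theorem act_one : act 1 = 1 := by
  apply LinearMap.ext
  intro v
  funext i
  change act 1 v i = v i
  fin_cases i
  · change act 1 v 0 = v 0
    rw [ACT_0]; simp [ACT_form]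
  · change act 1 v 1 = v 1
    rw [ACT_1]; simp [ACT_form]
  · change act 1 v 2 = v 2
    rw [ACT_2]; simp
  · change act 1 v 3 = v 3
    rw [ACT_3]; simp

/-- scalar matrices of modulus one act trivially. -/
theorem act_scalar (u : ℂ) (hu : normSq u = 1) (M : Matrix (Fin 2) (Fin 2) ℂ) :
    act (u • M) = act M := by
  rw [normSq_apply] at hu
  apply LinearMap.ext
  intro v
  funext i
  fin_cases i
  · change act (u • M) v 0 = act M v 0
    rw [ACT_0, ACT_0]
    simp only [ACT_form, normSq_apply, Matrix.smul_apply, smul_eq_mul, mul_re, mul_im]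
    linear_combination (((M 0 0).re * (M 0 0).re + (M 0 0).im * (M 0 0).im) * v 0 +
      ((M 0 1).re * (M 0 1).re + (M 0 1).im * (M 0 1).im) * v 1 +
      2 * (((M 0 0).re * (M 0 1).re + (M 0 0).im * (M 0 1).im) * v 2 -
      ((M 0 0).im * (M 0 1).re - (M 0 0).re * (M 0 1).im) * v 3)) * hu
  · change act (u • M) v 1 = act M v 1
    rw [ACT_1, ACT_1]
    simp only [ACT_form, normSq_apply, Matrix.smul_apply, smul_eq_mul, mul_re, mul_im]
    linear_combination (((M 1 0).re * (M 1 0).re + (M 1 0).im * (M 1 0).im) * v 0 +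
      ((M 1 1).re * (M 1 1).re + (M 1 1).im * (M 1 1).im) * v 1 +
      2 * (((M 1 0).re * (M 1 1).re + (M 1 0).im * (M 1 1).im) * v 2 -
      ((M 1 0).im * (M 1 1).re - (M 1 0).re * (M 1 1).im) * v 3)) * hu
  · change act (u • M) v 2 = act M v 2
    rw [ACT_2 (u • M)]
    simp only [Matrix.smul_apply, smul_eq_mul, mul_re, mul_im]
    rw [ACT_2]
    linear_combination (((M 0 0).re * (M 1 0).re + (M 0 0).im * (M 1 0).im) * v 0 +
      ((M 0 1).re * (M 1 1).re + (M 0 1).im * (M 1 1).im) * v 1 +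
      (((M 0 0).re * (M 1 1).re + (M 0 0).im * (M 1 1).im) * v 2 -
        ((M 0 0).im * (M 1 1).re - (M 0 0).re * (M 1 1).im) * v 3) +
      (((M 0 1).re * (M 1 0).re + (M 0 1).im * (M 1 0).im) * v 2 +
        ((M 0 1).im * (M 1 0).re - (M 0 1).re * (M 1 0).im) * v 3)) * hu
  · change act (u • M) v 3 = act M v 3
    rw [ACT_3 (u • M)]
    simp only [Matrix.smul_apply, smul_eq_mul, mul_re, mul_im]
    rw [ACT_3]
    linear_combination (((M 0 0).im * (M 1 0).re - (M 0 0).re * (M 1 0).im) * v 0 +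
      ((M 0 1).im * (M 1 1).re - (M 0 1).re * (M 1 1).im) * v 1 +
      (((M 0 0).im * (M 1 1).re - (M 0 0).re * (M 1 1).im) * v 2 +
        ((M 0 0).re * (M 1 1).re + (M 0 0).im * (M 1 1).im) * v 3) +
      (((M 0 1).im * (M 1 0).re - (M 0 1).re * (M 1 0).im) * v 2 -
        ((M 0 1).re * (M 1 0).re + (M 0 1).im * (M 1 0).im) * v 3)) * hu

theorem ACT_form_mul (v : V) (a b : ℂ) : v 0 * ACT_form v a b =
    ((a.re * v 0 + b.re * v 2 + b.im * v 3) ^ 2 + (a.im * v 0 + b.im * v 2 - b.re * v 3) ^ 2) +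
      normSq b * ACT_det v := by
  simp only [ACT_form, ACT_det, normSq_apply]
  ring

theorem ACT_form_pos (v : V) (hv : InC v) (a b : ℂ) (h : ¬ (a = 0 ∧ b = 0)) :
    0 < ACT_form v a b := by
  obtain ⟨h0, h1⟩ := hv
  have hd : 0 < ACT_det v := by unfold ACT_det; linarith
  have key := ACT_form_mul v a b
  by_cases hb : b = 0
  · have ha : a ≠ 0 := fun h' => h ⟨h', hb⟩
    subst hb
    have : ACT_form v a 0 = normSq a * v 0 := by simp [ACT_form]
    rw [this]
    exact mul_pos (normSq_pos.2 ha) h0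
  · have hb' : 0 < normSq b := normSq_pos.2 hb
    have : 0 < v 0 * ACT_form v a b := by
      rw [key]
      have := mul_pos hb' hd
      positivity
    exact (mul_pos_iff_of_pos_left h0).1 this

/-- positive definite matrices are preserved. -/
theorem act_inC (M : Matrix (Fin 2) (Fin 2) ℂ) (hM : M.det ≠ 0) (v : V) (hv : InC v) :
    InC (act M v) := by
  have hd : 0 < ACT_det v := by unfold ACT_det; linarith [hv.2]
  refine ⟨?_, ?_⟩
  · rw [ACT_0]
    apply ACT_form_pos v hv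
    rintro ⟨h0, h1⟩
    apply hM
    rw [Matrix.det_fin_two, h0, h1]
    ring
  · have h := ACT_detM M v
    have h2 : 0 < normSq M.det * ACT_det v := mul_pos (normSq_pos.2 hM) hd
    rw [← h] at h2
    unfold ACT_det at h2
    linarith

/-- a diagonal matrix multiplies the first two coordinates by `|w1|²`, `|w2|²`. -/
theorem act_diag (w1 w2 : ℂ) (v : V) :
    act !![w1, 0; 0, w2] v 0 = normSq w1 * v 0 ∧ act !![w1, 0; 0, w2] v 1 = normSq w2 * v 1 := by
  rw [ACT_0, ACT_1]
  constructor <;> simp [ACT_form]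

theorem act_J (v : V) : act !![I, 0; 0, -I] v = ![v 0, v 1, -v 2, -v 3] := by
  funext i
  fin_cases i
  · change act !![I, 0; 0, -I] v 0 = v 0
    rw [ACT_0]; simp [ACT_form]
  · change act !![I, 0; 0, -I] v 1 = v 1
    rw [ACT_1]; simp [ACT_form]
  · change act !![I, 0; 0, -I] v 2 = -v 2
    rw [ACT_2]; simp
  · change act !![I, 0; 0, -I] v 3 = -v 3
    rw [ACT_3]; simp

theorem ACT_lower (v : V) (hv : InC v) :
    ∃ m : ℝ, 0 < m ∧ ∀ a b : ℂ, m * (normSq a + normSq b) ≤ ACT_form v a b := by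
  obtain ⟨h0, h1⟩ := hv
  have hz : 0 ≤ v 2 ^ 2 + v 3 ^ 2 := by positivity
  have h1' : 0 < v 1 := by
    have : 0 < v 0 * v 1 := lt_of_le_of_lt hz h1
    exact (mul_pos_iff_of_pos_left h0).1 this
  have hs : 0 < v 0 + v 1 := by linarith
  have hd : 0 < ACT_det v := by unfold ACT_det; linarith
  set m : ℝ := ACT_det v / (v 0 + v 1) with hm
  have hmp : 0 < m := div_pos hd hs
  have hms : m * (v 0 + v 1) = ACT_det v := div_mul_cancel₀ _ hs.ne'
  have hm0 : m < v 0 := by
    rw [hm, div_lt_iff₀ hs]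
    unfold ACT_det
    nlinarith [mul_pos h0 h0]
  refine ⟨m, hmp, fun a b => ?_⟩
  have key := ACT_form_mul ![v 0 - m, v 1 - m, v 2, v 3] a b
  have e1 : ACT_form ![v 0 - m, v 1 - m, v 2, v 3] a b =
      ACT_form v a b - m * (normSq a + normSq b) := by
    simp only [ACT_form, Matrix.cons_val_zero, Matrix.cons_val_one, Matrix.cons_val]
    ring
  have e2 : ACT_det ![v 0 - m, v 1 - m, v 2, v 3] = m ^ 2 := by
    have : ACT_det ![v 0 - m, v 1 - m, v 2, v 3] = ACT_det v - m * (v 0 + v 1) + m ^ 2 := by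
      simp only [ACT_det, Matrix.cons_val_zero, Matrix.cons_val_one, Matrix.cons_val]
      ring
    rw [this, hms]; ring
  rw [e1, e2] at key
  have e3 : ![v 0 - m, v 1 - m, v 2, v 3] 0 = v 0 - m := rfl
  rw [e3] at key
  have h3 : 0 ≤ (v 0 - m) * (ACT_form v a b - m * (normSq a + normSq b)) := by
    rw [key]
    have := normSq_nonneg b
    positivity
  have h4 : 0 < v 0 - m := by linarith
  have h5 : 0 ≤ ACT_form v a b - m * (normSq a + normSq b) := by
    by_contra hneg
    push Not at hneg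
    have := mul_neg_of_pos_of_neg h4 hneg
    linarith
  linarith

theorem ACT_mixed (p q : V) (hp : InC p) (hq : InC q) :
    0 ≤ p 0 * q 1 + p 1 * q 0 - 2 * (p 2 * q 2 + p 3 * q 3) := by
  obtain ⟨hp0, hp1⟩ := hp
  obtain ⟨hq0, hq1⟩ := hq
  have hzp : 0 ≤ p 2 ^ 2 + p 3 ^ 2 := by positivity
  have hzq : 0 ≤ q 2 ^ 2 + q 3 ^ 2 := by positivity
  have hp1' : 0 < p 1 := by
    have : 0 < p 0 * p 1 := lt_of_le_of_lt hzp hp1
    exact (mul_pos_iff_of_pos_left hp0).1 this
  have hq1' : 0 < q 1 := by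
    have : 0 < q 0 * q 1 := lt_of_le_of_lt hzq hq1
    exact (mul_pos_iff_of_pos_left hq0).1 this
  have hs : 0 ≤ p 0 * q 1 + p 1 * q 0 := by positivity
  have key : (2 * (p 2 * q 2 + p 3 * q 3)) ^ 2 ≤ (p 0 * q 1 + p 1 * q 0) ^ 2 := by
    have e1 : (p 2 * q 2 + p 3 * q 3) ^ 2 ≤ (p 2 ^ 2 + p 3 ^ 2) * (q 2 ^ 2 + q 3 ^ 2) := by
      nlinarith [sq_nonneg (p 2 * q 3 - p 3 * q 2)]
    have e2 : (p 2 ^ 2 + p 3 ^ 2) * (q 2 ^ 2 + q 3 ^ 2) ≤ (p 0 * p 1) * (q 0 * q 1) :=
      mul_le_mul hp1.le hq1.le hzq (by positivity)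
    nlinarith [sq_nonneg (p 0 * q 1 - p 1 * q 0)]
  have := abs_le_of_sq_le_sq' key hs
  linarith [this.2]

theorem ACT_form_add (v w : V) (x y : ℝ) (a b : ℂ) :
    ACT_form (x • v + y • w) a b = x * ACT_form v a b + y * ACT_form w a b := by
  simp only [ACT_form, Pi.add_apply, Pi.smul_apply, smul_eq_mul]
  ring

/-- Properness.  For positive definite `a, b, c, p, q` the matrices `M` with `|det M| = 1` such that
the open cone on `Ma, Mb, Mc` meets the open cone on `p, q` are bounded. -/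
theorem act_proper (a b c p q : V) (ha : InC a) (hb : InC b) (hc : InC c) (hp : InC p)
    (hq : InC q) :
    ∃ K : ℝ, ∀ M : Matrix (Fin 2) (Fin 2) ℂ, normSq M.det = 1 →
      Hit (act M a) (act M b) (act M c) p q → ∀ i j, normSq (M i j) ≤ K := by
  obtain ⟨ma, hma, fa⟩ := ACT_lower a ha
  obtain ⟨mb, hmb, fb⟩ := ACT_lower b hb
  obtain ⟨mc, hmc, fc⟩ := ACT_lower c hc
  set m := min ma (min mb mc) with hmdef
  have hm : 0 < m := lt_min hma (lt_min hmb hmc)
  have hm1 : m ≤ ma := min_le_left _ _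
  have hm2 : m ≤ mb := (min_le_right _ _).trans (min_le_left _ _)
  have hm3 : m ≤ mc := (min_le_right _ _).trans (min_le_right _ _)
  have hdp : 0 < ACT_det p := by unfold ACT_det; linarith [hp.2]
  have hdq : 0 < ACT_det q := by unfold ACT_det; linarith [hq.2]
  set d := min (ACT_det p) (ACT_det q) with hddef
  have hd : 0 < d := lt_min hdp hdq
  have pos1 : ∀ v : V, InC v → 0 < v 0 ∧ 0 < v 1 := by
    intro v hv
    refine ⟨hv.1, ?_⟩
    have hz : 0 ≤ v 2 ^ 2 + v 3 ^ 2 := by positivity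
    exact (mul_pos_iff_of_pos_left hv.1).1 (lt_of_le_of_lt hz hv.2)
  obtain ⟨a0, a1⟩ := pos1 a ha
  obtain ⟨b0, b1⟩ := pos1 b hb
  obtain ⟨c0, c1⟩ := pos1 c hc
  obtain ⟨p0, p1⟩ := pos1 p hp
  obtain ⟨q0, q1⟩ := pos1 q hq
  set k := a 0 + a 1 + b 0 + b 1 + c 0 + c 1 with hk
  set l := p 0 + p 1 + q 0 + q 1 with hl
  have hkp : 0 < k := by rw [hk]; linarith
  have hlp : 0 < l := by rw [hl]; linarith
  refine ⟨(l / m) ^ 2 * (2 * k ^ 2 / d) + 1, fun M hM hit => ?_⟩
  obtain ⟨x, y, z, s, t, hx, hy, hz, hs, ht, heq⟩ := hit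
  set X : V := x • a + y • b + z • c with hX
  set Y : V := s • p + t • q with hY
  have hXY : act M X = Y := by
    rw [hX, map_add, map_add, map_smul, map_smul, map_smul]
    exact heq
  set S := x + y + z with hS
  set T := s + t with hT
  have hSp : 0 < S := by rw [hS]; linarith
  have hTp : 0 < T := by rw [hT]; linarith
  -- lower bound of the form of `X`
  have hformX : ∀ u w : ℂ, m * S * (normSq u + normSq w) ≤ ACT_form X u w := by
    intro u w
    have e : ACT_form X u w = x * ACT_form a u w + y * ACT_form b u w + z * ACT_form c u w := by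
      rw [hX]
      simp only [ACT_form, Pi.add_apply, Pi.smul_apply, smul_eq_mul]
      ring
    rw [e]
    have hn : 0 ≤ normSq u + normSq w := add_nonneg (normSq_nonneg _) (normSq_nonneg _)
    have i1 : m * (normSq u + normSq w) ≤ ACT_form a u w :=
      (mul_le_mul_of_nonneg_right hm1 hn).trans (fa u w)
    have i2 : m * (normSq u + normSq w) ≤ ACT_form b u w :=
      (mul_le_mul_of_nonneg_right hm2 hn).trans (fb u w)
    have i3 : m * (normSq u + normSq w) ≤ ACT_form c u w :=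
      (mul_le_mul_of_nonneg_right hm3 hn).trans (fc u w)
    have j1 := mul_le_mul_of_nonneg_left i1 hx.le
    have j2 := mul_le_mul_of_nonneg_left i2 hy.le
    have j3 := mul_le_mul_of_nonneg_left i3 hz.le
    have : m * S * (normSq u + normSq w) = x * (m * (normSq u + normSq w)) +
        y * (m * (normSq u + normSq w)) + z * (m * (normSq u + normSq w)) := by
      rw [hS]; ring
    rw [this]
    linarith
  -- determinants
  have hdet : ACT_det Y = ACT_det X := by
    rw [← hXY, ACT_detM, hM, one_mul]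
  have hdetY : d * T ^ 2 / 2 ≤ ACT_det Y := by
    have e : ACT_det Y = s ^ 2 * ACT_det p + t ^ 2 * ACT_det q +
        s * t * (p 0 * q 1 + p 1 * q 0 - 2 * (p 2 * q 2 + p 3 * q 3)) := by
      rw [hY]
      simp only [ACT_det, Pi.add_apply, Pi.smul_apply, smul_eq_mul]
      ring
    rw [e]
    have h1 := mul_nonneg (mul_nonneg hs.le ht.le) (ACT_mixed p q hp hq)
    have h2 : s ^ 2 * d ≤ s ^ 2 * ACT_det p :=
      mul_le_mul_of_nonneg_left (min_le_left _ _) (sq_nonneg _)
    have h3 : t ^ 2 * d ≤ t ^ 2 * ACT_det q :=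
      mul_le_mul_of_nonneg_left (min_le_right _ _) (sq_nonneg _)
    have h4 : d * T ^ 2 / 2 ≤ s ^ 2 * d + t ^ 2 * d := by
      have e4 : s ^ 2 * d + t ^ 2 * d = d * T ^ 2 / 2 + d * (s - t) ^ 2 / 2 := by
        rw [hT]; ring
      rw [e4]
      exact le_add_of_nonneg_right (by positivity)
    linarith only [h1, h2, h3, h4]
  have hX0 : X 0 ≤ k * S ∧ 0 ≤ X 0 := by
    have e : X 0 = x * a 0 + y * b 0 + z * c 0 := by
      rw [hX]; simp
    rw [e, hk, hS]
    constructor
    · have h : 0 ≤ x * (a 1 + b 0 + b 1 + c 0 + c 1) + y * (a 0 + a 1 + b 1 + c 0 + c 1) +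
        z * (a 0 + a 1 + b 0 + b 1 + c 1) := by positivity
      linarith
    · positivity
  have hX1 : X 1 ≤ k * S ∧ 0 ≤ X 1 := by
    have e : X 1 = x * a 1 + y * b 1 + z * c 1 := by
      rw [hX]; simp
    rw [e, hk, hS]
    constructor
    · have h : 0 ≤ x * (a 0 + b 0 + b 1 + c 0 + c 1) + y * (a 0 + a 1 + b 0 + c 0 + c 1) +
        z * (a 0 + a 1 + b 0 + b 1 + c 0) := by positivity
      linarith
    · positivity
  have hdetX : ACT_det X ≤ (k * S) ^ 2 := by
    have h1 : X 0 * X 1 ≤ (k * S) * (k * S) :=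
      mul_le_mul hX0.1 hX1.1 hX1.2 (by positivity)
    have h2 := sq_nonneg (X 2)
    have h3 := sq_nonneg (X 3)
    have h4 : (k * S) * (k * S) = (k * S) ^ 2 := by ring
    unfold ACT_det
    linarith only [h1, h2, h3, h4]
  have hY0 : Y 0 ≤ l * T := by
    have e : Y 0 = s * p 0 + t * q 0 := by
      rw [hY]; simp
    rw [e, hl, hT]
    have h : 0 ≤ s * (p 1 + q 0 + q 1) + t * (p 0 + p 1 + q 1) := by positivity
    linarith
  have hY1 : Y 1 ≤ l * T := by
    have e : Y 1 = s * p 1 + t * q 1 := by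
      rw [hY]; simp
    rw [e, hl, hT]
    have h : 0 ≤ s * (p 0 + q 0 + q 1) + t * (p 0 + p 1 + q 0) := by positivity
    linarith
  have hTS : T ^ 2 ≤ 2 * k ^ 2 / d * S ^ 2 := by
    have h1 : d * T ^ 2 / 2 ≤ (k * S) ^ 2 := by
      calc d * T ^ 2 / 2 ≤ ACT_det Y := hdetY
        _ = ACT_det X := hdet
        _ ≤ (k * S) ^ 2 := hdetX
    rw [div_mul_eq_mul_div, le_div_iff₀ hd]
    have h2 : (k * S) ^ 2 = k ^ 2 * S ^ 2 := by ring
    rw [h2] at h1
    linarith
  have row : ∀ w : ℝ, 0 ≤ w → m * S * w ≤ l * T → w ≤ (l / m) ^ 2 * (2 * k ^ 2 / d) + 1 := by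
    intro w hw h
    have h1 : w ^ 2 * S ^ 2 ≤ (l / m) ^ 2 * T ^ 2 := by
      have h2 : S * w ≤ l / m * T := by
        rw [div_mul_eq_mul_div, le_div_iff₀ hm]
        linarith
      have h3 : (S * w) ^ 2 ≤ (l / m * T) ^ 2 := by
        apply pow_le_pow_left₀ (by positivity) h2
      calc w ^ 2 * S ^ 2 = (S * w) ^ 2 := by ring
        _ ≤ (l / m * T) ^ 2 := h3
        _ = (l / m) ^ 2 * T ^ 2 := by ring
    have h2 : w ^ 2 * S ^ 2 ≤ ((l / m) ^ 2 * (2 * k ^ 2 / d)) * S ^ 2 := by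
      calc w ^ 2 * S ^ 2 ≤ (l / m) ^ 2 * T ^ 2 := h1
        _ ≤ (l / m) ^ 2 * (2 * k ^ 2 / d * S ^ 2) :=
            mul_le_mul_of_nonneg_left hTS (sq_nonneg _)
        _ = ((l / m) ^ 2 * (2 * k ^ 2 / d)) * S ^ 2 := by ring
    have h3 : w ^ 2 ≤ (l / m) ^ 2 * (2 * k ^ 2 / d) :=
      le_of_mul_le_mul_right h2 (by positivity)
    have h4 : 0 ≤ (l / m) ^ 2 * (2 * k ^ 2 / d) := by positivity
    have h5 : 0 ≤ w ^ 2 - 2 * w + 1 := by
      have e5 : w ^ 2 - 2 * w + 1 = (w - 1) ^ 2 := by ring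
      rw [e5]
      exact sq_nonneg _
    linarith only [h3, h4, h5]
  have r0 : normSq (M 0 0) + normSq (M 0 1) ≤ (l / m) ^ 2 * (2 * k ^ 2 / d) + 1 := by
    apply row _ (add_nonneg (normSq_nonneg _) (normSq_nonneg _))
    calc m * S * (normSq (M 0 0) + normSq (M 0 1)) ≤ ACT_form X (M 0 0) (M 0 1) := hformX _ _
      _ = Y 0 := by rw [← hXY, ACT_0]
      _ ≤ l * T := hY0
  have r1 : normSq (M 1 0) + normSq (M 1 1) ≤ (l / m) ^ 2 * (2 * k ^ 2 / d) + 1 := by
    apply row _ (add_nonneg (normSq_nonneg _) (normSq_nonneg _))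
    calc m * S * (normSq (M 1 0) + normSq (M 1 1)) ≤ ACT_form X (M 1 0) (M 1 1) := hformX _ _
      _ = Y 1 := by rw [← hXY, ACT_1]
      _ ≤ l * T := hY1
  intro i j
  have n00 := normSq_nonneg (M 0 0)
  have n01 := normSq_nonneg (M 0 1)
  have n10 := normSq_nonneg (M 1 0)
  have n11 := normSq_nonneg (M 1 1)
  fin_cases i <;> fin_cases j
  · change normSq (M 0 0) ≤ _
    linarith
  · change normSq (M 0 1) ≤ _
    linarith
  · change normSq (M 1 0) ≤ _
    linarith
  · change normSq (M 1 1) ≤ _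
    linarith

end SerreK
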