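import Pool.Agent.Serre.HFORM

/-!
# Statement-level definitions, for a general ring of integers `O`
(types are kept as named definitions so that statements stay short)
-/

open Matrix

namespace SerreK

open SerreE

/-- `𝔽̄₂` -/
abbrev FF := AlgebraicClosure (ZMod 2)

/-- all quotients of `O` by non-zero principal ideals are finite. -/
class FinQuot (O : Type) [CommRing O] : Prop where
  fin : ∀ f : O, f ≠ 0 → Finite (O ⧸ Ideal.span {f})

section group

variable (O : Type) [CommRing O]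

/-- `GL₂(O)` -/
def GE : Type := GL (Fin 2) O

instance : Group (GE O) := (inferInstance : Group (GL (Fin 2) O))

variable {O}

/-- the entries of a matrix -/
def ent (g : GE O) (i j : Fin 2) : O := Units.val (α := Matrix (Fin 2) (Fin 2) O) g i j

theorem Gam_mul (N : O) {a b : GE O} (ha : N ∣ ent a 1 0) (hb : N ∣ ent b 1 0) :
    N ∣ ent (a * b) 1 0 := (SerreE.Gam0 N).mul_mem' ha hb

theorem Gam_one (N : O) : N ∣ ent 1 1 0 := (SerreE.Gam0 N).one_mem'

theorem Gam_inv (N : O) {a : GE O} (ha : N ∣ ent a 1 0) : N ∣ ent a⁻¹ 1 0 :=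
  (SerreE.Gam0 N).inv_mem' ha

/-- `Γ₀(N)` -/
def Gam (N : O) : Subgroup (GE O) where
  carrier := {g | N ∣ ent g 1 0}
  mul_mem' := @Gam_mul O _ N
  one_mem' := Gam_one N
  inv_mem' := @Gam_inv O _ N

/-- `Γ₀(N)`, as a type -/
def G (N : O) : Type := Gam N

instance (N : O) : Group (G N) := (inferInstance : Group (Gam N))

/-- the entries of an element of `Γ₀(N)` -/
def en {N : O} (g : G N) (i j : Fin 2) : O := ent (Subtype.val (p := fun x => x ∈ Gam N) g) i j

/-- `x` is a homomorphism `Γ₀(N) → 𝔽̄₂` which vanishes on all elements of finite order. -/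
def IsCls (N : O) (x : G N → FF) : Prop :=
  (∀ a b, x (a * b) = x a + x b) ∧ ∀ g, IsOfFinOrder g → x g = 0

theorem cls_add (N : O) {x y : G N → FF} (hx : IsCls N x) (hy : IsCls N y) : IsCls N (x + y) := by
  obtain ⟨h1, h2⟩ := hx
  obtain ⟨h3, h4⟩ := hy
  refine ⟨fun a b => ?_, fun g hg => ?_⟩
  · change x (a * b) + y (a * b) = (x a + y a) + (x b + y b)
    rw [h1, h3]; ring
  · change x g + y g = 0
    rw [h2 g hg, h4 g hg, add_zero]

theorem cls_zero (N : O) : IsCls N 0 := ⟨fun _ _ => (add_zero _).symm, fun _ _ => rfl⟩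

theorem cls_smul (N : O) (c : FF) {x : G N → FF} (hx : IsCls N x) : IsCls N (c • x) := by
  obtain ⟨h1, h2⟩ := hx
  refine ⟨fun a b => ?_, fun g hg => ?_⟩
  · change c * x (a * b) = c * x a + c * x b
    rw [h1]; ring
  · change c * x g = 0
    rw [h2 g hg, mul_zero]

/-- `H¹(Y₀(N), 𝔽̄₂)` for the quotient space `Y₀(N) = Γ₀(N) \ ℍ₃`: the homomorphisms
`Γ₀(N) → 𝔽̄₂` which vanish on all elements of finite order. -/
def H (N : O) : Submodule FF (G N → FF) where
  carrier := {x | IsCls N x}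
  add_mem' := @cls_add O _ N
  zero_mem' := cls_zero N
  smul_mem' := @cls_smul O _ N

/-- `H¹(Y₀(N), 𝔽̄₂)`, as a type -/
def HY (N : O) : Type := H N

noncomputable instance (N : O) : AddCommGroup (HY N) := (inferInstance : AddCommGroup (H N))
noncomputable instance (N : O) : Module FF (HY N) := (inferInstance : Module FF (H N))

/-- the values of a class -/
def HY.val {N : O} (h : HY N) : G N → FF := Subtype.val (p := fun x => x ∈ H N) h

theorem HY.mul {N : O} (h : HY N) (a b : G N) : h.val (a * b) = h.val a + h.val b :=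
  (Subtype.prop (p := fun x => x ∈ H N) h).1 a b

theorem HY.fin {N : O} (h : HY N) (g : G N) (hg : IsOfFinOrder g) : h.val g = 0 :=
  (Subtype.prop (p := fun x => x ∈ H N) h).2 g hg

/-- the values of a class, in multiplicative notation -/
noncomputable def HY.homFun {N : O} (h : HY N) (g : G N) : Multiplicative FF :=
  Multiplicative.ofAdd (h.val g)

theorem HY.homFun_mul {N : O} (h : HY N) (a b : G N) :
    h.homFun (a * b) = h.homFun a * h.homFun b := congrArg Multiplicative.ofAdd (h.mul a b)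

/-- a class as a homomorphism -/
noncomputable def HY.hom {N : O} (h : HY N) : G N →* Multiplicative FF :=
  MonoidHom.mk' h.homFun h.homFun_mul

theorem Hsub_mul (N π : O) {a b : G N} (ha : π ∣ en a 0 1) (hb : π ∣ en b 0 1) :
    π ∣ en (a * b) 0 1 := (SerreE.GamUp π).mul_mem' (a := a.val) (b := b.val) ha hb

theorem Hsub_one (N π : O) : π ∣ en (N := N) 1 0 1 := (SerreE.GamUp π).one_mem'

theorem Hsub_inv (N π : O) {a : G N} (ha : π ∣ en a 0 1) : π ∣ en a⁻¹ 0 1 :=
  (SerreE.GamUp π).inv_mem' (x := a.val) ha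

/-- `Γ₀(N) ∩ Γ⁰(π)` -/
def Hsub (N π : O) : Subgroup (G N) where
  carrier := {g | π ∣ en g 0 1}
  mul_mem' := @Hsub_mul O _ N π
  one_mem' := Hsub_one N π
  inv_mem' := @Hsub_inv O _ N π

/-- `diag(1, π) g = g' diag(1, π)` -/
def Conj (π : O) {N : O} (g g' : G N) : Prop :=
  en g' 0 0 = en g 0 0 ∧ en g 0 1 = π * en g' 0 1 ∧ en g' 1 0 = π * en g 1 0 ∧ en g' 1 1 = en g 1 1

end group

section hecke

variable {O : Type} [CommRing O] [IsDomain O]

theorem Conj.unique {π : O} (hπ : π ≠ 0) {N : O} {g g' g'' : G N} (h : Conj π g g')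
    (h' : Conj π g g'') : g' = g'' := by
  apply Subtype.ext
  apply Matrix.GeneralLinearGroup.ext
  intro i j
  fin_cases i <;> fin_cases j
  · exact h.1.trans h'.1.symm
  · exact mul_left_cancel₀ hπ (h.2.1.symm.trans h'.2.1)
  · exact h.2.2.1.trans h'.2.2.1.symm
  · exact h.2.2.2.trans h'.2.2.2.symm

theorem thetaEx (N π : O) (hπ : π ≠ 0) (g : Hsub N π) : ∃ g', Conj π g.val g' := by
  obtain ⟨a1, a2, a3, a4⟩ := theta_spec π (⟨g.val.val, g.2⟩ : GamUp π)
  have hm : N ∣ (SerreE.theta π (⟨g.val.val, g.2⟩ : GamUp π)).val 1 0 := by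
    rw [a3]
    exact Dvd.dvd.mul_left g.val.2 _
  exact ⟨⟨SerreE.theta π (⟨g.val.val, g.2⟩ : GamUp π), hm⟩, a1, a2, a3, a4⟩

/-- conjugation by `diag(1, π)`, from `Γ₀(N) ∩ Γ⁰(π)` to `Γ₀(N)`. -/
noncomputable def thetaFun (N π : O) (hπ : π ≠ 0) (g : Hsub N π) : G N :=
  Classical.choose (thetaEx N π hπ g)

theorem thetaFun_spec (N π : O) (hπ : π ≠ 0) (g : Hsub N π) :
    Conj π g.val (thetaFun N π hπ g) := Classical.choose_spec (thetaEx N π hπ g)

theorem ent_mul (a b : GE O) (i j : Fin 2) :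
    ent (a * b) i j = ent a i 0 * ent b 0 j + ent a i 1 * ent b 1 j := by
  change (Units.val (α := Matrix (Fin 2) (Fin 2) O) a *
    Units.val (α := Matrix (Fin 2) (Fin 2) O) b) i j = _
  rw [Matrix.mul_apply, Fin.sum_univ_two]
  rfl

theorem en_mul {N : O} (a b : G N) (i j : Fin 2) :
    en (a * b) i j = en a i 0 * en b 0 j + en a i 1 * en b 1 j := ent_mul _ _ i j

theorem Conj.mul {π N : O} {a b a' b' : G N} (ha : Conj π a a') (hb : Conj π b b') (hπ : π ≠ 0) :
    Conj π (a * b) (a' * b') := by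
  obtain ⟨a1, a2, a3, a4⟩ := ha
  obtain ⟨b1, b2, b3, b4⟩ := hb
  refine ⟨?_, ?_, ?_, ?_⟩
  · rw [en_mul, en_mul, a1, b1, b3, a2]; ring
  · rw [en_mul, en_mul, a1, b2, a2, b4]; ring
  · rw [en_mul, en_mul, a3, b1, a4, b3]; ring
  · rw [en_mul, en_mul, a3, b2, a4, b4]; ring

theorem thetaFun_mul (N π : O) (hπ : π ≠ 0) (a b : Hsub N π) :
    thetaFun N π hπ (a * b) = thetaFun N π hπ a * thetaFun N π hπ b :=
  (thetaFun_spec N π hπ (a * b)).unique hπ
    ((thetaFun_spec N π hπ a).mul (thetaFun_spec N π hπ b) hπ)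

/-- conjugation by `diag(1, π)`, from `Γ₀(N) ∩ Γ⁰(π)` to `Γ₀(N)`. -/
noncomputable def theta (N π : O) (hπ : π ≠ 0) : Hsub N π →* G N :=
  MonoidHom.mk' (thetaFun N π hπ) (thetaFun_mul N π hπ)

variable [FinQuot O]

theorem hsub_fin (N π : O) (hπ : π ≠ 0) : (Hsub N π).FiniteIndex := by
  have : Finite (O ⧸ Ideal.span {π}) := FinQuot.fin π hπ
  have : Finite (GL (Fin 2) (O ⧸ Ideal.span {π})) := by
    have : Finite (Matrix (Fin 2) (Fin 2) (O ⧸ Ideal.span {π})) := by
      unfold Matrix; infer_instance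
    exact Finite.of_injective (fun g : GL (Fin 2) (O ⧸ Ideal.span {π}) => g.val)
      (fun a b h => Units.ext h)
  have hk : ((red π).comp (Gam0 N).subtype).ker ≤ (GamUp π).subgroupOf (Gam0 N) := by
    intro g hg
    rw [MonoidHom.mem_ker] at hg
    change π ∣ g.val.val 0 1
    have h1 := congrArg (fun m : GL (Fin 2) (O ⧸ Ideal.span {π}) => m.val 0 1) hg
    have h2 : Ideal.Quotient.mk (Ideal.span {π}) (g.val.val 0 1) = 0 := by simpa using h1
    rw [Ideal.Quotient.eq_zero_iff_mem, Ideal.mem_span_singleton] at h2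
    exact h2
  have := Subgroup.finiteIndex_ker ((red π).comp (Gam0 N).subtype)
  have h2 : ((GamUp π).subgroupOf (Gam0 N)).FiniteIndex := Subgroup.finiteIndex_of_le hk
  exact h2

/-- the values of `T_π h`: the pullback of `h` under conjugation by `diag(1, π)`, a homomorphism on
`Γ₀(N) ∩ Γ⁰(π)`, followed by the transfer (corestriction) to `Γ₀(N)`. -/
noncomputable def heckeVal {N : O} (π : O) (hπ : π ≠ 0) (h : HY N) (g : G N) : FF :=
  have := hsub_fin N π hπ
  Multiplicative.toAdd (MonoidHom.transfer (h.hom.comp (theta N π hπ)) g)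

theorem heckeVal_fin {N π : O} (hπ : π ≠ 0) (h : HY N) (g : G N) (hg : IsOfFinOrder g) :
    heckeVal π hπ h g = 0 := by
  have := hsub_fin N π hπ
  have key : MonoidHom.transfer (h.hom.comp (theta N π hπ)) g = 1 := by
    classical
    let _ := (Hsub N π).fintypeQuotientOfFiniteIndex
    rw [MonoidHom.transfer_eq_prod_quotient_orbitRel_zpowers_quot]
    apply Finset.prod_eq_one
    intro q _
    change Multiplicative.ofAdd (h.val (theta N π hπ _)) = 1
    rw [h.fin]
    · rfl
    · apply MonoidHom.isOfFinOrder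
      obtain ⟨n, hn, hn'⟩ := isOfFinOrder_iff_pow_eq_one.mp hg
      rw [isOfFinOrder_iff_pow_eq_one]
      refine ⟨n, hn, Subtype.ext ?_⟩
      have e : ∀ (a b : G N), (a⁻¹ * b * a) ^ n = a⁻¹ * b ^ n * a := by
        intro a b
        have := conj_pow (i := n) (a := a⁻¹) (b := b)
        rwa [inv_inv] at this
      rw [SubmonoidClass.coe_pow, e, ← pow_mul, mul_comm _ n, pow_mul, hn', one_pow, mul_one,
        inv_mul_cancel]
      rfl
  exact congrArg Multiplicative.toAdd key

theorem heckeVal_mem {N π : O} (hπ : π ≠ 0) (h : HY N) : IsCls N (heckeVal π hπ h) := by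
  refine ⟨fun a b => ?_, fun g hg => heckeVal_fin hπ h g hg⟩
  exact congrArg Multiplicative.toAdd (map_mul _ a b)

/-- the Hecke operator `T_π` on `H¹(Y₀(N), 𝔽̄₂)`, as a map. -/
noncomputable def TFun (N : O) (π : O) (hπ : π ≠ 0) (h : HY N) : HY N :=
  Subtype.mk (p := fun x => x ∈ H N) (heckeVal π hπ h) (heckeVal_mem hπ h)

theorem TFun_lin (N : O) (π : O) (hπ : π ≠ 0) : IsLinearMap FF (TFun N π hπ) where
  map_add a b := by
    have := hsub_fin N π hπ
    apply Subtype.ext
    funext g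
    exact congrArg Multiplicative.toAdd
      (transfer_mul' (a.hom.comp (theta N π hπ)) (b.hom.comp (theta N π hπ)) g)
  map_smul c a := by
    have := hsub_fin N π hπ
    apply Subtype.ext
    funext g
    exact congrArg Multiplicative.toAdd
      (transfer_comp (AddMonoidHom.toMultiplicative (AddMonoidHom.mulLeft c))
        (a.hom.comp (theta N π hπ)) g)

/-- the Hecke operator `T_π` on `H¹(Y₀(N), 𝔽̄₂)`. -/
noncomputable def T (N : O) (π : O) (hπ : π ≠ 0) : HY N →ₗ[FF] HY N :=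
  IsLinearMap.mk' (TFun N π hπ) (TFun_lin N π hπ)

/-- the endomorphism ring of `H¹(Y₀(N), 𝔽̄₂)` -/
def EndH (N : O) : Type := Module.End FF (HY N)

noncomputable instance (N : O) : Ring (EndH N) := (inferInstance : Ring (Module.End FF (HY N)))
noncomputable instance (N : O) : Algebra FF (EndH N) :=
  (inferInstance : Algebra FF (Module.End FF (HY N)))

/-- the primes `π` not dividing `2N`. -/
def GP (N : O) : Type := {π : O // Prime π ∧ ¬ π ∣ 2 * N}

/-- the underlying element -/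
def GP.el {N : O} (π : GP N) : O := Subtype.val (p := fun π => Prime π ∧ ¬ π ∣ 2 * N) π

theorem GP.prime {N : O} (π : GP N) : Prime π.el := (Subtype.prop π).1
theorem GP.not_dvd {N : O} (π : GP N) : ¬ π.el ∣ 2 * N := (Subtype.prop π).2
theorem GP.ne {N : O} (π : GP N) : π.el ≠ 0 := (Subtype.prop π).1.ne_zero

/-- `T_π` as an element of the endomorphism ring -/
noncomputable def TE (N : O) (π : GP N) : EndH N := T N π.el π.ne

/-- the Hecke algebra of `H¹(Y₀(N), 𝔽̄₂)`. -/
noncomputable def Hecke (N : O) : Subalgebra FF (EndH N) :=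
  Algebra.adjoin FF (Set.range (TE N))

theorem TE_mem (N : O) (π : GP N) : TE N π ∈ Hecke N := Algebra.subset_adjoin ⟨π, rfl⟩

/-- `T_π` as an element of the Hecke algebra. -/
noncomputable def Tp (N : O) (π : GP N) : Hecke N := ⟨TE N π, TE_mem N π⟩

/-- An eigenform: a homomorphism from the Hecke algebra to `𝔽̄₂`. -/
def Eigenform (N : O) : Type := Hecke N →ₐ[FF] FF

/-- the eigenvalue of `T_π`. -/
noncomputable def Eigenform.ev {N : O} (Φ : Eigenform N) (π : GP N) : FF :=
  DFunLike.coe (F := Hecke N →ₐ[FF] FF) Φ (Tp N π)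

end hecke

section char

variable {O : Type} [CommRing O]

/-- the relative norm `O[i] → O`, `x + y i ↦ x² + y²`. -/
def nm (w : Gi O) : O := w.re * w.re + w.im * w.im

/-- `w` is congruent to `z` modulo `f` in `O[i]`. -/
def Cong (f : O) (w z : Gi O) : Prop := f ∣ w.re - z.re ∧ f ∣ w.im - z.im

/-- `χ` is a character of `(O[i]/f)ˣ` with values in `𝔽̄₂ˣ`, extended by `0` to `O[i]`; it is
non-trivial, trivial on `(O/f)ˣ` and on the units of `O[i]`, and has conductor `f`. -/
structure RingClassChar (f : O) (χ : Gi O → FF) : Prop where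
  mul : ∀ w z : Gi O, χ (w * z) = χ w * χ z
  congr : ∀ w z : Gi O, Cong f w z → χ w = χ z
  supp : ∀ w : Gi O, χ w ≠ 0 ↔ IsCoprime (nm w) f
  base : ∀ a : O, IsCoprime a f → χ ⟨a, 0⟩ = 1
  unit : ∀ v : Gi O, IsUnit v → χ v = 1
  ne : ∃ w : Gi O, IsCoprime (nm w) f ∧ χ w ≠ 1
  cond : ∀ g : O, g ∣ f → ¬ f ∣ g → ∃ w : Gi O, IsCoprime (nm w) f ∧ Cong g w 1 ∧ χ w ≠ 1

/-- the eigenvalues of `Φ` are the Frobenius traces of `Ind χ`: the eigenvalue of `T_π` is
`χ(w) + χ(w̄)` if `π` is the norm of `w` up to a unit, and `0` if `π` is no such norm. -/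
def Attached [IsDomain O] [FinQuot O] {N : O} (Φ : Eigenform N) (χ : Gi O → FF) : Prop :=
  ∀ π : GP N, (∀ w : Gi O, Associated (nm w) π.el → Φ.ev π = χ w + χ (star w)) ∧
    ((∀ w : Gi O, ¬ Associated (nm w) π.el) → Φ.ev π = 0)

end char

/-- the ring of integers `ℤ[ω]`, `ω² = ω - (n + 1)`, of `ℚ(√-(4n+3))`. -/
abbrev OK (n : ℕ) : Type := QuadraticAlgebra ℤ (-((n : ℤ) + 1)) 1

end SerreK
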