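import Pool.Agent.SerreK.GDefs
import Pool.Agent.SerreK.QDefs

/-!
# UNITS: the unit group of `O[i]`
For a unit `w = x + y i` put `w₁ = σx + iσy`, `w₂ = σx - iσy`; `|w₁|² |w₂|² = |σ(x²+y²)|² = 1`
and `|w₁|² + |w₂|² = 2 (|σx|² + |σy|²)`.
-/

open Complex
open scoped QuadraticAlgebra

namespace SerreK

open SerreE

/-- `|w₁|²` -/
noncomputable def ab1 {O : Type} [CommRing O] (σ : O →+* ℂ) (w : Gi O) : ℝ :=
  normSq (σ w.re + I * σ w.im)

/-- `|w₂|²` -/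
noncomputable def ab2 {O : Type} [CommRing O] (σ : O →+* ℂ) (w : Gi O) : ℝ :=
  normSq (σ w.re - I * σ w.im)

/-- `i` as a unit of `O[i]` -/
def iUn (O : Type) [CommRing O] : (Gi O)ˣ :=
  ⟨⟨0, 1⟩, ⟨0, -1⟩, by ext <;> simp [QuadraticAlgebra.re_one], by
    ext <;> simp [QuadraticAlgebra.re_one]⟩

section

variable {O : Type} [CommRing O] (σ : O →+* ℂ)

theorem normSq_unit {σ : O →+* ℂ} (hσ : ImQ σ) {u : O} (hu : IsUnit u) : normSq (σ u) = 1 := by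
  obtain ⟨u, rfl⟩ := hu
  obtain ⟨m, hm⟩ := hσ.int u
  obtain ⟨m', hm'⟩ := hσ.int ((u⁻¹ : Oˣ) : O)
  have h1 : normSq (σ u) * normSq (σ ((u⁻¹ : Oˣ) : O)) = 1 := by
    rw [← map_mul, ← map_mul, Units.mul_inv, map_one, map_one]
  rw [hm, hm'] at h1
  have h2 : m * m' = 1 := by exact_mod_cast h1
  have h3 : m = 1 := Nat.eq_one_of_mul_eq_one_right h2
  rw [hm, h3]
  simp

theorem ab_mul (w z : Gi O) : ab1 σ (w * z) = ab1 σ w * ab1 σ z := by
  unfold ab1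
  rw [← map_mul]
  congr 1
  rw [QuadraticAlgebra.re_mul, QuadraticAlgebra.im_mul]
  simp only [map_add, map_mul, map_neg, map_one, map_zero]
  linear_combination -(σ w.im * σ z.im) * I_mul_I

theorem ab1_mul_ab2 (w : Gi O) : ab1 σ w * ab2 σ w = normSq (σ w.norm) := by
  unfold ab1 ab2
  rw [← map_mul]
  congr 1
  rw [QuadraticAlgebra.norm_def]
  simp only [map_add, map_sub, map_mul, map_neg, map_one, map_zero]
  linear_combination -(σ w.im * σ w.im) * I_mul_I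

theorem ab1_add_ab2 (w : Gi O) :
    ab1 σ w + ab2 σ w = 2 * (normSq (σ w.re) + normSq (σ w.im)) := by
  unfold ab1 ab2
  simp only [normSq_apply, add_re, sub_re, add_im, sub_im, mul_re, mul_im, I_re, I_im]
  ring

end

theorem ab_unit {O : Type} [CommRing O] [IsDomain O] (σ : O →+* ℂ) (hσ : ImQ σ) (w : (Gi O)ˣ) :
    0 < ab1 σ w ∧ ab2 σ w = (ab1 σ w)⁻¹ := by
  have h1 : ab1 σ w * ab2 σ w = 1 := by
    rw [ab1_mul_ab2]
    exact normSq_unit hσ (QuadraticAlgebra.isUnit_iff_norm_isUnit.mp w.isUnit)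
  have h2 : ab1 σ w ≠ 0 := left_ne_zero_of_mul_eq_one h1
  have h3 : 0 ≤ ab1 σ w := normSq_nonneg _
  exact ⟨lt_of_le_of_ne h3 h2.symm, eq_inv_of_mul_eq_one_right h1⟩

section

variable {O : Type} [CommRing O] [IsDomain O] (σ : O →+* ℂ)

/-- `|w₁|²` as a homomorphism -/
noncomputable def abHom : Gi O →* ℝ where
  toFun w := ab1 σ w
  map_one' := by simp [ab1, QuadraticAlgebra.re_one, QuadraticAlgebra.im_one]
  map_mul' := ab_mul σ

theorem ab1_zpow (hσ : ImQ σ) (w : (Gi O)ˣ) (n : ℤ) :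
    ab1 σ ((w ^ n : (Gi O)ˣ) : Gi O) = ab1 σ w ^ n := by
  have h1 : ∀ v : (Gi O)ˣ, ((Units.map (abHom σ) v : ℝˣ) : ℝ) = ab1 σ v := fun v => rfl
  rw [← h1, map_zpow, Units.val_zpow_eq_zpow_val, h1]

theorem fin_units (hσ : ImQ σ) (B : ℝ) : {w : (Gi O)ˣ | 1 ≤ ab1 σ w ∧ ab1 σ w ≤ B}.Finite := by
  have h1 := (hσ.fin (B + 1)).prod (hσ.fin (B + 1))
  refine Set.Finite.of_finite_image (f := fun w : (Gi O)ˣ => ((w : Gi O).re, (w : Gi O).im))
    (h1.subset ?_) ?_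
  · rintro _ ⟨w, ⟨hw1, hw2⟩, rfl⟩
    obtain ⟨p, q⟩ := ab_unit σ hσ w
    have h3 := ab1_add_ab2 σ (w : Gi O)
    have h4 : ab2 σ w ≤ 1 := by rw [q]; exact inv_le_one_of_one_le₀ hw1
    have h5 := normSq_nonneg (σ (w : Gi O).re)
    have h6 := normSq_nonneg (σ (w : Gi O).im)
    constructor
    · change normSq (σ (w : Gi O).re) ≤ B + 1
      linarith
    · change normSq (σ (w : Gi O).im) ≤ B + 1
      linarith
  · intro a _ b _ h
    apply Units.ext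
    exact QuadraticAlgebra.ext (congrArg Prod.fst h) (congrArg Prod.snd h)

theorem unit_of_one (hσ : ImQ σ) (w : (Gi O)ˣ) (h : ab1 σ w = 1) :
    ∃ u : Oˣ, w = giC u ∨ w = giC u * iUn O := by
  have h2 : ab2 σ w = 1 := by rw [(ab_unit σ hσ w).2, h, inv_one]
  have h3 := ab1_add_ab2 σ (w : Gi O)
  obtain ⟨a, ha⟩ := hσ.int (w : Gi O).re
  obtain ⟨b, hb⟩ := hσ.int (w : Gi O).im
  rw [h, h2, ha, hb] at h3
  have h4 : a + b = 1 := by
    have : (a : ℝ) + b = 1 := by linarith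
    exact_mod_cast this
  have hz : ∀ x : O, normSq (σ x) = ((0 : ℕ) : ℝ) → x = 0 := by
    intro x hx
    apply hσ.inj
    rw [map_zero]
    exact normSq_eq_zero.mp (by rw [hx]; simp)
  have hn := QuadraticAlgebra.isUnit_iff_norm_isUnit.mp w.isUnit
  rw [QuadraticAlgebra.norm_def] at hn
  have hab : b = 0 ∨ a = 0 := by omega
  rcases hab with h0 | h0
  · rw [h0] at hb
    have hi := hz _ hb
    rw [hi] at hn
    have hu : IsUnit (w : Gi O).re := by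
      rw [show (w : Gi O).re * (w : Gi O).re + 0 * (w : Gi O).re * 0 - -1 * 0 * 0 =
        (w : Gi O).re * (w : Gi O).re by ring] at hn
      exact isUnit_of_mul_isUnit_left hn
    refine ⟨hu.unit, Or.inl ?_⟩
    apply Units.ext
    apply QuadraticAlgebra.ext
    · rfl
    · exact hi
  · rw [h0] at ha
    have hi := hz _ ha
    rw [hi] at hn
    have hu : IsUnit (w : Gi O).im := by
      rw [show (0 : O) * 0 + 0 * 0 * (w : Gi O).im - -1 * (w : Gi O).im * (w : Gi O).im =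
        (w : Gi O).im * (w : Gi O).im by ring] at hn
      exact isUnit_of_mul_isUnit_left hn
    refine ⟨hu.unit, Or.inr ?_⟩
    apply Units.ext
    apply QuadraticAlgebra.ext
    · rw [hi]
      simp [giC, iUn]
    · simp [giC, iUn]

end

theorem unit_structure {O : Type} [CommRing O] [IsDomain O] (σ : O →+* ℂ) (hσ : ImQ σ)
    (hnt : ∃ w : (Gi O)ˣ, ab1 σ w ≠ 1) :
    ∃ η : (Gi O)ˣ, 1 < ab1 σ η ∧ ∀ w : (Gi O)ˣ, ∃ (n : ℤ) (u : Oˣ),
      w = giC u * η ^ n ∨ w = giC u * iUn O * η ^ n := by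
  obtain ⟨w0, hw0⟩ : ∃ w : (Gi O)ˣ, 1 < ab1 σ w := by
    obtain ⟨w, hw⟩ := hnt
    rcases lt_or_gt_of_ne hw with h | h
    · refine ⟨w⁻¹, ?_⟩
      have h1 := ab1_zpow σ hσ w (-1)
      rw [zpow_neg_one, zpow_neg_one] at h1
      rw [h1]
      exact (one_lt_inv₀ (ab_unit σ hσ w).1).mpr h
    · exact ⟨w, h⟩
  have hfin := fin_units σ hσ (ab1 σ w0)
  obtain ⟨η, ⟨hη1, hη2⟩, hmin⟩ := Set.exists_min_image
    {w : (Gi O)ˣ | 1 < ab1 σ w ∧ ab1 σ w ≤ ab1 σ w0} (fun w => ab1 σ w)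
    (hfin.subset (fun w hw => ⟨hw.1.le, hw.2⟩)) ⟨w0, hw0, le_rfl⟩
  refine ⟨η, hη1, fun w => ?_⟩
  obtain ⟨n, hn1, hn2⟩ := exists_mem_Ico_zpow (ab_unit σ hσ w).1 hη1
  have hpos : 0 < ab1 σ η ^ n := zpow_pos (by linarith) n
  have e1 : ab1 σ ((w * η ^ (-n) : (Gi O)ˣ) : Gi O) = ab1 σ w / ab1 σ η ^ n := by
    rw [Units.val_mul, ab_mul, ab1_zpow σ hσ, zpow_neg, div_eq_mul_inv]
  have h1 : ab1 σ ((w * η ^ (-n) : (Gi O)ˣ) : Gi O) = 1 := by
    by_contra hne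
    have h2 : 1 ≤ ab1 σ ((w * η ^ (-n) : (Gi O)ˣ) : Gi O) := by
      rw [e1, one_le_div hpos]
      exact hn1
    have h3 : ab1 σ ((w * η ^ (-n) : (Gi O)ˣ) : Gi O) < ab1 σ η := by
      rw [e1, div_lt_iff₀ hpos]
      rw [zpow_add_one₀ (by linarith)] at hn2
      rw [mul_comm]
      exact hn2
    have h4 := hmin (w * η ^ (-n)) ⟨lt_of_le_of_ne h2 (Ne.symm hne), h3.le.trans hη2⟩
    exact absurd h3 (not_lt.mpr h4)
  obtain ⟨u, hu⟩ := unit_of_one σ hσ _ h1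
  refine ⟨n, u, ?_⟩
  have e2 : w = w * η ^ (-n) * η ^ n := by
    rw [mul_assoc, ← zpow_add, neg_add_cancel, zpow_zero, mul_one]
  rcases hu with h | h
  · left
    rw [← h]
    exact e2
  · right
    rw [← h]
    exact e2

end SerreK
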