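import Pool.Agent.SerreK.GDefs
import Pool.Agent.SerreK.QDefs
import Pool.Agent.SerreK.ACT
import Pool.Agent.SerreK.UNITS

/-!
# The representation of `GL₂(O)` on `V = ℝ⁴`
-/

open Complex

namespace SerreK

open SerreE

section
variable {O : Type} [CommRing O]

theorem mM_mul (σ : O →+* ℂ) (g h : Matrix (Fin 2) (Fin 2) O) :
    mM σ (g * h) = mM σ g * mM σ h := by
  ext i j
  fin_cases i <;> fin_cases j <;>
    simp only [mM, Matrix.mul_apply, Fin.sum_univ_two, Fin.zero_eta, Fin.mk_one, Matrix.of_apply,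
      Matrix.cons_val', Matrix.cons_val_zero, Matrix.cons_val_one, Matrix.cons_val_fin_one,
      map_add, map_mul]
  · linear_combination ((σ (g 1 0) * σ (h 0 1) + σ (g 0 1) * σ (h 1 0)) / 2) * I_sq
  · linear_combination ((σ (g 0 1) * σ (h 1 0) - σ (g 1 0) * σ (h 0 1)) / 2) * I_sq
  · linear_combination ((σ (g 0 1) * σ (h 1 0) - σ (g 1 0) * σ (h 0 1)) / 2) * I_sq
  · linear_combination ((σ (g 1 0) * σ (h 0 1) + σ (g 0 1) * σ (h 1 0)) / 2) * I_sq

/-- the matrix of `x + y i` is diagonal. -/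
theorem mM_diag (σ : O →+* ℂ) (x y : O) :
    mM σ !![x, -y; y, x] = !![σ x + I * σ y, 0; 0, σ x - I * σ y] := by
  ext i j
  fin_cases i <;> fin_cases j <;>
    simp only [mM, Fin.zero_eta, Fin.mk_one, Matrix.of_apply,
      Matrix.cons_val', Matrix.cons_val_zero, Matrix.cons_val_one, Matrix.cons_val_fin_one,
      map_neg] <;> ring

theorem mM_one (σ : O →+* ℂ) : mM σ (1 : Matrix (Fin 2) (Fin 2) O) = 1 := by
  have h : (1 : Matrix (Fin 2) (Fin 2) O) = !![1, -0; 0, 1] := by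
    rw [neg_zero]
    exact Matrix.one_fin_two
  rw [h, mM_diag, map_one, map_zero, mul_zero, add_zero, sub_zero]
  exact Matrix.one_fin_two.symm

theorem mM_det (σ : O →+* ℂ) (g : Matrix (Fin 2) (Fin 2) O) : (mM σ g).det = σ g.det := by
  rw [Matrix.det_fin_two, Matrix.det_fin_two]
  simp only [mM, Matrix.of_apply, Matrix.cons_val', Matrix.cons_val_zero, Matrix.cons_val_one,
    Matrix.cons_val_fin_one, map_sub, map_mul]
  linear_combination (σ (g 1 0) * σ (g 0 1)) * I_sq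

/-- a unit has absolute value one. -/
theorem unit_abs {σ : O →+* ℂ} (hσ : ImQ σ) (u : Oˣ) : normSq (σ u) = 1 := by
  obtain ⟨n, hn⟩ := hσ.int (u : O)
  obtain ⟨m, hm⟩ := hσ.int ((u⁻¹ : Oˣ) : O)
  have h : normSq (σ u) * normSq (σ ((u⁻¹ : Oˣ) : O)) = 1 := by
    rw [← map_mul, ← map_mul, Units.mul_inv, map_one, map_one]
  rw [hn, hm] at h
  have h2 : n * m = 1 := by exact_mod_cast h
  rw [hn, Nat.eq_one_of_mul_eq_one_right h2, Nat.cast_one]

/-- the representation -/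
noncomputable def rho (σ : O →+* ℂ) : GL (Fin 2) O →* (V →ₗ[ℝ] V) where
  toFun g := act (mM σ g.val)
  map_one' := by rw [Units.val_one, mM_one, act_one]
  map_mul' g h := by rw [Units.val_mul, mM_mul, act_mul]

/-- the determinant of `mM σ g` has absolute value one. -/
theorem mM_det_abs {σ : O →+* ℂ} (hσ : ImQ σ) (g : GL (Fin 2) O) :
    normSq (mM σ g.val).det = 1 := by
  rw [mM_det]
  exact unit_abs hσ (Matrix.GeneralLinearGroup.det g)

theorem rho_inC {σ : O →+* ℂ} (hσ : ImQ σ) (g : GL (Fin 2) O) (v : V) (hv : InC v) :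
    InC (rho σ g v) := by
  refine act_inC (mM σ g.val) ?_ v hv
  intro h
  have h1 := mM_det_abs hσ g
  rw [h, map_zero] at h1
  exact zero_ne_one h1

theorem rho_scal {σ : O →+* ℂ} (hσ : ImQ σ) (u : Oˣ) : rho σ (sc u) = 1 := by
  have h : (sc u : GL (Fin 2) O).val = !![(u : O), -0; 0, (u : O)] := by
    ext i j
    fin_cases i <;> fin_cases j <;> simp
  have h2 : rho σ (sc u) = act (mM σ (sc u : GL (Fin 2) O).val) := rfl
  have h3 : (!![σ (u : O), 0; 0, σ (u : O)] : Matrix (Fin 2) (Fin 2) ℂ) = σ (u : O) • 1 := by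
    ext i j
    fin_cases i <;> fin_cases j <;> simp
  rw [h2, h, mM_diag, map_zero, mul_zero, add_zero, sub_zero, h3, act_scalar _ (unit_abs hσ u),
    act_one]

theorem rho_J (σ : O →+* ℂ) (v : V) : rho σ J v = ![v 0, v 1, -v 2, -v 3] := by
  have h : (J : GL (Fin 2) O).val = !![0, -1; 1, 0] := rfl
  have h2 : rho σ J v = act (mM σ (J : GL (Fin 2) O).val) v := rfl
  have h3 : (!![(0 : ℂ) + I * 1, 0; 0, 0 - I * 1] : Matrix (Fin 2) (Fin 2) ℂ) =
      !![I, 0; 0, -I] := by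
    rw [zero_add, zero_sub, mul_one]
  rw [h2, h, mM_diag, map_zero, map_one, h3, act_J]

theorem rho_iota (σ : O →+* ℂ) (w : (Gi O)ˣ) (v : V) :
    rho σ (iota w) v 0 = ab1 σ w * v 0 ∧ rho σ (iota w) v 1 = ab2 σ w * v 1 := by
  have h2 : rho σ (iota w) v = act (mM σ (iota w : GL (Fin 2) O).val) v := rfl
  rw [h2, iota_val, mM_diag]
  exact act_diag _ _ v

/-- `|a + b + c + d|² ≤ 4 (|a|² + |b|² + |c|² + |d|²)` -/
theorem normSq_add4 (a b c d : ℂ) :
    normSq (a + b + c + d) ≤ 4 * (normSq a + normSq b + normSq c + normSq d) := by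
  simp only [normSq_apply, add_re, add_im]
  nlinarith [sq_nonneg (a.re - b.re), sq_nonneg (a.re - c.re), sq_nonneg (a.re - d.re),
    sq_nonneg (b.re - c.re), sq_nonneg (b.re - d.re), sq_nonneg (c.re - d.re),
    sq_nonneg (a.im - b.im), sq_nonneg (a.im - c.im), sq_nonneg (a.im - d.im),
    sq_nonneg (b.im - c.im), sq_nonneg (b.im - d.im), sq_nonneg (c.im - d.im)]

/-- the entries of `σ g` are bounded in terms of those of `mM σ g` -/
theorem entries_le {σ : O →+* ℂ} {K : ℝ} {g : Matrix (Fin 2) (Fin 2) O}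
    (h : ∀ i j, normSq (mM σ g i j) ≤ K) (i j : Fin 2) : normSq (σ (g i j)) ≤ 4 * K := by
  have key : ∀ z a b c d : ℂ, 4 * normSq z = normSq (a + b + c + d) → normSq a ≤ K →
      normSq b ≤ K → normSq c ≤ K → normSq d ≤ K → normSq z ≤ 4 * K := by
    intro z a b c d hz ha hb hc hd
    have := normSq_add4 a b c d
    linarith
  have h4 : normSq (2 : ℂ) = 4 := by norm_num [normSq_apply]
  have m00 : mM σ g 0 0 = (σ (g 0 0) + σ (g 1 1) + I * (σ (g 1 0) - σ (g 0 1))) / 2 := rfl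
  have m01 : mM σ g 0 1 = (σ (g 0 0) - σ (g 1 1) + I * (σ (g 1 0) + σ (g 0 1))) / 2 := rfl
  have m10 : mM σ g 1 0 = (σ (g 0 0) - σ (g 1 1) - I * (σ (g 1 0) + σ (g 0 1))) / 2 := rfl
  have m11 : mM σ g 1 1 = (σ (g 0 0) + σ (g 1 1) - I * (σ (g 1 0) - σ (g 0 1))) / 2 := rfl
  fin_cases i <;> fin_cases j
  · refine key _ (mM σ g 0 0) (mM σ g 0 1) (mM σ g 1 0) (mM σ g 1 1) ?_ (h _ _) (h _ _) (h _ _)
      (h _ _)
    rw [← h4, ← map_mul, m00, m01, m10, m11]
    congr 1
    simp only [Fin.zero_eta]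
    ring
  · refine key _ (mM σ g 0 1) (-mM σ g 1 0) (-mM σ g 0 0) (mM σ g 1 1) ?_ (h _ _)
      (by rw [normSq_neg]; exact h _ _) (by rw [normSq_neg]; exact h _ _) (h _ _)
    have e : mM σ g 0 1 + -mM σ g 1 0 + -mM σ g 0 0 + mM σ g 1 1 = I * (2 * σ (g 0 1)) := by
      rw [m00, m01, m10, m11]; ring
    rw [e, map_mul, map_mul, h4, normSq_I, one_mul]
    rfl
  · refine key _ (mM σ g 0 0) (-mM σ g 1 1) (mM σ g 0 1) (-mM σ g 1 0) ?_ (h _ _)
      (by rw [normSq_neg]; exact h _ _) (h _ _) (by rw [normSq_neg]; exact h _ _)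
    have e : mM σ g 0 0 + -mM σ g 1 1 + mM σ g 0 1 + -mM σ g 1 0 = I * (2 * σ (g 1 0)) := by
      rw [m00, m01, m10, m11]; ring
    rw [e, map_mul, map_mul, h4, normSq_I, one_mul]
    rfl
  · refine key _ (mM σ g 0 0) (-mM σ g 0 1) (-mM σ g 1 0) (mM σ g 1 1) ?_ (h _ _)
      (by rw [normSq_neg]; exact h _ _) (by rw [normSq_neg]; exact h _ _) (h _ _)
    have e : mM σ g 0 0 + -mM σ g 0 1 + -mM σ g 1 0 + mM σ g 1 1 = 2 * σ (g 1 1) := by
      rw [m00, m01, m10, m11]; ring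
    rw [e, map_mul, h4]
    rfl

/-- proper discontinuity: from `act_proper`, the entries of `mM σ g` are bounded, hence those of
`σ g` (they are combinations of the entries of `mM σ g` with coefficients of modulus `≤ 1`), and `hσ.fin`
gives finitely many `g`. -/
theorem rho_proper {σ : O →+* ℂ} (hσ : ImQ σ) (a b c p q : V) (ha : InC a) (hb : InC b)
    (hc : InC c) (hp : InC p) (hq : InC q) :
    {g : GL (Fin 2) O | Hit (rho σ g a) (rho σ g b) (rho σ g c) p q}.Finite := by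
  obtain ⟨K, hK⟩ := act_proper a b c p q ha hb hc hp hq
  have hfin : {m : Fin 2 → Fin 2 → O | ∀ i j, m i j ∈ {x : O | normSq (σ x) ≤ 4 * K}}.Finite := by
    have h1 : {r : Fin 2 → O | ∀ j, r j ∈ {x : O | normSq (σ x) ≤ 4 * K}}.Finite :=
      Set.Finite.pi' (fun _ => hσ.fin (4 * K))
    exact Set.Finite.pi' (fun _ => h1)
  have hinj : Set.InjOn (fun g : GL (Fin 2) O => (fun i j => g.val i j : Fin 2 → Fin 2 → O))
      ((fun g : GL (Fin 2) O => (fun i j => g.val i j : Fin 2 → Fin 2 → O)) ⁻¹'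
        {m : Fin 2 → Fin 2 → O | ∀ i j, m i j ∈ {x : O | normSq (σ x) ≤ 4 * K}}) := by
    intro g _ g' _ h
    apply Units.ext
    ext i j
    exact congrFun (congrFun h i) j
  refine (Set.Finite.preimage hinj hfin).subset ?_
  intro g hg i j
  exact entries_le (hK (mM σ g.val) (mM_det_abs hσ g) hg) i j

theorem countable_of_imQ {σ : O →+* ℂ} (hσ : ImQ σ) : Countable O := by
  rw [← Set.countable_univ_iff]
  have h : (Set.univ : Set O) = ⋃ n : ℕ, {x : O | normSq (σ x) ≤ n} := by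
    symm
    rw [Set.eq_univ_iff_forall]
    intro x
    obtain ⟨n, hn⟩ := hσ.int x
    exact Set.mem_iUnion.2 ⟨n, le_of_eq hn⟩
  rw [h]
  exact Set.countable_iUnion (fun n => (hσ.fin n).countable)

/-- the entries of a matrix commuting with `J` -/
theorem comm_J_entries (g : GL (Fin 2) O) (h : g * J = J * g) :
    g.val 0 1 = -g.val 1 0 ∧ g.val 1 1 = g.val 0 0 := by
  have h0 : g.val * J.val = J.val * g.val := by
    rw [← Units.val_mul, h, Units.val_mul]
  have hJ : (J : GL (Fin 2) O).val = !![0, -1; 1, 0] := rfl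
  have e1 := congrFun (congrFun h0 0) 0
  have e2 := congrFun (congrFun h0 0) 1
  rw [Matrix.mul_apply, Matrix.mul_apply, Fin.sum_univ_two, Fin.sum_univ_two, hJ] at e1 e2
  simp at e1 e2
  exact ⟨e1, e2.symm⟩

/-- elements commuting with `J` are in the image of `O[i]ˣ`. -/
theorem comm_J (g : GL (Fin 2) O) (h : g * J = J * g) : ∃ w : (Gi O)ˣ, g = iota w := by
  have h' : g⁻¹ * J = J * g⁻¹ := by
    rw [inv_mul_eq_iff_eq_mul, ← mul_assoc, h, mul_inv_cancel_right]
  obtain ⟨e1, e2⟩ := comm_J_entries g h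
  obtain ⟨f1, f2⟩ := comm_J_entries g⁻¹ h'
  have k1 : g.val * (g⁻¹).val = 1 := by rw [← Units.val_mul, mul_inv_cancel, Units.val_one]
  have k00 := congrFun (congrFun k1 0) 0
  have k10 := congrFun (congrFun k1 1) 0
  rw [Matrix.mul_apply, Fin.sum_univ_two, Matrix.one_apply] at k00 k10
  rw [e1] at k00
  rw [e2] at k10
  simp only [if_true, one_ne_zero, if_false] at k00 k10
  have hm : (⟨g.val 0 0, g.val 1 0⟩ : Gi O) * ⟨(g⁻¹).val 0 0, (g⁻¹).val 1 0⟩ = 1 := by
    ext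
    · rw [QuadraticAlgebra.re_mul, QuadraticAlgebra.re_one]
      linear_combination k00
    · rw [QuadraticAlgebra.im_mul, QuadraticAlgebra.im_one]
      linear_combination k10
  refine ⟨⟨⟨g.val 0 0, g.val 1 0⟩, ⟨(g⁻¹).val 0 0, (g⁻¹).val 1 0⟩, hm, by rw [mul_comm]; exact hm⟩,
    ?_⟩
  apply Units.ext
  rw [iota_val]
  ext i j
  fin_cases i <;> fin_cases j
  · rfl
  · exact e1
  · rfl
  · exact e2

end

end SerreK
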