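import Pool.Agent.SerreK.TSQM
import Pool.Agent.SerreK.PIDM

/-!
# TSQT: the tables for `n = 0, 1, 2, 4, 10, 16, 40`
-/

namespace SerreK

open SerreE

/-- the norm of `(a + b ω)² + (c + d ω)²`: real part -/
def tRe (n : ℕ) (a b c d : ℤ) : ℤ :=
  a * a - (n + 1) * (b * b) + (c * c - (n + 1) * (d * d))

/-- `ω`-part -/
def tIm (a b c d : ℤ) : ℤ := 2 * (a * b) + b * b + (2 * (c * d) + d * d)

theorem norm_re (n : ℕ) (a b c d : ℤ) :
    ((⟨⟨a, b⟩, ⟨c, d⟩⟩ : Gi (OK n)).norm).re = tRe n a b c d := by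
  simp [QuadraticAlgebra.norm_def, tRe]
  ring

theorem norm_im (n : ℕ) (a b c d : ℤ) :
    ((⟨⟨a, b⟩, ⟨c, d⟩⟩ : Gi (OK n)).norm).im = tIm a b c d := by
  simp [QuadraticAlgebra.norm_def, tIm]
  ring

/-- the absolute norm -/
def tN (n : ℕ) (a b c d : ℤ) : ℤ :=
  tRe n a b c d * tRe n a b c d + tRe n a b c d * tIm a b c d
    + (n + 1) * (tIm a b c d * tIm a b c d)

theorem nrm_norm (n : ℕ) (a b c d : ℤ) :
    nrm ((⟨⟨a, b⟩, ⟨c, d⟩⟩ : Gi (OK n)).norm) = tN n a b c d := by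
  rw [nrm, norm_re, norm_im, tN]
  ring

/-- a visible divisor -/
def cmp (p : ℕ) : Bool :=
  p < 2 || [2, 3, 5, 7, 11, 13, 17, 19, 23].any fun d => p % d == 0 && p != d

theorem cmp_spec {p : ℕ} (h : cmp p = true) : ¬ p.Prime := by
  intro hp
  rw [cmp, Bool.or_eq_true] at h
  rcases h with h | h
  · have := hp.two_le
    simp at h
    omega
  · rw [List.any_eq_true] at h
    obtain ⟨d, hd, h⟩ := h
    rw [Bool.and_eq_true, beq_iff_eq, bne_iff_ne] at h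
    obtain ⟨h1, h2⟩ := h
    have h3 : d ∣ p := Nat.dvd_of_mod_eq_zero h1
    rcases (Nat.dvd_prime hp).mp h3 with h4 | h4
    · subst h4
      revert hd
      decide
    · exact h2 h4.symm

/-- no root modulo `p` -/
def noRoot (n p : ℕ) : Bool :=
  p != 0 && (List.range p).all fun x => (x * x + (p - 1) * x + (n + 1)) % p != 0

theorem root_iff (n p x : ℕ) (hp : p ≠ 0) :
    (p : ℤ) ∣ (x : ℤ) ^ 2 - x + (n + 1) ↔ (x * x + (p - 1) * x + (n + 1)) % p = 0 := by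
  rw [← Nat.dvd_iff_mod_eq_zero, ← Int.natCast_dvd_natCast]
  have h1 : ((p - 1 : ℕ) : ℤ) = (p : ℤ) - 1 := by
    have : 1 ≤ p := Nat.one_le_iff_ne_zero.mpr hp
    push_cast [Nat.cast_sub this]
    ring
  push_cast [h1]
  have h2 : (x : ℤ) * x + ((p : ℤ) - 1) * x + (n + 1) = ((x : ℤ) ^ 2 - x + (n + 1)) + p * x := by
    ring
  rw [h2]
  exact (Int.dvd_add_left (dvd_mul_right _ _)).symm

theorem noRoot_spec {n p : ℕ} (h : noRoot n p = true) (x : ℤ) :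
    ¬ (p : ℤ) ∣ x ^ 2 - x + (n + 1) := by
  rw [noRoot, Bool.and_eq_true, bne_iff_ne, List.all_eq_true] at h
  obtain ⟨h0, h⟩ := h
  intro hx
  have hp0 : (p : ℤ) ≠ 0 := by exact_mod_cast h0
  have hpos : (0 : ℤ) < p := by
    have := Nat.pos_of_ne_zero h0
    exact_mod_cast this
  have e1 : ((x % p).toNat : ℤ) = x % p := Int.toNat_of_nonneg (Int.emod_nonneg _ hp0)
  have e2 : (x % p).toNat < p := by
    have := Int.emod_lt_of_pos x hpos
    omega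
  have e3 := h (x % p).toNat (List.mem_range.mpr e2)
  rw [bne_iff_ne] at e3
  apply e3
  rw [← root_iff n p _ h0, e1]
  have e4 : x = x % p + p * (x / p) := (Int.emod_add_mul_ediv x p).symm
  set r := x % p with hr
  set k := x / p with hk
  rw [e4] at hx
  have e5 : (r + p * k) ^ 2 - (r + p * k) + ((n : ℤ) + 1)
      = (r ^ 2 - r + (n + 1)) + p * (2 * r * k + p * k ^ 2 - k) := by ring
  rw [e5] at hx
  exact (Int.dvd_add_left (dvd_mul_right _ _)).mp hx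

/-- check for split primes -/
def chkS (n B : ℕ) (tab : List (ℕ × ℤ × ℤ × ℤ × ℤ)) : Bool :=
  (List.range (B + 1)).all fun p =>
    cmp p || (p != 2 && p % 4 != 1) || tab.any (fun t => t.1 == p) || noRoot n p

/-- the entries are correct -/
def okS (n : ℕ) (tab : List (ℕ × ℤ × ℤ × ℤ × ℤ)) : Bool :=
  tab.all fun t => tN n t.2.1 t.2.2.1 t.2.2.2.1 t.2.2.2.2 == (t.1 : ℤ)

theorem hs_of (n B : ℕ) (tab : List (ℕ × ℤ × ℤ × ℤ × ℤ)) (h1 : chkS n B tab = true)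
    (h2 : okS n tab = true) :
    ∀ p : ℕ, p.Prime → p ≤ B → (p = 2 ∨ p % 4 = 1) →
      (∃ x : ℤ, (p : ℤ) ∣ x ^ 2 - x + (n + 1)) → ∃ w : Gi (OK n), nrm w.norm = p := by
  intro p hp hB h4 ⟨x, hx⟩
  rw [chkS, List.all_eq_true] at h1
  have h := h1 p (List.mem_range.mpr (by omega))
  rw [Bool.or_eq_true, Bool.or_eq_true, Bool.or_eq_true] at h
  rcases h with ((h | h) | h) | h
  · exact absurd hp (cmp_spec h)
  · rw [Bool.and_eq_true, bne_iff_ne, bne_iff_ne] at h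
    rcases h4 with h4 | h4
    · exact absurd h4 h.1
    · exact absurd h4 h.2
  · rw [List.any_eq_true] at h
    obtain ⟨t, ht, h⟩ := h
    rw [beq_iff_eq] at h
    rw [okS, List.all_eq_true] at h2
    have h3 := h2 t ht
    rw [beq_iff_eq] at h3
    refine ⟨⟨⟨t.2.1, t.2.2.1⟩, ⟨t.2.2.2.1, t.2.2.2.2⟩⟩, ?_⟩
    rw [nrm_norm, h3, h]
  · exact absurd hx (noRoot_spec h x)

/-- check for inert primes -/
def chkI (n B : ℕ) (tab : List (ℕ × ℤ × ℤ × ℤ × ℤ)) : Bool :=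
  (List.range (B + 1)).all fun q =>
    cmp q || B < q ^ 2 || tab.any (fun t => t.1 == q) || 
      (q != 0 && (List.range q).any fun x => (x * x + (q - 1) * x + (n + 1)) % q == 0)

/-- the entries are correct -/
def okI (n : ℕ) (tab : List (ℕ × ℤ × ℤ × ℤ × ℤ)) : Bool :=
  tab.all fun t => tIm t.2.1 t.2.2.1 t.2.2.2.1 t.2.2.2.2 == 0 &&
    (tRe n t.2.1 t.2.2.1 t.2.2.2.1 t.2.2.2.2 == (t.1 : ℤ) ||
      tRe n t.2.1 t.2.2.1 t.2.2.2.1 t.2.2.2.2 == -(t.1 : ℤ))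

theorem hi_of (n B : ℕ) (tab : List (ℕ × ℤ × ℤ × ℤ × ℤ)) (h1 : chkI n B tab = true)
    (h2 : okI n tab = true) :
    ∀ q : ℕ, q.Prime → q ^ 2 ≤ B → (∀ x : ℤ, ¬ (q : ℤ) ∣ x ^ 2 - x + (n + 1)) →
      ∃ w : Gi (OK n), w.norm = q ∨ w.norm = -(q : OK n) := by
  intro q hq hB hx
  rw [chkI, List.all_eq_true] at h1
  have hle : q ≤ B := by nlinarith [hq.two_le]
  have h := h1 q (List.mem_range.mpr (by omega))
  rw [Bool.or_eq_true, Bool.or_eq_true, Bool.or_eq_true] at h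
  rcases h with ((h | h) | h) | h
  · exact absurd hq (cmp_spec h)
  · rw [decide_eq_true_eq] at h
    omega
  · rw [List.any_eq_true] at h
    obtain ⟨t, ht, h⟩ := h
    rw [beq_iff_eq] at h
    rw [okI, List.all_eq_true] at h2
    have h3 := h2 t ht
    rw [Bool.and_eq_true, Bool.or_eq_true, beq_iff_eq, beq_iff_eq, beq_iff_eq] at h3
    obtain ⟨h4, h5⟩ := h3
    refine ⟨⟨⟨t.2.1, t.2.2.1⟩, ⟨t.2.2.2.1, t.2.2.2.2⟩⟩, ?_⟩
    rcases h5 with h5 | h5
    · left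
      apply QuadraticAlgebra.ext
      · rw [norm_re, h5, h]
        simp
      · rw [norm_im, h4]
        simp
    · right
      apply QuadraticAlgebra.ext
      · rw [norm_re, h5, h]
        simp
      · rw [norm_im, h4]
        simp
  · rw [Bool.and_eq_true, bne_iff_ne, List.any_eq_true] at h
    obtain ⟨h0, y, _, h⟩ := h
    rw [beq_iff_eq] at h
    exact absurd ((root_iff n q y h0).mpr h) (hx y)

theorem hB_of (n B : ℕ) (s : ℝ) (hs : 0 ≤ s) (h1 : (n : ℝ) + 1 ≤ s ^ 2)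
    (h2 : 4 * (2 * s + 1) ^ 2 < B + 1) :
    4 * (2 * Real.sqrt (n + 1) + 1) ^ 2 < B + 1 := by
  have h3 : Real.sqrt ((n : ℝ) + 1) ≤ s := Real.sqrt_le_iff.mpr ⟨hs, h1⟩
  have h4 : 0 ≤ Real.sqrt ((n : ℝ) + 1) := Real.sqrt_nonneg _
  nlinarith

/-- split primes for `n = 0` -/
def tabS0 : List (ℕ × ℤ × ℤ × ℤ × ℤ) :=
  [(13, -1, 0, -2, 1)]

/-- inert primes for `n = 0` -/
def tabI0 : List (ℕ × ℤ × ℤ × ℤ × ℤ) :=
  [(2, -1, 0, -1, 0), (5, -2, 0, -1, 0)]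

theorem tsq0 : ∀ π : OK 0, Prime π → ∀ l, π ∣ l ^ 2 + 1 → ∃ w : Gi (OK 0), Associated w.norm π := by
  have := pidm 0 (by decide)
  exact tsq_of_table 0 36 (hB_of 0 36 1 (by norm_num) (by norm_num) (by norm_num))
    (table_of_rational 0 36 (hs_of 0 36 tabS0 (by decide +kernel) (by decide +kernel))
      (hi_of 0 36 tabI0 (by decide +kernel) (by decide +kernel)))

/-- split primes for `n = 1` -/
def tabS1 : List (ℕ × ℤ × ℤ × ℤ × ℤ) :=
  [(2, -1, 0, -1, 1), (29, -2, 1, -1, 1), (37, -1, 1, 2, 1), (53, -1, 0, -2, 2)]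

/-- inert primes for `n = 1` -/
def tabI1 : List (ℕ × ℤ × ℤ × ℤ × ℤ) :=
  [(3, -1, 1, 0, 1), (5, -2, 0, -1, 0)]

theorem tsq1 : ∀ π : OK 1, Prime π → ∀ l, π ∣ l ^ 2 + 1 → ∃ w : Gi (OK 1), Associated w.norm π := by
  have := pidm 1 (by decide)
  exact tsq_of_table 1 58 (hB_of 1 58 1.41425 (by norm_num) (by norm_num) (by norm_num))
    (table_of_rational 1 58 (hs_of 1 58 tabS1 (by decide +kernel) (by decide +kernel))
      (hi_of 1 58 tabI1 (by decide +kernel) (by decide +kernel)))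

/-- split primes for `n = 2` -/
def tabS2 : List (ℕ × ℤ × ℤ × ℤ × ℤ) :=
  [(5, -1, 0, -1, 1), (37, -2, 0, -2, 1), (53, -1, 1, -2, 1)]

/-- inert primes for `n = 2` -/
def tabI2 : List (ℕ × ℤ × ℤ × ℤ × ℤ) :=
  [(2, -1, 0, -1, 0), (7, -2, 0, -1, 2)]

theorem tsq2 : ∀ π : OK 2, Prime π → ∀ l, π ∣ l ^ 2 + 1 → ∃ w : Gi (OK 2), Associated w.norm π := by
  have := pidm 2 (by decide)
  exact tsq_of_table 2 79 (hB_of 2 79 1.7321 (by norm_num) (by norm_num) (by norm_num))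
    (table_of_rational 2 79 (hs_of 2 79 tabS2 (by decide +kernel) (by decide +kernel))
      (hi_of 2 79 tabI2 (by decide +kernel) (by decide +kernel)))

/-- split primes for `n = 4` -/
def tabS4 : List (ℕ × ℤ × ℤ × ℤ × ℤ) :=
  [(5, -2, 0, -1, 1), (17, -1, 0, -1, 1), (61, -4, 1, 1, 2), (73, -5, 1, 2, 2), (101, -2, 1, 3,
   1)]

/-- inert primes for `n = 4` -/
def tabI4 : List (ℕ × ℤ × ℤ × ℤ × ℤ) :=
  [(2, -1, 0, -1, 0), (3, -3, 1, 2, 1)]

theorem tsq4 : ∀ π : OK 4, Prime π → ∀ l, π ∣ l ^ 2 + 1 → ∃ w : Gi (OK 4), Associated w.norm π := by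
  have := pidm 4 (by decide)
  exact tsq_of_table 4 119 (hB_of 4 119 2.2361 (by norm_num) (by norm_num) (by norm_num))
    (table_of_rational 4 119 (hs_of 4 119 tabS4 (by decide +kernel) (by decide +kernel))
      (hi_of 4 119 tabI4 (by decide +kernel) (by decide +kernel)))

/-- split primes for `n = 10` -/
def tabS10 : List (ℕ × ℤ × ℤ × ℤ × ℤ) :=
  [(13, -3, 0, -1, 1), (17, -7, 1, 2, 2), (41, -4, 0, -1, 1), (53, -2, 0, -1, 1), (97, -3, 0, -2,
   1), (101, -1, 0, -1, 1), (109, -10, 0, -2, 3), (173, -8, 2, 5, 2), (181, -14, 2, 5, 4), (193,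
   -15, 3, 8, 4), (197, -5, 1, 2, 1), (229, -4, 2, 7, 1)]

/-- inert primes for `n = 10` -/
def tabI10 : List (ℕ × ℤ × ℤ × ℤ × ℤ) :=
  [(2, -1, 0, -1, 0), (3, -4, 1, 3, 1), (5, -2, 0, -1, 0), (7, -6, 0, -1, 2)]

theorem tsq10 : ∀ π : OK 10, Prime π → ∀ l, π ∣ l ^ 2 + 1 → ∃ w : Gi (OK 10), Associated w.norm π := by
  have := pidm 10 (by decide)
  exact tsq_of_table 10 233 (hB_of 10 233 3.3167 (by norm_num) (by norm_num) (by norm_num))
    (table_of_rational 10 233 (hs_of 10 233 tabS10 (by decide +kernel) (by decide +kernel))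
      (hi_of 10 233 tabI10 (by decide +kernel) (by decide +kernel)))

/-- split primes for `n = 16` -/
def tabS16 : List (ℕ × ℤ × ℤ × ℤ × ℤ) :=
  [(17, -4, 0, -1, 1), (29, -17, 1, 2, 4), (37, -9, 1, 3, 2), (73, -3, 0, -1, 1), (89, -5, 0, -1,
   1), (149, -8, 1, 3, 2), (157, -18, 3, 10, 4), (173, -2, 0, -1, 1), (181, -3, 0, -2, 1), (193,
   -12, 0, -2, 3), (241, -26, 3, 9, 6), (257, -1, 0, -1, 1), (269, -13, 1, 2, 3), (277, -30, 3,
   9, 7), (293, -21, 1, 2, 5), (317, -3, 1, 4, 1)]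

/-- inert primes for `n = 16` -/
def tabI16 : List (ℕ × ℤ × ℤ × ℤ × ℤ) :=
  [(2, -1, 0, -1, 0), (3, -8, 0, -1, 2), (5, -2, 0, -1, 0), (7, -5, 1, 4, 1), (11, -14, 3, 11,
   3), (13, -2, 0, -3, 0)]

theorem tsq16 : ∀ π : OK 16, Prime π → ∀ l, π ∣ l ^ 2 + 1 → ∃ w : Gi (OK 16), Associated w.norm π := by
  have := pidm 16 (by decide)
  exact tsq_of_table 16 341 (hB_of 16 341 4.1232 (by norm_num) (by norm_num) (by norm_num))
    (table_of_rational 16 341 (hs_of 16 341 tabS16 (by decide +kernel) (by decide +kernel))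
      (hi_of 16 341 tabI16 (by decide +kernel) (by decide +kernel)))

/-- split primes for `n = 40` -/
def tabS40 : List (ℕ × ℤ × ℤ × ℤ × ℤ) :=
  [(41, -85, 4, 19, 13), (53, -34, 4, 23, 5), (61, -6, 0, -1, 1), (97, -27, 3, 17, 4), (113, -7,
   0, -1, 1), (173, -13, 1, 5, 2), (197, -20, 2, 11, 3), (281, -5, 0, -1, 1), (313, -136, 4, 15,
   21), (373, -6, 0, -2, 1), (397, -19, 0, -2, 3), (409, -26, 1, 4, 4), (421, -147, 13, 72, 22),
   (457, -40, 3, 16, 6), (461, -41, 5, 29, 6), (577, -14, 1, 5, 2), (593, -8, 0, -1, 1), (641,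
   -4, 0, -1, 1), (653, -52, 2, 9, 8), (661, -109, 1, -2, 17), (673, -202, 21, 119, 30), (677,
   -8, 1, 5, 1), (701, -13, 0, -2, 2), (709, -251, 4, 6, 39), (733, -230, 26, 149, 34)]

/-- inert primes for `n = 40` -/
def tabI40 : List (ℕ × ℤ × ℤ × ℤ × ℤ) :=
  [(2, -1, 0, -1, 0), (3, -7, 1, 6, 1), (5, -2, 0, -1, 0), (7, -51, 0, -4, 8), (11, -62, 9, 53,
   9), (13, -2, 0, -3, 0), (17, -1, 0, -4, 0), (19, -12, 0, -1, 2), (23, -38, 0, -3, 6)]

theorem tsq40 : ∀ π : OK 40, Prime π → ∀ l, π ∣ l ^ 2 + 1 → ∃ w : Gi (OK 40), Associated w.norm π := by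
  have := pidm 40 (by decide)
  exact tsq_of_table 40 762 (hB_of 40 762 6.4032 (by norm_num) (by norm_num) (by norm_num))
    (table_of_rational 40 762 (hs_of 40 762 tabS40 (by decide +kernel) (by decide +kernel))
      (hi_of 40 762 tabI40 (by decide +kernel) (by decide +kernel)))

theorem tsqK (n : ℕ) (hn : n ∈ ({0, 1, 2, 4, 10, 16, 40} : Finset ℕ)) :
    ∀ π : OK n, Prime π → ∀ l, π ∣ l ^ 2 + 1 → ∃ w : Gi (OK n), Associated w.norm π := by
  simp only [Finset.mem_insert, Finset.mem_singleton] at hn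
  rcases hn with h | h | h | h | h | h | h <;> subst h
  · exact tsq0
  · exact tsq1
  · exact tsq2
  · exact tsq4
  · exact tsq10
  · exact tsq16
  · exact tsq40

end SerreK
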