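import Pool.Agent.Serre.COMPAT
import Pool.Agent.SerreK.QDefs

/-!
# FINO: the functions `h_a` vanish on elements of finite order
-/

open Matrix
open scoped QuadraticAlgebra

namespace SerreK

open SerreE

section fino

variable {O : Type} [CommRing O] {k : Type*} [Field k] {f : O}

theorem fino_add [Finite (O ⧸ Ideal.span {f})] {χ : (Gi (O ⧸ Ideal.span {f}))ˣ →* kˣ}
    (hscal : ∀ u, χ (giC u) = 1) {C : GL (Fin 2) O → GL (Fin 2) (O ⧸ Ideal.span {f}) → k}
    (hC : IsCoc f χ C) (D D' : GL (Fin 2) O) (h01 : f ∣ D.val 0 1) (h10 : f ∣ D.val 1 0)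
    (a : GL (Fin 2) (O ⧸ Ideal.span {f})) :
    ∑ᶠ r : (O ⧸ Ideal.span {f})ˣ, C (D * D') (dg r * a) =
      ∑ᶠ r : (O ⧸ Ideal.span {f})ˣ, C D (dg r * a) +
        ∑ᶠ r : (O ⧸ Ideal.span {f})ˣ, C D' (dg r * a) := by
  have : Finite (O ⧸ Ideal.span {f})ˣ := inferInstance
  have e1 : ∀ r : (O ⧸ Ideal.span {f})ˣ, C (D * D') (dg r * a) =
      C D (dg r * a) + C D' ((red f D)⁻¹ * (dg r * a)) := fun r => hC.coc _ _ _
  rw [finsum_congr e1, finsum_add_distrib (Set.toFinite _) (Set.toFinite _)]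
  congr 1
  refine compat_finsum_diag _ ?_ ?_ (fun y => C D' y)
    (fun u y => compat_sc_left hC hscal _ u y) a
  · change Ideal.Quotient.mk (Ideal.span {f}) (D.val 0 1) = 0
    rw [Ideal.Quotient.eq_zero_iff_mem, Ideal.mem_span_singleton]
    exact h01
  · change Ideal.Quotient.mk (Ideal.span {f}) (D.val 1 0) = 0
    rw [Ideal.Quotient.eq_zero_iff_mem, Ideal.mem_span_singleton]
    exact h10

theorem fino_pow [Finite (O ⧸ Ideal.span {f})] {χ : (Gi (O ⧸ Ideal.span {f}))ˣ →* kˣ}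
    (hscal : ∀ u, χ (giC u) = 1) {C : GL (Fin 2) O → GL (Fin 2) (O ⧸ Ideal.span {f}) → k}
    (hC : IsCoc f χ C) (D : GL (Fin 2) O) (h01 : f ∣ D.val 0 1) (h10 : f ∣ D.val 1 0)
    (a : GL (Fin 2) (O ⧸ Ideal.span {f})) (n : ℕ) :
    ∑ᶠ r : (O ⧸ Ideal.span {f})ˣ, C (D ^ n) (dg r * a) =
      n * ∑ᶠ r : (O ⧸ Ideal.span {f})ˣ, C D (dg r * a) := by
  induction n with
  | zero =>
    have h1 : ∀ r : (O ⧸ Ideal.span {f})ˣ, C (D ^ 0) (dg r * a) = 0 := by
      intro r
      have h := hC.scal 1 (dg r * a)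
      have h1 : (sc (1 : Oˣ) : GL (Fin 2) O) = 1 := by
        apply Matrix.GeneralLinearGroup.ext
        intro i j
        fin_cases i <;> fin_cases j <;> simp
      rw [h1] at h
      rw [pow_zero]
      exact h
    rw [finsum_congr h1, finsum_zero]
    simp
  | succ n ih =>
    rw [pow_succ', fino_add hscal hC D (D ^ n) h01 h10 a, ih]
    push_cast
    ring

/-- a matrix is scalar -/
def IsScal (D : GL (Fin 2) O) : Prop :=
  D.val 0 1 = 0 ∧ D.val 1 0 = 0 ∧ D.val 0 0 = D.val 1 1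

theorem IsScal.exists {D : GL (Fin 2) O} (h : IsScal D) : ∃ u : Oˣ, D = sc u := by
  obtain ⟨h1, h2, h3⟩ := h
  have hdet : IsUnit (D.val 0 0 * D.val 1 1) := by
    have h := (Matrix.GeneralLinearGroup.det D).isUnit
    rw [Matrix.GeneralLinearGroup.val_det_apply, Matrix.det_fin_two, h1] at h
    simpa using h
  obtain ⟨u, hu⟩ := isUnit_of_mul_isUnit_left hdet
  refine ⟨u, ?_⟩
  apply Matrix.GeneralLinearGroup.ext
  intro i j
  fin_cases i <;> fin_cases j <;> simp [h1, h2, ← h3, ← hu]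

theorem fino_detU (D : GL (Fin 2) O) :
    IsUnit (D.val 0 0 * D.val 1 1 - D.val 0 1 * D.val 1 0) := by
  have h := (Matrix.GeneralLinearGroup.det D).isUnit
  rwa [Matrix.GeneralLinearGroup.val_det_apply, Matrix.det_fin_two] at h

theorem fino_sq (D : GL (Fin 2) O) (i j : Fin 2) :
    (D ^ 2).val i j = D.val i 0 * D.val 0 j + D.val i 1 * D.val 1 j := by
  rw [pow_two, Units.val_mul, Matrix.mul_apply, Fin.sum_univ_two]

/-- a non-scalar matrix with scalar square has trace zero -/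
theorem fino_tr [IsDomain O] (D : GL (Fin 2) O) (h : ¬ IsScal D) (h2 : IsScal (D ^ 2)) :
    D.val 0 0 + D.val 1 1 = 0 := by
  obtain ⟨h3, h4, h5⟩ := h2
  rw [fino_sq] at h3 h4
  rw [fino_sq, fino_sq] at h5
  by_contra hne
  apply h
  refine ⟨?_, ?_, ?_⟩
  · apply mul_left_cancel₀ hne
    linear_combination h3
  · apply mul_left_cancel₀ hne
    linear_combination h4
  · apply mul_left_cancel₀ hne
    linear_combination h5

theorem fino_level [IsDomain O] (h2sq : ∀ t : O, (2 : O) ∣ t ^ 2 → (2 : O) ∣ t)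
    (h2 : ¬ IsUnit (2 : O)) (h20 : (2 : O) ≠ 0) (D : GL (Fin 2) O) (s : ℕ)
    (hs : D ^ (2 ^ s) = 1) : IsScal D ∨ (D.val 0 0 + D.val 1 1 = 0 ∧ IsScal (D ^ 2)) := by
  classical
  have hex : ∃ i, IsScal (D ^ (2 ^ i)) := by
    refine ⟨s, ?_⟩
    rw [hs]
    refine ⟨?_, ?_, ?_⟩ <;> simp
  set i := Nat.find hex with hi
  have hsp : IsScal (D ^ (2 ^ i)) := Nat.find_spec hex
  rcases Nat.lt_or_ge i 1 with h0 | h1
  · left
    have : i = 0 := by omega
    rw [this] at hsp
    simpa using hsp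
  right
  obtain ⟨j, hj⟩ := Nat.exists_eq_add_of_le h1
  have hmin : ¬ IsScal (D ^ (2 ^ j)) := Nat.find_min hex (by omega)
  have hsq : IsScal ((D ^ (2 ^ j)) ^ 2) := by
    rw [← pow_mul, ← pow_succ, show j + 1 = i by omega]
    exact hsp
  have htr := fino_tr _ hmin hsq
  rcases Nat.eq_zero_or_pos j with hj0 | hjp
  · rw [hj0] at htr hsq
    simp only [pow_zero, pow_one] at htr hsq
    exact ⟨htr, hsq⟩
  · exfalso
    obtain ⟨l, hl⟩ := Nat.exists_eq_add_of_le hjp
    have hE : D ^ (2 ^ j) = (D ^ (2 ^ l)) ^ 2 := by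
      rw [← pow_mul, ← pow_succ, show l + 1 = j by omega]
    rw [hE] at htr
    set G := D ^ (2 ^ l) with hG
    rw [fino_sq, fino_sq] at htr
    have hu := fino_detU G
    have hd : (2 : O) ∣ (G.val 0 0 + G.val 1 1) ^ 2 := by
      refine ⟨G.val 0 0 * G.val 1 1 - G.val 0 1 * G.val 1 0, ?_⟩
      linear_combination htr
    obtain ⟨t, ht⟩ := h2sq _ hd
    have h3 : G.val 0 0 * G.val 1 1 - G.val 0 1 * G.val 1 0 = 2 * t ^ 2 := by
      apply mul_left_cancel₀ h20
      have h4 : (G.val 0 0 + G.val 1 1) ^ 2 = 4 * t ^ 2 := by rw [ht]; ring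
      linear_combination h4 - htr
    rw [h3] at hu
    exact h2 (isUnit_of_mul_isUnit_left hu)

end fino

theorem fino {O : Type} [CommRing O] [IsDomain O] (h2sq : ∀ t : O, (2 : O) ∣ t ^ 2 → (2 : O) ∣ t)
    (h2 : ¬ IsUnit (2 : O)) (h20 : (2 : O) ≠ 0) {k : Type*} [Field k] [CharP k 2] (f : O)
    (hf : ¬ IsUnit f) (hf2 : IsCoprime f 2) [Finite (O ⧸ Ideal.span {f})]
    (χ : (Gi (O ⧸ Ideal.span {f}))ˣ →* kˣ) (hscal : ∀ u, χ (giC u) = 1)
    (C : GL (Fin 2) O → GL (Fin 2) (O ⧸ Ideal.span {f}) → k) (hC : IsCoc f χ C)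
    (D : GL (Fin 2) O) (h01 : f ∣ D.val 0 1) (h10 : f ∣ D.val 1 0) (hD : IsOfFinOrder D)
    (a : GL (Fin 2) (O ⧸ Ideal.span {f})) :
    ∑ᶠ r : (O ⧸ Ideal.span {f})ˣ, C D (dg r * a) = 0 := by
  classical
  -- reduction to `2`-power order
  suffices main : ∀ (D : GL (Fin 2) O) (_ : f ∣ D.val 0 1) (_ : f ∣ D.val 1 0) (s : ℕ),
      D ^ (2 ^ s) = 1 → ∑ᶠ r : (O ⧸ Ideal.span {f})ˣ, C D (dg r * a) = 0 by
    obtain ⟨n, hn, hn'⟩ := isOfFinOrder_iff_pow_eq_one.mp hD
    obtain ⟨s, m, hm, hnm⟩ := Nat.exists_eq_two_pow_mul_odd hn.ne'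
    have hmem : ∀ j : ℕ, f ∣ (D ^ j).val 0 1 ∧ f ∣ (D ^ j).val 1 0 := by
      intro j
      have h1 : D ^ j ∈ GamUp f := pow_mem (mem_GamUp.2 h01) j
      have h2 : D ^ j ∈ Gam0 f := pow_mem (mem_Gam0.2 h10) j
      exact ⟨mem_GamUp.1 h1, mem_Gam0.1 h2⟩
    have h1 := main (D ^ m) (hmem m).1 (hmem m).2 s (by
      rw [← pow_mul, mul_comm, ← hnm, hn'])
    rw [fino_pow hscal hC D h01 h10 a m] at h1
    have h3 : (m : k) = 1 := by
      obtain ⟨l, hl⟩ := hm
      rw [hl]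
      push_cast
      rw [CharTwo.two_eq_zero]
      ring
    rw [h3, one_mul] at h1
    exact h1
  clear h01 h10 hD D
  intro D h01 h10 s hs
  rcases fino_level h2sq h2 h20 D s hs with hsc | ⟨htr, hsq⟩
  · obtain ⟨u, hu⟩ := hsc.exists
    have h1 : ∀ r : (O ⧸ Ideal.span {f})ˣ, C D (dg r * a) = 0 := by
      intro r
      rw [hu]; exact hC.scal _ _
    rw [finsum_congr h1, finsum_zero]
  · -- `D` mod `f` is `sc α * dg (-1)`
    have hz01 : (red f D).val 0 1 = 0 := by
      change Ideal.Quotient.mk (Ideal.span {f}) (D.val 0 1) = 0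
      rw [Ideal.Quotient.eq_zero_iff_mem, Ideal.mem_span_singleton]
      exact h01
    have hz10 : (red f D).val 1 0 = 0 := by
      change Ideal.Quotient.mk (Ideal.span {f}) (D.val 1 0) = 0
      rw [Ideal.Quotient.eq_zero_iff_mem, Ideal.mem_span_singleton]
      exact h10
    have hztr : (red f D).val 0 0 + (red f D).val 1 1 = 0 := by
      change Ideal.Quotient.mk (Ideal.span {f}) (D.val 0 0) +
        Ideal.Quotient.mk (Ideal.span {f}) (D.val 1 1) = 0
      rw [← map_add, htr, map_zero]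
    obtain ⟨u, v, huv⟩ := compat_diag_eq (red f D) hz01 hz10
    have e00 : (red f D).val 0 0 = u := by
      rw [huv]
      simp [Matrix.mul_apply, Fin.sum_univ_two, dg]
    have e11 : (red f D).val 1 1 = u * v := by
      rw [huv]
      simp [Matrix.mul_apply, Fin.sum_univ_two, dg]
    have hv : v = -1 := by
      apply Units.ext
      rw [e00, e11] at hztr
      have h3 : (u : O ⧸ Ideal.span {f}) * (v + 1) = 0 := by linear_combination hztr
      have h4 := congrArg (fun x => ((u⁻¹ : (O ⧸ Ideal.span {f})ˣ) : O ⧸ Ideal.span {f}) * x) h3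
      simp only [← mul_assoc, Units.inv_mul, one_mul, mul_zero] at h4
      rw [Units.val_neg, Units.val_one]
      exact eq_neg_of_add_eq_zero_left h4
    obtain ⟨w, hw⟩ := hsq.exists
    have hsum : ∀ r : (O ⧸ Ideal.span {f})ˣ, C D (dg r * a) + C D (dg (-r) * a) = 0 := by
      intro r
      have h3 := hC.scal w (dg r * a)
      rw [← hw, pow_two, hC.coc] at h3
      have h5 : (red f D)⁻¹ * (dg r * a) = sc u⁻¹ * (dg (-r) * a) := by
        rw [huv, hv, _root_.mul_inv_rev, compat_dg_inv]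
        have e2 : ((sc u)⁻¹ : GL (Fin 2) (O ⧸ Ideal.span {f})) = sc u⁻¹ := by
          rw [← map_inv]
        have e3 : (dg (-r) : GL (Fin 2) (O ⧸ Ideal.span {f})) = dg (-1)⁻¹ * dg r := by
          rw [← compat_dg_mul]
          congr 1
          apply Units.ext
          simp
        rw [e2, e3, ← compat_sc_comm]
        simp only [mul_assoc]
      rw [h5, compat_sc_left hC hscal] at h3
      exact h3
    have : Fintype (O ⧸ Ideal.span {f})ˣ := Fintype.ofFinite _
    rw [finsum_eq_sum_of_fintype]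
    apply Finset.sum_involution (fun r _ => -r)
    · intro r _
      exact hsum r
    · intro r _ _ hr
      -- `-r = r` gives `2 = 0` in `O/f`
      have h3 : (2 : O ⧸ Ideal.span {f}) = 0 := by
        have h4 : (r : O ⧸ Ideal.span {f}) + r = 0 := by
          have h5 := congrArg Units.val hr
          rw [Units.val_neg] at h5
          nth_rewrite 1 [← h5]
          ring
        have h6 := congrArg (fun x => ((r⁻¹ : (O ⧸ Ideal.span {f})ˣ) : O ⧸ Ideal.span {f}) * x) h4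
        simp only [mul_add, Units.inv_mul, mul_zero] at h6
        rw [← one_add_one_eq_two]
        exact h6
      have h7 : f ∣ (2 : O) := by
        rw [← Ideal.mem_span_singleton, ← Ideal.Quotient.eq_zero_iff_mem]
        exact_mod_cast h3
      exact hf (hf2.isUnit_of_dvd' dvd_rfl h7)
    · intro r _
      exact neg_neg r
    · intro r _
      exact Finset.mem_univ _

end SerreK
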