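import Pool.Agent.Serre.FRAME
import Pool.Agent.Serre.HECKEC
import Pool.Agent.Serre.EIG
import Pool.Agent.Serre.INJ
import Pool.Agent.Serre.VCRT
import Pool.Agent.Serre.COMPAT
import Pool.Agent.Serre.FEX
import Pool.Agent.SerreK.QDefs
import Pool.Agent.SerreK.FINO

/-!
# KPORT: the algebraic part for a general ring `O`
The maps `C ↦ h_a` from twisted cocycles to `H¹(Y₀(f²))`, their compatibility with the Hecke
operators, and the eigenform.
-/

open Matrix
open scoped QuadraticAlgebra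

namespace SerreK

open SerreE

namespace KP

section fex

variable {O : Type} [CommRing O] [IsDomain O] [IsPrincipalIdealRing O] [FinQuot O]

/-- `Γ₀(N) ∩ Γ⁰(π)` as a subgroup of `Γ₀(N)`. -/
def HeckeSub (N π : O) : Subgroup (Gam0 N) := (GamUp π).subgroupOf (Gam0 N)

omit [IsPrincipalIdealRing O] in
theorem heckeSub_finiteIndex (N π : O) (hπ : π ≠ 0) : (HeckeSub N π).FiniteIndex :=
  hsub_fin N π hπ

omit [FinQuot O] in
theorem fex_coprime {π a : O} (hπ : Prime π) (ha : ¬ π ∣ a) : ∃ x y : O, x * π + y * a = 1 := by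
  have h := (Prime.coprime_iff_not_dvd hπ).2 ha
  obtain ⟨x, y, h⟩ := h
  exact ⟨x, y, h⟩

omit [IsDomain O] [IsPrincipalIdealRing O] [FinQuot O] in
theorem fex_up_mem (N z : O) : up z ∈ Gam0 N := by
  rw [mem_Gam0]
  simp [up]

/-- the element used for the line `(1 : 0)` -/
def fexEl (N π al be : O) (h : al * π + be * N = 1) : GL (Fin 2) O :=
  mk2 al (-be) N π 1 (by rw [Units.val_one, ← h]; ring)

omit [IsDomain O] [IsPrincipalIdealRing O] [FinQuot O] in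
theorem fexEl_mem (N π al be : O) (h : al * π + be * N = 1) : fexEl N π al be h ∈ Gam0 N := by
  rw [mem_Gam0]
  simp [fexEl]

omit [IsDomain O] [IsPrincipalIdealRing O] [FinQuot O] in
theorem fex_mul01 (a b : GL (Fin 2) O) :
    (a * b).val 0 1 = a.val 0 0 * b.val 0 1 + a.val 0 1 * b.val 1 1 := by
  rw [Units.val_mul, Matrix.mul_apply, Fin.sum_univ_two]

omit [IsDomain O] [IsPrincipalIdealRing O] [FinQuot O] in
theorem fex_up_inv (z : O) (g : GL (Fin 2) O) :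
    ((up z)⁻¹ * g).val 0 1 = g.val 0 1 - z * g.val 1 1 := by
  rw [fex_mul01]
  change ((1⁻¹ : Oˣ) : O) * 1 * g.val 0 1 + -(((1⁻¹ : Oˣ) : O) * z) * g.val 1 1 = _
  simp
  ring

omit [IsDomain O] [IsPrincipalIdealRing O] [FinQuot O] in
theorem fexEl_inv (N π al be : O) (h : al * π + be * N = 1) (g : GL (Fin 2) O) :
    ((fexEl N π al be h)⁻¹ * g).val 0 1 = π * g.val 0 1 + be * g.val 1 1 := by
  rw [fex_mul01]
  change ((1⁻¹ : Oˣ) : O) * π * g.val 0 1 + -(((1⁻¹ : Oˣ) : O) * (-be)) * g.val 1 1 = _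
  simp

omit [IsDomain O] [IsPrincipalIdealRing O] [FinQuot O] in
theorem fex_trans {π : O} {a b g : GL (Fin 2) O} (h1 : π ∣ (a⁻¹ * b).val 0 1)
    (h2 : π ∣ (b⁻¹ * g).val 0 1) : π ∣ (a⁻¹ * g).val 0 1 := by
  have h3 : (a⁻¹ * b) * (b⁻¹ * g) ∈ GamUp π :=
    mul_mem (mem_GamUp.2 h1) (mem_GamUp.2 h2)
  have h4 : (a⁻¹ * b) * (b⁻¹ * g) = a⁻¹ * g := by group
  rw [h4] at h3
  exact mem_GamUp.1 h3

/-- representatives in `Γ₀(N)` of `Γ₀(N)/(Γ₀(N) ∩ Γ⁰(π))` -/
noncomputable def fexT (N π : O) (x : Gam0 N ⧸ HeckeSub N π) : Gam0 N := Quotient.out x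

omit [IsDomain O] [IsPrincipalIdealRing O] [FinQuot O] in
theorem fexT_mk (N π : O) (τ : Gam0 N) :
    π ∣ ((fexT N π (QuotientGroup.mk τ))⁻¹ * τ).val.val 0 1 := by
  have h : (QuotientGroup.mk (fexT N π (QuotientGroup.mk τ)) : Gam0 N ⧸ HeckeSub N π) =
      QuotientGroup.mk τ := Quotient.out_eq _
  rw [QuotientGroup.eq] at h
  exact h

omit [IsDomain O] [IsPrincipalIdealRing O] [FinQuot O] in
theorem fexT_sep (N π : O) (x y : Gam0 N ⧸ HeckeSub N π)
    (h : π ∣ ((fexT N π x)⁻¹ * fexT N π y).val.val 0 1) : x = y := by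
  have h1 : (QuotientGroup.mk (fexT N π x) : Gam0 N ⧸ HeckeSub N π) =
      QuotientGroup.mk (fexT N π y) := by
    rw [QuotientGroup.eq]
    exact h
  rw [← Quotient.out_eq x, ← Quotient.out_eq y]
  exact h1

omit [FinQuot O] in
/-- `Γ₀(N)` acts transitively on the lines modulo `π` -/
theorem fex_cover (N π : O) (hπ : Prime π) (hN : ¬ π ∣ N) (g : GL (Fin 2) O) :
    ∃ τ : Gam0 N, π ∣ (τ.val⁻¹ * g).val 0 1 := by
  by_cases hq : π ∣ g.val 1 1
  · obtain ⟨al, be, h⟩ := fex_coprime hπ hN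
    refine ⟨⟨fexEl N π al be h, fexEl_mem N π al be h⟩, ?_⟩
    rw [fexEl_inv]
    exact dvd_add (Dvd.intro _ rfl) (hq.mul_left _)
  · obtain ⟨a, b, h⟩ := fex_coprime hπ hq
    refine ⟨⟨up (g.val 0 1 * b), fex_up_mem _ _⟩, ?_⟩
    rw [fex_up_inv]
    refine ⟨g.val 0 1 * a, ?_⟩
    linear_combination (-g.val 0 1) * h

omit [FinQuot O] in
/-- the conjugated version of `fex_cover` -/
theorem fex_coverD (f π : O) (hπ : Prime π) (hN : ¬ π ∣ f) (g : GL (Fin 2) O) :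
    ∃ τ : Gam0 (f ^ 2), π ∣ ((dconj f τ)⁻¹ * g).val 0 1 := by
  have hN2 : ¬ π ∣ f ^ 2 := fun h => hN (hπ.dvd_of_dvd_pow h)
  by_cases hq : π ∣ g.val 1 1
  · obtain ⟨al, be, h⟩ := fex_coprime hπ hN2
    refine ⟨⟨fexEl (f ^ 2) π al be h, fexEl_mem _ π al be h⟩, ?_⟩
    set τ : Gam0 (f ^ 2) := ⟨fexEl (f ^ 2) π al be h, fexEl_mem _ π al be h⟩ with hτ
    obtain ⟨-, h2, -, h4, -⟩ := dconj_spec f τ
    rw [fex_mul01]
    have e1 : ((dconj f τ)⁻¹).val 0 0 = ((Matrix.GeneralLinearGroup.det τ.val)⁻¹ : Oˣ) *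
        (dconj f τ).val 1 1 := rfl
    rw [e1, h4]
    have e3 : τ.val.val 1 1 = π := rfl
    rw [e3]
    exact dvd_add ⟨(((Matrix.GeneralLinearGroup.det τ.val)⁻¹ : Oˣ) : O) * g.val 0 1, by ring⟩
      (hq.mul_left _)
  · have hfq : ¬ π ∣ f * g.val 1 1 := fun h => (hπ.dvd_or_dvd h).elim hN hq
    obtain ⟨a, b, h⟩ := fex_coprime hπ hfq
    refine ⟨⟨up (g.val 0 1 * b), fex_up_mem _ _⟩, ?_⟩
    set τ : Gam0 (f ^ 2) := ⟨up (g.val 0 1 * b), fex_up_mem _ _⟩ with hτ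
    obtain ⟨-, h2, -, h4, -⟩ := dconj_spec f τ
    rw [fex_mul01]
    have e1 : ((dconj f τ)⁻¹).val 0 0 = ((Matrix.GeneralLinearGroup.det τ.val)⁻¹ : Oˣ) *
        (dconj f τ).val 1 1 := rfl
    have e2 : ((dconj f τ)⁻¹).val 0 1 = -(((Matrix.GeneralLinearGroup.det τ.val)⁻¹ : Oˣ) *
        (dconj f τ).val 0 1) := rfl
    rw [e1, e2, h4, h2]
    have e3 : τ.val.val 1 1 = 1 := rfl
    have e4 : τ.val.val 0 1 = g.val 0 1 * b := rfl
    rw [e3, e4]
    refine ⟨(((Matrix.GeneralLinearGroup.det τ.val)⁻¹ : Oˣ) : O) * (g.val 0 1 * a), ?_⟩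
    linear_combination (-(((Matrix.GeneralLinearGroup.det τ.val)⁻¹ : Oˣ) : O) * g.val 0 1) * h

theorem frames_exist (f π : O) (hf : f ≠ 0) (hπ : Prime π) (hN : ¬ π ∣ f) :
    ∃ (X : Type) (_ : Fintype X) (t : X → Gam0 (f ^ 2)) (F FD : Frame π X),
      (∀ x, F.s x = (t x).val) ∧ (∀ x, FD.s x = dconj f (t x)) := by
  have hN2 : ¬ π ∣ f ^ 2 := fun h => hN (hπ.dvd_of_dvd_pow h)
  have hfi := heckeSub_finiteIndex (f ^ 2) π hπ.ne_zero
  have : Finite (Gam0 (f ^ 2) ⧸ HeckeSub (f ^ 2) π) := Subgroup.finite_quotient_of_finiteIndex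
  have hconj : ∀ s t : Gam0 (f ^ 2), (dconj f s)⁻¹ * dconj f t = dconj f (s⁻¹ * t) := by
    intro s t
    change (dconjHom f hf s)⁻¹ * dconjHom f hf t = dconjHom f hf (s⁻¹ * t)
    rw [map_mul, map_inv]
  refine ⟨Gam0 (f ^ 2) ⧸ HeckeSub (f ^ 2) π, Fintype.ofFinite _, fexT (f ^ 2) π,
    ⟨fun x => (fexT (f ^ 2) π x).val, ?_, ?_⟩, ⟨fun x => dconj f (fexT (f ^ 2) π x), ?_, ?_⟩,
    fun x => rfl, fun x => rfl⟩
  · intro g
    obtain ⟨τ, hτ⟩ := fex_cover (f ^ 2) π hπ hN2 g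
    exact ⟨QuotientGroup.mk τ, fex_trans (fexT_mk (f ^ 2) π τ) hτ⟩
  · intro x y h
    exact fexT_sep (f ^ 2) π x y h
  · intro g
    obtain ⟨τ, hτ⟩ := fex_coverD f π hπ hN g
    refine ⟨QuotientGroup.mk τ, fex_trans ?_ hτ⟩
    rw [hconj, (dconj_spec f _).2.1]
    exact (fexT_mk (f ^ 2) π τ).mul_left _
  · intro x y h
    rw [hconj, (dconj_spec f _).2.1] at h
    exact fexT_sep (f ^ 2) π x y ((hπ.dvd_or_dvd h).resolve_left hN)

end fex

section form

variable {O : Type} [CommRing O] [IsDomain O] [FinQuot O]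

/-- the Hecke operator through any system of representatives -/
theorem hecke_formula (N π : O) (hπ : π ≠ 0) {X : Type} [Fintype X] (t : X → Gam0 N)
    (hcov : ∀ g : Gam0 N, ∃ x, π ∣ ((t x)⁻¹ * g).val.val 0 1)
    (hsep : ∀ x y, π ∣ ((t x)⁻¹ * t y).val.val 0 1 → x = y)
    (h : HY N) (γ : Gam0 N) (σ : X → X) (g' : X → Gam0 N)
    (hstep : ∀ x, γ.val.val * (t x).val.val * PM π =
      (t (σ x)).val.val * PM π * (g' x).val.val) :
    heckeVal π hπ h γ = ∑ x, h.val (g' x) := by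
  have := hsub_fin N π hπ
  have hc0 : ∀ x, ((t (σ x))⁻¹ * γ * t x).val.val * PM π = PM π * (g' x).val.val := by
    intro x
    have := hstep x
    have h2 : ((t (σ x))⁻¹ * γ * t x).val.val =
      (t (σ x)).val⁻¹.val * (γ.val.val * (t x).val.val) := by
      simp [mul_assoc]
    rw [h2, mul_assoc, this, ← mul_assoc, ← mul_assoc, Units.inv_mul, one_mul]
  have hc1 : ∀ x, ((t (σ x))⁻¹ * γ * t x).val.val 0 0 = (g' x).val.val 0 0 ∧
      ((t (σ x))⁻¹ * γ * t x).val.val 0 1 = π * (g' x).val.val 0 1 ∧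
      (g' x).val.val 1 0 = π * ((t (σ x))⁻¹ * γ * t x).val.val 1 0 ∧
      ((t (σ x))⁻¹ * γ * t x).val.val 1 1 = (g' x).val.val 1 1 := by
    intro x
    have := hc0 x
    generalize ((t (σ x))⁻¹ * γ * t x).val.val = M at this ⊢
    generalize (g' x).val.val = M' at this ⊢
    have h00 := congrFun (congrFun this 0) 0
    have h01 := congrFun (congrFun this 0) 1
    have h10 := congrFun (congrFun this 1) 0
    have h11 := congrFun (congrFun this 1) 1
    simp only [PM, Matrix.mul_apply, Fin.sum_univ_two, Matrix.of_apply, Matrix.cons_val',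
      Matrix.cons_val_zero, Matrix.cons_val_one, Matrix.cons_val_fin_one, mul_zero, zero_mul,
      mul_one, one_mul, add_zero, zero_add] at h00 h01 h10 h11
    refine ⟨?_, h01, ?_, h11⟩
    · apply mul_left_cancel₀ hπ
      rw [← h00, mul_comm]
    · rw [← h10, mul_comm]
  have hmem : ∀ x, ((t (σ x))⁻¹ * γ * t x : Gam0 N) ∈ Hsub N π := by
    intro x
    exact (Dvd.intro _ (hc1 x).2.1.symm : π ∣ ((t (σ x))⁻¹ * γ * t x).val.val 0 1)
  have key := transfer_formula (G := G N) (H := Hsub N π)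
    (h.hom.comp (theta N π hπ)) t hcov hsep γ σ
    (fun x => ⟨((t (σ x))⁻¹ * γ * t x : Gam0 N), hmem x⟩) (fun x => by
      change γ * t x = t (σ x) * ((t (σ x))⁻¹ * γ * t x)
      rw [mul_assoc (t (σ x))⁻¹, mul_inv_cancel_left])
  have hth : ∀ x, theta N π hπ ⟨((t (σ x))⁻¹ * γ * t x : Gam0 N), hmem x⟩ = g' x := by
    intro x
    have h1 := thetaFun_spec N π hπ ⟨((t (σ x))⁻¹ * γ * t x : Gam0 N), hmem x⟩
    have h2 : Conj π (N := N) ((t (σ x))⁻¹ * γ * t x : Gam0 N) (g' x) := by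
      obtain ⟨b1, b2, b3, b4⟩ := hc1 x
      exact ⟨b1.symm, b2, b3, b4.symm⟩
    exact h1.unique hπ h2
  have e1 : heckeVal π hπ h γ = Multiplicative.toAdd
    (MonoidHom.transfer (h.hom.comp (theta N π hπ)) (γ : G N)) := rfl
  rw [e1, key, toAdd_prod]
  refine Finset.sum_congr rfl fun x _ => ?_
  rw [← hth x]
  rfl

end form

section compat

variable {O : Type} [CommRing O] [IsDomain O]

theorem compat_red_dconj (f : O) (t : Gam0 (f ^ 2)) :
    (red f (dconj f t)).val 0 1 = 0 ∧ (red f (dconj f t)).val 1 0 = 0 := by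
  obtain ⟨-, h2, -, -, h5⟩ := dconj_spec f t
  constructor
  · change Ideal.Quotient.mk (Ideal.span {f}) ((dconj f t).val 0 1) = 0
    rw [Ideal.Quotient.eq_zero_iff_mem, Ideal.mem_span_singleton, h2]
    exact Dvd.intro _ rfl
  · change Ideal.Quotient.mk (Ideal.span {f}) ((dconj f t).val 1 0) = 0
    rw [Ideal.Quotient.eq_zero_iff_mem, Ideal.mem_span_singleton]
    exact h5

/-- the function `h_a(γ) = Σ_r C(DγD⁻¹, diag(1,r) a)` on `Γ₀(f²)`. -/
noncomputable def hfun (f : O) (C : GL (Fin 2) O → GL (Fin 2) (O ⧸ Ideal.span {f}) → FF)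
    (a : GL (Fin 2) (O ⧸ Ideal.span {f})) (γ : Gam0 (f ^ 2)) : FF :=
  ∑ᶠ r : (O ⧸ Ideal.span {f})ˣ, C (dconj f γ) (dg r * a)

/-- the steps of the conjugated frame. -/
theorem compat_step_dconj (f π : O) (hf : f ≠ 0) {X : Type} (t : X → Gam0 (f ^ 2))
    (FD : Frame π X) (hFD : ∀ x, FD.s x = dconj f (t x)) (γ : Gam0 (f ^ 2)) (x y : X)
    (g : Gam0 (f ^ 2))
    (h : γ.val.val * (t x).val.val * PM π = (t y).val.val * PM π * g.val.val) :
    FD.Step (dconj f γ) x y (dconj f g) := by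
  unfold Frame.Step
  rw [hFD, hFD]
  obtain ⟨a1, a2, a3, a4, -⟩ := dconj_spec f γ
  obtain ⟨b1, b2, b3, b4, -⟩ := dconj_spec f (t x)
  obtain ⟨c1, c2, c3, c4, -⟩ := dconj_spec f (t y)
  obtain ⟨d1, d2, d3, d4, -⟩ := dconj_spec f g
  have h00 := congrFun (congrFun h 0) 0
  have h01 := congrFun (congrFun h 0) 1
  have h10 := congrFun (congrFun h 1) 0
  have h11 := congrFun (congrFun h 1) 1
  simp only [Matrix.mul_apply, Fin.sum_univ_two, PM, Matrix.of_apply, Matrix.cons_val',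
    Matrix.cons_val_zero, Matrix.cons_val_one, Matrix.cons_val_fin_one, mul_zero, mul_one,
    add_zero, zero_add] at h00 h01 h10 h11
  apply Matrix.ext
  intro i j
  fin_cases i <;> fin_cases j <;>
    simp only [Matrix.mul_apply, Fin.sum_univ_two, PM, Matrix.of_apply, Matrix.cons_val',
      Matrix.cons_val_zero, Matrix.cons_val_one, Matrix.cons_val_fin_one, mul_zero, mul_one,
      add_zero, zero_add, Fin.zero_eta, Fin.mk_one, Fin.isValue]
  · rw [a1, a2, b1, c1, c2, d1]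
    rw [b3, d3] at h00
    linear_combination h00
  · rw [a1, a2, b2, b4, c1, c2, d2, d4]
    linear_combination f * h01
  · apply mul_left_cancel₀ hf
    rw [a3, b3, c3, d3] at h10
    rw [a4, b1, c4, d1]
    linear_combination h10
  · rw [a4, b2, b4, c4, d2, d4]
    rw [a3, c3] at h11
    linear_combination h11

theorem dconj_surj {f : O} (hf : f ≠ 0) (γ : GL (Fin 2) O) (h1 : f ∣ γ.val 0 1)
    (h2 : f ∣ γ.val 1 0) : ∃ γ' : Gam0 (f ^ 2), dconj f γ' = γ := by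
  obtain ⟨b, hb⟩ := h1
  obtain ⟨c, hc⟩ := h2
  have hdet : γ.val 0 0 * γ.val 1 1 - b * (f * γ.val 1 0) =
      (Matrix.GeneralLinearGroup.det γ : O) := by
    rw [Matrix.GeneralLinearGroup.val_det_apply, Matrix.det_fin_two, hb]; ring
  refine ⟨⟨mk2 (γ.val 0 0) b (f * γ.val 1 0) (γ.val 1 1) (Matrix.GeneralLinearGroup.det γ) hdet,
    ?_⟩, ?_⟩
  · rw [mem_Gam0, mk2_10, hc]
    exact ⟨c, by ring⟩
  · set g' : Gam0 (f ^ 2) := ⟨mk2 (γ.val 0 0) b (f * γ.val 1 0) (γ.val 1 1)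
      (Matrix.GeneralLinearGroup.det γ) hdet, by
        rw [mem_Gam0, mk2_10, hc]; exact ⟨c, by ring⟩⟩
    obtain ⟨e1, e2, e3, e4, -⟩ := dconj_spec f g'
    apply Matrix.GeneralLinearGroup.ext
    intro i j
    fin_cases i <;> fin_cases j
    · exact e1
    · exact e2.trans hb.symm
    · apply mul_left_cancel₀ hf
      exact e3.symm
    · exact e4

variable [FinQuot O]

theorem hfun_mul (f : O) (hf : f ≠ 0) (χ : (Gi (O ⧸ Ideal.span {f}))ˣ →* FFˣ)
    (hscal : ∀ u, χ (giC u) = 1)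
    (C : GL (Fin 2) O → GL (Fin 2) (O ⧸ Ideal.span {f}) → FF) (hC : IsCoc f χ C)
    (a : GL (Fin 2) (O ⧸ Ideal.span {f})) (γ γ' : Gam0 (f ^ 2)) :
    hfun f C a (γ * γ') = hfun f C a γ + hfun f C a γ' := by
  have : Finite (O ⧸ Ideal.span {f}) := FinQuot.fin f hf
  have : Finite (O ⧸ Ideal.span {f})ˣ := inferInstance
  have hm : dconj f (γ * γ') = dconj f γ * dconj f γ' := (dconjHom f hf).map_mul γ γ'
  unfold hfun
  have e1 : ∀ r : (O ⧸ Ideal.span {f})ˣ, C (dconj f (γ * γ')) (dg r * a) =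
      C (dconj f γ) (dg r * a) + C (dconj f γ') ((red f (dconj f γ))⁻¹ * (dg r * a)) := by
    intro r
    rw [hm, hC.coc]
  rw [finsum_congr e1, finsum_add_distrib (Set.toFinite _) (Set.toFinite _)]
  congr 1
  exact compat_finsum_diag _ (compat_red_dconj f γ).1 (compat_red_dconj f γ).2
    (fun y => C (dconj f γ') y) (fun u y => compat_sc_left hC hscal _ u y) a

theorem hfun_add {f : O} (hf : f ≠ 0)
    (C C' : GL (Fin 2) O → GL (Fin 2) (O ⧸ Ideal.span {f}) → FF)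
    (a : GL (Fin 2) (O ⧸ Ideal.span {f})) (γ : Gam0 (f ^ 2)) :
    hfun f (C + C') a γ = hfun f C a γ + hfun f C' a γ := by
  have : Finite (O ⧸ Ideal.span {f}) := FinQuot.fin f hf
  letI := Fintype.ofFinite (O ⧸ Ideal.span {f})ˣ
  simp only [hfun, finsum_eq_sum_of_fintype, Pi.add_apply, Finset.sum_add_distrib]

theorem hfun_sub {f : O} (hf : f ≠ 0)
    (C C' : GL (Fin 2) O → GL (Fin 2) (O ⧸ Ideal.span {f}) → FF)
    (a : GL (Fin 2) (O ⧸ Ideal.span {f})) (γ : Gam0 (f ^ 2)) :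
    hfun f (C - C') a γ = hfun f C a γ - hfun f C' a γ := by
  have : Finite (O ⧸ Ideal.span {f}) := FinQuot.fin f hf
  letI := Fintype.ofFinite (O ⧸ Ideal.span {f})ˣ
  simp only [hfun, finsum_eq_sum_of_fintype, Pi.sub_apply, Finset.sum_sub_distrib]

theorem hfun_smul {f : O} (hf : f ≠ 0) (c : FF)
    (C : GL (Fin 2) O → GL (Fin 2) (O ⧸ Ideal.span {f}) → FF)
    (a : GL (Fin 2) (O ⧸ Ideal.span {f})) (γ : Gam0 (f ^ 2)) :
    hfun f (c • C) a γ = c * hfun f C a γ := by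
  have : Finite (O ⧸ Ideal.span {f}) := FinQuot.fin f hf
  letI := Fintype.ofFinite (O ⧸ Ideal.span {f})ˣ
  simp only [hfun, finsum_eq_sum_of_fintype, Pi.smul_apply, smul_eq_mul, Finset.mul_sum]

theorem hfun_hecke (f π : O) (hf : f ≠ 0) (hπ0 : π ≠ 0)
    (ϖ : (O ⧸ Ideal.span {f})ˣ)
    (χ : (Gi (O ⧸ Ideal.span {f}))ˣ →* FFˣ) (hscal : ∀ u, χ (giC u) = 1)
    (C : GL (Fin 2) O → GL (Fin 2) (O ⧸ Ideal.span {f}) → FF) (hC : IsCoc f χ C)
    (a : GL (Fin 2) (O ⧸ Ideal.span {f})) {X : Type} [Fintype X] (t : X → Gam0 (f ^ 2))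
    (F FD : Frame π X) (hF : ∀ x, F.s x = (t x).val) (hFD : ∀ x, FD.s x = dconj f (t x))
    (h : HY (f ^ 2)) (hh : ∀ γ : Gam0 (f ^ 2), h.val γ = hfun f C a γ) (γ : Gam0 (f ^ 2)) :
    heckeVal π hπ0 h γ = hfun f (heckeC FD f ϖ C) a γ := by
  have : Finite (O ⧸ Ideal.span {f}) := FinQuot.fin f hf
  have : Finite (O ⧸ Ideal.span {f})ˣ := inferInstance
  have hstep := fun x => F.step_act hπ0 γ.val x
  have hmem : ∀ x, F.gam γ.val x ∈ Gam0 (f ^ 2) := by
    intro x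
    have hs := hstep x
    unfold Frame.Step at hs
    set y := F.act γ.val x with hy
    set m : Gam0 (f ^ 2) := (t y)⁻¹ * γ * t x with hm
    have e1 : m.val.val * PM π = PM π * (F.gam γ.val x).val := by
      have e2 : (F.s y)⁻¹.val * (F.s y).val = 1 := by
        rw [← Units.val_mul]; simp
      calc m.val.val * PM π = (F.s y)⁻¹.val * (γ.val.val * (F.s x).val * PM π) := by
            rw [hm, hF, hF]; simp only [Subgroup.coe_mul, Units.val_mul, mul_assoc,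
              Subgroup.coe_inv]
        _ = (F.s y)⁻¹.val * ((F.s y).val * PM π * (F.gam γ.val x).val) := by rw [hs]
        _ = PM π * (F.gam γ.val x).val := by
            rw [mul_assoc (F.s y).val, ← mul_assoc (F.s y)⁻¹.val, e2, one_mul]
    have h10 := congrFun (congrFun e1 1) 0
    simp only [Matrix.mul_apply, Fin.sum_univ_two, PM, Matrix.of_apply, Matrix.cons_val',
      Matrix.cons_val_zero, Matrix.cons_val_one, Matrix.cons_val_fin_one, mul_zero, zero_mul,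
      one_mul, add_zero, zero_add] at h10
    rw [mem_Gam0, ← h10]
    exact Dvd.dvd.mul_right (mem_Gam0.mp m.2) _
  have hst : ∀ x, γ.val.val * (t x).val.val * PM π =
      (t (F.act γ.val x)).val.val * PM π *
        ((⟨F.gam γ.val x, hmem x⟩ : Gam0 (f ^ 2))).val.val := by
    intro x
    have hs := hstep x
    unfold Frame.Step at hs
    rw [hF, hF] at hs
    exact hs
  rw [hecke_formula (f ^ 2) π hπ0 t
    (fun g => by
      obtain ⟨x, hx⟩ := F.cover g.val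
      refine ⟨x, ?_⟩
      rw [hF] at hx
      exact hx)
    (fun x y hxy => by
      apply F.sep
      rw [hF, hF]
      exact hxy)
    h γ (F.act γ.val) (fun x => ⟨F.gam γ.val x, hmem x⟩) hst]
  have hact : ∀ x, FD.act (dconj f γ) x = F.act γ.val x ∧
      FD.gam (dconj f γ) x = dconj f ⟨F.gam γ.val x, hmem x⟩ := by
    intro x
    exact FD.act_eq hπ0 (compat_step_dconj f π hf t FD hFD γ x _ _ (hst x))
  have hh' : ∀ x, h.val (⟨F.gam γ.val x, hmem x⟩ : Gam0 (f ^ 2)) =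
      hfun f C a ⟨F.gam γ.val x, hmem x⟩ := fun x => hh _
  rw [Finset.sum_congr rfl (fun x _ => hh' x)]
  unfold hfun heckeC
  rw [finsum_sum_comm]
  · apply Finset.sum_congr rfl
    intro x _
    rw [(hact x).1, (hact x).2, hFD]
    have hd := compat_red_dconj f (t (F.act γ.val x))
    symm
    apply compat_finsum_diag (red f (dconj f (t (F.act γ.val x))) * dgl ϖ) ?_ ?_
      (fun y => C (dconj f ⟨F.gam γ.val x, hmem x⟩) y)
      (fun u y => compat_sc_left hC hscal _ u y) a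
    · simp only [Units.val_mul, Matrix.mul_apply, Fin.sum_univ_two, hd.1, dgl]
      simp
    · simp only [Units.val_mul, Matrix.mul_apply, Fin.sum_univ_two, hd.2, dgl]
      simp
  · intro x _
    exact Set.toFinite _

end compat

section free

variable {O : Type} [CommRing O] [IsDomain O] [FinQuot O]

/-- the free algebra acting on `H¹(Y₀(N))` -/
noncomputable def LYN (N : O) : FreeAlgebra FF (GP N) →ₐ[FF] EndH N :=
  FreeAlgebra.lift FF (TE N)

theorem LYN_mem (N : O) (x : FreeAlgebra FF (GP N)) : LYN N x ∈ Hecke N := by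
  rw [Hecke, Algebra.adjoin_range_eq_range_freeAlgebra_lift]
  exact ⟨x, rfl⟩

/-- the free algebra maps onto the Hecke algebra -/
noncomputable def LYr (N : O) : FreeAlgebra FF (GP N) →ₐ[FF] Hecke N :=
  (LYN N).codRestrict (Hecke N) (LYN_mem N)

theorem LYr_surj (N : O) : Function.Surjective (LYr N) := by
  rintro ⟨y, hy⟩
  rw [Hecke, Algebra.adjoin_range_eq_range_freeAlgebra_lift] at hy
  obtain ⟨x, hx⟩ := hy
  exact ⟨x, Subtype.ext hx⟩

theorem exists_algHom_of_ker {k A B C : Type*} [CommSemiring k] [Semiring A] [Semiring B]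
    [Semiring C] [Algebra k A] [Algebra k B] [Algebra k C] (f : A →ₐ[k] B) (g : A →ₐ[k] C)
    (hf : Function.Surjective f) (hker' : ∀ x y, f x = f y → g x = g y) :
    ∃ h : B →ₐ[k] C, ∀ x, h (f x) = g x := by
  choose s hs using hf
  have key : ∀ x, g (s (f x)) = g x := fun x => hker' _ _ (hs _)
  refine ⟨{ toFun := fun b => g (s b), map_one' := ?_, map_mul' := ?_, map_zero' := ?_,
            map_add' := ?_, commutes' := ?_ }, key⟩
  · change g (s 1) = 1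
    rw [← map_one g]; exact hker' _ _ (by rw [hs, map_one])
  · intro x y
    change g (s (x * y)) = g (s x) * g (s y)
    rw [← map_mul]; exact hker' _ _ (by rw [hs, map_mul, hs, hs])
  · change g (s 0) = 0
    rw [← map_zero g]; exact hker' _ _ (by rw [hs, map_zero])
  · intro x y
    change g (s (x + y)) = g (s x) + g (s y)
    rw [← map_add]; exact hker' _ _ (by rw [hs, map_add, hs, hs])
  · intro r
    rw [← AlgHom.commutes g]; exact hker' _ _ (by rw [hs, AlgHom.commutes])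

theorem exists_hom_of_key (N : O) (ap : GP N → FF)
    (hkey : ∀ x y, LYN N x = LYN N y →
      FreeAlgebra.lift FF ap x = FreeAlgebra.lift FF ap y) :
    ∃ Φ : Eigenform N, ∀ π : GP N, Φ.ev π = ap π := by
  obtain ⟨Φ, hΦ⟩ := exists_algHom_of_ker (LYr N) (FreeAlgebra.lift FF ap) (LYr_surj N)
    (fun x y hxy => hkey x y (congrArg Subtype.val hxy))
  refine ⟨Φ, fun π => ?_⟩
  have e1 : Tp N π = LYr N (FreeAlgebra.ι FF π) := by
    apply Subtype.ext
    change TE N π = LYN N (FreeAlgebra.ι FF π)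
    simp [LYN]
  change Φ (Tp N π) = _
  rw [e1, hΦ]
  simp

end free

section linear
variable {O : Type*} [CommRing O] {π : O} {X : Type} [Fintype X] (F : Frame π X)
  {k : Type*} [Field k]
theorem heckeC_add (f : O) (ϖ : (O ⧸ Ideal.span {f})ˣ)
    (C C' : GL (Fin 2) O → GL (Fin 2) (O ⧸ Ideal.span {f}) → k) :
    heckeC F f ϖ (C + C') = heckeC F f ϖ C + heckeC F f ϖ C' := by
  funext γ y
  simp only [heckeC, Pi.add_apply, Finset.sum_add_distrib]
theorem heckeC_smul (f : O) (ϖ : (O ⧸ Ideal.span {f})ˣ) (c : k)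
    (C : GL (Fin 2) O → GL (Fin 2) (O ⧸ Ideal.span {f}) → k) :
    heckeC F f ϖ (c • C) = c • heckeC F f ϖ C := by
  funext γ y
  simp only [heckeC, Pi.smul_apply, smul_eq_mul, Finset.mul_sum]
end linear

section core

variable {O : Type} [CommRing O] [IsDomain O] (f : O)

/-- the data attached to a good prime. -/
structure HData (π : O) where
  X : Type
  fin : Fintype X
  t : X → Gam0 (f ^ 2)
  F : Frame π X
  FD : Frame π X
  hF : ∀ x, F.s x = (t x).val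
  hFD : ∀ x, FD.s x = dconj f (t x)
  ϖ : (O ⧸ Ideal.span {f})ˣ
  hϖ : (ϖ : O ⧸ Ideal.span {f}) = Ideal.Quotient.mk _ π

omit [IsDomain O] in
theorem not_dvd_f {π : O} (hπ : ¬ π ∣ 2 * f ^ 2) : ¬ π ∣ f := fun h =>
  hπ (Dvd.dvd.mul_left (Dvd.dvd.trans h (Dvd.intro_left f (by ring))) _)

variable [IsPrincipalIdealRing O]

theorem unit_of_good (π : O) (hp : Prime π) (h : ¬ π ∣ f) :
    ∃ ϖ : (O ⧸ Ideal.span {f})ˣ, (ϖ : O ⧸ Ideal.span {f}) = Ideal.Quotient.mk _ π := by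
  have hc : IsCoprime π f := (Prime.coprime_iff_not_dvd hp).mpr h
  obtain ⟨a, b, hab⟩ := hc
  have : IsUnit (Ideal.Quotient.mk (Ideal.span {f}) π) := by
    refine IsUnit.of_mul_eq_one (Ideal.Quotient.mk _ a) ?_
    rw [← map_mul, ← map_one (Ideal.Quotient.mk (Ideal.span {f})), Ideal.Quotient.eq,
      Ideal.mem_span_singleton]
    exact ⟨-b, by linear_combination hab⟩
  exact ⟨this.unit, rfl⟩

variable [FinQuot O]

theorem hdata_nonempty (hf : f ≠ 0) (π : GP (f ^ 2)) : Nonempty (HData f π.el) := by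
  obtain ⟨X, fin, t, F, FD, hF, hFD⟩ := frames_exist f π.el hf π.prime (not_dvd_f f π.not_dvd)
  obtain ⟨ϖ, hϖ⟩ := unit_of_good f π.el π.prime (not_dvd_f f π.not_dvd)
  exact ⟨⟨X, fin, t, F, FD, hF, hFD, ϖ, hϖ⟩⟩

/-- chosen data -/
noncomputable def hdata (hf : f ≠ 0) (π : GP (f ^ 2)) : HData f π.el :=
  Classical.choice (hdata_nonempty f hf π)

variable (χ : (Gi (O ⧸ Ideal.span {f}))ˣ →* FFˣ)

omit [IsDomain O] [IsPrincipalIdealRing O] [FinQuot O] in
/-- the space of twisted cocycles -/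
def Hsp : Submodule FF (GL (Fin 2) O → GL (Fin 2) (O ⧸ Ideal.span {f}) → FF) where
  carrier := {C | IsCoc f χ C}
  add_mem' := by
    intro a b ha hb
    refine ⟨fun γ γ' y => ?_, fun u y => ?_, fun γ y t => ?_⟩
    · simp only [Pi.add_apply]; rw [ha.coc, hb.coc]; ring
    · simp only [Pi.add_apply]; rw [ha.scal, hb.scal, add_zero]
    · simp only [Pi.add_apply]; rw [ha.equi, hb.equi]; ring
  zero_mem' := ⟨fun _ _ _ => by simp, fun _ _ => rfl, fun _ _ _ => by simp⟩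
  smul_mem' := by
    intro c a ha
    refine ⟨fun γ γ' y => ?_, fun u y => ?_, fun γ y t => ?_⟩
    · simp only [Pi.smul_apply, smul_eq_mul]; rw [ha.coc]; ring
    · simp only [Pi.smul_apply, smul_eq_mul]; rw [ha.scal, mul_zero]
    · simp only [Pi.smul_apply, smul_eq_mul]; rw [ha.equi]; ring

/-- the Hecke operator on twisted cocycles -/
noncomputable def heckeH (hf : f ≠ 0) (π : GP (f ^ 2)) : Module.End FF (Hsp f χ) where
  toFun C := letI := (hdata f hf π).fin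
    ⟨heckeC (hdata f hf π).FD f (hdata f hf π).ϖ C.val,
      heckeC_isCoc _ π.ne f _ (hdata f hf π).hϖ χ C.val C.2⟩
  map_add' a b := by
    apply Subtype.ext
    exact @heckeC_add _ _ _ _ (hdata f hf π).fin _ _ _ _ _ _ _
  map_smul' c a := by
    apply Subtype.ext
    exact @heckeC_smul _ _ _ _ (hdata f hf π).fin _ _ _ _ _ _ _

theorem heckeH_val (hf : f ≠ 0) (π : GP (f ^ 2)) (C : Hsp f χ) :
    (heckeH f χ hf π C).val =
      @heckeC _ _ _ _ _ _ (hdata f hf π).fin (hdata f hf π).FD f (hdata f hf π).ϖ C.val := rfl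

variable {f χ}

omit [IsDomain O] [IsPrincipalIdealRing O] [FinQuot O] in
theorem isUnit_redGi {w : Gi O} (h : IsCoprime w.norm f) : IsUnit (redGi f w) := by
  rw [QuadraticAlgebra.isUnit_iff_norm_isUnit]
  obtain ⟨a, b, hab⟩ := h
  have e : (redGi f w).norm = Ideal.Quotient.mk _ w.norm := by
    simp [redGi, QuadraticAlgebra.norm_def]
  rw [e]
  refine IsUnit.of_mul_eq_one (Ideal.Quotient.mk _ a) ?_
  rw [← map_mul, ← map_one (Ideal.Quotient.mk (Ideal.span {f})), Ideal.Quotient.eq,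
    Ideal.mem_span_singleton]
  exact ⟨-b, by linear_combination hab⟩

omit [FinQuot O] in
theorem coprime_norm {w : Gi O} {π : O} (hp : Prime π) (h : ¬ π ∣ f)
    (hw : Associated w.norm π) : IsCoprime w.norm f := by
  have hc : IsCoprime π f := (Prime.coprime_iff_not_dvd hp).mpr h
  obtain ⟨u, hu⟩ := hw
  obtain ⟨a, b, hab⟩ := hc
  exact ⟨a * u, b, by linear_combination hab + a * hu⟩

omit [IsPrincipalIdealRing O] [FinQuot O] in
open Classical in
/-- the eigenvalue -/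
noncomputable def ap (χ : (Gi (O ⧸ Ideal.span {f}))ˣ →* FFˣ) (π : GP (f ^ 2)) : FF :=
  if h : ∃ (w : Gi O) (t : (Gi (O ⧸ Ideal.span {f}))ˣ), Associated w.norm π.el ∧
    t.val = redGi f w then (χ h.choose_spec.choose : FF) + ((χ h.choose_spec.choose)⁻¹ : FFˣ)
  else 0

theorem heckeH_eig
    (htsq : ∀ π : O, Prime π → ∀ l, π ∣ l ^ 2 + 1 → ∃ w : Gi O, Associated w.norm π)
    (hf : f ≠ 0) (hscal : ∀ u, χ (giC u) = 1)
    (hJ : ∀ t, iota t = red f SerreE.J → χ t = 1)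
    (u : GL (Fin 2) O) (hu : u * SerreE.J = SerreE.J * u) (tu : (Gi (O ⧸ Ideal.span {f}))ˣ)
    (htu : iota tu = red f u) (hχu : χ tu = 1) (π : GP (f ^ 2)) (C : Hsp f χ) :
    (heckeH f χ hf π C).val u 1 = ap χ π * C.val u 1 := by
  have h2 : ¬ π.el ∣ 2 := fun hd => π.not_dvd (Dvd.dvd.mul_right hd _)
  letI := (hdata f hf π).fin
  rw [heckeH_val]
  by_cases h : ∃ (w : Gi O) (t : (Gi (O ⧸ Ideal.span {f}))ˣ), Associated w.norm π.el ∧
    t.val = redGi f w
  · have e : ap χ π = (χ h.choose_spec.choose : FF) + ((χ h.choose_spec.choose)⁻¹ : FFˣ) := by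
      unfold ap; rw [dif_pos h]
    rw [e]
    exact eig_split (hdata f hf π).FD π.prime h2 f _ (hdata f hf π).hϖ χ hscal hJ C.val C.2 u hu tu
      htu hχu h.choose h.choose_spec.choose_spec.1 _ h.choose_spec.choose_spec.2
  · have e : ap χ π = 0 := by unfold ap; rw [dif_neg h]
    rw [e, zero_mul]
    refine eig_inert (hdata f hf π).FD π.prime h2 f _ (hdata f hf π).hϖ χ hscal hJ C.val C.2 u hu tu
      htu hχu ?_
    intro l hl
    obtain ⟨w, hw⟩ := htsq π.el π.prime l hl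
    exact h ⟨w, (isUnit_redGi (coprime_norm π.prime (not_dvd_f f π.not_dvd) hw)).unit, hw, rfl⟩

/-- the free algebra acting on cocycles -/
noncomputable def LH (χ : (Gi (O ⧸ Ideal.span {f}))ˣ →* FFˣ) (hf : f ≠ 0) :
    FreeAlgebra FF (GP (f ^ 2)) →ₐ[FF] Module.End FF (Hsp f χ) :=
  FreeAlgebra.lift FF (heckeH f χ hf)

omit [IsPrincipalIdealRing O] [FinQuot O] in
/-- the eigencharacter of the free algebra -/
noncomputable def La (χ : (Gi (O ⧸ Ideal.span {f}))ˣ →* FFˣ) :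
    FreeAlgebra FF (GP (f ^ 2)) →ₐ[FF] FF :=
  FreeAlgebra.lift FF (ap χ)

theorem LH_eig
    (htsq : ∀ π : O, Prime π → ∀ l, π ∣ l ^ 2 + 1 → ∃ w : Gi O, Associated w.norm π)
    (hf : f ≠ 0) (hscal : ∀ u, χ (giC u) = 1)
    (hJ : ∀ t, iota t = red f SerreE.J → χ t = 1)
    (u : GL (Fin 2) O) (hu : u * SerreE.J = SerreE.J * u) (tu : (Gi (O ⧸ Ideal.span {f}))ˣ)
    (htu : iota tu = red f u) (hχu : χ tu = 1) (x : FreeAlgebra FF (GP (f ^ 2))) :
    ∀ C : Hsp f χ, (LH χ hf x C).val u 1 = La χ x * C.val u 1 := by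
  induction x using FreeAlgebra.induction with
  | grade0 r =>
    intro C
    simp only [AlgHom.commutes, Module.algebraMap_end_apply]
    rfl
  | grade1 π =>
    intro C
    have e1 : LH χ hf (FreeAlgebra.ι FF π) = heckeH f χ hf π := by simp [LH]
    have e2 : La χ (FreeAlgebra.ι FF π) = ap χ π := by simp [La]
    rw [e1, e2]
    exact heckeH_eig htsq hf hscal hJ u hu tu htu hχu π C
  | mul a b iha ihb =>
    intro C
    rw [map_mul, map_mul, Module.End.mul_apply, iha, ihb]; ring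
  | add a b iha ihb =>
    intro C
    rw [map_add, map_add, LinearMap.add_apply, add_mul, ← iha, ← ihb]
    rfl

/-- the hypotheses of `fino` -/
structure Hyp (f : O) (χ : (Gi (O ⧸ Ideal.span {f}))ˣ →* FFˣ) : Prop where
  h2sq : ∀ t : O, (2 : O) ∣ t ^ 2 → (2 : O) ∣ t
  h2 : ¬ IsUnit (2 : O)
  h20 : (2 : O) ≠ 0
  hf : f ≠ 0
  hfu : ¬ IsUnit f
  hf2 : IsCoprime f 2
  hscal : ∀ u, χ (giC u) = 1

omit [IsPrincipalIdealRing O] in
theorem hfun_cls (H : Hyp f χ) (a : GL (Fin 2) (O ⧸ Ideal.span {f})) (C : Hsp f χ) :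
    IsCls (f ^ 2) (fun g : G (f ^ 2) => hfun f C.val a g) := by
  have : Finite (O ⧸ Ideal.span {f}) := FinQuot.fin f H.hf
  refine ⟨fun g g' => hfun_mul f H.hf χ H.hscal C.val C.2 a g g', fun g hg => ?_⟩
  have hg' : IsOfFinOrder (dconj f g) := MonoidHom.isOfFinOrder (dconjHom f H.hf) hg
  obtain ⟨-, d2, -, -, d5⟩ := dconj_spec f g
  exact fino H.h2sq H.h2 H.h20 f H.hfu H.hf2 χ H.hscal C.val C.2 (dconj f g)
    (by rw [d2]; exact Dvd.intro _ rfl) d5 hg' a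

/-- `h_a` as a linear map -/
noncomputable def hLin (H : Hyp f χ) (a : GL (Fin 2) (O ⧸ Ideal.span {f})) :
    Hsp f χ →ₗ[FF] HY (f ^ 2) where
  toFun C := Subtype.mk (p := fun x => x ∈ SerreK.H (f ^ 2)) (fun g => hfun f C.val a g)
    (hfun_cls H a C)
  map_add' C C' := by
    apply Subtype.ext
    funext γ
    exact hfun_add H.hf C.val C'.val a γ
  map_smul' c C := by
    apply Subtype.ext
    funext γ
    exact hfun_smul H.hf c C.val a γ

theorem hLin_apply (H : Hyp f χ) (a : GL (Fin 2) (O ⧸ Ideal.span {f})) (C : Hsp f χ)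
    (γ : Gam0 (f ^ 2)) : (hLin H a C).val γ = hfun f C.val a γ := rfl

theorem hLin_hecke (H : Hyp f χ) (a : GL (Fin 2) (O ⧸ Ideal.span {f})) (π : GP (f ^ 2))
    (C : Hsp f χ) : hLin H a (heckeH f χ H.hf π C) = T (f ^ 2) π.el π.ne (hLin H a C) := by
  letI := (hdata f H.hf π).fin
  apply Subtype.ext
  funext γ
  have h3 := hfun_hecke f π.el H.hf π.ne (hdata f H.hf π).ϖ χ
    H.hscal C.val C.2 a (hdata f H.hf π).t (hdata f H.hf π).F (hdata f H.hf π).FD
    (hdata f H.hf π).hF (hdata f H.hf π).hFD (hLin H a C) (hLin_apply H a C) γ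
  exact h3.symm

theorem hLin_LH (H : Hyp f χ) (x : FreeAlgebra FF (GP (f ^ 2))) :
    ∀ (C : Hsp f χ) (a), hLin H a (LH χ H.hf x C) =
      DFunLike.coe (F := Module.End FF (HY (f ^ 2))) (LYN (f ^ 2) x) (hLin H a C) := by
  induction x using FreeAlgebra.induction with
  | grade0 r =>
    intro C a
    simp only [AlgHom.commutes, Module.algebraMap_end_apply, map_smul]
    rfl
  | grade1 π =>
    intro C a
    have e1 : LH χ H.hf (FreeAlgebra.ι FF π) = heckeH f χ H.hf π := by simp [LH]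
    have e2 : LYN (f ^ 2) (FreeAlgebra.ι FF π) = TE (f ^ 2) π := by simp [LYN]
    rw [e1, e2, hLin_hecke]
    rfl
  | mul x y ihx ihy =>
    intro C a
    rw [map_mul, map_mul, Module.End.mul_apply, ihx, ihy]
    rfl
  | add x y ihx ihy =>
    intro C a
    rw [map_add, map_add, LinearMap.add_apply, map_add, ihx, ihy]
    rfl

theorem exists_phi
    (htsq : ∀ π : O, Prime π → ∀ l, π ∣ l ^ 2 + 1 → ∃ w : Gi O, Associated w.norm π)
    (H : Hyp f χ)
    (hJ : ∀ t, iota t = red f SerreE.J → χ t = 1)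
    (hprim : ∀ 𝔞 : Ideal (O ⧸ Ideal.span {f}), 𝔞 ≠ ⊥ →
      ∃ t : (Gi (O ⧸ Ideal.span {f}))ˣ, t.val.re - 1 ∈ 𝔞 ∧ t.val.im ∈ 𝔞 ∧ χ t ≠ 1)
    (hne : χ ≠ 1) (u : GL (Fin 2) O) (hu : u * SerreE.J = SerreE.J * u)
    (tu : (Gi (O ⧸ Ideal.span {f}))ˣ)
    (htu : iota tu = red f u) (hχu : χ tu = 1) (C : Hsp f χ) (hCu : C.val u 1 ≠ 0) :
    ∃ Φ : Eigenform (f ^ 2), ∀ π : GP (f ^ 2), Φ.ev π = ap χ π := by
  have key : ∀ x y, LYN (f ^ 2) x = LYN (f ^ 2) y → La χ x = La χ y := by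
    intro x y hxy
    have hz : ∀ a, hLin H a (LH χ H.hf x C) = hLin H a (LH χ H.hf y C) := by
      intro a
      rw [hLin_LH H x C a, hLin_LH H y C a, hxy]
    have hfin : Finite (O ⧸ Ideal.span {f}) := FinQuot.fin f H.hf
    have h0 : (LH χ H.hf x C - LH χ H.hf y C).val u 1 = 0 := by
      refine inj f H.hf (propV_quot_of (fun _ h => FinQuot.fin _ h) f H.hf H.hf2) χ H.hscal hprim
        hne (LH χ H.hf x C - LH χ H.hf y C).val
        (LH χ H.hf x C - LH χ H.hf y C).2 ?_ u tu htu hχu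
      intro a γ h1 h2
      obtain ⟨γ', hγ'⟩ := dconj_surj H.hf γ h1 h2
      have e1 := hLin_apply H a (LH χ H.hf x C) γ'
      have e2 := hLin_apply H a (LH χ H.hf y C) γ'
      have e3 := hfun_sub H.hf (LH χ H.hf x C).val (LH χ H.hf y C).val a γ'
      rw [← e1, ← e2, hz a, sub_self] at e3
      rw [hfun, hγ'] at e3
      exact e3
    have e4 : (LH χ H.hf x C - LH χ H.hf y C).val u 1 =
        (LH χ H.hf x C).val u 1 - (LH χ H.hf y C).val u 1 := rfl
    rw [e4, LH_eig htsq H.hf H.hscal hJ u hu tu htu hχu x C,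
      LH_eig htsq H.hf H.hscal hJ u hu tu htu hχu y C, ← sub_mul] at h0
    exact sub_eq_zero.mp ((mul_eq_zero.mp h0).resolve_right hCu)
  exact exists_hom_of_key (f ^ 2) (ap χ) key

theorem ap_eq
    (htsq : ∀ π : O, Prime π → ∀ l, π ∣ l ^ 2 + 1 → ∃ w : Gi O, Associated w.norm π)
    (hf : f ≠ 0) (hscal : ∀ u, χ (giC u) = 1)
    (hJ : ∀ t, iota t = red f SerreE.J → χ t = 1)
    (u : GL (Fin 2) O) (hu : u * SerreE.J = SerreE.J * u) (tu : (Gi (O ⧸ Ideal.span {f}))ˣ)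
    (htu : iota tu = red f u) (hχu : χ tu = 1) (C : Hsp f χ) (hCu : C.val u 1 ≠ 0)
    (π : GP (f ^ 2)) (w : Gi O) (t : (Gi (O ⧸ Ideal.span {f}))ˣ)
    (hw : Associated w.norm π.el) (ht : t.val = redGi f w) :
    ap χ π = (χ t : FF) + ((χ t)⁻¹ : FFˣ) := by
  have h2 : ¬ π.el ∣ 2 := fun hd => π.not_dvd (Dvd.dvd.mul_right hd _)
  letI := (hdata f hf π).fin
  have h1 := heckeH_eig htsq hf hscal hJ u hu tu htu hχu π C
  rw [heckeH_val, eig_split (hdata f hf π).FD π.prime h2 f _ (hdata f hf π).hϖ χ hscal hJ C.val C.2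
    u hu tu htu hχu w hw t ht] at h1
  exact (mul_right_cancel₀ hCu h1).symm

end core

end KP

theorem core_auxK {O : Type} [CommRing O] [IsDomain O] [IsPrincipalIdealRing O] [FinQuot O]
    (h2sq : ∀ t : O, (2 : O) ∣ t ^ 2 → (2 : O) ∣ t) (h2 : ¬ IsUnit (2 : O)) (h20 : (2 : O) ≠ 0)
    (htsq : ∀ π : O, Prime π → ∀ l, π ∣ l ^ 2 + 1 → ∃ w : Gi O, Associated w.norm π)
    (f : O) (hf : f ≠ 0) (hfu : ¬ IsUnit f) (hf2 : IsCoprime f 2)
    (χ : (Gi (O ⧸ Ideal.span {f}))ˣ →* FFˣ) (hscal : ∀ u, χ (giC u) = 1)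
    (hJ : ∀ t, iota t = red f SerreE.J → χ t = 1)
    (hprim : ∀ 𝔞 : Ideal (O ⧸ Ideal.span {f}), 𝔞 ≠ ⊥ →
      ∃ t : (Gi (O ⧸ Ideal.span {f}))ˣ, t.val.re - 1 ∈ 𝔞 ∧ t.val.im ∈ 𝔞 ∧ χ t ≠ 1)
    (hne : χ ≠ 1) (u : GL (Fin 2) O) (hu : u * SerreE.J = SerreE.J * u) (tu : (Gi (O ⧸ Ideal.span {f}))ˣ)
    (htu : iota tu = red f u) (hχu : χ tu = 1)
    (C : GL (Fin 2) O → GL (Fin 2) (O ⧸ Ideal.span {f}) → FF) (hC : IsCoc f χ C)
    (hCu : C u 1 ≠ 0) :
    ∃ Φ : Eigenform (f ^ 2), ∀ π : GP (f ^ 2),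
      (∀ (w : Gi O) (t : (Gi (O ⧸ Ideal.span {f}))ˣ), Associated w.norm π.el →
        t.val = redGi f w → Φ.ev π = (χ t : FF) + ((χ t)⁻¹ : FFˣ)) ∧
      ((∀ w : Gi O, ¬ Associated w.norm π.el) → Φ.ev π = 0) := by
  obtain ⟨Φ, hΦ⟩ := KP.exists_phi htsq (f := f) (χ := χ) ⟨h2sq, h2, h20, hf, hfu, hf2, hscal⟩ hJ
    hprim hne u hu tu htu hχu ⟨C, hC⟩ hCu
  refine ⟨Φ, fun π => ⟨fun w t hw ht => ?_, fun hn => ?_⟩⟩
  · rw [hΦ]
    exact KP.ap_eq htsq hf hscal hJ u hu tu htu hχu (⟨C, hC⟩ : KP.Hsp f χ) hCu π w t hw ht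
  · rw [hΦ]
    unfold KP.ap
    rw [dif_neg]
    rintro ⟨w, t, hw, -⟩
    exact hn w hw

end SerreK
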