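import Pool.Agent.SerreK.QDefs
import Pool.Agent.SerreK.GDefs

/-!
# PELL: the rings `OK n = ℤ[ω]`, `ω² = ω - (n + 1)`
`D = 4 n + 3`, `σ(ω) = (1 + i √D) / 2`, `|σ(a + b ω)|² = a² + a b + (n + 1) b²`.
-/

open Complex
open scoped QuadraticAlgebra

namespace SerreK

open SerreE

/-- the image of `ω` -/
noncomputable def wC (n : ℕ) : ℂ := ⟨1 / 2, Real.sqrt (4 * n + 3) / 2⟩

theorem sqrtD_sq (n : ℕ) : Real.sqrt (4 * n + 3) * Real.sqrt (4 * n + 3) = 4 * n + 3 :=
  Real.mul_self_sqrt (by positivity)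

theorem wC_sq (n : ℕ) : wC n * wC n = wC n - ((n : ℂ) + 1) := by
  have h := sqrtD_sq n
  apply Complex.ext
  · simp only [wC, mul_re, sub_re, add_re, natCast_re, one_re]
    linear_combination -h / 4
  · simp only [wC, mul_im, sub_im, add_im, natCast_im, one_im]
    ring

/-- the complex embedding, `ω ↦ (1 + i √(4n+3)) / 2` -/
noncomputable def sig (n : ℕ) : OK n →+* ℂ where
  toFun x := x.re + x.im * wC n
  map_one' := by simp [QuadraticAlgebra.re_one, QuadraticAlgebra.im_one]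
  map_zero' := by simp
  map_mul' x y := by
    have h := wC_sq n
    simp only [QuadraticAlgebra.re_mul, QuadraticAlgebra.im_mul]
    push_cast
    linear_combination -(x.im * y.im : ℂ) * h
  map_add' x y := by
    simp only [QuadraticAlgebra.re_add, QuadraticAlgebra.im_add]
    push_cast
    ring

theorem sig_apply (n : ℕ) (x : OK n) : sig n x = x.re + x.im * wC n := rfl

theorem sig_normSq (n : ℕ) (x : OK n) :
    normSq (sig n x) = (x.re ^ 2 + x.re * x.im + (n + 1) * x.im ^ 2 : ℤ) := by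
  have h := sqrtD_sq n
  rw [sig_apply, normSq_apply]
  simp only [wC, add_re, mul_re, add_im, mul_im, intCast_re, intCast_im]
  push_cast
  linear_combination (x.im : ℝ) ^ 2 * h / 4

theorem nrm4 (n : ℕ) (x : OK n) : 4 * (x.re ^ 2 + x.re * x.im + (n + 1) * x.im ^ 2 : ℤ) =
    (2 * x.re + x.im) ^ 2 + (4 * n + 3) * x.im ^ 2 := by ring

theorem nrm_zero {n : ℕ} {x : OK n} (h : (x.re ^ 2 + x.re * x.im + (n + 1) * x.im ^ 2 : ℤ) = 0) :
    x = 0 := by
  have h1 := nrm4 n x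
  rw [h] at h1
  have h2 : (0 : ℤ) ≤ (2 * x.re + x.im) ^ 2 := sq_nonneg _
  have h3 : (0 : ℤ) ≤ x.im ^ 2 := sq_nonneg _
  have h4 : (0 : ℤ) ≤ 4 * n * x.im ^ 2 := by positivity
  have h5 : x.im ^ 2 = 0 := by nlinarith
  have h6 : x.im = 0 := by simpa using h5
  have h7 : (2 * x.re + x.im) ^ 2 = 0 := by nlinarith
  have h8 : 2 * x.re + x.im = 0 := by simpa using h7
  have h9 : x.re = 0 := by omega
  exact QuadraticAlgebra.ext h9 h6

theorem sig_imQ (n : ℕ) : ImQ (sig n) where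
  inj := by
    rw [injective_iff_map_eq_zero]
    intro x hx
    have h1 := sig_normSq n x
    rw [hx, map_zero] at h1
    exact nrm_zero (by exact_mod_cast h1.symm)
  int := by
    intro x
    have h1 := sig_normSq n x
    have h2 : (0 : ℤ) ≤ x.re ^ 2 + x.re * x.im + (n + 1) * x.im ^ 2 := by
      have h3 : (0 : ℝ) ≤ ((x.re ^ 2 + x.re * x.im + (n + 1) * x.im ^ 2 : ℤ) : ℝ) := by
        rw [← h1]; exact normSq_nonneg _
      exact_mod_cast h3
    obtain ⟨m, hm⟩ := Int.eq_ofNat_of_zero_le h2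
    refine ⟨m, ?_⟩
    rw [h1, hm]
    rfl
  fin := by
    intro B
    obtain ⟨M, hM⟩ := exists_nat_ge (4 * B)
    have hfin : (Set.range (fun p : Set.Icc (-(M : ℤ)) M × Set.Icc (-(M : ℤ)) M =>
        (⟨p.1.val, p.2.val⟩ : OK n))).Finite := Set.finite_range _
    refine hfin.subset ?_
    intro x hx
    have hx' : normSq (sig n x) ≤ B := hx
    rw [sig_normSq] at hx'
    have h1 : (4 * (x.re ^ 2 + x.re * x.im + (n + 1) * x.im ^ 2) : ℤ) ≤ M := by
      have : ((4 * (x.re ^ 2 + x.re * x.im + (n + 1) * x.im ^ 2) : ℤ) : ℝ) ≤ (M : ℝ) := by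
        push_cast at hx' ⊢
        linarith
      exact_mod_cast this
    rw [nrm4] at h1
    have h4 : (0 : ℤ) ≤ 4 * n * x.im ^ 2 := by positivity
    have a1 : x.im ≤ M := by nlinarith [sq_nonneg (2 * x.re + x.im), sq_nonneg x.im]
    have a2 : -(M : ℤ) ≤ x.im := by nlinarith [sq_nonneg (2 * x.re + x.im), sq_nonneg x.im]
    have e : (2 * x.re + x.im) ^ 2 + 3 * x.im ^ 2 = 3 * x.re ^ 2 + (x.re + 2 * x.im) ^ 2 := by ring
    have a3 : x.re ≤ M := by nlinarith [sq_nonneg (x.re + 2 * x.im), sq_nonneg x.re]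
    have a4 : -(M : ℤ) ≤ x.re := by nlinarith [sq_nonneg (x.re + 2 * x.im), sq_nonneg x.re]
    exact ⟨(⟨x.re, a4, a3⟩, ⟨x.im, a2, a1⟩), rfl⟩

instance (n : ℕ) : IsDomain (OK n) := (sig_imQ n).inj.isDomain (sig n)

instance (n : ℕ) : FinQuot (OK n) where
  fin f hf := Ideal.finiteQuotientOfFreeOfNeBot (Ideal.span {f})
    (by rwa [Ne, Ideal.span_singleton_eq_bot])

theorem two_eq (n : ℕ) : (2 : OK n) = algebraMap ℤ (OK n) 2 := by
  apply QuadraticAlgebra.ext
  · simp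
  · simp

/-- `2` is unramified and not a unit. -/
theorem two_sq (n : ℕ) (t : OK n) (h : (2 : OK n) ∣ t ^ 2) : (2 : OK n) ∣ t := by
  rw [two_eq, QuadraticAlgebra.algebraMap_dvd_iff] at h ⊢
  obtain ⟨h1, h2⟩ := h
  rw [sq] at h1 h2
  rw [QuadraticAlgebra.re_mul] at h1
  rw [QuadraticAlgebra.im_mul] at h2
  have h3 : (2 : ℤ) ∣ t.im * t.im := by
    have e : t.re * t.im + t.im * t.re + 1 * t.im * t.im = 2 * (t.re * t.im) + t.im * t.im := by
      ring
    rw [e] at h2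
    exact (Int.dvd_add_right (Dvd.intro _ rfl)).mp h2
  have h4 : (2 : ℤ) ∣ t.im := by
    rcases Int.prime_two.dvd_mul.mp h3 with h | h <;> exact h
  have h5 : (2 : ℤ) ∣ t.re * t.re := by
    have h6 : (2 : ℤ) ∣ -((n : ℤ) + 1) * t.im * t.im := Dvd.dvd.mul_left h4 _
    exact (Int.dvd_add_left h6).mp h1
  have h7 : (2 : ℤ) ∣ t.re := by
    rcases Int.prime_two.dvd_mul.mp h5 with h | h <;> exact h
  exact ⟨h7, h4⟩

theorem two_not_unit (n : ℕ) : ¬ IsUnit (2 : OK n) := by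
  intro h
  have h1 := h.dvd (a := (1 : OK n))
  rw [two_eq, QuadraticAlgebra.algebraMap_dvd_iff] at h1
  have h2 : (2 : ℤ) ∣ 1 := by simpa [QuadraticAlgebra.re_one] using h1.1
  omega

theorem sig_sqrtD (n : ℕ) : sig n ⟨-1, 2⟩ = I * Real.sqrt (4 * n + 3) := by
  rw [sig_apply]
  apply Complex.ext
  · simp [wC]
  · simp [wC]
    ring

/-- a unit of `O[i]` of infinite order. -/
theorem exists_unit (n : ℕ) :
    ∃ w : (Gi (OK n))ˣ, normSq (sig n w.val.re + I * sig n w.val.im) ≠ 1 := by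
  obtain ⟨x, y, hxy, hy⟩ := Pell.exists_of_not_isSquare (d := 4 * (n : ℤ) + 3) (by positivity) (by
    rintro ⟨r, hr⟩
    have h1 : (r * r) % 4 = 3 := by omega
    have h2 : r % 4 = 0 ∨ r % 4 = 1 ∨ r % 4 = 2 ∨ r % 4 = 3 := by omega
    rcases h2 with h | h | h | h <;> simp [Int.mul_emod, h] at h1)
  have hs : (⟨-1, 2⟩ : OK n) * ⟨-1, 2⟩ = -(4 * (n : OK n) + 3) := by
    apply QuadraticAlgebra.ext
    · simp
      ring
    · simp
  have hp : ((x : OK n) ^ 2 - (4 * (n : OK n) + 3) * (y : OK n) ^ 2) = 1 := by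
    have := congrArg (fun z : ℤ => (z : OK n)) hxy
    push_cast at this
    exact this
  have hu : (⟨(x : OK n), -(y : OK n) * ⟨-1, 2⟩⟩ : Gi (OK n)) * ⟨(x : OK n), (y : OK n) * ⟨-1, 2⟩⟩ = 1 := by
    apply QuadraticAlgebra.ext
    · rw [QuadraticAlgebra.re_mul, QuadraticAlgebra.re_one]
      linear_combination hp + (y : OK n) ^ 2 * hs
    · rw [QuadraticAlgebra.im_mul, QuadraticAlgebra.im_one]
      ring
  refine ⟨⟨_, _, hu, by rw [mul_comm]; exact hu⟩, ?_⟩
  change normSq (sig n (x : OK n) + I * sig n (-(y : OK n) * ⟨-1, 2⟩)) ≠ 1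
  rw [map_mul, map_neg, map_intCast, map_intCast, sig_sqrtD]
  have e : (x : ℂ) + I * (-(y : ℂ) * (I * Real.sqrt (4 * n + 3))) =
      ((x + y * Real.sqrt (4 * n + 3) : ℝ) : ℂ) := by
    push_cast
    linear_combination -(y : ℂ) * (Real.sqrt (4 * n + 3) : ℂ) * I_mul_I
  rw [e, normSq_ofReal]
  intro h
  have hD := sqrtD_sq n
  set s := Real.sqrt (4 * n + 3) with hs'
  have hp' : (x : ℝ) ^ 2 - (4 * n + 3) * (y : ℝ) ^ 2 = 1 := by exact_mod_cast hxy
  have h1 : ((x : ℝ) + y * s) * (x - y * s) = 1 := by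
    linear_combination hp' - (y : ℝ) ^ 2 * hD
  have h2 : ((x : ℝ) + y * s) ≠ 0 := left_ne_zero_of_mul_eq_one h1
  have h3 : ((x : ℝ) + y * s) = x - y * s := mul_left_cancel₀ h2 (h.trans h1.symm)
  have h4 : (y : ℝ) * s = 0 := by linarith
  rcases mul_eq_zero.mp h4 with h5 | h5
  · exact hy (by exact_mod_cast h5)
  · rw [h5] at hD
    have : (0 : ℝ) ≤ n := Nat.cast_nonneg n
    linarith

end SerreK
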