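import Pool.Agent.SerreK.GDefs

/-!
# AXIS1: symmetries of `Hit`, finiteness, sums over the group
-/

namespace SerreK

/-! ### Symmetries -/

theorem hit_swap12 {a b c p q : V} : Hit a b c p q ↔ Hit b a c p q := by
  constructor <;>
  · rintro ⟨x, y, z, s, t, hx, hy, hz, hs, ht, h⟩
    exact ⟨y, x, z, s, t, hy, hx, hz, hs, ht, by rw [← h]; abel⟩

theorem hit_swap23 {a b c p q : V} : Hit a b c p q ↔ Hit a c b p q := by
  constructor <;>
  · rintro ⟨x, y, z, s, t, hx, hy, hz, hs, ht, h⟩
    exact ⟨x, z, y, s, t, hx, hz, hy, hs, ht, by rw [← h]; abel⟩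

theorem hit_swap {a b c p q : V} : Hit a b c p q ↔ Hit a b c q p := by
  constructor <;>
  · rintro ⟨x, y, z, s, t, hx, hy, hz, hs, ht, h⟩
    exact ⟨x, y, z, t, s, hx, hy, hz, ht, hs, by rw [h]; abel⟩

theorem hit_map_aux {a b c p q : V} (L : V →ₗ[ℝ] V) (h : Hit a b c p q) :
    Hit (L a) (L b) (L c) (L p) (L q) := by
  obtain ⟨x, y, z, s, t, hx, hy, hz, hs, ht, h⟩ := h
  refine ⟨x, y, z, s, t, hx, hy, hz, hs, ht, ?_⟩
  have := congrArg L h
  simpa using this

section
variable {Γ : Type} [Group Γ] (ρ : Γ →* (V →ₗ[ℝ] V))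

theorem rho_mul (g h : Γ) (v : V) : ρ (g * h) v = ρ g (ρ h v) := by
  rw [map_mul]; rfl

theorem rho_one (v : V) : ρ 1 v = v := by
  rw [map_one]; rfl

theorem rho_inv_self (g : Γ) (v : V) : ρ g⁻¹ (ρ g v) = v := by
  rw [← rho_mul, inv_mul_cancel, rho_one]

theorem rho_self_inv (g : Γ) (v : V) : ρ g (ρ g⁻¹ v) = v := by
  rw [← rho_mul, mul_inv_cancel, rho_one]

theorem hit_map (g : Γ) {a b c p q : V} :
    Hit (ρ g a) (ρ g b) (ρ g c) (ρ g p) (ρ g q) ↔ Hit a b c p q := by
  constructor
  · intro h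
    have := hit_map_aux (ρ g⁻¹) h
    simpa only [rho_inv_self] using this
  · exact hit_map_aux (ρ g)

theorem hit_inv (g : Γ) {a b c p q : V} :
    Hit a b c (ρ g p) (ρ g q) ↔ Hit (ρ g⁻¹ a) (ρ g⁻¹ b) (ρ g⁻¹ c) p q := by
  rw [← hit_map ρ g⁻¹, rho_inv_self, rho_inv_self]

theorem hit_inv' (g : Γ) {a b c p q : V} :
    Hit (ρ g a) (ρ g b) (ρ g c) p q ↔ Hit a b c (ρ g⁻¹ p) (ρ g⁻¹ q) := by
  rw [← hit_map ρ g⁻¹, rho_inv_self, rho_inv_self, rho_inv_self]

/-! ### Sums -/

variable {k : Type} [Field k]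

theorem ind_congr {P Q : Prop} (h : P ↔ Q) : ind k P = ind k Q := by
  rw [show P = Q from propext h]

theorem ind_true {P : Prop} (h : P) : ind k P = 1 := by
  unfold ind; rw [if_pos h]

theorem ind_false {P : Prop} (h : ¬ P) : ind k P = 0 := by
  unfold ind; rw [if_neg h]

variable (ψ : Γ →* kˣ)

/-- summand for a moving triangle and a fixed segment -/
noncomputable def iA (a b c p q : V) (δ : Γ) : k :=
  (ψ δ : k) * ind k (Hit (ρ δ a) (ρ δ b) (ρ δ c) p q)

/-- summand for a fixed triangle and a moving segment -/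
noncomputable def iB (a b c p q : V) (δ : Γ) : k :=
  (ψ δ : k) * ind k (Hit a b c (ρ δ p) (ρ δ q))

/-- properness -/
def Proper : Prop := ∀ a b c p q : V, InC a → InC b → InC c → InC p → InC q →
      {g | Hit (ρ g a) (ρ g b) (ρ g c) p q}.Finite

variable {ρ}

theorem iA_fin (hP : Proper ρ) {a b c p q : V} (ha : InC a) (hb : InC b) (hc : InC c)
    (hp : InC p) (hq : InC q) : (Function.support (iA ρ ψ a b c p q)).Finite := by
  refine (hP a b c p q ha hb hc hp hq).subset ?_
  intro δ hδ
  rw [Function.mem_support] at hδ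
  by_contra h
  apply hδ
  unfold iA
  rw [ind_false (P := Hit (ρ δ a) (ρ δ b) (ρ δ c) p q) h, mul_zero]

theorem iB_fin (hP : Proper ρ) {a b c p q : V} (ha : InC a) (hb : InC b) (hc : InC c)
    (hp : InC p) (hq : InC q) : (Function.support (iB ρ ψ a b c p q)).Finite := by
  have h1 := (hP a b c p q ha hb hc hp hq).image (fun g : Γ => g⁻¹)
  refine h1.subset ?_
  intro δ hδ
  rw [Function.mem_support] at hδ
  refine ⟨δ⁻¹, ?_, inv_inv δ⟩
  by_contra h
  apply hδ
  unfold iB
  rw [ind_false, mul_zero]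
  intro h'
  exact h ((hit_inv ρ δ).mp h')

theorem iA_swap (a b c p q : V) : iA ρ ψ a b c q p = iA ρ ψ a b c p q := by
  funext δ
  unfold iA
  rw [ind_congr hit_swap]

theorem iB_swap (a b c p q : V) : iB ρ ψ a b c q p = iB ρ ψ a b c p q := by
  funext δ
  unfold iB
  rw [ind_congr hit_swap]

/-- equivariance in the segment -/
theorem iA_mul (g : Γ) (a b c p q : V) (δ : Γ) :
    iA ρ ψ a b c (ρ g p) (ρ g q) (g * δ) = (ψ g : k) * iA ρ ψ a b c p q δ := by
  unfold iA
  rw [rho_mul, rho_mul, rho_mul, ind_congr (hit_map ρ g), map_mul, Units.val_mul]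
  ring

/-- equivariance in the segment -/
theorem iB_mul (g : Γ) (a b c p q : V) (δ : Γ) :
    iB ρ ψ a b c (ρ g p) (ρ g q) δ = ((ψ g)⁻¹ : kˣ) * iB ρ ψ a b c p q (δ * g) := by
  unfold iB
  rw [rho_mul, rho_mul, map_mul, Units.val_mul]
  have : (((ψ g)⁻¹ : kˣ) : k) * (ψ g : k) = 1 := Units.inv_mul _
  linear_combination (-(ψ δ : k) * ind k (Hit a b c (ρ δ (ρ g p)) (ρ δ (ρ g q)))) * this

/-- summation with a weight -/
noncomputable def wsum (ε : Γ → k) (F : Γ → k) : k := ∑ᶠ δ, ε δ * F δ

theorem wsum_supp {ε F : Γ → k} (hF : (Function.support F).Finite) :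
    (Function.support (fun δ => ε δ * F δ)).Finite := by
  refine hF.subset ?_
  intro δ hδ
  rw [Function.mem_support] at hδ ⊢
  intro h
  apply hδ
  rw [h, mul_zero]

theorem wsum_add (ε : Γ → k) {F F' : Γ → k} (hF : (Function.support F).Finite)
    (hF' : (Function.support F').Finite) :
    wsum ε (fun δ => F δ + F' δ) = wsum ε F + wsum ε F' := by
  unfold wsum
  rw [← finsum_add_distrib (wsum_supp hF) (wsum_supp hF')]
  apply finsum_congr
  intro δ
  ring

theorem supp_add {F F' : Γ → k} (hF : (Function.support F).Finite)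
    (hF' : (Function.support F').Finite) : (Function.support (fun δ => F δ + F' δ)).Finite := by
  refine (hF.union hF').subset ?_
  intro δ hδ
  by_contra h
  rw [Set.mem_union, not_or, Function.notMem_support, Function.notMem_support] at h
  rw [Function.mem_support] at hδ
  apply hδ
  rw [h.1, h.2, add_zero]

theorem wsum_const (ε : Γ → k) (c : k) {F : Γ → k} (hF : (Function.support F).Finite) :
    wsum ε (fun δ => c * F δ) = c * wsum ε F := by
  unfold wsum
  rw [mul_finsum (fun δ => ε δ * F δ) c]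
  apply finsum_congr
  intro δ
  ring

theorem wsum_congr (ε : Γ → k) {F F' : Γ → k} (h : ∀ δ, F δ = F' δ) : wsum ε F = wsum ε F' := by
  have : F = F' := funext h
  rw [this]

/-- reindexing -/
theorem wsum_equiv (e : Γ ≃ Γ) (ε F : Γ → k) :
    wsum (fun δ => ε (e δ)) (fun δ => F (e δ)) = wsum ε F :=
  finsum_comp_equiv e (f := fun δ => ε δ * F δ)

variable [CharP k 2]

/-- a sum over free orbits of an involution vanishes -/
theorem finsum_involution {F : Γ → k} (hF : (Function.support F).Finite) (τ : Γ → Γ)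
    (h1 : ∀ δ, τ (τ δ) = δ) (h2 : ∀ δ, F δ ≠ 0 → τ δ ≠ δ) (h3 : ∀ δ, F (τ δ) = F δ) :
    ∑ᶠ δ, F δ = 0 := by
  classical
  rw [finsum_eq_sum F hF]
  refine Finset.sum_involution (fun δ _ => τ δ) ?_ ?_ ?_ ?_
  · intro δ _
    rw [h3]
    exact CharTwo.add_self_eq_zero _
  · intro δ _ h
    exact h2 δ h
  · intro δ hδ
    rw [Set.Finite.mem_toFinset, Function.mem_support] at hδ ⊢
    rw [h3]; exact hδ
  · intro δ _
    exact h1 δ

/-- independence of the weight -/
theorem wsum_indep {J : Γ} (hJ2 : J * J = 1) (hJ1 : J ≠ 1) {ε ε' F : Γ → k}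
    (hF : (Function.support F).Finite) (h : ∀ δ, ε δ + ε (J * δ) = 1)
    (h' : ∀ δ, ε' δ + ε' (J * δ) = 1) (hFJ : ∀ δ, F (J * δ) = F δ) :
    wsum ε F = wsum ε' F := by
  have h0 : wsum ε F + wsum ε' F = 0 := by
    unfold wsum
    rw [← finsum_add_distrib (wsum_supp hF) (wsum_supp hF)]
    refine finsum_involution (supp_add (wsum_supp hF) (wsum_supp hF)) (fun δ => J * δ) ?_ ?_ ?_
    · intro δ
      rw [← mul_assoc, hJ2, one_mul]
    · intro δ _ h1
      exact hJ1 (mul_eq_right.mp h1)
    · intro δ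
      rw [hFJ]
      have a1 : ε (J * δ) = 1 - ε δ := by rw [← h δ]; ring
      have a2 : ε' (J * δ) = 1 - ε' δ := by rw [← h' δ]; ring
      rw [a1, a2]
      have h2 : (2 : k) = 0 := CharTwo.two_eq_zero
      linear_combination (F δ - ε δ * F δ - ε' δ * F δ) * h2
  exact CharTwo.add_eq_zero.mp h0

/-- invariance of the half sum under right translation -/
theorem wsum_right {J : Γ} (hJ2 : J * J = 1) (hJ1 : J ≠ 1) {ε F : Γ → k}
    (hF : (Function.support F).Finite) (h : ∀ δ, ε δ + ε (J * δ) = 1)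
    (hFJ : ∀ δ, F (J * δ) = F δ) (g : Γ) :
    wsum ε (fun δ => F (δ * g)) = wsum ε F := by
  rw [← wsum_equiv (Equiv.mulRight g⁻¹) ε (fun δ => F (δ * g))]
  have e : (fun δ => (fun δ => F (δ * g)) ((Equiv.mulRight g⁻¹) δ)) = F := by
    funext δ
    change F (δ * g⁻¹ * g) = F δ
    rw [inv_mul_cancel_right]
  rw [e]
  refine wsum_indep hJ2 hJ1 hF ?_ h hFJ
  intro δ
  change ε (δ * g⁻¹) + ε (J * δ * g⁻¹) = 1
  rw [mul_assoc]
  exact h _

/-- invariance of the half sum under left translation by an element commuting with `J` -/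
theorem wsum_left {J : Γ} (hJ2 : J * J = 1) (hJ1 : J ≠ 1) {ε F : Γ → k}
    (hF : (Function.support F).Finite) (h : ∀ δ, ε δ + ε (J * δ) = 1)
    (hFJ : ∀ δ, F (J * δ) = F δ) (g : Γ) (hg : g * J = J * g) :
    wsum ε (fun δ => F (g * δ)) = wsum ε F := by
  rw [← wsum_equiv (Equiv.mulLeft g⁻¹) ε (fun δ => F (g * δ))]
  have e : (fun δ => (fun δ => F (g * δ)) ((Equiv.mulLeft g⁻¹) δ)) = F := by
    funext δ
    change F (g * (g⁻¹ * δ)) = F δ
    rw [mul_inv_cancel_left]
  rw [e]
  refine wsum_indep hJ2 hJ1 hF ?_ h hFJ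
  intro δ
  change ε (g⁻¹ * δ) + ε (g⁻¹ * (J * δ)) = 1
  have e2 : g⁻¹ * (J * δ) = J * (g⁻¹ * δ) := by
    rw [← mul_assoc, ← mul_assoc]
    congr 1
    rw [inv_mul_eq_iff_eq_mul, ← mul_assoc, hg, mul_inv_cancel_right]
  rw [e2]
  exact h _

omit [CharP k 2] in
/-- the half sum of a symmetrised function is a full sum -/
theorem wsum_sym {J : Γ} (hJ2 : J * J = 1) {ε F : Γ → k}
    (hF : (Function.support F).Finite) (h : ∀ δ, ε δ + ε (J * δ) = 1) :
    wsum ε (fun δ => F δ + F (J * δ)) = ∑ᶠ δ, F δ := by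
  have hF' : (Function.support (fun δ => F (J * δ))).Finite := by
    have : (fun δ => F (J * δ)) = F ∘ (Equiv.mulLeft J) := rfl
    rw [this, Function.support_comp_eq_preimage]
    exact hF.preimage (Equiv.injective _).injOn
  rw [wsum_add ε hF hF']
  have e1 : wsum ε (fun δ => F (J * δ)) = wsum (fun δ => ε (J * δ)) F := by
    rw [← wsum_equiv (Equiv.mulLeft J) (fun δ => ε δ) (fun δ => F (J * δ))]
    unfold wsum
    apply finsum_congr
    intro δ
    change ε (J * δ) * F (J * (J * δ)) = ε (J * δ) * F δ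
    rw [← mul_assoc J J, hJ2, one_mul]
  rw [e1]
  unfold wsum
  rw [← finsum_add_distrib (wsum_supp hF) (wsum_supp hF)]
  apply finsum_congr
  intro δ
  rw [← add_mul, h, one_mul]

omit [CharP k 2] in
/-- existence of an adapted weight -/
theorem exists_weight {J η : Γ} (hJ2 : J * J = 1) (hJ1 : J ≠ 1) (hηJ : η * J = J * η)
    (hη : ∀ n : ℤ, η ^ n = 1 → n = 0)
    (hZ : ∀ g, g * J = J * g → ∃ n : ℤ, g = η ^ n ∨ g = J * η ^ n) :
    ∃ ε : Γ → k, (∀ δ, ε δ + ε (J * δ) = 1) ∧ (∀ δ, δ * J ≠ J * δ → ε (δ * J) = ε δ) ∧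
      (∀ n : ℤ, ε (η ^ n) = 1 ∧ ε (J * η ^ n) = 0) := by
  classical
  -- the equivalence relation given by left and right multiplication by `J`
  let S : Setoid Γ :=
    { r := fun a b => b = a ∨ b = J * a ∨ b = a * J ∨ b = J * a * J
      iseqv := by
        refine ⟨fun a => Or.inl rfl, ?_, ?_⟩
        · rintro a b (h | h | h | h)
          · exact Or.inl h.symm
          · refine Or.inr (Or.inl ?_)
            rw [h, ← mul_assoc, hJ2, one_mul]
          · refine Or.inr (Or.inr (Or.inl ?_))
            rw [h, mul_assoc, hJ2, mul_one]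
          · refine Or.inr (Or.inr (Or.inr ?_))
            rw [h]
            calc a = J * J * a * (J * J) := by rw [hJ2, one_mul, mul_one]
              _ = _ := by group
        · have key : ∀ a : Γ, J * (J * a) = a := fun a => by rw [← mul_assoc, hJ2, one_mul]
          have key' : ∀ a : Γ, a * J * J = a := fun a => by rw [mul_assoc, hJ2, mul_one]
          rintro a b c (h | h | h | h) (h' | h' | h' | h') <;> subst h <;> subst h' <;>
            simp only [key, key', mul_assoc, true_or, or_true, mul_one] }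
  have hout : ∀ δ, δ = (Quotient.mk S δ).out ∨ δ = J * (Quotient.mk S δ).out ∨
      δ = (Quotient.mk S δ).out * J ∨ δ = J * (Quotient.mk S δ).out * J := by
    intro δ
    have : S.r (Quotient.mk S δ).out δ := Quotient.exact (Quotient.out_eq _)
    exact this
  have hcl1 : ∀ δ, Quotient.mk S (J * δ) = Quotient.mk S δ := by
    intro δ
    symm
    apply Quotient.sound
    exact Or.inr (Or.inl rfl)
  have hcl2 : ∀ δ, Quotient.mk S (δ * J) = Quotient.mk S δ := by
    intro δ
    symm
    apply Quotient.sound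
    exact Or.inr (Or.inr (Or.inl rfl))
  have hηn : ∀ n : ℤ, η ^ n * J = J * η ^ n := by
    intro n
    have : Commute η J := hηJ
    exact (this.zpow_left n).eq
  have hne : ∀ n m : ℤ, J * η ^ n ≠ η ^ m := by
    intro n m h
    have h1 : J = η ^ (m - n) := by
      rw [zpow_sub, ← h, mul_inv_cancel_right]
    have h2 : η ^ (m - n + (m - n)) = 1 := by rw [zpow_add, ← h1, hJ2]
    have h3 := hη _ h2
    have h4 : m - n = 0 := by omega
    rw [h4, zpow_zero] at h1
    exact hJ1 h1
  refine ⟨fun δ => if δ * J = J * δ then (if ∃ n : ℤ, δ = η ^ n then 1 else 0) else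
    (if δ = (Quotient.mk S δ).out ∨ δ = (Quotient.mk S δ).out * J then 1 else 0), ?_, ?_, ?_⟩
  · intro δ
    by_cases hc : δ * J = J * δ
    · have hc' : J * δ * J = J * (J * δ) := by rw [mul_assoc, hc]
      beta_reduce
      rw [if_pos hc, if_pos hc']
      obtain ⟨n, hn | hn⟩ := hZ δ hc
      · rw [if_pos ⟨n, hn⟩, if_neg, add_zero]
        rintro ⟨m, hm⟩
        rw [hn] at hm
        exact hne n m hm
      · rw [if_neg, if_pos, zero_add]
        · refine ⟨n, ?_⟩
          rw [hn, ← mul_assoc, hJ2, one_mul]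
        · rintro ⟨m, hm⟩
          rw [hn] at hm
          exact hne n m hm
    · have hc' : ¬ J * δ * J = J * (J * δ) := by
        intro h
        apply hc
        rw [mul_assoc] at h
        exact mul_left_cancel h
      beta_reduce
      rw [if_neg hc, if_neg hc', hcl1]
      set r := (Quotient.mk S δ).out with hr
      have hor := hout δ
      rw [← hr] at hor
      have hrc : r * J ≠ J * r := by
        intro h
        apply hc
        have hrJ : Commute r J := h
        have hJJ : Commute J J := Commute.refl J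
        rcases hor with h' | h' | h' | h' <;> rw [h']
        · exact hrJ.eq
        · exact (hJJ.mul_left hrJ).eq
        · exact (hrJ.mul_left hJJ).eq
        · exact ((hJJ.mul_left hrJ).mul_left hJJ).eq
      have hA : ∀ x : Γ, x ≠ J * x := fun x h => hJ1 (right_eq_mul.mp h)
      have hB : ∀ x : Γ, x ≠ x * J := fun x h => hJ1 (left_eq_mul.mp h)
      have hC1 : r ≠ J * r * J := by
        intro h
        apply hrc
        have := congrArg (fun x => J * x) h
        simp only [← mul_assoc, hJ2, one_mul] at this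
        exact this.symm
      rcases hor with h' | h' | h' | h'
      · rw [if_pos (Or.inl h'), if_neg, add_zero]
        rw [h']
        rintro (h | h)
        · exact hA r h.symm
        · exact hrc h.symm
      · rw [if_neg, if_pos, zero_add]
        · left; rw [h', ← mul_assoc, hJ2, one_mul]
        · rw [h']
          rintro (h | h)
          · exact hA r h.symm
          · exact hrc h.symm
      · rw [if_pos (Or.inr h'), if_neg, add_zero]
        rw [h', ← mul_assoc]
        rintro (h | h)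
        · exact hC1 h.symm
        · exact hA (r) (mul_right_cancel h).symm
      · rw [if_neg, if_pos, zero_add]
        · right; rw [h', ← mul_assoc, ← mul_assoc, hJ2, one_mul]
        · rw [h']
          rintro (h | h)
          · exact hC1 h.symm
          · exact hA (r) (mul_right_cancel h).symm
  · intro δ hc
    have hc' : ¬ δ * J * J = J * (δ * J) := by
      intro h
      apply hc
      rw [mul_assoc, hJ2, mul_one, ← mul_assoc] at h
      have := congrArg (fun x => x * J) h
      simp only [mul_assoc, hJ2, mul_one] at this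
      exact this
    beta_reduce
    rw [if_neg hc, if_neg hc', hcl2]
    congr 1
    apply propext
    constructor
    · rintro (h | h)
      · right; rw [← h, mul_assoc, hJ2, mul_one]
      · left; exact mul_right_cancel h
    · rintro (h | h)
      · right; exact congrArg (fun x => x * J) h
      · left
        have h3 := congrArg (fun x => x * J) h
        simp only [mul_assoc, hJ2, mul_one] at h3
        exact h3
  · intro n
    have hc := hηn n
    have hc' : J * η ^ n * J = J * (J * η ^ n) := by rw [mul_assoc, hc]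
    beta_reduce
    rw [if_pos hc, if_pos hc', if_pos ⟨n, rfl⟩, if_neg]
    · exact ⟨rfl, rfl⟩
    · rintro ⟨m, hm⟩
      exact hne n m hm

end

end SerreK
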