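import Pool.Agent.SerreK.GDefs

/-!
# COUNT: counting points of an arithmetic progression, and the two-dimensional reduction
-/

namespace SerreK

theorem ind_btw (k : Type*) [Field k] [CharP k 2] {t u v : ℝ} (hu : t ≠ u) (hv : t ≠ v) :
    ind k (btw t u v) = ind k (u < t) + ind k (v < t) := by
  have h2 : (1 : k) + 1 = 0 := CharTwo.add_self_eq_zero 1
  unfold ind btw
  rcases lt_or_gt_of_ne hu with h1 | h1 <;> rcases lt_or_gt_of_ne hv with h3 | h3
  · have a1 : ¬ u < t := not_lt.2 h1.le
    have a2 : ¬ v < t := not_lt.2 h3.le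
    simp [a1, a2]
  · have a1 : ¬ u < t := not_lt.2 h1.le
    simp [a1, h3, h1]
  · have a2 : ¬ v < t := not_lt.2 h3.le
    simp [a2, h1, h3]
  · have a1 : ¬ t < u := not_lt.2 h1.le
    have a2 : ¬ t < v := not_lt.2 h3.le
    simp [a1, a2, h1, h3, h2]

theorem count_btw (k : Type*) [Field k] [CharP k 2] (a o y b : ℝ) (hb : 0 < b)
    (ho : ∀ n : ℤ, a + n * b ≠ o) (hy : ∀ n : ℤ, a + n * b ≠ y) :
    ∑ᶠ n : ℤ, (ind k (btw (a + n * b) o y) + ind k (btw (a + n * b) o (y + b))) = 1 := by
  classical
  have hyb : ∀ n : ℤ, a + n * b ≠ y + b := by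
    intro n h
    apply hy (n - 1)
    push_cast
    linarith
  have hterm : ∀ n : ℤ, ind k (btw (a + n * b) o y) + ind k (btw (a + n * b) o (y + b)) =
      ind k (y < a + n * b ∧ a + n * b < y + b) := by
    intro n
    rw [ind_btw k (ho n) (hy n), ind_btw k (ho n) (hyb n)]
    have h3 : ind k (o < a + n * b) + ind k (y < a + n * b) +
        (ind k (o < a + n * b) + ind k (y + b < a + n * b)) =
        (ind k (o < a + n * b) + ind k (o < a + n * b)) +
        (ind k (y < a + n * b) + ind k (y + b < a + n * b)) := by ring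
    rw [h3, CharTwo.add_self_eq_zero, zero_add]
    have h2 : (1 : k) + 1 = 0 := CharTwo.add_self_eq_zero 1
    unfold ind
    rcases lt_or_gt_of_ne (hy n) with h1 | h1 <;> rcases lt_or_gt_of_ne (hyb n) with h4 | h4
    · have a1 : ¬ y < a + n * b := not_lt.2 h1.le
      have a2 : ¬ y + b < a + n * b := not_lt.2 h4.le
      simp [a1, a2]
    · exfalso; linarith
    · have a2 : ¬ y + b < a + n * b := not_lt.2 h4.le
      simp [a2, h1, h4]
    · have a1 : ¬ a + n * b < y + b := not_lt.2 h4.le
      simp [a1, h1, h4, h2]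
  simp_rw [hterm]
  set n₀ : ℤ := ⌊(y - a) / b⌋ + 1 with hn₀
  have hfl := Int.floor_le ((y - a) / b)
  have hfl2 := Int.lt_floor_add_one ((y - a) / b)
  rw [finsum_eq_single _ n₀]
  · unfold ind
    rw [if_pos]
    constructor
    · rw [div_lt_iff₀ hb] at hfl2
      rw [hn₀]
      push_cast
      linarith
    · rw [le_div_iff₀ hb] at hfl
      have h5 : (⌊(y - a) / b⌋ : ℝ) * b ≠ y - a := by
        intro h
        apply hy ⌊(y - a) / b⌋
        linarith
      have h6 : (⌊(y - a) / b⌋ : ℝ) * b < y - a := lt_of_le_of_ne hfl h5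
      rw [hn₀]
      push_cast
      linarith
  · intro n hn
    unfold ind
    rw [if_neg]
    rintro ⟨h1, h2⟩
    apply hn
    have e1 : (y - a) / b < n := by
      rw [div_lt_iff₀ hb]; linarith
    have e2 : (n : ℝ) - 1 < (y - a) / b := by
      rw [lt_div_iff₀ hb]; linarith
    have e3 : ⌊(y - a) / b⌋ = n - 1 := by
      rw [Int.floor_eq_iff]
      push_cast
      constructor <;> linarith
    rw [hn₀, e3]
    ring

theorem inC_one_pos {v : V} (h : InC v) : 0 < v 1 := by
  obtain ⟨h0, h1⟩ := h
  have : 0 < v 0 * v 1 := lt_of_le_of_lt (by positivity) h1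
  exact (pos_iff_pos_of_mul_pos this).1 h0

theorem log_div_lt {p q r s : ℝ} (hp : 0 < p) (hq : 0 < q) (hr : 0 < r) (hs : 0 < s) :
    Real.log (p / q) < Real.log (r / s) ↔ p * s < r * q := by
  rw [Real.log_lt_log_iff (by positivity) (by positivity), div_lt_div_iff₀ hq hs]

theorem hit_axis (o y x : V) (hoC : InC o) (hy : InC y) (hx : InC x) (ho : o 2 = 0 ∧ o 3 = 0)
    (h1 : x 2 * y 3 - x 3 * y 2 ≠ 0) (h2 : o 0 * y 1 - o 1 * y 0 ≠ 0) :
    Hit o y ![y 0, y 1, -y 2, -y 3] x ![x 0, x 1, -x 2, -x 3] ↔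
      btw (Real.log (x 0 / x 1)) (Real.log (o 0 / o 1)) (Real.log (y 0 / y 1)) := by
  have po0 := hoC.1
  have po1 := inC_one_pos hoC
  have py0 := hy.1
  have py1 := inC_one_pos hy
  have px0 := hx.1
  have px1 := inC_one_pos hx
  unfold btw
  rw [log_div_lt po0 po1 px0 px1, log_div_lt px0 px1 py0 py1, log_div_lt py0 py1 px0 px1,
    log_div_lt px0 px1 po0 po1]
  constructor
  · rintro ⟨α, β, γ, s, t, hα, hβ, hγ, hs, ht, he⟩
    have e0 := congrFun he 0
    have e1 := congrFun he 1
    have e2 := congrFun he 2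
    have e3 := congrFun he 3
    simp [ho.1, ho.2] at e0 e1 e2 e3
    have hβγ : β = γ := by
      have : (β - γ) * (x 2 * y 3 - x 3 * y 2) = 0 := by
        linear_combination x 2 * e3 - x 3 * e2
      rcases mul_eq_zero.1 this with h | h
      · linarith
      · exact absurd h h1
    subst hβγ
    have k0 : 2 * ((s + t) / 2) * x 0 = α * o 0 + 2 * β * y 0 := by linear_combination -e0
    have k1 : 2 * ((s + t) / 2) * x 1 = α * o 1 + 2 * β * y 1 := by linear_combination -e1
    set w := (s + t) / 2 with hw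
    have hw0 : 0 < w := by rw [hw]; linarith
    have f1 : 2 * w * (x 0 * o 1 - o 0 * x 1) = 2 * β * (o 1 * y 0 - o 0 * y 1) := by
      linear_combination o 1 * k0 - o 0 * k1
    have f2 : 2 * w * (x 0 * y 1 - y 0 * x 1) = α * (o 0 * y 1 - o 1 * y 0) := by
      linear_combination y 1 * k0 - y 0 * k1
    rcases lt_or_gt_of_ne h2 with h | h
    · left
      constructor
      · have : 0 < 2 * w * (x 0 * o 1 - o 0 * x 1) := by
          rw [f1]
          apply mul_pos (by linarith)
          linarith
        have := (pos_iff_pos_of_mul_pos this).1 (by linarith)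
        linarith
      · have : 2 * w * (x 0 * y 1 - y 0 * x 1) < 0 := by
          rw [f2]
          exact mul_neg_of_pos_of_neg hα h
        have := neg_of_mul_neg_right this (by linarith)
        linarith
    · right
      constructor
      · have : 0 < 2 * w * (x 0 * y 1 - y 0 * x 1) := by
          rw [f2]
          exact mul_pos hα h
        have := (pos_iff_pos_of_mul_pos this).1 (by linarith)
        linarith
      · have : 2 * w * (x 0 * o 1 - o 0 * x 1) < 0 := by
          rw [f1]
          apply mul_neg_of_pos_of_neg (by linarith)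
          linarith
        have := neg_of_mul_neg_right this (by linarith)
        linarith
  · intro h
    set D := o 0 * y 1 - o 1 * y 0 with hD
    have key : 0 < (x 0 * y 1 - x 1 * y 0) / D ∧ 0 < (o 0 * x 1 - o 1 * x 0) / D := by
      rcases h with ⟨g1, g2⟩ | ⟨g1, g2⟩
      · have hDneg : D < 0 := by
          rw [hD]
          have i1 : o 0 * x 1 * y 1 < x 0 * o 1 * y 1 := mul_lt_mul_of_pos_right g1 py1
          have i2 : x 0 * y 1 * o 1 < y 0 * x 1 * o 1 := mul_lt_mul_of_pos_right g2 po1
          have i3 : (o 0 * y 1 - o 1 * y 0) * x 1 < 0 := by nlinarith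
          exact neg_of_mul_neg_left i3 px1.le
        exact ⟨div_pos_of_neg_of_neg (by linarith) hDneg, div_pos_of_neg_of_neg (by linarith) hDneg⟩
      · have hDpos : 0 < D := by
          rw [hD]
          have i1 : y 0 * x 1 * o 1 < x 0 * y 1 * o 1 := mul_lt_mul_of_pos_right g1 po1
          have i2 : x 0 * o 1 * y 1 < o 0 * x 1 * y 1 := mul_lt_mul_of_pos_right g2 py1
          have i3 : 0 < (o 0 * y 1 - o 1 * y 0) * x 1 := by nlinarith
          exact pos_of_mul_pos_left i3 px1.le
        exact ⟨div_pos (by linarith) hDpos, div_pos (by linarith) hDpos⟩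
    obtain ⟨k1, k2⟩ := key
    refine ⟨(x 0 * y 1 - x 1 * y 0) / D, (o 0 * x 1 - o 1 * x 0) / D / 2,
      (o 0 * x 1 - o 1 * x 0) / D / 2, 1 / 2, 1 / 2, k1, by linarith, by linarith, by norm_num,
      by norm_num, ?_⟩
    have hD0 : D ≠ 0 := h2
    ext i
    fin_cases i
    · simp
      field_simp
      rw [hD]
      ring
    · simp
      field_simp
      rw [hD]
      ring
    · simp [ho.1]
    · simp [ho.2]

end SerreK
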