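import Pool.Agent.SerreK.GDefs

/-!
# GENPOS: generic base points
-/

namespace SerreK

namespace GP

/-! ### generic points (Baire) -/

/-- continuous, and a polynomial of degree at most two on every line -/
structure Poly2 (q : V → ℝ) : Prop where
  cont : Continuous q
  line : ∀ y v : V, ∃ A B C : ℝ, ∀ t : ℝ, q (y + t • v) = A + B * t + C * t ^ 2

theorem Poly2.isOpen {q : V → ℝ} (hq : Poly2 q) : IsOpen {v | q v ≠ 0} :=
  isOpen_ne_fun hq.cont continuous_const

theorem Poly2.dense {q : V → ℝ} (hq : Poly2 q) (hne : ∃ v, q v ≠ 0) : Dense {v | q v ≠ 0} := by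
  rw [Metric.dense_iff]
  intro y r hr
  obtain ⟨w, hw⟩ := hne
  obtain ⟨A, B, C, h⟩ := hq.line y (w - y)
  have h1 := h 1
  rw [one_smul, add_sub_cancel] at h1
  set N := ‖w - y‖ with hN
  have hN0 : 0 ≤ N := norm_nonneg _
  set ε := r / (4 * (N + 1)) with hε
  have hε0 : 0 < ε := by positivity
  have hεr : 3 * ε * N < r := by
    have e : 4 * (N + 1) * ε = r := by rw [hε]; field_simp
    nlinarith
  have key : ∀ c : ℝ, 0 ≤ c → c ≤ 3 → A + B * (c * ε) + C * (c * ε) ^ 2 ≠ 0 →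
      (Metric.ball y r ∩ {v | q v ≠ 0}).Nonempty := by
    intro c hc0 hc3 hc
    refine ⟨y + (c * ε) • (w - y), ?_, ?_⟩
    · rw [Metric.mem_ball, dist_eq_norm, add_sub_cancel_left, norm_smul, Real.norm_eq_abs,
        abs_of_nonneg (by positivity), ← hN]
      have : c * ε * N ≤ 3 * ε * N := by gcongr
      linarith
    · show q _ ≠ 0
      rw [h]; exact hc
  by_contra hcon
  have k1 : A + B * (1 * ε) + C * (1 * ε) ^ 2 = 0 := by
    by_contra h2; exact hcon (key 1 (by norm_num) (by norm_num) h2)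
  have k2 : A + B * (2 * ε) + C * (2 * ε) ^ 2 = 0 := by
    by_contra h2; exact hcon (key 2 (by norm_num) (by norm_num) h2)
  have k3 : A + B * (3 * ε) + C * (3 * ε) ^ 2 = 0 := by
    by_contra h2; exact hcon (key 3 (by norm_num) (by norm_num) h2)
  have hC : C * ε ^ 2 = 0 := by linarith
  have hC' : C = 0 := by
    rcases mul_eq_zero.1 hC with h2 | h2
    · exact h2
    · exact absurd (pow_eq_zero_iff (two_ne_zero) |>.1 h2) hε0.ne'
  subst hC'
  have hB : B * ε = 0 := by linarith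
  have hB' : B = 0 := by
    rcases mul_eq_zero.1 hB with h2 | h2
    · exact h2
    · exact absurd h2 hε0.ne'
  subst hB'
  have hA : A = 0 := by linarith
  subst hA
  apply hw
  rw [h1]; ring

theorem isOpen_InC : IsOpen {v : V | InC v} := by
  have h1 : IsOpen {v : V | 0 < v 0} := isOpen_lt continuous_const (continuous_apply 0)
  have h2 : IsOpen {v : V | v 2 ^ 2 + v 3 ^ 2 < v 0 * v 1} := by
    apply isOpen_lt
    · exact ((continuous_apply 2).pow 2).add ((continuous_apply 3).pow 2)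
    · exact (continuous_apply 0).mul (continuous_apply 1)
  exact h1.inter h2

/-- the identity matrix -/
def oo : V := ![1, 1, 0, 0]

theorem InC_oo : InC oo := by
  constructor <;> simp [oo]

theorem exists_generic {ι : Type} [Countable ι] (q : ι → V → ℝ) (hq : ∀ i, Poly2 (q i))
    (hne : ∀ i, ∃ v, q i v ≠ 0) : ∃ v, InC v ∧ ∀ i, q i v ≠ 0 := by
  have h := dense_iInter_of_isOpen (fun i => (hq i).isOpen) (fun i => (hq i).dense (hne i))
  obtain ⟨v, hv1, hv2⟩ := h.inter_open_nonempty _ isOpen_InC ⟨oo, InC_oo⟩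
  exact ⟨v, hv1, fun i => Set.mem_iInter.1 hv2 i⟩

theorem poly2_linear (f : V →ₗ[ℝ] ℝ) : Poly2 f := by
  refine ⟨f.continuous_of_finiteDimensional, fun y v => ⟨f y, f v, 0, fun t => ?_⟩⟩
  rw [map_add, map_smul, smul_eq_mul]; ring

/-- the mixed quadratic form -/
def QQ (p r y : V) : ℝ :=
  (p 0 * y 1 - p 1 * y 0) * (r 2 * y 3 - r 3 * y 2) - (p 2 * y 3 - p 3 * y 2) * (r 0 * y 1 - r 1 * y 0)

theorem poly2_QQ (p r : V) : Poly2 (QQ p r) := by
  constructor
  · unfold QQ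
    fun_prop
  · intro y v
    refine ⟨QQ p r y, QQ p r (y + v) - QQ p r y - QQ p r v, QQ p r v, fun t => ?_⟩
    simp only [QQ, Pi.add_apply, Pi.smul_apply, smul_eq_mul]
    ring

/-- linearity of `QQ` in the second argument -/
def QL (p y : V) : V →ₗ[ℝ] ℝ where
  toFun r := QQ p r y
  map_add' r s := by simp only [QQ, Pi.add_apply]; ring
  map_smul' c r := by simp only [QQ, Pi.smul_apply, smul_eq_mul, RingHom.id_apply]; ring

/-! ### independence of four vectors -/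

/-- four independent vectors -/
def LI4 (a b c d : V) : Prop :=
  ∀ x y z t : ℝ, x • a + y • b + z • c + t • d = 0 → x = 0 ∧ y = 0 ∧ z = 0 ∧ t = 0

/-- the involution -/
def JJ (v : V) : V := ![v 0, v 1, -v 2, -v 3]

theorem li_of_QQ {p r y : V} (h : QQ p r y ≠ 0) : LI4 p r y (JJ y) := by
  intro a b c d hrel
  have e0 := congrFun hrel 0
  have e1 := congrFun hrel 1
  have e2 := congrFun hrel 2
  have e3 := congrFun hrel 3
  simp [JJ] at e0 e1 e2 e3
  have ha : a * QQ p r y = 0 := by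
    unfold QQ
    linear_combination ((r 2 * y 3 - r 3 * y 2) * y 1) * e0 - ((r 2 * y 3 - r 3 * y 2) * y 0) * e1
      - ((r 0 * y 1 - r 1 * y 0) * y 3) * e2 + ((r 0 * y 1 - r 1 * y 0) * y 2) * e3
  have hb : b * QQ p r y = 0 := by
    unfold QQ
    linear_combination (-(p 2 * y 3 - p 3 * y 2) * y 1) * e0 + ((p 2 * y 3 - p 3 * y 2) * y 0) * e1
      + ((p 0 * y 1 - p 1 * y 0) * y 3) * e2 - ((p 0 * y 1 - p 1 * y 0) * y 2) * e3
  have ha' : a = 0 := (mul_eq_zero.1 ha).resolve_right h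
  have hb' : b = 0 := (mul_eq_zero.1 hb).resolve_right h
  subst ha'
  subst hb'
  have f0 : (c + d) * y 0 = 0 := by linarith
  have f1 : (c + d) * y 1 = 0 := by linarith
  have f2 : (c - d) * y 2 = 0 := by linarith
  have f3 : (c - d) * y 3 = 0 := by linarith
  have g1 : c + d = 0 := by
    by_contra hne
    apply h
    have h0 := (mul_eq_zero.1 f0).resolve_left hne
    have h1 := (mul_eq_zero.1 f1).resolve_left hne
    unfold QQ
    rw [h0, h1]; ring
  have g2 : c - d = 0 := by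
    by_contra hne
    apply h
    have h0 := (mul_eq_zero.1 f2).resolve_left hne
    have h1 := (mul_eq_zero.1 f3).resolve_left hne
    unfold QQ
    rw [h0, h1]; ring
  exact ⟨rfl, rfl, by linarith, by linarith⟩

/-- the form is not identically zero -/
theorem exists_QQ {p r : V} (hp : InC p) (hr : InC r) (hp2 : p 2 ≠ 0)
    (hli : ∀ l : ℝ, r ≠ l • p) : ∃ y, QQ p r y ≠ 0 := by
  by_contra hcon
  push Not at hcon
  have h02 := hcon ![0, 1, 0, 1]
  have h03 := hcon ![0, 1, 1, 0]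
  have h12 := hcon ![1, 0, 0, 1]
  simp [QQ] at h02 h03 h12
  have hp0 : 0 < p 0 := hp.1
  have hr0 : 0 < r 0 := hr.1
  apply hli (r 0 / p 0)
  have hne : p 0 ≠ 0 := hp0.ne'
  ext i
  fin_cases i
  · simp; field_simp
  · simp only [Fin.mk_one, Pi.smul_apply, smul_eq_mul]
    have h1 : p 0 * p 2 * r 1 = p 2 * (r 0 * p 1) := by
      linear_combination p 1 * h02 + p 0 * h12
    have h2 : p 0 * r 1 = r 0 * p 1 := by
      have : p 2 * (p 0 * r 1 - r 0 * p 1) = 0 := by linarith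
      have := (mul_eq_zero.1 this).resolve_left hp2
      linarith
    field_simp
    linarith
  · simp only [Fin.reduceFinMk, Pi.smul_apply, smul_eq_mul]
    field_simp
    linarith
  · simp only [Fin.reduceFinMk, Pi.smul_apply, smul_eq_mul]
    field_simp
    linarith

/-! ### families in general position -/

open Finset in
/-- every four vectors of the family are independent -/
def GF {n : ℕ} (f : Fin n → V) : Prop :=
  ∀ x : Fin n → ℝ, ∑ i, x i • f i = 0 → #{i | x i ≠ 0} ≤ 4 → x = 0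

/-- `v` is not in the span of three elements of `W` -/
def Free (W : Set V) (v : V) : Prop :=
  ∀ s : Finset W, s.card ≤ 3 → v ∉ Submodule.span ℝ (Subtype.val '' (s : Set W))

open Finset in
theorem GF.cons {n : ℕ} {f : Fin n → V} (hf : GF f) {v : V} {W : Set V} (hW : ∀ i, f i ∈ W)
    (hv : Free W v) : GF (Matrix.vecCons v f) := by
  intro x hx hc
  rw [Fin.sum_univ_succ] at hx
  simp only [Matrix.cons_val_zero, Matrix.cons_val_succ] at hx
  rw [Fin.card_filter_univ_succ] at hc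
  by_cases h0 : x 0 = 0
  · rw [h0, zero_smul, zero_add] at hx
    rw [if_neg (by simpa using h0)] at hc
    have h := hf (fun i => x i.succ) hx hc
    ext i
    refine Fin.cases h0 (fun j => ?_) i
    exact congrFun h j
  · exfalso
    rw [if_pos h0] at hc
    have hc' : #{i : Fin n | x i.succ ≠ 0} ≤ 3 := by omega
    set T : Finset (Fin n) := {i : Fin n | x i.succ ≠ 0} with hT
    let φ : Fin n → W := fun i => ⟨f i, hW i⟩
    classical
    apply hv (T.image φ) (card_image_le.trans hc')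
    have e : v = ∑ i, (-(x 0)⁻¹ * x i.succ) • f i := by
      have h1 : x 0 • v = - ∑ i : Fin n, x i.succ • f i := eq_neg_of_add_eq_zero_left hx
      have h2 : v = (x 0)⁻¹ • (x 0 • v) := by rw [smul_smul, inv_mul_cancel₀ h0, one_smul]
      rw [h2, h1, smul_neg, ← neg_smul, Finset.smul_sum]
      refine Finset.sum_congr rfl fun i _ => ?_
      rw [smul_smul]
    rw [e]
    apply Submodule.sum_mem
    intro i _
    by_cases hi : x i.succ = 0
    · rw [hi, mul_zero, zero_smul]; exact Submodule.zero_mem _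
    · apply Submodule.smul_mem
      apply Submodule.subset_span
      refine ⟨φ i, ?_, rfl⟩
      rw [Finset.mem_coe, Finset.mem_image]
      exact ⟨i, by rw [hT, Finset.mem_filter]; exact ⟨Finset.mem_univ _, hi⟩, rfl⟩

open Finset in
theorem gen6_of {f : Fin 6 → V} (hf : GF f) (σ : Equiv.Perm (Fin 6)) :
    Gen6 (f (σ 0)) (f (σ 1)) (f (σ 2)) (f (σ 3)) (f (σ 4)) (f (σ 5)) := by
  intro x hx i j hij hi hj
  have h1 : ∑ k, x (σ.symm k) • f k = 0 := by
    rw [← Equiv.sum_comp σ]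
    simp only [Equiv.symm_apply_apply]
    rw [Fin.sum_univ_six]
    exact hx
  have h2 : #{k | x (σ.symm k) ≠ 0} ≤ 4 := by
    have hsub : ({k | x (σ.symm k) ≠ 0} : Finset (Fin 6)) ⊆ univ \ {σ i, σ j} := by
      intro k hk
      rw [mem_filter] at hk
      rw [mem_sdiff]
      refine ⟨mem_univ _, ?_⟩
      rw [mem_insert, mem_singleton]
      rintro (h | h)
      · apply hk.2; rw [h, Equiv.symm_apply_apply]; exact hi
      · apply hk.2; rw [h, Equiv.symm_apply_apply]; exact hj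
    have hcard : #(univ \ {σ i, σ j} : Finset (Fin 6)) = 4 := by
      rw [card_sdiff_of_subset (subset_univ _), card_pair (fun h => hij (σ.injective h))]
      simp
    calc _ ≤ _ := card_le_card hsub
      _ = 4 := hcard
  have h3 := hf (fun k => x (σ.symm k)) h1 h2
  ext k
  have := congrFun h3 (σ k)
  simpa using this

/-! ### base families -/

theorem GF4 {a b c d : V} (h : LI4 a b c d) : GF ![a, b, c, d] := by
  intro x hx _
  rw [Fin.sum_univ_four] at hx
  obtain ⟨h0, h1, h2, h3⟩ := h (x 0) (x 1) (x 2) (x 3) (by simpa using hx)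
  ext i
  fin_cases i
  · exact h0
  · exact h1
  · exact h2
  · exact h3

theorem GF3 {a b c d : V} (h : LI4 a b c d) : GF ![a, b, c] := by
  intro x hx _
  rw [Fin.sum_univ_three] at hx
  obtain ⟨h0, h1, h2, h3⟩ := h (x 0) (x 1) (x 2) 0 (by simpa using hx)
  ext i
  fin_cases i
  · exact h0
  · exact h1
  · exact h2

theorem GF2 {a b c d : V} (h : LI4 a b c d) : GF ![a, b] := by
  intro x hx _
  rw [Fin.sum_univ_two] at hx
  obtain ⟨h0, h1, h2, h3⟩ := h (x 0) (x 1) 0 0 (by simpa using hx)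
  ext i
  fin_cases i
  · exact h0
  · exact h1

open Finset in
theorem GF5 {a b c d e : V} (h0 : LI4 b c d e) (h1 : LI4 a c d e) (h2 : LI4 a b d e)
    (h3 : LI4 a b c e) (h4 : LI4 a b c d) : GF ![a, b, c, d, e] := by
  intro x hx hc
  rw [Fin.sum_univ_five] at hx
  simp at hx
  have hex : ∃ i, x i = 0 := by
    by_contra hcon
    push Not at hcon
    have : ({i | x i ≠ 0} : Finset (Fin 5)) = univ := by
      ext i; simp [hcon i]
    rw [this] at hc
    simp at hc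
  obtain ⟨i, hi⟩ := hex
  have key : x 0 = 0 ∧ x 1 = 0 ∧ x 2 = 0 ∧ x 3 = 0 ∧ x 4 = 0 := by
    fin_cases i
    · have hi : x 0 = 0 := hi
      obtain ⟨q1, q2, q3, q4⟩ := h0 (x 1) (x 2) (x 3) (x 4) (by simpa [hi] using hx)
      exact ⟨hi, q1, q2, q3, q4⟩
    · have hi : x 1 = 0 := hi
      obtain ⟨q1, q2, q3, q4⟩ := h1 (x 0) (x 2) (x 3) (x 4) (by simpa [hi] using hx)
      exact ⟨q1, hi, q2, q3, q4⟩
    · have hi : x 2 = 0 := hi
      obtain ⟨q1, q2, q3, q4⟩ := h2 (x 0) (x 1) (x 3) (x 4) (by simpa [hi] using hx)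
      exact ⟨q1, q2, hi, q3, q4⟩
    · have hi : x 3 = 0 := hi
      obtain ⟨q1, q2, q3, q4⟩ := h3 (x 0) (x 1) (x 2) (x 4) (by simpa [hi] using hx)
      exact ⟨q1, q2, q3, hi, q4⟩
    · have hi : x 4 = 0 := hi
      obtain ⟨q1, q2, q3, q4⟩ := h4 (x 0) (x 1) (x 2) (x 3) (by simpa [hi] using hx)
      exact ⟨q1, q2, q3, q4, hi⟩
  obtain ⟨q0, q1, q2, q3, q4⟩ := key
  ext i
  fin_cases i
  · exact q0
  · exact q1
  · exact q2
  · exact q3
  · exact q4

/-! ### the group -/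

section group

variable {Γ : Type} [Group Γ] (ρ : Γ →* (V →ₗ[ℝ] V))

theorem rho_mul (g h : Γ) (v : V) : ρ (g * h) v = ρ g (ρ h v) := by
  rw [map_mul]; rfl

theorem rho_one (v : V) : ρ 1 v = v := by
  rw [map_one]; rfl

theorem rho_inv (g : Γ) (v : V) : ρ g (ρ g⁻¹ v) = v := by
  rw [← rho_mul, mul_inv_cancel, rho_one]

theorem rho_inv' (g : Γ) (v : V) : ρ g⁻¹ (ρ g v) = v := by
  rw [← rho_mul, inv_mul_cancel, rho_one]

theorem LI4.rho {a b c d : V} (h : LI4 a b c d) (g : Γ) : LI4 (ρ g a) (ρ g b) (ρ g c) (ρ g d) := by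
  intro x y z t hr
  apply h
  have h1 : ρ g (x • a + y • b + z • c + t • d) = 0 := by
    rw [map_add, map_add, map_add, map_smul, map_smul, map_smul, map_smul]; exact hr
  rw [← rho_inv' ρ g (x • a + y • b + z • c + t • d), h1, map_zero]

theorem exists_free [Countable Γ] {W : Set V} (hW : W.Countable) :
    ∃ v, InC v ∧ ∀ g, Free W (ρ g v) := by
  have : Countable W := hW.to_subtype
  let ι : Type := Γ × {s : Finset W // s.card ≤ 3}
  have hphi : ∀ s : {s : Finset W // s.card ≤ 3}, ∃ f : V →ₗ[ℝ] ℝ, f ≠ 0 ∧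
      Submodule.span ℝ (Subtype.val '' (s.1 : Set W)) ≤ LinearMap.ker f := by
    intro s
    apply Submodule.exists_le_ker_of_lt_top
    rw [lt_top_iff_ne_top]
    intro htop
    have h1 : Module.finrank ℝ (Submodule.span ℝ (Subtype.val '' (s.1 : Set W))) ≤ 3 := by
      classical
      have h2 : (Subtype.val '' (s.1 : Set W)) = ((s.1.image Subtype.val : Finset V) : Set V) := by
        rw [Finset.coe_image]
      rw [h2]
      exact (finrank_span_finset_le_card _).trans (Finset.card_image_le.trans s.2)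
    rw [htop, finrank_top] at h1
    have : Module.finrank ℝ V = 4 := by
      rw [Module.finrank_fin_fun]
    omega
  choose φ hφ0 hφ using hphi
  obtain ⟨v, hv, hall⟩ := exists_generic (ι := ι) (fun i v => φ i.2 (ρ i.1 v))
    (fun i => poly2_linear ((φ i.2).comp (ρ i.1))) (fun i => by
      obtain ⟨u, hu⟩ : ∃ u, φ i.2 u ≠ 0 := by
        by_contra hcon
        push Not at hcon
        exact hφ0 i.2 (LinearMap.ext hcon)
      refine ⟨ρ i.1⁻¹ u, ?_⟩
      rw [rho_inv]; exact hu)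
  refine ⟨v, hv, fun g s hs hmem => hall (g, ⟨s, hs⟩) ?_⟩
  exact hφ ⟨s, hs⟩ hmem

end group

end GP

open GP in
theorem genpos {Γ : Type} [Group Γ] [Countable Γ] (ρ : Γ →* (V →ₗ[ℝ] V))
    (hC : ∀ g v, InC v → InC (ρ g v)) (J : Γ) (hJ : ∀ v, ρ J v = ![v 0, v 1, -v 2, -v 3]) :
    ∃ o x1 x2 x3 y1 y2 y3 : V,
      (InC o ∧ InC x1 ∧ InC x2 ∧ InC x3 ∧ InC y1 ∧ InC y2 ∧ InC y3) ∧ ρ J o = o ∧
      (∀ a b c d e, Gen6 (ρ a x3) (ρ b x1) (ρ c x2) y3 (ρ d y1) (ρ e y2)) ∧
      (∀ a b c d e, Gen6 (ρ a x3) (ρ b x1) (ρ c x2) o (ρ d y1) (ρ e y2)) ∧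
      (∀ a b c d, Gen6 (ρ a x3) (ρ b x1) (ρ c x2) (ρ d o) y2 (ρ J y2)) ∧
      (∀ a d e, Gen6 (ρ a x1) (ρ a x2) (ρ a (ρ J x2)) y3 (ρ d y1) (ρ e y2)) ∧
      (∀ a d e, Gen6 (ρ a x1) (ρ a x2) (ρ a (ρ J x2)) o (ρ d y1) (ρ e y2)) ∧
      (∀ a d, Gen6 (ρ a x1) (ρ a x2) (ρ a (ρ J x2)) (ρ d o) y2 (ρ J y2)) := by
  have hJ' : ∀ v, ρ J v = JJ v := hJ
  set o : V := oo with ho
  have hoC : InC o := InC_oo
  have hJo : ρ J o = o := by
    rw [hJ]; ext i; fin_cases i <;> simp [ho, oo]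
  have hoD : ∀ g, InC (ρ g o) := fun g => hC g o hoC
  -- the point `x2`
  obtain ⟨x2, hx2, hgen⟩ := exists_generic (ι := Γ ⊕ Γ)
    (fun i v => Sum.elim (fun g => (ρ g v) 2) (fun g => v 0 * (ρ g o) 1 - v 1 * (ρ g o) 0) i)
    (by
      rintro (g | g)
      · exact poly2_linear ((LinearMap.proj 2).comp (ρ g))
      · have h := poly2_linear (((ρ g o) 1) • (LinearMap.proj 0 : V →ₗ[ℝ] ℝ)
          - ((ρ g o) 0) • (LinearMap.proj 1 : V →ₗ[ℝ] ℝ))
        have e : (fun v : V => v 0 * (ρ g o) 1 - v 1 * (ρ g o) 0)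
            = ⇑(((ρ g o) 1) • (LinearMap.proj 0 : V →ₗ[ℝ] ℝ)
          - ((ρ g o) 0) • (LinearMap.proj 1 : V →ₗ[ℝ] ℝ)) := by
          ext v; simp; ring
        simp only [Sum.elim_inr]
        rw [e]; exact h)
    (by
      rintro (g | g)
      · refine ⟨ρ g⁻¹ ![0, 0, 1, 0], ?_⟩
        simp only [Sum.elim_inl]
        rw [rho_inv]; simp
      · refine ⟨![1, 0, 0, 0], ?_⟩
        simp only [Sum.elim_inr]
        have h := (hoD g).1
        have h2 := (hoD g).2
        have h3 : (ρ g o) 1 ≠ 0 := by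
          intro h4
          rw [h4, mul_zero] at h2
          nlinarith [sq_nonneg ((ρ g o) 2), sq_nonneg ((ρ g o) 3)]
        simpa using h3)
  have g1 : ∀ g, (ρ g x2) 2 ≠ 0 := fun g => hgen (Sum.inl g)
  have g2 : ∀ g, x2 0 * (ρ g o) 1 - x2 1 * (ρ g o) 0 ≠ 0 := fun g => hgen (Sum.inr g)
  have gx : x2 2 ≠ 0 := by
    have := g1 1
    rwa [rho_one] at this
  have hx2D : ∀ g, InC (ρ g x2) := fun g => hC g x2 hx2
  -- the point `y2`
  obtain ⟨y2, hy2, hgen2⟩ := exists_generic (ι := (Γ × Γ) ⊕ ((Γ × Γ) ⊕ Γ))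
    (fun i v => Sum.elim (fun gd : Γ × Γ => QQ (ρ gd.1 o) (ρ gd.2 v) x2)
      (Sum.elim (fun gd : Γ × Γ => QQ (ρ gd.1 x2) (ρ gd.2 o) v)
        (fun g => QQ (ρ g x2) (ρ g (ρ J x2)) v)) i)
    (by
      rintro (gd | gd | g)
      · exact poly2_linear ((QL (ρ gd.1 o) x2).comp (ρ gd.2))
      · exact poly2_QQ _ _
      · exact poly2_QQ _ _)
    (by
      rintro (⟨g, d⟩ | ⟨g, d⟩ | g)
      · refine ⟨ρ d⁻¹ ![0, 0, -x2 3, x2 2], ?_⟩
        simp only [Sum.elim_inl]
        rw [rho_inv]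
        have e : QQ (ρ g o) ![0, 0, -x2 3, x2 2] x2
            = (x2 0 * (ρ g o) 1 - x2 1 * (ρ g o) 0) * (x2 2 ^ 2 + x2 3 ^ 2) := by
          simp [QQ]; ring
        rw [e]
        apply mul_ne_zero (g2 g)
        have : 0 < x2 2 ^ 2 := by positivity
        positivity
      · simp only [Sum.elim_inr, Sum.elim_inl]
        apply exists_QQ (hx2D g) (hoD d) (g1 g)
        intro l hl
        apply g2 (g⁻¹ * d)
        rw [rho_mul, hl, map_smul, rho_inv']
        simp; ring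
      · simp only [Sum.elim_inr]
        apply exists_QQ (hx2D g) _ (g1 g)
        · intro l hl
          have h1 : ρ J x2 = l • x2 := by
            have h2 : ρ g⁻¹ (ρ g (ρ J x2)) = ρ g⁻¹ (l • ρ g x2) := by rw [hl]
            rw [rho_inv', map_smul, rho_inv'] at h2
            exact h2
          rw [hJ] at h1
          have h3 := congrFun h1 0
          have h4 := congrFun h1 2
          simp at h3 h4
          have h5 : (1 - l) * x2 0 = 0 := by linarith
          have h6 : 1 - l = 0 := (mul_eq_zero.1 h5).resolve_right hx2.1.ne'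
          have h7 : l = 1 := by linarith
          rw [h7] at h4
          apply gx; linarith
        · exact hC _ _ (hC _ _ hx2))
  have b2' : ∀ g d, QQ (ρ g o) (ρ d y2) x2 ≠ 0 := fun g d => hgen2 (Sum.inl (g, d))
  have b1' : ∀ g d, QQ (ρ g x2) (ρ d o) y2 ≠ 0 := fun g d => hgen2 (Sum.inr (Sum.inl (g, d)))
  have b3' : ∀ g, QQ (ρ g x2) (ρ g (ρ J x2)) y2 ≠ 0 := fun g => hgen2 (Sum.inr (Sum.inr g))
  have b1 : ∀ g d, LI4 (ρ g x2) (ρ d o) y2 (ρ J y2) := fun g d => by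
    rw [hJ']; exact li_of_QQ (b1' g d)
  have b3 : ∀ g, LI4 (ρ g x2) (ρ g (ρ J x2)) y2 (ρ J y2) := fun g => by
    rw [hJ' y2]; exact li_of_QQ (b3' g)
  have b2 : ∀ g d, LI4 (ρ g o) (ρ d y2) x2 (ρ J x2) := fun g d => by
    rw [hJ' x2]; exact li_of_QQ (b2' g d)
  -- `b2` translated by `a`
  have b2a : ∀ a d e, LI4 (ρ a x2) (ρ a (ρ J x2)) (ρ d o) (ρ e y2) := by
    intro a d e x y z t hr
    have h := (b2 (a⁻¹ * d) (a⁻¹ * e)).rho ρ a
    rw [← rho_mul, ← rho_mul, mul_inv_cancel_left, mul_inv_cancel_left] at h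
    obtain ⟨h1, h2, h3, h4⟩ := h z t x y (by rw [← hr]; abel)
    exact ⟨h3, h4, h1, h2⟩
  -- free letters
  let Orb : V → Set V := fun w => Set.range fun g => ρ g w
  have hOrb : ∀ w, (Orb w).Countable := fun w => Set.countable_range _
  set W0 : Set V := Orb o ∪ Orb x2 ∪ Orb y2 with hW0
  have cW0 : W0.Countable := ((hOrb o).union (hOrb x2)).union (hOrb y2)
  obtain ⟨x1, hx1, fx1⟩ := exists_free ρ cW0
  set W1 : Set V := W0 ∪ Orb x1 with hW1
  have cW1 : W1.Countable := cW0.union (hOrb x1)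
  obtain ⟨x3, hx3, fx3⟩ := exists_free ρ cW1
  set W2 : Set V := W1 ∪ Orb x3 with hW2
  have cW2 : W2.Countable := cW1.union (hOrb x3)
  obtain ⟨y1, hy1, fy1⟩ := exists_free ρ cW2
  set W3 : Set V := W2 ∪ Orb y1 with hW3
  have cW3 : W3.Countable := cW2.union (hOrb y1)
  obtain ⟨y3, hy3, fy3⟩ := exists_free ρ cW3
  have fy3' : Free W3 y3 := by
    have := fy3 1
    rwa [rho_one] at this
  have m_o : ∀ g, ρ g o ∈ W0 := fun g => Or.inl (Or.inl ⟨g, rfl⟩)
  have m_o' : o ∈ W0 := by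
    have := m_o 1
    rwa [rho_one] at this
  have m_x2 : ∀ g, ρ g x2 ∈ W0 := fun g => Or.inl (Or.inr ⟨g, rfl⟩)
  have m_x2J : ∀ g, ρ g (ρ J x2) ∈ W0 := fun g => by rw [← rho_mul]; exact m_x2 _
  have m_y2 : ∀ g, ρ g y2 ∈ W0 := fun g => Or.inr ⟨g, rfl⟩
  have m_y2' : y2 ∈ W0 := by
    have := m_y2 1
    rwa [rho_one] at this
  have m_x1 : ∀ g, ρ g x1 ∈ W1 := fun g => Or.inr ⟨g, rfl⟩
  have m_x3 : ∀ g, ρ g x3 ∈ W2 := fun g => Or.inr ⟨g, rfl⟩
  have m_y1 : ∀ g, ρ g y1 ∈ W3 := fun g => Or.inr ⟨g, rfl⟩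
  have i01 : W0 ⊆ W1 := Set.subset_union_left
  have i12 : W1 ⊆ W2 := Set.subset_union_left
  have i23 : W2 ⊆ W3 := Set.subset_union_left
  have ec : ∀ {n : ℕ} {f : Fin n → V} {v : V} {W : Set V}, v ∈ W → (∀ i, f i ∈ W) →
      ∀ i, (Matrix.vecCons v f) i ∈ W := by
    intro n f v W hv hf i
    refine Fin.cases ?_ (fun j => ?_) i
    · simpa using hv
    · simpa using hf j
  have e0 : ∀ {W : Set V}, ∀ i, (![] : Fin 0 → V) i ∈ W := fun i => i.elim0
  have L : ∀ a e, LI4 (ρ a x2) (ρ e y2) o (ρ a (ρ J x2)) := by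
    intro a e x y z t hr
    have h := b2a a 1 e
    rw [rho_one] at h
    obtain ⟨h1, h2, h3, h4⟩ := h x t z y (by rw [← hr]; abel)
    exact ⟨h1, h4, h3, h2⟩
  have Lo : ∀ a e, LI4 (ρ a x2) o (ρ e y2) (ρ a (ρ J x2)) := by
    intro a e x y z t hr
    have h := b2a a 1 e
    rw [rho_one] at h
    obtain ⟨h1, h2, h3, h4⟩ := h x t y z (by rw [← hr]; abel)
    exact ⟨h1, h3, h4, h2⟩
  have LJ : ∀ a e, LI4 (ρ a x2) (ρ a (ρ J x2)) (ρ e y2) o := by
    intro a e x y z t hr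
    have h := b2a a 1 e
    rw [rho_one] at h
    obtain ⟨h1, h2, h3, h4⟩ := h x y t z (by rw [← hr]; abel)
    exact ⟨h1, h2, h4, h3⟩
  let σ1 : Equiv.Perm (Fin 6) := ⟨![2, 3, 4, 0, 1, 5], ![3, 4, 0, 1, 2, 5], by decide, by decide⟩
  let σ2 : Equiv.Perm (Fin 6) := ⟨![1, 2, 3, 4, 0, 5], ![4, 0, 1, 2, 3, 5], by decide, by decide⟩
  refine ⟨o, x1, x2, x3, y1, y2, y3, ⟨hoC, hx1, hx2, hx3, hy1, hy2, hy3⟩, hJo, ?_, ?_, ?_, ?_, ?_,
    ?_⟩
  · intro a b c d e
    have h1 := (GF2 (L c e)).cons (ec (m_x2 c) (ec (m_y2 e) e0)) (fx1 b)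
    have w1 := ec (m_x1 b) (fun i => i01 ((ec (m_x2 c) (ec (m_y2 e) e0)) i))
    have h2 := h1.cons w1 (fx3 a)
    have w2 := ec (m_x3 a) (fun i => i12 (w1 i))
    have h3 := h2.cons w2 (fy1 d)
    have w3 := ec (m_y1 d) (fun i => i23 (w2 i))
    have h4 := h3.cons w3 fy3'
    exact gen6_of h4 σ1
  · intro a b c d e
    have w0 := ec (m_x2 c) (ec m_o' (ec (m_y2 e) (e0 (W := W0))))
    have h1 := (GF3 (Lo c e)).cons w0 (fx1 b)
    have w1 := ec (m_x1 b) (fun i => i01 (w0 i))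
    have h2 := h1.cons w1 (fx3 a)
    have w2 := ec (m_x3 a) (fun i => i12 (w1 i))
    have h3 := h2.cons w2 (fy1 d)
    exact gen6_of h3 σ2
  · intro a b c d
    have w0 := ec (m_x2 c) (ec (m_o d) (ec m_y2' (ec (m_y2 J) (e0 (W := W0)))))
    have h1 := (GF4 (b1 c d)).cons w0 (fx1 b)
    have w1 := ec (m_x1 b) (fun i => i01 (w0 i))
    have h2 := h1.cons w1 (fx3 a)
    exact gen6_of h2 (Equiv.refl _)
  · intro a d e
    have w0 := ec (m_x2 a) (ec (m_x2J a) (ec (m_y2 e) (e0 (W := W0))))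
    have h1 := (GF3 (LJ a e)).cons w0 (fx1 a)
    have w1 := ec (m_x1 a) (fun i => i01 (w0 i))
    have h3 := h1.cons (fun i => i12 (w1 i)) (fy1 d)
    have w3 := ec (m_y1 d) (fun i => i23 (i12 (w1 i)))
    have h4 := h3.cons w3 fy3'
    exact gen6_of h4 σ1
  · intro a d e
    have w0 := ec (m_x2 a) (ec (m_x2J a) (ec m_o' (ec (m_y2 e) (e0 (W := W0)))))
    have hb := b2a a 1 e
    rw [rho_one] at hb
    have h1 := (GF4 hb).cons w0 (fx1 a)
    have w1 := ec (m_x1 a) (fun i => i01 (w0 i))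
    have h3 := h1.cons (fun i => i12 (w1 i)) (fy1 d)
    exact gen6_of h3 σ2
  · intro a d
    have w0 := ec (m_x2 a) (ec (m_x2J a) (ec (m_o d) (ec m_y2' (ec (m_y2 J) (e0 (W := W0))))))
    have hb1 : LI4 (ρ a (ρ J x2)) (ρ d o) y2 (ρ J y2) := by
      rw [← rho_mul]; exact b1 _ _
    have hb3 : LI4 (ρ a x2) (ρ a (ρ J x2)) (ρ d o) y2 := by
      have := b2a a d 1
      rwa [rho_one] at this
    have h1 := (GF5 hb1 (b1 a d) (b3 a) (b2a a d J) hb3).cons w0 (fx1 a)
    exact gen6_of h1 (Equiv.refl _)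

end SerreK
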