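import Pool.Agent.SerreK.AXIS2
import Pool.Agent.SerreK.GENPOS
import Pool.Agent.SerreK.COUNT

/-!
# AXIS3: the dichotomy
-/

namespace SerreK

section
variable {Γ : Type} [Group Γ] {ρ : Γ →* (V →ₗ[ℝ] V)}
variable {k : Type} [Field k] [CharP k 2] (ψ : Γ →* kˣ)

variable (ρ) in
/-- all base points -/
structure Pts' (J η : Γ) extends Pts ρ J η where
  x1 : V
  x2 : V
  x3 : V
  y3 : V
  x1_in : InC x1
  x2_in : InC x2
  x3_in : InC x3
  y3_in : InC y3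
  g1 : ∀ a b c d e, Gen6 (ρ a x3) (ρ b x1) (ρ c x2) y3 (ρ d y1) (ρ e y2)
  g2 : ∀ a b c d e, Gen6 (ρ a x3) (ρ b x1) (ρ c x2) o (ρ d y1) (ρ e y2)
  g3 : ∀ a b c d, Gen6 (ρ a x3) (ρ b x1) (ρ c x2) (ρ d o) y2 (ρ J y2)
  g4 : ∀ a d e, Gen6 (ρ a x1) (ρ a x2) (ρ a (ρ J x2)) y3 (ρ d y1) (ρ e y2)
  g5 : ∀ a d e, Gen6 (ρ a x1) (ρ a x2) (ρ a (ρ J x2)) o (ρ d y1) (ρ e y2)
  g6 : ∀ a d, Gen6 (ρ a x1) (ρ a x2) (ρ a (ρ J x2)) (ρ d o) y2 (ρ J y2)

variable {J η : Γ} (P : Pts' ρ J η)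

/-- the properties of the function `z` attached to a chain with boundary the 1-chain whose
contributions are `B T'` (for triangles) and `H` (for the half sum over `R`). -/
structure Good (z : V → V → k) (B : Γ → Γ → k) (H : k) : Prop where
  eq : ∀ g p q, InC p → InC q → z (ρ g p) (ρ g q) = (ψ g : k) * z p q
  tri : ∀ g h, z P.y3 (ρ g P.y1) + z (ρ g P.y1) (ρ h P.y2) + z P.y3 (ρ h P.y2) = B g h
  half : z P.y1 P.y2 + z P.y1 (ρ η P.y2) = H

variable {ψ P}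

omit [CharP k 2] in
theorem Good.add {z z' : V → V → k} {B B' : Γ → Γ → k} {H H' : k} (h : Good ψ P z B H)
    (h' : Good ψ P z' B' H') :
    Good ψ P (fun p q => z p q + z' p q) (fun g h => B g h + B' g h) (H + H') where
  eq g p q hp hq := by rw [h.eq g p q hp hq, h'.eq g p q hp hq]; ring
  tri g g' := by rw [← h.tri, ← h'.tri]; ring
  half := by rw [← h.half, ← h'.half]; ring

omit [CharP k 2] in
theorem Good.smul {z : V → V → k} {B : Γ → Γ → k} {H : k} (c : k) (h : Good ψ P z B H) :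
    Good ψ P (fun p q => c * z p q) (fun g h => c * B g h) (c * H) where
  eq g p q hp hq := by rw [h.eq g p q hp hq]; ring
  tri g g' := by rw [← h.tri]; ring
  half := by rw [← h.half]; ring

omit [CharP k 2] in
theorem Good.zero : Good ψ P (fun _ _ => 0) (fun _ _ => 0) 0 where
  eq g p q _ _ := by ring
  tri g g' := by ring
  half := by ring

omit [CharP k 2] in
theorem Good.congr {z : V → V → k} {B B' : Γ → Γ → k} {H H' : k} (h : Good ψ P z B H)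
    (h1 : ∀ g g', B g g' = B' g g') (h2 : H = H') : Good ψ P z B' H' where
  eq := h.eq
  tri g g' := by rw [h.tri, h1]
  half := by rw [h.half, h2]

variable (ψ P)

/-- boundary contribution of a segment -/
noncomputable def BB (p q : V) (g h : Γ) : k := SB ρ ψ P.y3 (ρ g P.y1) (ρ h P.y2) p q

theorem good_tri {ε : Γ → k} (hε : ∀ δ, ε δ + ε (J * δ) = 1) (hψJ : ψ J = 1) (hψη : ψ η = 1)
    {a b c : V} (ha : InC a) (hb : InC b) (hc : InC c)
    (g0 : ∀ δ e d, Gen6 (ρ δ a) (ρ δ b) (ρ δ c) P.y3 (ρ e P.y1) (ρ d P.y2))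
    (g1 : ∀ δ e d, Gen6 (ρ δ a) (ρ δ b) (ρ δ c) P.o (ρ e P.y1) (ρ d P.y2))
    (g2 : ∀ δ d, Gen6 (ρ δ a) (ρ δ b) (ρ δ c) (ρ d P.o) P.y2 (ρ J P.y2)) :
    Good ψ P (fun p q => SA ρ ψ a b c p q)
      (fun g h => BB ψ P a b g h + BB ψ P b c g h + BB ψ P a c g h)
      (HR ψ P.toPts ε a b + HR ψ P.toPts ε b c + HR ψ P.toPts ε a c) where
  eq g p q _ _ := SA_mul ψ g a b c p q
  tri g h := foldS ψ P.proper ha hb hc P.y3_in (P.inC g _ P.y1_in) (P.inC h _ P.y2_in)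
    (fun δ => g0 δ g h)
  half := foldR ψ P.toPts hε hψJ hψη ha hb hc g1 g2

/-- the triangle `(x3, α x1, β x2)` -/
theorem good_K {ε : Γ → k} (hε : ∀ δ, ε δ + ε (J * δ) = 1) (hψJ : ψ J = 1) (hψη : ψ η = 1)
    (α β : Γ) :
    Good ψ P (fun p q => SA ρ ψ P.x3 (ρ α P.x1) (ρ β P.x2) p q)
      (fun g h => BB ψ P P.x3 (ρ α P.x1) g h + BB ψ P (ρ α P.x1) (ρ β P.x2) g h +
        BB ψ P P.x3 (ρ β P.x2) g h)
      (HR ψ P.toPts ε P.x3 (ρ α P.x1) + HR ψ P.toPts ε (ρ α P.x1) (ρ β P.x2) +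
        HR ψ P.toPts ε P.x3 (ρ β P.x2)) := by
  refine good_tri ψ P hε hψJ hψη P.x3_in (P.inC α _ P.x1_in) (P.inC β _ P.x2_in) ?_ ?_ ?_
  · intro δ e d
    rw [← rho_mul ρ δ α, ← rho_mul ρ δ β]
    exact P.g1 δ (δ * α) (δ * β) e d
  · intro δ e d
    rw [← rho_mul ρ δ α, ← rho_mul ρ δ β]
    exact P.g2 δ (δ * α) (δ * β) e d
  · intro δ d
    rw [← rho_mul ρ δ α, ← rho_mul ρ δ β]
    exact P.g3 δ (δ * α) (δ * β) d

/-- the relation attached to `g, h` -/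
noncomputable def relz (g h : Γ) : Γ →₀ k :=
  Finsupp.single (g * h) 1 - Finsupp.single g 1 -
    (((ψ g)⁻¹ : kˣ) : k) • (Finsupp.single h 1 - Finsupp.single 1 1)

/-- a chain with boundary `m` exists. -/
def HasZ (ε : Γ → k) (m : Γ →₀ k) : Prop :=
  ∃ z : V → V → k, Good ψ P z
    (fun g h => Finsupp.linearCombination k (fun A => BB ψ P P.x1 (ρ A P.x2) g h) m)
    (Finsupp.linearCombination k (fun A => HR ψ P.toPts ε P.x1 (ρ A P.x2)) m)

theorem BB_mul (g : Γ) (p q : V) (a b : Γ) :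
    BB ψ P (ρ g p) (ρ g q) a b = ((ψ g)⁻¹ : kˣ) * BB ψ P p q a b := by
  unfold BB
  exact SB_mul ψ g _ _ _ p q

theorem BB_swap (p q : V) (a b : Γ) : BB ψ P q p a b = BB ψ P p q a b := by
  unfold BB
  exact SB_swap ψ _ _ _ p q

theorem hasZ_rel {ε : Γ → k} (hε : ∀ δ, ε δ + ε (J * δ) = 1) (hψJ : ψ J = 1) (hψη : ψ η = 1)
    (g h : Γ) : HasZ ψ P ε (relz ψ g h) := by
  refine ⟨_, (((good_K ψ P hε hψJ hψη 1 (g * h)).add (good_K ψ P hε hψJ hψη g (g * h))).add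
    ((good_K ψ P hε hψJ hψη g g).add (good_K ψ P hε hψJ hψη 1 g))).congr ?_ ?_⟩
  · intro a b
    unfold relz
    simp only [map_sub, map_smul, Finsupp.linearCombination_single, one_smul, smul_eq_mul]
    have e1 := BB_mul ψ P g P.x1 (ρ h P.x2) a b
    have e2 := BB_mul ψ P g P.x1 P.x2 a b
    rw [← rho_mul ρ g h] at e1
    simp only [rho_one]
    have h2 : (2 : k) = 0 := CharTwo.two_eq_zero
    linear_combination e1 + e2 + (BB ψ P P.x3 P.x1 a b + BB ψ P P.x3 (ρ g P.x1) a b +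
      BB ψ P P.x3 (ρ (g * h) P.x2) a b + BB ψ P P.x3 (ρ g P.x2) a b +
      BB ψ P P.x1 (ρ g P.x2) a b +
      (((ψ g)⁻¹ : kˣ) : k) * BB ψ P P.x1 (ρ h P.x2) a b) * h2
  · unfold relz
    simp only [map_sub, map_smul, Finsupp.linearCombination_single, one_smul, smul_eq_mul]
    have e1 := HR_mul ψ P.toPts hε hψJ g P.x1_in (P.inC h _ P.x2_in)
    have e2 := HR_mul ψ P.toPts hε hψJ g P.x1_in P.x2_in
    rw [← rho_mul ρ g h] at e1
    simp only [rho_one]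
    have h2 : (2 : k) = 0 := CharTwo.two_eq_zero
    linear_combination e1 + e2 + (HR ψ P.toPts ε P.x3 P.x1 + HR ψ P.toPts ε P.x3 (ρ g P.x1) +
      HR ψ P.toPts ε P.x3 (ρ (g * h) P.x2) + HR ψ P.toPts ε P.x3 (ρ g P.x2) +
      HR ψ P.toPts ε P.x1 (ρ g P.x2) +
      (((ψ g)⁻¹ : kˣ) : k) * HR ψ P.toPts ε P.x1 (ρ h P.x2)) * h2

theorem hasZ_span {ε : Γ → k} (hε : ∀ δ, ε δ + ε (J * δ) = 1) (hψJ : ψ J = 1) (hψη : ψ η = 1)
    (m : Γ →₀ k) (hm : m ∈ Submodule.span k (Set.range (fun x : Γ × Γ => relz ψ x.1 x.2))) :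
    HasZ ψ P ε m := by
  induction hm using Submodule.span_induction with
  | mem x hx =>
    obtain ⟨⟨g, h⟩, rfl⟩ := hx
    exact hasZ_rel ψ P hε hψJ hψη g h
  | zero =>
    exact ⟨_, Good.zero.congr (fun g g' => by rw [map_zero]) (by rw [map_zero])⟩
  | add x y _ _ hx hy =>
    obtain ⟨z, hz⟩ := hx
    obtain ⟨z', hz'⟩ := hy
    exact ⟨_, (hz.add hz').congr (fun g g' => by rw [map_add]) (by rw [map_add])⟩
  | smul c x _ hx =>
    obtain ⟨z, hz⟩ := hx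
    exact ⟨_, (hz.smul c).congr (fun g g' => by rw [map_smul, smul_eq_mul])
      (by rw [map_smul, smul_eq_mul])⟩

end

end SerreK
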