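import Pool.Agent.SerreK.AXIS4

/-!
# AXIS: the dichotomy for a group acting on the cone of positive hermitian matrices
-/

namespace SerreK

theorem axis {Γ : Type} [Group Γ] [Countable Γ] (ρ : Γ →* (V →ₗ[ℝ] V))
    (hC : ∀ g v, InC v → InC (ρ g v))
    (hP : ∀ a b c p q : V, InC a → InC b → InC c → InC p → InC q →
      {g | Hit (ρ g a) (ρ g b) (ρ g c) p q}.Finite)
    (J η : Γ) (hJ : ∀ v, ρ J v = ![v 0, v 1, -v 2, -v 3]) (hJ2 : J * J = 1)
    (hηJ : η * J = J * η) (l : ℝ) (hl : 1 < l)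
    (hη : ∀ v, ρ η v 0 = l * v 0 ∧ ρ η v 1 = l⁻¹ * v 1)
    (hZ : ∀ g, g * J = J * g → ∃ n : ℤ, g = η ^ n ∨ g = J * η ^ n)
    {k : Type} [Field k] [CharP k 2] (ψ : Γ →* kˣ) (hψJ : ψ J = 1) (hψη : ψ η = 1) :
    ∃ ψ' : Γ →* kˣ, (ψ' = ψ ∨ ψ' = ψ⁻¹) ∧ ∃ b : Γ → k,
      (∀ g h, b (g * h) = b g + ψ' g * b h) ∧ (b J ≠ 0 ∨ b η ≠ 0) := by
  have hJ1 : J ≠ 1 := by
    intro h
    have h1 := congrFun (hJ ![0, 0, 1, 0]) 2
    rw [h, rho_one] at h1
    simp only [Matrix.cons_val] at h1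
    norm_num at h1
  obtain ⟨o, x1, x2, x3, y1, y2, y3, ⟨o_in, x1_in, x2_in, x3_in, y1_in, y2_in, y3_in⟩, Jo, g1, g2,
    g3, g4, g5, g6⟩ := genpos ρ hC J hJ
  let P : Pts' ρ J η :=
    { o := o, y1 := y1, y2 := y2, o_in := o_in, y1_in := y1_in, y2_in := y2_in, Jo := Jo,
      J2 := hJ2, J1 := hJ1, ηJ := hηJ, inC := hC, proper := hP, x1 := x1, x2 := x2, x3 := x3,
      y3 := y3, x1_in := x1_in, x2_in := x2_in, x3_in := x3_in, y3_in := y3_in, g1 := g1,
      g2 := g2, g3 := g3, g4 := g4, g5 := g5, g6 := g6 }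
  by_cases hm : (Finsupp.single J 1 - Finsupp.single 1 1 : Γ →₀ k) ∈
      Submodule.span k (Set.range (fun x : Γ × Γ => relz ψ x.1 x.2))
  · -- case B
    have hηn : ∀ n : ℤ, η ^ n = 1 → n = 0 := by
      intro n hn
      have h1 := (rho_zpow hl hη n x2).1
      rw [hn, rho_one] at h1
      have h2 : l ^ n = 1 := by
        have := (inC_pos x2_in).1
        field_simp at h1
        linarith
      have h3 : (n : ℝ) * Real.log l = 0 := by rw [← Real.log_zpow, h2, Real.log_one]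
      have h4 : Real.log l ≠ 0 := (Real.log_pos hl).ne'
      exact_mod_cast (mul_eq_zero.mp h3).resolve_right h4
    obtain ⟨ε, e1, e2, e3⟩ := exists_weight (k := k) hJ2 hJ1 hηJ hηn hZ
    obtain ⟨z, hz⟩ := hasZ_span ψ P e1 hψJ hψη _ hm
    have hz0 := good_tri ψ P e1 hψJ hψη P.x1_in P.x2_in (P.inC J _ P.x2_in)
      (fun δ e d => P.g4 δ e d) (fun δ e d => P.g5 δ e d) (fun δ d => P.g6 δ d)
    have hg := hz.add hz0
    set zt : V → V → k := fun p q => z p q + SA ρ ψ P.x1 P.x2 (ρ J P.x2) p q with hzt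
    have h2 : (2 : k) = 0 := CharTwo.two_eq_zero
    have htri : ∀ g h, zt P.y3 (ρ g P.y1) + zt (ρ g P.y1) (ρ h P.y2) + zt P.y3 (ρ h P.y2) = 0 := by
      intro g h
      rw [hg.tri g h]
      simp only [map_sub, Finsupp.linearCombination_single, one_smul, rho_one]
      have e5 : BB ψ P P.x2 (ρ J P.x2) g h = 0 :=
        SB_J ψ P.proper P.J2 P.J1 hψJ P.y3_in (P.inC g _ P.y1_in) (P.inC h _ P.y2_in) P.x2_in
          (P.inC J _ P.x2_in)
      rw [e5]
      linear_combination (BB ψ P P.x1 (ρ J P.x2) g h) * h2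
    have hhalf : zt P.y1 P.y2 + zt P.y1 (ρ η P.y2) = 1 := by
      rw [hg.half]
      simp only [map_sub, Finsupp.linearCombination_single, one_smul, rho_one]
      rw [HR_eval ψ P hJ hl hη hZ hψJ hψη e2 e3]
      linear_combination (HR ψ P.toPts ε P.x1 (ρ J P.x2)) * h2
    refine ⟨ψ, Or.inl rfl, fun g => zt P.y1 (ρ g P.y2) - zt P.y1 P.y2, ?_, Or.inr ?_⟩
    · intro g h
      have t1 := htri 1 (g * h)
      have t2 := htri g (g * h)
      have t3 := htri g g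
      have t4 := htri 1 g
      have q1 := hg.eq g P.y1 (ρ h P.y2) P.y1_in (P.inC h _ P.y2_in)
      have q2 := hg.eq g P.y1 P.y2 P.y1_in P.y2_in
      rw [← rho_mul ρ g h] at q1
      simp only [rho_one] at t1 t4
      change zt P.y1 (ρ (g * h) P.y2) - zt P.y1 P.y2 = (zt P.y1 (ρ g P.y2) - zt P.y1 P.y2) +
        (ψ g : k) * (zt P.y1 (ρ h P.y2) - zt P.y1 P.y2)
      linear_combination t1 + t2 + t3 + t4 - q1 - q2 -
        (zt P.y3 P.y1 + zt P.y3 (ρ (g * h) P.y2) + zt P.y3 (ρ g P.y1) + zt P.y3 (ρ g P.y2) +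
          zt P.y1 (ρ g P.y2) + (ψ g : k) * zt P.y1 (ρ h P.y2)) * h2
    · change zt P.y1 (ρ η P.y2) - zt P.y1 P.y2 ≠ 0
      have e6 : zt P.y1 (ρ η P.y2) - zt P.y1 P.y2 = 1 := by
        linear_combination hhalf - zt P.y1 P.y2 * h2
      rw [e6]
      exact one_ne_zero
  · -- case A
    obtain ⟨φ, hφ1, hφ2⟩ := Submodule.exists_le_ker_of_notMem hm
    refine ⟨ψ⁻¹, Or.inr rfl, fun g => φ (Finsupp.single g 1) - φ (Finsupp.single 1 1), ?_,
      Or.inl ?_⟩
    · intro g h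
      have h1 : φ (relz ψ g h) = 0 := hφ2 (Submodule.subset_span ⟨(g, h), rfl⟩)
      unfold relz at h1
      simp only [map_sub, map_smul, smul_eq_mul] at h1
      rw [MonoidHom.inv_apply]
      linear_combination h1
    · intro h
      apply hφ1
      rw [map_sub]
      exact h

end SerreK
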