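import Pool.Agent.SerreK.GDefs

/-!
# PARITY
Two triangles in general position in projective 3-space: the number of crossings of the edges of
one with the other is even.
-/

namespace SerreK

/-- a relation in which exactly the coefficient of `v i` vanishes and the others are positive -/
def parP (v : Fin 6 → V) (i : Fin 6) : Prop :=
  ∃ y : Fin 6 → ℝ, ∑ j, y j • v j = 0 ∧ y i = 0 ∧ ∀ j, j ≠ i → 0 < y j

/-- a relation with two vanishing coefficients is trivial -/
def parG (v : Fin 6 → V) : Prop :=
  ∀ y : Fin 6 → ℝ, ∑ j, y j • v j = 0 → ∀ i j, i ≠ j → y i = 0 → y j = 0 → y = 0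

theorem par_exists (v : Fin 6 → V) (h : Fin 6) :
    ∃ y : Fin 6 → ℝ, y ≠ 0 ∧ ∑ j, y j • v j = 0 ∧ y h = 0 := by
  let Φ : (Fin 6 → ℝ) →ₗ[ℝ] (V × ℝ) :=
    { toFun := fun y => (∑ j, y j • v j, y h)
      map_add' := by
        intro x y
        ext1
        · simp only [Pi.add_apply, add_smul, Finset.sum_add_distrib, Prod.fst_add]
        · simp
      map_smul' := by
        intro c y
        ext1
        · simp only [Pi.smul_apply, smul_eq_mul, mul_smul, Finset.smul_sum, RingHom.id_apply,
            Prod.smul_fst]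
        · simp }
  have hfin : Module.finrank ℝ (V × ℝ) < Module.finrank ℝ (Fin 6 → ℝ) := by
    rw [Module.finrank_prod]
    simp
  have hk := LinearMap.ker_ne_bot_of_finrank_lt (f := Φ) hfin
  obtain ⟨y, hy, hy0⟩ := Submodule.exists_mem_ne_zero_of_ne_bot hk
  rw [LinearMap.mem_ker] at hy
  refine ⟨y, hy0, ?_, ?_⟩
  · exact congrArg Prod.fst hy
  · exact congrArg Prod.snd hy

theorem par_lin {v : Fin 6 → V} {y z : Fin 6 → ℝ} (hy : ∑ j, y j • v j = 0)
    (hz : ∑ j, z j • v j = 0) (α β : ℝ) : ∑ j, (α * y j + β * z j) • v j = 0 := by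
  have : ∀ j, (α * y j + β * z j) • v j = α • (y j • v j) + β • (z j • v j) := by
    intro j
    rw [add_smul, mul_smul, mul_smul]
  simp_rw [this]
  rw [Finset.sum_add_distrib, ← Finset.smul_sum, ← Finset.smul_sum, hy, hz]
  simp

theorem par_main {v : Fin 6 → V} (hG : parG v) {i : Fin 6} (hP : parP v i) :
    ∃ m, m ≠ i ∧ parP v m ∧ ∀ h, h ≠ i → h ≠ m → ¬ parP v h := by
  classical
  obtain ⟨g, hg, hgi, hgpos⟩ := hP
  -- a relation `f` with `f i = 1`
  obtain ⟨h₀, hh₀⟩ : ∃ h₀ : Fin 6, h₀ ≠ i := exists_ne i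
  obtain ⟨f₀, hf₀, hf₀r, hf₀h⟩ := par_exists v h₀
  have hf₀i : f₀ i ≠ 0 := fun h => hf₀ (hG f₀ hf₀r h₀ i hh₀ hf₀h h)
  set f : Fin 6 → ℝ := fun j => (f₀ i)⁻¹ * f₀ j + 0 * f₀ j with hfdef
  have hfr : ∑ j, f j • v j = 0 := par_lin hf₀r hf₀r _ _
  have hfi : f i = 1 := by
    rw [hfdef]
    simp only [zero_mul, add_zero]
    exact inv_mul_cancel₀ hf₀i
  set c : Fin 6 → ℝ := fun j => f j / g j with hc
  -- the relation `f - c m g`
  have hrel : ∀ m, ∑ j, (1 * f j + (-(c m)) * g j) • v j = 0 := fun m => par_lin hfr hg _ _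
  have hrm : ∀ m, m ≠ i → 1 * f m + (-(c m)) * g m = 0 := by
    intro m hm
    have := (hgpos m hm).ne'
    rw [hc]
    field_simp
    ring
  have hrj : ∀ m j, j ≠ i → 1 * f j + (-(c m)) * g j = g j * (c j - c m) := by
    intro m j hj
    have := (hgpos j hj).ne'
    rw [hc]
    field_simp
    ring
  have hri : ∀ m, 1 * f i + (-(c m)) * g i = 1 := by
    intro m
    rw [hfi, hgi]
    ring
  have hcinj : ∀ m j, m ≠ i → j ≠ i → m ≠ j → c m ≠ c j := by
    intro m j hm hj hmj h
    have h1 := hrj m j hj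
    rw [h, sub_self, mul_zero] at h1
    have h2 := hG _ (hrel m) m j hmj (hrm m hm) (by rw [h]; exact h1)
    have h3 := congrFun h2 i
    rw [hri m] at h3
    exact one_ne_zero h3
  -- every relation vanishing at `m`
  have huniq : ∀ m, m ≠ i → ∀ y : Fin 6 → ℝ, ∑ j, y j • v j = 0 → y m = 0 →
      ∀ j, y j = y i * (1 * f j + (-(c m)) * g j) := by
    intro m hm y hy hym j
    have h1 := par_lin hy (hrel m) 1 (-(y i))
    have h2 := hG _ h1 i m hm.symm (by rw [hri m]; ring) (by rw [hrm m hm, hym]; ring)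
    have h3 := congrFun h2 j
    simp only [Pi.zero_apply] at h3
    linarith
  have hPm : ∀ m, m ≠ i → (parP v m ↔ ∀ j, j ≠ i → j ≠ m → c m < c j) := by
    intro m hm
    constructor
    · rintro ⟨y, hy, hym, hpos⟩ j hj hjm
      have hyi : 0 < y i := hpos i hm.symm
      have h1 := huniq m hm y hy hym j
      rw [hrj m j hj] at h1
      have h2 := hpos j hjm
      rw [h1] at h2
      have h3 := (pos_iff_pos_of_mul_pos h2).1 hyi
      have h4 := (pos_iff_pos_of_mul_pos h3).1 (hgpos j hj)
      linarith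
    · intro h
      refine ⟨_, hrel m, hrm m hm, ?_⟩
      intro j hj
      by_cases hji : j = i
      · subst hji
        rw [hri m]
        exact one_pos
      · rw [hrj m j hji]
        exact mul_pos (hgpos j hji) (by linarith [h j hji hj])
  -- the minimum of `c`
  obtain ⟨m, hmS, hmin⟩ := Finset.exists_min_image (Finset.univ.erase i) c
    ⟨h₀, Finset.mem_erase.2 ⟨hh₀, Finset.mem_univ _⟩⟩
  have hm : m ≠ i := (Finset.mem_erase.1 hmS).1
  have hlt : ∀ j, j ≠ i → j ≠ m → c m < c j := by
    intro j hj hjm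
    have h1 := hmin j (Finset.mem_erase.2 ⟨hj, Finset.mem_univ _⟩)
    exact lt_of_le_of_ne h1 (hcinj m j hm hj (Ne.symm hjm))
  refine ⟨m, hm, (hPm m hm).2 hlt, ?_⟩
  intro h hhi hhm hPh
  have h1 := (hPm h hhi).1 hPh m hm (Ne.symm hhm)
  have h2 := hlt h hhi hhm
  linarith

theorem par_sum (k : Type*) [Field k] [CharP k 2] {v : Fin 6 → V} (hG : parG v) :
    ∑ i, ind k (parP v i) = 0 := by
  classical
  by_cases hex : ∃ i, parP v i
  · obtain ⟨i, hi⟩ := hex
    obtain ⟨m, hm, hPm, hrest⟩ := par_main hG hi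
    have h1 : ∑ j, ind k (parP v j) = ∑ j ∈ ({i, m} : Finset (Fin 6)), ind k (parP v j) := by
      symm
      apply Finset.sum_subset (Finset.subset_univ _)
      intro j _ hj
      rw [Finset.mem_insert, Finset.mem_singleton, not_or] at hj
      unfold ind
      rw [if_neg (hrest j hj.1 hj.2)]
    rw [h1, Finset.sum_pair hm.symm]
    unfold ind
    rw [if_pos hi, if_pos hPm]
    exact CharTwo.add_self_eq_zero 1
  · push Not at hex
    apply Finset.sum_eq_zero
    intro j _
    unfold ind
    rw [if_neg (hex j)]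

theorem parity (k : Type*) [Field k] [CharP k 2] (a b c p q r : V) (h : Gen6 a b c p q r) :
    ind k (Hit a b c p q) + ind k (Hit a b c q r) + ind k (Hit a b c p r) +
      (ind k (Hit p q r a b) + ind k (Hit p q r b c) + ind k (Hit p q r a c)) = 0 := by
  set v : Fin 6 → V := ![a, b, c, -p, -q, -r] with hv
  have hsum : ∀ y : Fin 6 → ℝ, ∑ j, y j • v j =
      y 0 • a + y 1 • b + y 2 • c + y 3 • -p + y 4 • -q + y 5 • -r := by
    intro y
    rw [Fin.sum_univ_six]
    rfl
  have hG : parG v := by
    intro y hy i j hij hi hj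
    rw [hsum] at hy
    have h1 := h ![y 0, y 1, y 2, -y 3, -y 4, -y 5] (by
      have : y 0 • a + y 1 • b + y 2 • c + (-y 3) • p + (-y 4) • q + (-y 5) • r =
        y 0 • a + y 1 • b + y 2 • c + y 3 • -p + y 4 • -q + y 5 • -r := by
        simp only [neg_smul, smul_neg]
      exact this.trans hy) i j hij
      (by fin_cases i <;> simp at hi ⊢ <;> exact hi) (by fin_cases j <;> simp at hj ⊢ <;> exact hj)
    ext l
    have h2 := congrFun h1 l
    fin_cases l <;> simp at h2 ⊢ <;> exact h2
  have hs := par_sum k hG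
  rw [Fin.sum_univ_six] at hs
  have e5 : parP v 5 ↔ Hit a b c p q := by
    constructor
    · rintro ⟨y, hy, h0, hpos⟩
      rw [hsum, h0] at hy
      refine ⟨y 0, y 1, y 2, y 3, y 4, hpos 0 (by decide), hpos 1 (by decide), hpos 2 (by decide),
        hpos 3 (by decide), hpos 4 (by decide), ?_⟩
      simp only [smul_neg, zero_smul, add_zero] at hy
      rw [← sub_eq_zero, ← hy]
      abel
    · rintro ⟨x, y, z, s, t, hx, hy, hz, hs, ht, he⟩
      refine ⟨![x, y, z, s, t, 0], ?_, rfl, ?_⟩
      · rw [hsum]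
        show x • a + y • b + z • c + s • -p + t • -q + (0 : ℝ) • -r = 0
        rw [he]
        simp only [smul_neg, zero_smul]
        abel
      · intro j hj
        fin_cases j <;> simp_all
  have e3 : parP v 3 ↔ Hit a b c q r := by
    constructor
    · rintro ⟨y, hy, h0, hpos⟩
      rw [hsum, h0] at hy
      refine ⟨y 0, y 1, y 2, y 4, y 5, hpos 0 (by decide), hpos 1 (by decide), hpos 2 (by decide),
        hpos 4 (by decide), hpos 5 (by decide), ?_⟩
      simp only [smul_neg, zero_smul, add_zero] at hy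
      rw [← sub_eq_zero, ← hy]
      abel
    · rintro ⟨x, y, z, s, t, hx, hy, hz, hs, ht, he⟩
      refine ⟨![x, y, z, 0, s, t], ?_, rfl, ?_⟩
      · rw [hsum]
        show x • a + y • b + z • c + (0 : ℝ) • -p + s • -q + t • -r = 0
        rw [he]
        simp only [smul_neg, zero_smul]
        abel
      · intro j hj
        fin_cases j <;> simp_all
  have e4 : parP v 4 ↔ Hit a b c p r := by
    constructor
    · rintro ⟨y, hy, h0, hpos⟩
      rw [hsum, h0] at hy
      refine ⟨y 0, y 1, y 2, y 3, y 5, hpos 0 (by decide), hpos 1 (by decide), hpos 2 (by decide),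
        hpos 3 (by decide), hpos 5 (by decide), ?_⟩
      simp only [smul_neg, zero_smul, add_zero] at hy
      rw [← sub_eq_zero, ← hy]
      abel
    · rintro ⟨x, y, z, s, t, hx, hy, hz, hs, ht, he⟩
      refine ⟨![x, y, z, s, 0, t], ?_, rfl, ?_⟩
      · rw [hsum]
        show x • a + y • b + z • c + s • -p + (0 : ℝ) • -q + t • -r = 0
        rw [he]
        simp only [smul_neg, zero_smul]
        abel
      · intro j hj
        fin_cases j <;> simp_all
  have e2 : parP v 2 ↔ Hit p q r a b := by
    constructor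
    · rintro ⟨y, hy, h0, hpos⟩
      rw [hsum, h0] at hy
      refine ⟨y 3, y 4, y 5, y 0, y 1, hpos 3 (by decide), hpos 4 (by decide), hpos 5 (by decide),
        hpos 0 (by decide), hpos 1 (by decide), ?_⟩
      simp only [smul_neg, zero_smul, add_zero] at hy
      rw [← sub_eq_zero, ← neg_eq_zero, ← hy]
      abel
    · rintro ⟨x, y, z, s, t, hx, hy, hz, hs, ht, he⟩
      refine ⟨![s, t, 0, x, y, z], ?_, rfl, ?_⟩
      · rw [hsum]
        show s • a + t • b + (0 : ℝ) • c + x • -p + y • -q + z • -r = 0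
        rw [← he]
        simp only [smul_neg, zero_smul]
        abel
      · intro j hj
        fin_cases j <;> simp_all
  have e0 : parP v 0 ↔ Hit p q r b c := by
    constructor
    · rintro ⟨y, hy, h0, hpos⟩
      rw [hsum, h0] at hy
      refine ⟨y 3, y 4, y 5, y 1, y 2, hpos 3 (by decide), hpos 4 (by decide), hpos 5 (by decide),
        hpos 1 (by decide), hpos 2 (by decide), ?_⟩
      simp only [smul_neg, zero_smul, zero_add] at hy
      rw [← sub_eq_zero, ← neg_eq_zero, ← hy]
      abel
    · rintro ⟨x, y, z, s, t, hx, hy, hz, hs, ht, he⟩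
      refine ⟨![0, s, t, x, y, z], ?_, rfl, ?_⟩
      · rw [hsum]
        show (0 : ℝ) • a + s • b + t • c + x • -p + y • -q + z • -r = 0
        rw [zero_smul, zero_add, ← he]
        simp only [smul_neg]
        abel
      · intro j hj
        fin_cases j <;> simp_all
  have e1 : parP v 1 ↔ Hit p q r a c := by
    constructor
    · rintro ⟨y, hy, h0, hpos⟩
      rw [hsum, h0] at hy
      refine ⟨y 3, y 4, y 5, y 0, y 2, hpos 3 (by decide), hpos 4 (by decide), hpos 5 (by decide),
        hpos 0 (by decide), hpos 2 (by decide), ?_⟩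
      simp only [smul_neg, zero_smul, add_zero] at hy
      rw [← sub_eq_zero, ← neg_eq_zero, ← hy]
      abel
    · rintro ⟨x, y, z, s, t, hx, hy, hz, hs, ht, he⟩
      refine ⟨![s, 0, t, x, y, z], ?_, rfl, ?_⟩
      · rw [hsum]
        show s • a + (0 : ℝ) • b + t • c + x • -p + y • -q + z • -r = 0
        rw [zero_smul, add_zero, ← he]
        simp only [smul_neg]
        abel
      · intro j hj
        fin_cases j <;> simp_all
  have f0 : ind k (parP v 0) = ind k (Hit p q r b c) := by rw [propext e0]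
  have f1 : ind k (parP v 1) = ind k (Hit p q r a c) := by rw [propext e1]
  have f2 : ind k (parP v 2) = ind k (Hit p q r a b) := by rw [propext e2]
  have f3 : ind k (parP v 3) = ind k (Hit a b c q r) := by rw [propext e3]
  have f4 : ind k (parP v 4) = ind k (Hit a b c p r) := by rw [propext e4]
  have f5 : ind k (parP v 5) = ind k (Hit a b c p q) := by rw [propext e5]
  rw [f0, f1, f2, f3, f4, f5] at hs
  rw [← hs]
  ring

end SerreK
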