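import Pool.Agent.SerreK.AXIS1
import Pool.Agent.SerreK.PARITY

/-!
# AXIS2: folding identities
-/

namespace SerreK

section
variable {Γ : Type} [Group Γ] {ρ : Γ →* (V →ₗ[ℝ] V)}
variable {k : Type} [Field k] [CharP k 2] (ψ : Γ →* kˣ)

omit [CharP k 2] in
theorem wsum_zero (ε : Γ → k) {F : Γ → k} (h : ∀ δ, F δ = 0) : wsum ε F = 0 := by
  unfold wsum
  have : (fun δ => ε δ * F δ) = fun _ => 0 := by
    funext δ; rw [h, mul_zero]
  rw [this]; exact finsum_zero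

/-- the parity lemma summed over the group -/
theorem fold (hP : Proper ρ) (w : Γ → k) {a b c p q r : V} (ha : InC a) (hb : InC b) (hc : InC c)
    (hp : InC p) (hq : InC q) (hr : InC r)
    (hg : ∀ δ, Gen6 (ρ δ a) (ρ δ b) (ρ δ c) p q r) :
    wsum w (iA ρ ψ a b c p q) + wsum w (iA ρ ψ a b c q r) + wsum w (iA ρ ψ a b c p r) +
      (wsum w (iB ρ ψ p q r a b) + wsum w (iB ρ ψ p q r b c) + wsum w (iB ρ ψ p q r a c)) = 0 := by
  have A1 := iA_fin ψ hP ha hb hc hp hq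
  have A2 := iA_fin ψ hP ha hb hc hq hr
  have A3 := iA_fin ψ hP ha hb hc hp hr
  have B1 := iB_fin ψ hP hp hq hr ha hb
  have B2 := iB_fin ψ hP hp hq hr hb hc
  have B3 := iB_fin ψ hP hp hq hr ha hc
  rw [← wsum_add w A1 A2, ← wsum_add w (supp_add A1 A2) A3, ← wsum_add w B1 B2,
    ← wsum_add w (supp_add B1 B2) B3,
    ← wsum_add w (supp_add (supp_add A1 A2) A3) (supp_add (supp_add B1 B2) B3)]
  apply wsum_zero
  intro δ
  have h := parity k _ _ _ _ _ _ (hg δ)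
  unfold iA iB
  linear_combination (ψ δ : k) * h

variable (ρ) in
/-- full sum with a moving triangle -/
noncomputable def SA (a b c p q : V) : k := wsum (fun _ => 1) (iA ρ ψ a b c p q)

variable (ρ) in
/-- full sum with a moving segment -/
noncomputable def SB (a b c p q : V) : k := wsum (fun _ => 1) (iB ρ ψ a b c p q)

theorem SA_swap (a b c p q : V) : SA ρ ψ a b c q p = SA ρ ψ a b c p q := by
  unfold SA; rw [iA_swap]

theorem SB_swap (a b c p q : V) : SB ρ ψ a b c q p = SB ρ ψ a b c p q := by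
  unfold SB; rw [iB_swap]

theorem SA_mul (g : Γ) (a b c p q : V) :
    SA ρ ψ a b c (ρ g p) (ρ g q) = (ψ g : k) * SA ρ ψ a b c p q := by
  unfold SA wsum
  rw [mul_finsum]
  rw [← finsum_comp_equiv (Equiv.mulLeft g)]
  apply finsum_congr
  intro δ
  change 1 * iA ρ ψ a b c (ρ g p) (ρ g q) (g * δ) = _
  rw [iA_mul]
  ring

theorem SB_mul (g : Γ) (a b c p q : V) :
    SB ρ ψ a b c (ρ g p) (ρ g q) = ((ψ g)⁻¹ : kˣ) * SB ρ ψ a b c p q := by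
  unfold SB wsum
  rw [mul_finsum]
  rw [← finsum_comp_equiv (Equiv.mulRight g) (f := fun δ => (((ψ g)⁻¹ : kˣ) : k) *
    (1 * iB ρ ψ a b c p q δ))]
  apply finsum_congr
  intro δ
  rw [iB_mul]
  change _ = (((ψ g)⁻¹ : kˣ) : k) * (1 * iB ρ ψ a b c p q (δ * g))
  ring

/-- the fold identity for the full sums -/
theorem foldS (hP : Proper ρ) {a b c p q r : V} (ha : InC a) (hb : InC b) (hc : InC c)
    (hp : InC p) (hq : InC q) (hr : InC r)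
    (hg : ∀ δ, Gen6 (ρ δ a) (ρ δ b) (ρ δ c) p q r) :
    SA ρ ψ a b c p q + SA ρ ψ a b c q r + SA ρ ψ a b c p r =
      SB ρ ψ p q r a b + SB ρ ψ p q r b c + SB ρ ψ p q r a c :=
  CharTwo.add_eq_zero.mp (fold ψ hP (fun _ => 1) ha hb hc hp hq hr hg)

/-- the segment `(x, J x)` contributes zero -/
theorem SB_J (hP : Proper ρ) {J : Γ} (hJ2 : J * J = 1) (hJ1 : J ≠ 1) (hψJ : ψ J = 1)
    {a b c x : V} (ha : InC a) (hb : InC b) (hc : InC c) (hx : InC x) (hx' : InC (ρ J x)) :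
    SB ρ ψ a b c x (ρ J x) = 0 := by
  unfold SB wsum
  refine finsum_involution (wsum_supp (iB_fin ψ hP ha hb hc hx hx')) (fun δ => δ * J) ?_ ?_ ?_
  · intro δ
    rw [mul_assoc, hJ2, mul_one]
  · intro δ _ h1
    exact hJ1 (mul_eq_left.mp h1)
  · intro δ
    have h2 := iB_mul (ρ := ρ) ψ J a b c x (ρ J x) δ
    rw [← rho_mul ρ J J x, hJ2, rho_one, iB_swap, hψJ, inv_one, Units.val_one, one_mul] at h2
    rw [h2]

/-! ### Half sums over `R` -/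

variable (ρ) in
/-- the points `o, y1, y2` -/
structure Pts (J η : Γ) where
  o : V
  y1 : V
  y2 : V
  o_in : InC o
  y1_in : InC y1
  y2_in : InC y2
  Jo : ρ J o = o
  J2 : J * J = 1
  J1 : J ≠ 1
  ηJ : η * J = J * η
  inC : ∀ g v, InC v → InC (ρ g v)
  proper : Proper ρ

variable {J η : Γ} (P : Pts ρ J η)

/-- the sum over the six triangles of `R` -/
noncomputable def IR (p q : V) (δ : Γ) : k :=
  iB ρ ψ P.o P.y1 P.y2 p q δ + iB ρ ψ P.o P.y1 (ρ η P.y2) p q δ +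
  iB ρ ψ P.o (ρ J P.y1) (ρ J P.y2) p q δ + iB ρ ψ P.o (ρ J P.y1) (ρ J (ρ η P.y2)) p q δ +
  iB ρ ψ P.o P.y2 (ρ J P.y2) p q δ + iB ρ ψ P.o (ρ η P.y2) (ρ J (ρ η P.y2)) p q δ

variable {ψ P} in
omit [CharP k 2] in
theorem iB_J (hψJ : ψ J = 1) (P : Pts ρ J η) (b c p q : V) (δ : Γ) :
    iB ρ ψ P.o b c p q (J * δ) = iB ρ ψ P.o (ρ J b) (ρ J c) p q δ := by
  have hinv : J⁻¹ = J := inv_eq_of_mul_eq_one_left P.J2
  unfold iB
  rw [rho_mul, rho_mul, ind_congr (hit_inv ρ J), hinv, P.Jo, map_mul, hψJ, one_mul]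

omit [CharP k 2] in
theorem IR_J (hψJ : ψ J = 1) (p q : V) (δ : Γ) : IR ψ P p q (J * δ) = IR ψ P p q δ := by
  have hJJ : ∀ v, ρ J (ρ J v) = v := fun v => by rw [← rho_mul, P.J2, rho_one]
  unfold IR
  rw [iB_J hψJ, iB_J hψJ, iB_J hψJ, iB_J hψJ, iB_J hψJ, iB_J hψJ, hJJ, hJJ, hJJ]
  have s1 : iB ρ ψ P.o (ρ J P.y2) P.y2 p q δ = iB ρ ψ P.o P.y2 (ρ J P.y2) p q δ := by
    unfold iB; rw [ind_congr hit_swap23]
  have s2 : iB ρ ψ P.o (ρ J (ρ η P.y2)) (ρ η P.y2) p q δ =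
      iB ρ ψ P.o (ρ η P.y2) (ρ J (ρ η P.y2)) p q δ := by
    unfold iB; rw [ind_congr hit_swap23]
  rw [s1, s2]
  ring

omit [CharP k 2] in
theorem IR_fin {p q : V} (hp : InC p) (hq : InC q) :
    (Function.support (IR ψ P p q)).Finite := by
  have c := P.inC
  have h := fun {b c : V} (hb : InC b) (hc : InC c) => iB_fin ψ P.proper P.o_in hb hc hp hq
  exact supp_add (supp_add (supp_add (supp_add (supp_add (h P.y1_in P.y2_in)
    (h P.y1_in (c _ _ P.y2_in))) (h (c _ _ P.y1_in) (c _ _ P.y2_in)))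
    (h (c _ _ P.y1_in) (c _ _ (c _ _ P.y2_in)))) (h P.y2_in (c _ _ P.y2_in)))
    (h (c _ _ P.y2_in) (c _ _ (c _ _ P.y2_in)))

/-- the half sum -/
noncomputable def HR (ε : Γ → k) (p q : V) : k := wsum ε (IR ψ P p q)

omit [CharP k 2] in
theorem HR_swap (ε : Γ → k) (p q : V) : HR ψ P ε q p = HR ψ P ε p q := by
  unfold HR
  apply wsum_congr
  intro δ
  unfold IR
  simp only [iB_swap ψ _ _ _ p q]

theorem HR_mul {ε : Γ → k} (hε : ∀ δ, ε δ + ε (J * δ) = 1) (hψJ : ψ J = 1) (g : Γ) {p q : V}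
    (hp : InC p) (hq : InC q) :
    HR ψ P ε (ρ g p) (ρ g q) = ((ψ g)⁻¹ : kˣ) * HR ψ P ε p q := by
  unfold HR
  have e1 : ∀ δ, IR ψ P (ρ g p) (ρ g q) δ =
      ((ψ g)⁻¹ : kˣ) * (fun δ => IR ψ P p q (δ * g)) δ := by
    intro δ
    unfold IR
    rw [iB_mul, iB_mul, iB_mul, iB_mul, iB_mul, iB_mul]
    ring
  rw [wsum_congr ε e1]
  have e2 : wsum ε (fun δ => ((ψ g)⁻¹ : kˣ) * (fun δ => IR ψ P p q (δ * g)) δ) =
      ((ψ g)⁻¹ : kˣ) * wsum ε (fun δ => IR ψ P p q (δ * g)) := by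
    unfold wsum
    rw [mul_finsum]
    apply finsum_congr
    intro δ
    ring
  rw [e2, wsum_right P.J2 P.J1 (IR_fin ψ P hp hq) hε (fun δ => IR_J ψ P hψJ p q δ) g]

omit [CharP k 2] in
theorem HR_split (ε : Γ → k) {p q : V} (hp : InC p) (hq : InC q) :
    HR ψ P ε p q =
      wsum ε (iB ρ ψ P.o P.y1 P.y2 p q) + wsum ε (iB ρ ψ P.o P.y1 (ρ η P.y2) p q) +
      wsum ε (iB ρ ψ P.o (ρ J P.y1) (ρ J P.y2) p q) +
      wsum ε (iB ρ ψ P.o (ρ J P.y1) (ρ J (ρ η P.y2)) p q) +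
      wsum ε (iB ρ ψ P.o P.y2 (ρ J P.y2) p q) +
      wsum ε (iB ρ ψ P.o (ρ η P.y2) (ρ J (ρ η P.y2)) p q) := by
  have c := P.inC
  have h := fun {b c : V} (hb : InC b) (hc : InC c) => iB_fin ψ P.proper P.o_in hb hc hp hq
  have h1 := h P.y1_in P.y2_in
  have h2 := h P.y1_in (c η _ P.y2_in)
  have h3 := h (c J _ P.y1_in) (c J _ P.y2_in)
  have h4 := h (c J _ P.y1_in) (c J _ (c η _ P.y2_in))
  have h5 := h P.y2_in (c J _ P.y2_in)
  have h6 := h (c η _ P.y2_in) (c J _ (c η _ P.y2_in))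
  rw [← wsum_add ε h1 h2, ← wsum_add ε (supp_add h1 h2) h3,
    ← wsum_add ε (supp_add (supp_add h1 h2) h3) h4,
    ← wsum_add ε (supp_add (supp_add (supp_add h1 h2) h3) h4) h5,
    ← wsum_add ε (supp_add (supp_add (supp_add (supp_add h1 h2) h3) h4) h5) h6]
  rfl

omit [CharP k 2] in
theorem iA_J (hψJ : ψ J = 1) (hJ2 : J * J = 1) (a b c p q : V) (δ : Γ) :
    iA ρ ψ a b c (ρ J p) (ρ J q) δ = iA ρ ψ a b c p q (J * δ) := by
  have h := iA_mul ψ J a b c p q (J * δ) (ρ := ρ)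
  rw [← mul_assoc, hJ2, one_mul, hψJ, Units.val_one, one_mul] at h
  exact h

include P in
/-- (i) symmetrised segments -/
theorem HA_sym {ε : Γ → k} (hε : ∀ δ, ε δ + ε (J * δ) = 1) (hψJ : ψ J = 1) {a b c p q : V}
    (ha : InC a) (hb : InC b) (hc : InC c) (hp : InC p) (hq : InC q) :
    wsum ε (iA ρ ψ a b c p q) + wsum ε (iA ρ ψ a b c (ρ J p) (ρ J q)) = SA ρ ψ a b c p q := by
  have f1 := iA_fin ψ P.proper ha hb hc hp hq
  have f2 := iA_fin ψ P.proper ha hb hc (P.inC J _ hp) (P.inC J _ hq)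
  rw [← wsum_add ε f1 f2]
  have e1 : ∀ δ, (fun δ => iA ρ ψ a b c p q δ + iA ρ ψ a b c (ρ J p) (ρ J q) δ) δ =
      (fun δ => iA ρ ψ a b c p q δ + iA ρ ψ a b c p q (J * δ)) δ := by
    intro δ
    beta_reduce
    rw [iA_J ψ hψJ P.J2]
  rw [wsum_congr ε e1, wsum_sym P.J2 f1 hε]
  unfold SA wsum
  simp only [one_mul]

include P in
/-- (ii) the segments `(y2, J y2)` and `η (y2, J y2)` cancel -/
theorem HA_cancel {ε : Γ → k} (hε : ∀ δ, ε δ + ε (J * δ) = 1) (hψJ : ψ J = 1) (hψη : ψ η = 1)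
    {a b c y : V} (ha : InC a) (hb : InC b) (hc : InC c) (hy : InC y) :
    wsum ε (iA ρ ψ a b c y (ρ J y)) + wsum ε (iA ρ ψ a b c (ρ η y) (ρ J (ρ η y))) = 0 := by
  have hy' : InC (ρ J y) := P.inC J _ hy
  have f1 := iA_fin ψ P.proper ha hb hc hy hy'
  have hJJ : ∀ v, ρ J (ρ J v) = v := fun v => by rw [← rho_mul, P.J2, rho_one]
  have e0 : ρ J (ρ η y) = ρ η (ρ J y) := by rw [← rho_mul, ← rho_mul, P.ηJ]
  have e1 : ∀ δ, iA ρ ψ a b c (ρ η y) (ρ J (ρ η y)) δ =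
      (fun δ => iA ρ ψ a b c y (ρ J y) (η⁻¹ * δ)) δ := by
    intro δ
    rw [e0]
    have h := iA_mul (ρ := ρ) ψ η a b c y (ρ J y) (η⁻¹ * δ)
    rw [mul_inv_cancel_left, hψη, Units.val_one, one_mul] at h
    exact h
  have hFJ : ∀ δ, iA ρ ψ a b c y (ρ J y) (J * δ) = iA ρ ψ a b c y (ρ J y) δ := by
    intro δ
    rw [← iA_J ψ hψJ P.J2, hJJ, iA_swap]
  have hcomm : η⁻¹ * J = J * η⁻¹ := by
    have : Commute η J := P.ηJ
    exact this.inv_left.eq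
  rw [wsum_congr ε e1, wsum_left P.J2 P.J1 f1 hε hFJ η⁻¹ hcomm]
  exact CharTwo.add_self_eq_zero _

/-- the fold identity for the chain `R` -/
theorem foldR {ε : Γ → k} (hε : ∀ δ, ε δ + ε (J * δ) = 1) (hψJ : ψ J = 1) (hψη : ψ η = 1)
    {a b c : V} (ha : InC a) (hb : InC b) (hc : InC c)
    (g1 : ∀ δ e d, Gen6 (ρ δ a) (ρ δ b) (ρ δ c) P.o (ρ e P.y1) (ρ d P.y2))
    (g2 : ∀ δ d, Gen6 (ρ δ a) (ρ δ b) (ρ δ c) (ρ d P.o) P.y2 (ρ J P.y2)) :
    SA ρ ψ a b c P.y1 P.y2 + SA ρ ψ a b c P.y1 (ρ η P.y2) =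
      HR ψ P ε a b + HR ψ P ε b c + HR ψ P ε a c := by
  have cc := P.inC
  have r1 := fold ψ P.proper ε ha hb hc P.o_in P.y1_in P.y2_in
    (fun δ => by simpa only [rho_one] using g1 δ 1 1)
  have r2 := fold ψ P.proper ε ha hb hc P.o_in P.y1_in (cc η _ P.y2_in)
    (fun δ => by simpa only [rho_one] using g1 δ 1 η)
  have r3 := fold ψ P.proper ε ha hb hc P.o_in (cc J _ P.y1_in) (cc J _ P.y2_in)
    (fun δ => g1 δ J J)
  have r4 := fold ψ P.proper ε ha hb hc P.o_in (cc J _ P.y1_in) (cc J _ (cc η _ P.y2_in))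
    (fun δ => by simpa only [rho_mul] using g1 δ J (J * η))
  have r5 := fold ψ P.proper ε ha hb hc P.o_in P.y2_in (cc J _ P.y2_in)
    (fun δ => by simpa only [rho_one] using g2 δ 1)
  have hg6 : ∀ δ, Gen6 (ρ δ a) (ρ δ b) (ρ δ c) P.o (ρ η P.y2) (ρ J (ρ η P.y2)) := by
    intro δ x hx i j hij hi hj
    refine g2 (η⁻¹ * δ) η⁻¹ x ?_ i j hij hi hj
    have h1 := congrArg (ρ η⁻¹) hx
    simp only [map_add, map_smul, map_zero] at h1
    have e1 : ρ η⁻¹ (ρ J (ρ η P.y2)) = ρ J P.y2 := by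
      rw [← rho_mul ρ J η, ← P.ηJ, rho_mul, rho_inv_self]
    rw [rho_inv_self, e1] at h1
    rw [rho_mul, rho_mul, rho_mul]
    exact h1
  have r6 := fold ψ P.proper ε ha hb hc P.o_in (cc η _ P.y2_in) (cc J _ (cc η _ P.y2_in)) hg6
  have s1 := HA_sym ψ P hε hψJ ha hb hc P.y1_in P.y2_in
  have s2 := HA_sym ψ P hε hψJ ha hb hc P.y1_in (cc η _ P.y2_in)
  have s3 := HA_cancel ψ P hε hψJ hψη ha hb hc P.y2_in
  have e1 := HR_split ψ P ε ha hb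
  have e2 := HR_split ψ P ε hb hc
  have e3 := HR_split ψ P ε ha hc
  have h2 : (2 : k) = 0 := CharTwo.two_eq_zero
  linear_combination r1 + r2 + r3 + r4 + r5 + r6 - s1 - s2 - s3 + e1 + e2 + e3 -
    (wsum ε (iA ρ ψ a b c P.o P.y1) + wsum ε (iA ρ ψ a b c P.o P.y2) +
      wsum ε (iA ρ ψ a b c P.o (ρ η P.y2)) + wsum ε (iA ρ ψ a b c P.o (ρ J P.y1)) +
      wsum ε (iA ρ ψ a b c P.o (ρ J P.y2)) + wsum ε (iA ρ ψ a b c P.o (ρ J (ρ η P.y2))) +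
      HR ψ P ε a b + HR ψ P ε b c + HR ψ P ε a c) * h2

end

end SerreK
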