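import Pool.Agent.SerreK.AXIS3

/-!
# AXIS4: evaluation along the axis
-/

namespace SerreK

section
variable {Γ : Type} [Group Γ] {ρ : Γ →* (V →ₗ[ℝ] V)}
variable {k : Type} [Field k] [CharP k 2] (ψ : Γ →* kˣ)
variable {J η : Γ} (P : Pts' ρ J η)

/-- a half sum of a doubly invariant function is the sum over the powers of `η` -/
theorem wsum_axis (hJ2 : J * J = 1) (hJ1 : J ≠ 1) (hη : ∀ n : ℤ, η ^ n = 1 → n = 0)
    (hZ : ∀ g, g * J = J * g → ∃ n : ℤ, g = η ^ n ∨ g = J * η ^ n)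
    {ε : Γ → k} (e2 : ∀ δ, δ * J ≠ J * δ → ε (δ * J) = ε δ)
    (e3 : ∀ n : ℤ, ε (η ^ n) = 1 ∧ ε (J * η ^ n) = 0) {F : Γ → k}
    (hF : (Function.support F).Finite) (hηJ : ∀ n : ℤ, η ^ n * J = J * η ^ n)
    (hFJ : ∀ δ, F (δ * J) = F δ) :
    wsum ε F = ∑ᶠ n : ℤ, F (η ^ n) := by
  classical
  have hinj : Function.Injective (fun n : ℤ => η ^ n) := by
    intro a b hab
    have h1 : η ^ (a - b) = 1 := by
      rw [zpow_sub]
      change η ^ a = η ^ b at hab
      rw [hab, mul_inv_cancel]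
    have := hη _ h1
    omega
  set G1 : Γ → k := fun δ => if δ * J = J * δ then ε δ * F δ else 0 with hG1
  set G2 : Γ → k := fun δ => if δ * J = J * δ then 0 else ε δ * F δ with hG2
  have s1 : (Function.support G1).Finite := by
    refine (wsum_supp (ε := ε) hF).subset ?_
    intro δ hδ
    rw [Function.mem_support] at hδ ⊢
    intro h
    apply hδ
    rw [hG1]
    beta_reduce
    rw [h, ite_self]
  have s2 : (Function.support G2).Finite := by
    refine (wsum_supp (ε := ε) hF).subset ?_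
    intro δ hδ
    rw [Function.mem_support] at hδ ⊢
    intro h
    apply hδ
    rw [hG2]
    beta_reduce
    rw [h, ite_self]
  have hsplit : wsum ε F = (∑ᶠ δ, G1 δ) + ∑ᶠ δ, G2 δ := by
    rw [← finsum_add_distrib s1 s2]
    unfold wsum
    apply finsum_congr
    intro δ
    rw [hG1, hG2]
    beta_reduce
    by_cases h : δ * J = J * δ
    · rw [if_pos h, if_pos h, add_zero]
    · rw [if_neg h, if_neg h, zero_add]
  have z2 : ∑ᶠ δ, G2 δ = 0 := by
    refine finsum_involution s2 (fun δ => δ * J) ?_ ?_ ?_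
    · intro δ
      rw [mul_assoc, hJ2, mul_one]
    · intro δ _ h1
      exact hJ1 (mul_eq_left.mp h1)
    · intro δ
      rw [hG2]
      beta_reduce
      by_cases h : δ * J = J * δ
      · have h' : δ * J * J = J * (δ * J) := by rw [h, mul_assoc, h]
        rw [if_pos h, if_pos h']
      · have h' : ¬ δ * J * J = J * (δ * J) := by
          intro h3
          apply h
          rw [mul_assoc, hJ2, mul_one, ← mul_assoc] at h3
          have := congrArg (fun x => x * J) h3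
          simp only [mul_assoc, hJ2, mul_one] at this
          exact this
        rw [if_neg h, if_neg h', e2 δ h, hFJ]
  rw [hsplit, z2, add_zero]
  have e4 : ∑ᶠ δ, G1 δ = ∑ᶠ δ ∈ Set.range (fun n : ℤ => η ^ n), G1 δ := by
    rw [← finsum_mem_univ]
    apply finsum_mem_inter_support_eq'
    intro δ hδ
    rw [Function.mem_support] at hδ
    refine ⟨fun _ => ?_, fun _ => Set.mem_univ _⟩
    by_contra hn
    apply hδ
    rw [hG1]
    beta_reduce
    split_ifs with h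
    · obtain ⟨n, h1 | h1⟩ := hZ δ h
      · exact absurd ⟨n, h1.symm⟩ hn
      · rw [h1, (e3 n).2, zero_mul]
    · rfl
  rw [e4, finsum_mem_range hinj]
  apply finsum_congr
  intro n
  rw [hG1]
  beta_reduce
  rw [if_pos (hηJ n), (e3 n).1, one_mul]

theorem rho_zpow {l : ℝ} (hl : 1 < l) (hη : ∀ v, ρ η v 0 = l * v 0 ∧ ρ η v 1 = l⁻¹ * v 1)
    (n : ℤ) (v : V) : ρ (η ^ n) v 0 = l ^ n * v 0 ∧ ρ (η ^ n) v 1 = (l ^ n)⁻¹ * v 1 := by
  have hl0 : l ≠ 0 := by positivity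
  induction n generalizing v with
  | zero =>
    rw [zpow_zero, rho_one]
    simp
  | succ n ih =>
    rw [zpow_add_one, rho_mul, (ih _).1, (ih _).2, (hη v).1, (hη v).2, zpow_add_one₀ hl0]
    constructor
    · ring
    · rw [mul_inv]; ring
  | pred n ih =>
    have h1 := hη (ρ η⁻¹ v)
    rw [rho_self_inv] at h1
    have h2 : ρ η⁻¹ v 0 = l⁻¹ * v 0 := by rw [h1.1]; field_simp
    have h3 : ρ η⁻¹ v 1 = l * v 1 := by rw [h1.2]; field_simp
    rw [zpow_sub_one, rho_mul, (ih _).1, (ih _).2, h2, h3, zpow_sub_one₀ hl0]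
    constructor
    · ring
    · rw [mul_inv, inv_inv]; ring

theorem inC_pos {v : V} (h : InC v) : 0 < v 0 ∧ 0 < v 1 := by
  refine ⟨h.1, ?_⟩
  have h1 := h.2
  have h2 : 0 < v 0 * v 1 := lt_of_le_of_lt (by positivity) h1
  exact (pos_iff_pos_of_mul_pos h2).mp h.1

/-- equality of slopes gives proportional vectors -/
theorem slope_eq {a b c d : ℝ} (ha : 0 < a) (hb : 0 < b) (hc : 0 < c) (hd : 0 < d)
    (h : Real.log (a / b) = Real.log (c / d)) : a * d = c * b := by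
  have := Real.log_injOn_pos (Set.mem_Ioi.mpr (by positivity)) (Set.mem_Ioi.mpr (by positivity)) h
  field_simp at this
  linarith

omit [CharP k 2] in
theorem ext4 {v w : V} (h0 : v 0 = w 0) (h1 : v 1 = w 1) (h2 : v 2 = w 2) (h3 : v 3 = w 3) :
    v = w := by
  funext i
  fin_cases i
  · exact h0
  · exact h1
  · exact h2
  · exact h3

theorem IR_axis (hJ : ∀ v, ρ J v = ![v 0, v 1, -v 2, -v 3]) {l : ℝ} (hl : 1 < l)
    (hη : ∀ v, ρ η v 0 = l * v 0 ∧ ρ η v 1 = l⁻¹ * v 1) (hψη : ψ η = 1) (n : ℤ) :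
    IR ψ P.toPts P.x2 (ρ J P.x2) (η ^ n) =
      ind k (btw (Real.log (P.x2 0 / P.x2 1) + n * (2 * Real.log l))
        (Real.log (P.o 0 / P.o 1)) (Real.log (P.y2 0 / P.y2 1))) +
      ind k (btw (Real.log (P.x2 0 / P.x2 1) + n * (2 * Real.log l))
        (Real.log (P.o 0 / P.o 1)) (Real.log (P.y2 0 / P.y2 1) + 2 * Real.log l)) := by
  have hl0 : 0 < l := by positivity
  have hJJ : ∀ v, ρ J (ρ J v) = v := fun v => by rw [← rho_mul, P.J2, rho_one]
  have hcomm : ∀ v, ρ (η ^ n) (ρ J v) = ρ J (ρ (η ^ n) v) := by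
    intro v
    have : Commute η J := P.ηJ
    rw [← rho_mul, ← rho_mul, (this.zpow_left n).eq]
  set x := ρ (η ^ n) P.x2 with hx
  have hxC : InC x := P.inC _ _ P.x2_in
  have hψn : ψ (η ^ n) = 1 := by rw [map_zpow, hψη, one_zpow]
  have hJo := P.Jo
  have ho2 : P.o 2 = 0 ∧ P.o 3 = 0 := by
    have h := hJ P.o
    rw [hJo] at h
    constructor
    · have := congrFun h 2
      simp at this
      linarith
    · have := congrFun h 3
      simp at this
      linarith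
  have hx0 : x 0 = l ^ n * P.x2 0 := (rho_zpow hl hη n P.x2).1
  have hx1 : x 1 = (l ^ n)⁻¹ * P.x2 1 := (rho_zpow hl hη n P.x2).2
  have hln : 0 < l ^ n := by positivity
  obtain ⟨px0, px1⟩ := inC_pos P.x2_in
  obtain ⟨py0, py1⟩ := inC_pos P.y2_in
  obtain ⟨po0, po1⟩ := inC_pos P.o_in
  have hlogx : Real.log (x 0 / x 1) = Real.log (P.x2 0 / P.x2 1) + n * (2 * Real.log l) := by
    rw [hx0, hx1]
    have e : l ^ n * P.x2 0 / ((l ^ n)⁻¹ * P.x2 1) = (P.x2 0 / P.x2 1) * (l ^ n * l ^ n) := by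
      field_simp
    rw [e, Real.log_mul (by positivity) (by positivity), Real.log_mul (by positivity)
      (by positivity), Real.log_zpow]
    ring
  have hlogy : Real.log (ρ η P.y2 0 / ρ η P.y2 1) =
      Real.log (P.y2 0 / P.y2 1) + 2 * Real.log l := by
    rw [(hη _).1, (hη _).2]
    have e : l * P.y2 0 / (l⁻¹ * P.y2 1) = (P.y2 0 / P.y2 1) * (l * l) := by
      field_simp
    rw [e, Real.log_mul (by positivity) (by positivity), Real.log_mul (by positivity)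
      (by positivity)]
    ring
  -- the terms of `IR`
  have t13 : iB ρ ψ P.o (ρ J P.y1) (ρ J P.y2) P.x2 (ρ J P.x2) (η ^ n) =
      iB ρ ψ P.o P.y1 P.y2 P.x2 (ρ J P.x2) (η ^ n) := by
    unfold iB
    rw [hcomm, ← hx]
    congr 1
    apply ind_congr
    rw [← hit_map ρ J, hJo, hJJ, hJJ, hJJ, hit_swap]
  have t24 : iB ρ ψ P.o (ρ J P.y1) (ρ J (ρ η P.y2)) P.x2 (ρ J P.x2) (η ^ n) =
      iB ρ ψ P.o P.y1 (ρ η P.y2) P.x2 (ρ J P.x2) (η ^ n) := by
    unfold iB
    rw [hcomm, ← hx]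
    congr 1
    apply ind_congr
    rw [← hit_map ρ J, hJo, hJJ, hJJ, hJJ, hit_swap]
  -- nondegeneracy
  have nd : ∀ (m : ℤ) (s t : ℝ), s • (ρ (η ^ m) P.x2 - ρ J (ρ (η ^ m) P.x2)) +
      t • (P.y2 - ρ J P.y2) = 0 → s = 0 ∧ t = 0 := by
    intro m s t h
    have hc : ρ (η ^ m) (ρ J P.x2) = ρ J (ρ (η ^ m) P.x2) := by
      have : Commute η J := P.ηJ
      rw [← rho_mul, ← rho_mul, (this.zpow_left m).eq]
    have h1 := P.g6 (η ^ m) 1 ![0, s, -s, 0, t, -t] (by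
      rw [hc]
      simp only [Matrix.cons_val]
      have e : (0 : ℝ) • ρ (η ^ m) P.x1 + s • ρ (η ^ m) P.x2 + -s • ρ J (ρ (η ^ m) P.x2) +
          (0 : ℝ) • ρ 1 P.o + t • P.y2 + -t • ρ J P.y2 =
          s • (ρ (η ^ m) P.x2 - ρ J (ρ (η ^ m) P.x2)) + t • (P.y2 - ρ J P.y2) := by
        module
      rw [e]; exact h) 0 3 (by decide) rfl rfl
    have h2 := congrFun h1 1
    have h3 := congrFun h1 4
    exact ⟨h2, h3⟩
  have ndo : ∀ (g : Γ) (s t : ℝ), s • ρ g P.o + t • (P.y2 + ρ J P.y2) = 0 → s = 0 ∧ t = 0 := by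
    intro g s t h
    have h1 := P.g6 1 g ![0, 0, 0, s, t, t] (by
      simp only [Matrix.cons_val]
      have e : (0 : ℝ) • ρ 1 P.x1 + (0 : ℝ) • ρ 1 P.x2 + (0 : ℝ) • ρ 1 (ρ J P.x2) +
          s • ρ g P.o + t • P.y2 + t • ρ J P.y2 = s • ρ g P.o + t • (P.y2 + ρ J P.y2) := by
        module
      rw [e]; exact h) 0 1 (by decide) rfl rfl
    have h2 := congrFun h1 3
    have h3 := congrFun h1 4
    exact ⟨h2, h3⟩
  have hdet1 : x 2 * P.y2 3 - x 3 * P.y2 2 ≠ 0 := by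
    intro h0
    have hv : ∀ s t : ℝ, s * x 2 + t * P.y2 2 = 0 → s * x 3 + t * P.y2 3 = 0 → s = 0 ∧ t = 0 := by
      intro s t h2 h3
      refine nd n s t ?_
      rw [← hx, hJ, hJ]
      apply ext4 <;> simp only [Pi.add_apply, Pi.smul_apply, Pi.sub_apply, Pi.zero_apply,
        smul_eq_mul, Matrix.cons_val] <;> linarith
    have h1 := hv (P.y2 2) (-x 2) (by ring) (by linarith)
    have h2 := hv (P.y2 3) (-x 3) (by linarith) (by ring)
    have h3 := hv 1 0 (by rw [neg_eq_zero.mp h1.2]; ring) (by rw [neg_eq_zero.mp h2.2]; ring)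
    exact one_ne_zero h3.1
  have hdet2 : x 2 * ρ η P.y2 3 - x 3 * ρ η P.y2 2 ≠ 0 := by
    intro h0
    have hv : ∀ s t : ℝ, s * x 2 + t * ρ η P.y2 2 = 0 → s * x 3 + t * ρ η P.y2 3 = 0 →
        s = 0 ∧ t = 0 := by
      intro s t h2 h3
      refine nd (n - 1) s t ?_
      have hz : s • (x - ρ J x) + t • (ρ η P.y2 - ρ J (ρ η P.y2)) = 0 := by
        rw [hJ, hJ]
        apply ext4 <;> simp only [Pi.add_apply, Pi.smul_apply, Pi.sub_apply, Pi.zero_apply,
          smul_eq_mul, Matrix.cons_val] <;> linarith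
      have h4 := congrArg (ρ η⁻¹) hz
      simp only [map_add, map_smul, map_zero, map_sub] at h4
      have e1 : ρ η⁻¹ x = ρ (η ^ (n - 1)) P.x2 := by
        rw [hx, ← rho_mul]
        congr 2
        rw [zpow_sub_one]
        exact (Commute.zpow_right (Commute.refl η) n).inv_left.eq
      have e2 : ∀ v, ρ η⁻¹ (ρ J v) = ρ J (ρ η⁻¹ v) := by
        intro v
        have : Commute η J := P.ηJ
        rw [← rho_mul, ← rho_mul, this.inv_left.eq]
      rw [e2, e2, e1, rho_inv_self] at h4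
      exact h4
    have h1 := hv (ρ η P.y2 2) (-x 2) (by ring) (by linarith)
    have h2 := hv (ρ η P.y2 3) (-x 3) (by linarith) (by ring)
    have h3 := hv 1 0 (by rw [neg_eq_zero.mp h1.2]; ring) (by rw [neg_eq_zero.mp h2.2]; ring)
    exact one_ne_zero h3.1
  have hdo1 : P.o 0 * P.y2 1 - P.o 1 * P.y2 0 ≠ 0 := by
    intro h0
    have h1 := ndo 1 (2 * P.y2 0) (-(P.o 0)) (by
      rw [rho_one, hJ]
      apply ext4 <;> simp only [Pi.add_apply, Pi.smul_apply, Pi.sub_apply, Pi.zero_apply,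
        smul_eq_mul, Matrix.cons_val, ho2.1, ho2.2] <;> linarith)
    linarith [h1.1]
  have hdo2 : P.o 0 * ρ η P.y2 1 - P.o 1 * ρ η P.y2 0 ≠ 0 := by
    intro h0
    have hz : (2 * ρ η P.y2 0) • P.o + (-(P.o 0)) • (ρ η P.y2 + ρ J (ρ η P.y2)) = 0 := by
      rw [hJ]
      apply ext4 <;> simp only [Pi.add_apply, Pi.smul_apply, Pi.sub_apply, Pi.zero_apply,
        smul_eq_mul, Matrix.cons_val, ho2.1, ho2.2] <;> linarith
    have h4 := congrArg (ρ η⁻¹) hz
    simp only [map_add, map_smul, map_zero] at h4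
    have e2 : ∀ v, ρ η⁻¹ (ρ J v) = ρ J (ρ η⁻¹ v) := by
      intro v
      have : Commute η J := P.ηJ
      rw [← rho_mul, ← rho_mul, this.inv_left.eq]
    rw [e2, rho_inv_self] at h4
    have h1 := ndo η⁻¹ _ _ h4
    linarith [h1.2]
  have t5 : iB ρ ψ P.o P.y2 (ρ J P.y2) P.x2 (ρ J P.x2) (η ^ n) =
      ind k (btw (Real.log (P.x2 0 / P.x2 1) + n * (2 * Real.log l))
        (Real.log (P.o 0 / P.o 1)) (Real.log (P.y2 0 / P.y2 1))) := by
    unfold iB
    rw [hcomm, ← hx, hψn, Units.val_one, one_mul, hJ P.y2, hJ x]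
    rw [ind_congr (hit_axis P.o P.y2 x P.o_in P.y2_in hxC ho2 hdet1 hdo1), hlogx]
  have t6 : iB ρ ψ P.o (ρ η P.y2) (ρ J (ρ η P.y2)) P.x2 (ρ J P.x2) (η ^ n) =
      ind k (btw (Real.log (P.x2 0 / P.x2 1) + n * (2 * Real.log l))
        (Real.log (P.o 0 / P.o 1)) (Real.log (P.y2 0 / P.y2 1) + 2 * Real.log l)) := by
    unfold iB
    rw [hcomm, ← hx, hψn, Units.val_one, one_mul, hJ (ρ η P.y2), hJ x]
    rw [ind_congr (hit_axis P.o (ρ η P.y2) x P.o_in (P.inC _ _ P.y2_in) hxC ho2 hdet2 hdo2),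
      hlogx, hlogy]
  unfold IR
  rw [t13, t24, t5, t6]
  have h2 : (2 : k) = 0 := CharTwo.two_eq_zero
  linear_combination (iB ρ ψ P.o P.y1 P.y2 P.x2 (ρ J P.x2) (η ^ n) +
    iB ρ ψ P.o P.y1 (ρ η P.y2) P.x2 (ρ J P.x2) (η ^ n)) * h2

theorem HR_eval (hJ : ∀ v, ρ J v = ![v 0, v 1, -v 2, -v 3]) {l : ℝ} (hl : 1 < l)
    (hη : ∀ v, ρ η v 0 = l * v 0 ∧ ρ η v 1 = l⁻¹ * v 1)
    (hZ : ∀ g, g * J = J * g → ∃ n : ℤ, g = η ^ n ∨ g = J * η ^ n)
    (hψJ : ψ J = 1) (hψη : ψ η = 1) {ε : Γ → k}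
    (e2 : ∀ δ, δ * J ≠ J * δ → ε (δ * J) = ε δ)
    (e3 : ∀ n : ℤ, ε (η ^ n) = 1 ∧ ε (J * η ^ n) = 0) :
    HR ψ P.toPts ε P.x2 (ρ J P.x2) = 1 := by
  have hηn : ∀ n : ℤ, η ^ n = 1 → n = 0 := by
    intro n hn
    have h1 := (rho_zpow hl hη n P.x2).1
    rw [hn, rho_one] at h1
    have h2 : l ^ n = 1 := by
      have := (inC_pos P.x2_in).1
      field_simp at h1
      linarith
    have h3 : (n : ℝ) * Real.log l = 0 := by rw [← Real.log_zpow, h2, Real.log_one]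
    have h4 : Real.log l ≠ 0 := (Real.log_pos hl).ne'
    exact_mod_cast (mul_eq_zero.mp h3).resolve_right h4
  have hcomm : ∀ n : ℤ, η ^ n * J = J * η ^ n := by
    intro n
    have : Commute η J := P.ηJ
    exact (this.zpow_left n).eq
  have hJJ : ∀ v, ρ J (ρ J v) = v := fun v => by rw [← rho_mul, P.J2, rho_one]
  have hFJ : ∀ δ, IR ψ P.toPts P.x2 (ρ J P.x2) (δ * J) = IR ψ P.toPts P.x2 (ρ J P.x2) δ := by
    intro δ
    have key : ∀ b c, iB ρ ψ P.o b c P.x2 (ρ J P.x2) (δ * J) =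
        iB ρ ψ P.o b c P.x2 (ρ J P.x2) δ := by
      intro b c
      have h := iB_mul (ρ := ρ) ψ J P.o b c P.x2 (ρ J P.x2) δ
      rw [hJJ, hψJ, inv_one, Units.val_one, one_mul, iB_swap] at h
      exact h.symm
    unfold IR
    rw [key, key, key, key, key, key]
  unfold HR
  rw [wsum_axis P.J2 P.J1 hηn hZ e2 e3 (IR_fin ψ P.toPts P.x2_in (P.inC J _ P.x2_in)) hcomm hFJ]
  have e4 : ∀ n : ℤ, IR ψ P.toPts P.x2 (ρ J P.x2) (η ^ n) = _ :=
    fun n => IR_axis ψ P hJ hl hη hψη n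
  rw [finsum_congr e4]
  have hb : 0 < 2 * Real.log l := by have := Real.log_pos hl; linarith
  obtain ⟨px0, px1⟩ := inC_pos P.x2_in
  obtain ⟨py0, py1⟩ := inC_pos P.y2_in
  obtain ⟨po0, po1⟩ := inC_pos P.o_in
  have hJo := P.Jo
  have ho2 : P.o 2 = 0 ∧ P.o 3 = 0 := by
    have h := hJ P.o
    rw [hJo] at h
    constructor
    · have := congrFun h 2
      simp at this
      linarith
    · have := congrFun h 3
      simp at this
      linarith
  have hlogx : ∀ n : ℤ, Real.log (ρ (η ^ n) P.x2 0 / ρ (η ^ n) P.x2 1) =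
      Real.log (P.x2 0 / P.x2 1) + n * (2 * Real.log l) := by
    intro n
    rw [(rho_zpow hl hη n P.x2).1, (rho_zpow hl hη n P.x2).2]
    have hln : 0 < l ^ n := by positivity
    have e : l ^ n * P.x2 0 / ((l ^ n)⁻¹ * P.x2 1) = (P.x2 0 / P.x2 1) * (l ^ n * l ^ n) := by
      field_simp
    rw [e, Real.log_mul (by positivity) (by positivity), Real.log_mul (by positivity)
      (by positivity), Real.log_zpow]
    ring
  refine count_btw k _ _ _ _ hb ?_ ?_
  · intro n hn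
    rw [← hlogx n] at hn
    obtain ⟨q0, q1⟩ := inC_pos (P.inC (η ^ n) _ P.x2_in)
    have h1 := slope_eq q0 q1 po0 po1 hn
    have hc : ρ (η ^ n) (ρ J P.x2) = ρ J (ρ (η ^ n) P.x2) := by
      rw [← rho_mul, ← rho_mul, hcomm]
    have h2 := P.g6 (η ^ n) 1 ![0, P.o 0, P.o 0, -(2 * ρ (η ^ n) P.x2 0), 0, 0] (by
      rw [hc, hJ (ρ (η ^ n) P.x2), rho_one]
      apply ext4 <;> simp only [Pi.add_apply, Pi.smul_apply, Pi.sub_apply, Pi.zero_apply,
        smul_eq_mul, Matrix.cons_val, ho2.1, ho2.2] <;> linarith) 0 4 (by decide) rfl rfl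
    have h3 := congrFun h2 1
    exact po0.ne' h3
  · intro n hn
    rw [← hlogx n] at hn
    obtain ⟨q0, q1⟩ := inC_pos (P.inC (η ^ n) _ P.x2_in)
    have h1 := slope_eq q0 q1 py0 py1 hn
    have hc : ρ (η ^ n) (ρ J P.x2) = ρ J (ρ (η ^ n) P.x2) := by
      rw [← rho_mul, ← rho_mul, hcomm]
    have h2 := P.g6 (η ^ n) 1 ![0, P.y2 0, P.y2 0, 0, -(ρ (η ^ n) P.x2 0), -(ρ (η ^ n) P.x2 0)]
      (by
      rw [hc, hJ (ρ (η ^ n) P.x2), hJ P.y2, rho_one]
      apply ext4 <;> simp only [Pi.add_apply, Pi.smul_apply, Pi.sub_apply, Pi.zero_apply,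
        smul_eq_mul, Matrix.cons_val] <;> linarith) 0 3 (by decide) rfl rfl
    have h3 := congrFun h2 1
    exact py0.ne' h3

end

end SerreK
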