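import Pool.Agent.SerreK.DICHK
import Pool.Agent.SerreK.KPORT
import Pool.Agent.SerreK.TSQT

/-!
# KMAIN: the final theorem
-/

open Matrix hiding J mul_inv_rev
open scoped QuadraticAlgebra

namespace SerreK

open SerreE

section gen

variable {O : Type} [CommRing O]

theorem iota_redU (f : O) (w : (Gi O)ˣ) (t : (Gi (O ⧸ Ideal.span {f}))ˣ)
    (h : iota t = red f (iota w)) : t.val = redGi f w := by
  rw [red_iota] at h
  rw [iota_inj _ h]
  rfl

theorem redGi_surj (f : O) : Function.Surjective (redGi f) := by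
  intro t
  obtain ⟨a, ha⟩ := Ideal.Quotient.mk_surjective t.re
  obtain ⟨b, hb⟩ := Ideal.Quotient.mk_surjective t.im
  exact ⟨⟨a, b⟩, QuadraticAlgebra.ext ha hb⟩

theorem cong_of_redGi {f : O} {w z : Gi O} (h : redGi f w = redGi f z) : Cong f w z := by
  have h1 := congrArg QuadraticAlgebra.re h
  have h2 := congrArg QuadraticAlgebra.im h
  have h1' : Ideal.Quotient.mk (Ideal.span {f}) w.re = Ideal.Quotient.mk (Ideal.span {f}) z.re := h1
  have h2' : Ideal.Quotient.mk (Ideal.span {f}) w.im = Ideal.Quotient.mk (Ideal.span {f}) z.im := h2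
  rw [Ideal.Quotient.eq, Ideal.mem_span_singleton] at h1' h2'
  exact ⟨h1', h2'⟩

/-- a lift -/
noncomputable def lft (f : O) (t : Gi (O ⧸ Ideal.span {f})) : Gi O :=
  Function.surjInv (redGi_surj f) t

theorem lft_spec (f : O) (t : Gi (O ⧸ Ideal.span {f})) : redGi f (lft f t) = t :=
  Function.surjInv_eq (redGi_surj f) t

theorem nm_eq (w : Gi O) : nm w = w.norm := by
  unfold nm
  rw [QuadraticAlgebra.norm_def]
  ring

theorem isUnit_redGi' {f : O} {w : Gi O} (h : IsCoprime (nm w) f) : IsUnit (redGi f w) := by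
  rw [nm_eq] at h
  rw [QuadraticAlgebra.isUnit_iff_norm_isUnit]
  obtain ⟨a, b, hab⟩ := h
  have e : (redGi f w).norm = Ideal.Quotient.mk _ w.norm := by
    simp [redGi, QuadraticAlgebra.norm_def]
  rw [e]
  refine IsUnit.of_mul_eq_one (Ideal.Quotient.mk _ a) ?_
  rw [← map_mul, ← map_one (Ideal.Quotient.mk (Ideal.span {f})), Ideal.Quotient.eq,
    Ideal.mem_span_singleton]
  exact ⟨-b, by linear_combination hab⟩

theorem RingClassChar.one {f : O} {χ : Gi O → FF} (h : RingClassChar f χ) : χ 1 = 1 :=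
  h.unit 1 isUnit_one

/-- the character of `(O[i]/f)ˣ` given by a ring class character, as a function -/
noncomputable def toFunR (f : O) (χ : Gi O → FF) (t : Gi (O ⧸ Ideal.span {f})) : FF :=
  χ (lft f t)

theorem toFunR_apply {f : O} {χ : Gi O → FF} (h : RingClassChar f χ) (w : Gi O) :
    toFunR f χ (redGi f w) = χ w := by
  apply h.congr
  apply cong_of_redGi
  rw [lft_spec]

/-- the character of `(O[i]/f)ˣ` given by a ring class character, as a monoid homomorphism -/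
noncomputable def toM {f : O} {χ : Gi O → FF} (h : RingClassChar f χ) :
    Gi (O ⧸ Ideal.span {f}) →* FF where
  toFun := toFunR f χ
  map_one' := by
    rw [← h.one, ← map_one (redGi f), toFunR_apply h]
  map_mul' a b := by
    obtain ⟨a, rfl⟩ := redGi_surj f a
    obtain ⟨b, rfl⟩ := redGi_surj f b
    rw [← map_mul, toFunR_apply h, toFunR_apply h, toFunR_apply h, h.mul]

theorem toM_apply {f : O} {χ : Gi O → FF} (h : RingClassChar f χ) (w : Gi O) :
    toM h (redGi f w) = χ w := toFunR_apply h w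

/-- the character of `(O[i]/f)ˣ` given by a ring class character -/
noncomputable def toU {f : O} {χ : Gi O → FF} (h : RingClassChar f χ) :
    (Gi (O ⧸ Ideal.span {f}))ˣ →* FFˣ := Units.map (toM h)

theorem toU_apply {f : O} {χ : Gi O → FF} (h : RingClassChar f χ)
    (t : (Gi (O ⧸ Ideal.span {f}))ˣ) (w : Gi O) (ht : t.val = redGi f w) :
    ((toU h t : FFˣ) : FF) = χ w := by
  change toM h t.val = χ w
  rw [ht, toM_apply]

theorem coprime_of_unit {f : O} (u : (O ⧸ Ideal.span {f})ˣ) (a : O)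
    (ha : Ideal.Quotient.mk (Ideal.span {f}) a = u) : IsCoprime a f := by
  obtain ⟨b, hb⟩ := Ideal.Quotient.mk_surjective ((u⁻¹ : (O ⧸ Ideal.span {f})ˣ) :
    O ⧸ Ideal.span {f})
  have h1 : Ideal.Quotient.mk (Ideal.span {f}) (b * a) = 1 := by
    rw [map_mul, ha, hb]; simp
  rw [← map_one (Ideal.Quotient.mk (Ideal.span {f})), Ideal.Quotient.eq,
    Ideal.mem_span_singleton] at h1
  obtain ⟨c, hc⟩ := h1
  exact ⟨b, -c, by linear_combination hc⟩

end gen

section core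

variable {O : Type} [CommRing O] [IsDomain O] [IsPrincipalIdealRing O] [FinQuot O]

/-- the main theorem for characters of `(O/f)[i]ˣ`. -/
theorem core_thmK (σ : O →+* ℂ) (hσ : ImQ σ) (hnt : ∃ w : (Gi O)ˣ, ab1 σ w ≠ 1)
    (h2sq : ∀ t : O, (2 : O) ∣ t ^ 2 → (2 : O) ∣ t) (h2 : ¬ IsUnit (2 : O)) (h20 : (2 : O) ≠ 0)
    (htsq : ∀ π : O, Prime π → ∀ l, π ∣ l ^ 2 + 1 → ∃ w : Gi O, Associated w.norm π)
    (f : O) (hf2 : IsCoprime f 2) (χ : (Gi (O ⧸ Ideal.span {f}))ˣ →* FFˣ)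
    (hscal : ∀ u, χ (giC u) = 1)
    (hunit : ∀ (v : (Gi O)ˣ) (t : (Gi (O ⧸ Ideal.span {f}))ˣ), t.val = redGi f v → χ t = 1)
    (hprim : ∀ 𝔞 : Ideal (O ⧸ Ideal.span {f}), 𝔞 ≠ ⊥ →
      ∃ t : (Gi (O ⧸ Ideal.span {f}))ˣ, t.val.re - 1 ∈ 𝔞 ∧ t.val.im ∈ 𝔞 ∧ χ t ≠ 1)
    (hne : χ ≠ 1) :
    ∃ Φ : Eigenform (f ^ 2), ∀ π : GP (f ^ 2),
      (∀ (w : Gi O) (t : (Gi (O ⧸ Ideal.span {f}))ˣ), Associated w.norm π.el →
        t.val = redGi f w → Φ.ev π = (χ t : FF) + ((χ t)⁻¹ : FFˣ)) ∧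
      ((∀ w : Gi O, ¬ Associated w.norm π.el) → Φ.ev π = 0) := by
  have hf : f ≠ 0 := by
    rintro rfl
    exact h2 (isCoprime_zero_left.mp hf2)
  have hfu : ¬ IsUnit f := by
    intro h
    apply hne
    have hs : Subsingleton (O ⧸ Ideal.span {f}) :=
      Ideal.Quotient.subsingleton_iff.mpr (Ideal.span_singleton_eq_top.mpr h)
    ext t
    have : t = 1 := Units.ext (Subsingleton.elim _ _)
    rw [this]; simp
  obtain ⟨η, hη1, hη2⟩ := unit_structure σ hσ hnt
  have hI : ∀ (w : (Gi O)ˣ) (t : (Gi (O ⧸ Ideal.span {f}))ˣ), iota t = red f (iota w) →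
      χ t = 1 := fun w t ht => hunit w t (iota_redU f w t ht)
  have hJ : ∀ t, iota t = red f J → χ t = 1 := by
    intro t ht
    rw [← iota_iUn] at ht
    exact hI _ t ht
  have he : ∀ t, iota t = red f (iota η) → χ t = 1 := hI η
  obtain ⟨χ', hχ', a, ha1, ha2, ha3⟩ := dichK σ hσ η hη1 hη2 f hfu hf2 χ hscal hJ he
  have hinv : ∀ t, ((χ' t : FFˣ) : FF) + (((χ' t)⁻¹ : FFˣ) : FF) =
      ((χ t : FFˣ) : FF) + (((χ t)⁻¹ : FFˣ) : FF) := by
    intro t
    rcases hχ' with rfl | rfl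
    · rfl
    · rw [MonoidHom.inv_apply, inv_inv, add_comm]
  have hone : ∀ t, χ t = 1 → χ' t = 1 := by
    intro t ht
    rcases hχ' with rfl | rfl
    · exact ht
    · rw [MonoidHom.inv_apply, ht, inv_one]
  have hone' : ∀ t, χ' t = 1 → χ t = 1 := by
    intro t ht
    rcases hχ' with rfl | rfl
    · exact ht
    · rw [MonoidHom.inv_apply, inv_eq_one] at ht; exact ht
  obtain ⟨C, hC, hC1⟩ := shap f χ' a ha1 ha2
  have hne' : χ' ≠ 1 := by
    intro h
    apply hne
    ext t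
    have := hone' t (by rw [h]; rfl)
    rw [this]; rfl
  have fin : ∀ (u : GL (Fin 2) O) (hu : u * J = J * u) (tu : (Gi (O ⧸ Ideal.span {f}))ˣ)
      (htu : iota tu = red f u) (hχu : χ' tu = 1) (hCu : a u ≠ a 1),
      ∃ Φ : Eigenform (f ^ 2), ∀ π : GP (f ^ 2),
      (∀ (w : Gi O) (t : (Gi (O ⧸ Ideal.span {f}))ˣ), Associated w.norm π.el →
        t.val = redGi f w → Φ.ev π = (χ t : FF) + ((χ t)⁻¹ : FFˣ)) ∧
      ((∀ w : Gi O, ¬ Associated w.norm π.el) → Φ.ev π = 0) := by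
    intro u hu tu htu hχu hCu
    have hCu' : C u 1 ≠ 0 := by
      rw [hC1]; exact sub_ne_zero.mpr hCu
    obtain ⟨Φ, hΦ⟩ := core_auxK h2sq h2 h20 htsq f hf hfu hf2 χ' (fun u => hone _ (hscal u))
      (fun t h => hone _ (hJ t h))
      (fun 𝔞 h𝔞 => by
        obtain ⟨t, h1, h2, h3⟩ := hprim 𝔞 h𝔞
        exact ⟨t, h1, h2, fun h => h3 (hone' t h)⟩)
      hne' u hu tu htu hχu C hC hCu'
    refine ⟨Φ, fun π => ⟨fun w t hw ht => ?_, (hΦ π).2⟩⟩
    rw [(hΦ π).1 w t hw ht, hinv]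
  rcases ha3 with h | h
  · have e : iota (Units.map (redGi f).toMonoidHom (iUn O)) = red f J := by
      rw [← red_iota, iota_iUn]
    exact fin J rfl _ e (hone _ (hJ _ e)) h
  · have e : iota (Units.map (redGi f).toMonoidHom η) = red f (iota η) := (red_iota f η).symm
    have hc : iota η * J = J * iota η := by
      rw [← iota_iUn, ← map_mul, ← map_mul, mul_comm]
    exact fin (iota η) hc _ e (hone _ (he _ e)) h

omit [IsDomain O] [FinQuot O] in
theorem hprimK {f : O} {χ : Gi O → FF} (h : RingClassChar f χ) :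
    ∀ 𝔞 : Ideal (O ⧸ Ideal.span {f}), 𝔞 ≠ ⊥ →
      ∃ t : (Gi (O ⧸ Ideal.span {f}))ˣ, t.val.re - 1 ∈ 𝔞 ∧ t.val.im ∈ 𝔞 ∧ toU h t ≠ 1 := by
  intro 𝔞 h𝔞
  obtain ⟨g, hg⟩ := (IsPrincipalIdealRing.principal
    (Ideal.comap (Ideal.Quotient.mk (Ideal.span {f})) 𝔞)).principal
  rw [← Ideal.span] at hg
  have hgf : g ∣ f := by
    have : f ∈ Ideal.comap (Ideal.Quotient.mk (Ideal.span {f})) 𝔞 := by
      rw [Ideal.mem_comap]
      have : Ideal.Quotient.mk (Ideal.span {f}) f = 0 :=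
        Ideal.Quotient.eq_zero_iff_mem.mpr (Ideal.mem_span_singleton_self f)
      rw [this]; exact 𝔞.zero_mem
    rw [hg] at this
    exact Ideal.mem_span_singleton.mp this
  have hgm : Ideal.Quotient.mk (Ideal.span {f}) g ∈ 𝔞 := by
    rw [← Ideal.mem_comap, hg]; exact Ideal.mem_span_singleton_self g
  have hfg : ¬ f ∣ g := by
    intro h
    apply h𝔞
    rw [eq_bot_iff]
    intro x hx
    obtain ⟨y, rfl⟩ := Ideal.Quotient.mk_surjective x
    rw [← Ideal.mem_comap, hg, Ideal.mem_span_singleton] at hx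
    rw [Ideal.mem_bot, Ideal.Quotient.eq_zero_iff_mem, Ideal.mem_span_singleton]
    exact dvd_trans h hx
  obtain ⟨w, hw1, hw2, hw3⟩ := h.cond g hgf hfg
  refine ⟨(isUnit_redGi' hw1).unit, ?_, ?_, ?_⟩
  · obtain ⟨c, hc⟩ := hw2.1
    have : (isUnit_redGi' hw1).unit.val.re - 1 =
        Ideal.Quotient.mk _ g * Ideal.Quotient.mk _ c := by
      rw [← map_mul, ← hc]
      simp [redGi]
    rw [this]; exact 𝔞.mul_mem_right _ hgm
  · obtain ⟨c, hc⟩ := hw2.2
    have : (isUnit_redGi' hw1).unit.val.im =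
        Ideal.Quotient.mk _ g * Ideal.Quotient.mk _ c := by
      rw [← map_mul, ← hc]
      simp [redGi]
    rw [this]; exact 𝔞.mul_mem_right _ hgm
  · intro h1
    apply hw3
    rw [← toU_apply h (isUnit_redGi' hw1).unit w rfl, h1]
    rfl

/-- the main theorem for a principal imaginary quadratic ring. -/
theorem mainK (σ : O →+* ℂ) (hσ : ImQ σ) (hnt : ∃ w : (Gi O)ˣ, ab1 σ w ≠ 1)
    (h2sq : ∀ t : O, (2 : O) ∣ t ^ 2 → (2 : O) ∣ t) (h2 : ¬ IsUnit (2 : O)) (h20 : (2 : O) ≠ 0)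
    (htsq : ∀ π : O, Prime π → ∀ l, π ∣ l ^ 2 + 1 → ∃ w : Gi O, Associated w.norm π)
    (f : O) (hf2 : IsCoprime f 2) (χ : Gi O → FF) (h : RingClassChar f χ) :
    ∃ Φ : Eigenform (f ^ 2), Attached Φ χ := by
  have hscal : ∀ u, toU h (giC u) = 1 := by
    intro u
    apply Units.ext
    obtain ⟨a, ha⟩ := Ideal.Quotient.mk_surjective (u : O ⧸ Ideal.span {f})
    rw [toU_apply h (giC u) ⟨a, 0⟩ (by
      apply QuadraticAlgebra.ext
      · change u.val = Ideal.Quotient.mk _ a; exact ha.symm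
      · change 0 = Ideal.Quotient.mk _ 0; exact (map_zero _).symm),
      h.base a (coprime_of_unit u a ha)]
    rfl
  have hunit : ∀ (v : (Gi O)ˣ) (t : (Gi (O ⧸ Ideal.span {f}))ˣ),
      t.val = redGi f v → toU h t = 1 := by
    intro v t ht
    apply Units.ext
    rw [toU_apply h t _ ht, h.unit v v.isUnit]; rfl
  have hne : toU h ≠ 1 := by
    intro h1
    obtain ⟨w, hw, hw'⟩ := h.ne
    apply hw'
    rw [← toU_apply h (isUnit_redGi' hw).unit w rfl, h1]
    rfl
  obtain ⟨Φ, hΦ⟩ := core_thmK σ hσ hnt h2sq h2 h20 htsq f hf2 (toU h) hscal hunit (hprimK h) hne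
  refine ⟨Φ, fun π => ⟨fun w hw => ?_, fun hw => ?_⟩⟩
  · have hpf : ¬ π.el ∣ f := fun hd =>
      π.not_dvd (Dvd.dvd.mul_left (Dvd.dvd.trans hd (Dvd.intro_left f (by ring))) _)
    have hcop : IsCoprime (nm w) f := by
      have hc : IsCoprime π.el f := (Prime.coprime_iff_not_dvd π.prime).mpr hpf
      obtain ⟨u, hu⟩ := hw
      obtain ⟨a, b, hab⟩ := hc
      exact ⟨a * u, b, by linear_combination hab + a * hu⟩
    have hw' : Associated w.norm π.el := by rw [← nm_eq]; exact hw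
    rw [(hΦ π).1 w (isUnit_redGi' hcop).unit hw' rfl]
    have e1 : ((toU h (isUnit_redGi' hcop).unit : FFˣ) : FF) = χ w := toU_apply h _ w rfl
    have e2 : χ w * χ (star w) = 1 := by
      rw [← h.mul, ← QuadraticAlgebra.algebraMap_norm_eq_mul_star, ← nm_eq]
      exact h.base _ hcop
    rw [Units.val_inv_eq_inv_val, e1]
    congr 1
    exact (eq_inv_of_mul_eq_one_right e2).symm
  · refine (hΦ π).2 fun w => ?_
    rw [← nm_eq]
    exact hw w

end core

/-- **Main theorem.**  Let `K = ℚ(√-(4n+3))`, one of the seven imaginary quadratic fields of class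
number one in which `2` is unramified, `O` its ring of integers, and `L = K(i)`.  Let `f ∈ O` be
prime to `2` and let `χ` be a non-trivial character of `(O[i]/f)ˣ` with values in `𝔽̄₂ˣ`, trivial on
`(O/f)ˣ` and on the units of `O[i]`, of conductor `f`.  Then there is an eigenform `Φ` of level `f²`
whose eigenvalues are the Frobenius traces of the representation induced from `χ`. -/
theorem final (n : ℕ) (hn : n ∈ ({0, 1, 2, 4, 10, 16, 40} : Finset ℕ)) (f : OK n)
    (hf2 : IsCoprime f 2) (χ : Gi (OK n) → FF) (h : RingClassChar f χ) :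
    ∃ Φ : Eigenform (f ^ 2), Attached Φ χ := by
  have := pidm n hn
  have h20 : (2 : OK n) ≠ 0 := by
    intro h
    have := congrArg QuadraticAlgebra.re h
    norm_num at this
  exact mainK (sig n) (sig_imQ n) (exists_unit n) (two_sq n) (two_not_unit n) h20 (tsqK n hn) f hf2
    χ h

end SerreK
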