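import Pool.Agent.SerreK.PELL

/-!
# TSQM: primes modulo which `-1` is a square are relative norms from `O[i]`
(1) pigeonhole: `π ∣ l² + 1` gives `x² + y² = π κ` with `κ ≠ 0` of bounded norm.
(2) descent by the prime divisors of `κ`.
-/

open scoped QuadraticAlgebra

namespace SerreK

open SerreE

/-- absolute norm -/
def nrm {n : ℕ} (x : OK n) : ℤ := x.re ^ 2 + x.re * x.im + (n + 1) * x.im ^ 2

section basic
variable {n : ℕ}

theorem nrm_eq (x : OK n) : nrm x = QuadraticAlgebra.norm x := by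
  rw [QuadraticAlgebra.norm_def]
  unfold nrm
  ring

theorem nrm_mul (x y : OK n) : nrm (x * y) = nrm x * nrm y := by
  rw [nrm_eq, nrm_eq, nrm_eq, map_mul]

theorem four_nrm (x : OK n) : 4 * nrm x = (2 * x.re + x.im) ^ 2 + (4 * n + 3) * x.im ^ 2 := by
  unfold nrm
  ring

theorem nrm_nonneg (x : OK n) : 0 ≤ nrm x := by
  have h := four_nrm x
  have h1 : 0 ≤ (4 * (n : ℤ) + 3) * x.im ^ 2 := by positivity
  nlinarith [sq_nonneg (2 * x.re + x.im)]

theorem nrm_eq_zero {x : OK n} : nrm x = 0 ↔ x = 0 := by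
  constructor
  · intro h
    have h0 := four_nrm x
    rw [h] at h0
    have h1 : 0 ≤ (4 * (n : ℤ) + 3) * x.im ^ 2 := by positivity
    have h2 : (4 * (n : ℤ) + 3) * x.im ^ 2 = 0 := by nlinarith [sq_nonneg (2 * x.re + x.im)]
    have h3 : x.im = 0 := by
      rcases mul_eq_zero.1 h2 with h | h
      · exfalso; have : (0 : ℤ) ≤ n := Int.natCast_nonneg n; omega
      · exact pow_eq_zero_iff (two_ne_zero) |>.1 h
    have h4 : x.re = 0 := by
      rw [h3] at h0
      have : (2 * x.re) ^ 2 = 0 := by nlinarith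
      have := pow_eq_zero_iff (two_ne_zero) |>.1 this
      omega
    exact QuadraticAlgebra.ext h4 h3
  · rintro rfl
    simp [nrm]

theorem nrm_pos {x : OK n} (hx : x ≠ 0) : 0 < nrm x :=
  lt_of_le_of_ne (nrm_nonneg x) fun h => hx (nrm_eq_zero.1 h.symm)

theorem nrm_isUnit {x : OK n} : IsUnit x ↔ nrm x = 1 := by
  rw [QuadraticAlgebra.isUnit_iff_norm_isUnit, ← nrm_eq, Int.isUnit_iff]
  have := nrm_nonneg x
  omega

theorem mul_star_eq (x : OK n) : x * star x = ((nrm x : ℤ) : OK n) := by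
  rw [nrm_eq, ← QuadraticAlgebra.algebraMap_norm_eq_mul_star]
  rfl

theorem nrm_star (x : OK n) : nrm (star x) = nrm x := by
  rw [nrm_eq, nrm_eq, QuadraticAlgebra.norm_star]

theorem nrm_intCast (k : ℤ) : nrm (k : OK n) = k ^ 2 := by
  rw [nrm_eq, QuadraticAlgebra.norm_intCast, Int.cast_id]

theorem nrm_natCast (k : ℕ) : nrm (k : OK n) = (k : ℤ) ^ 2 := by
  rw [nrm_eq, QuadraticAlgebra.norm_natCast]

theorem gi_norm {R : Type*} [CommRing R] (w : Gi R) : w.norm = w.re * w.re + w.im * w.im := by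
  rw [QuadraticAlgebra.norm_def]
  ring

/-- the triangle inequality for `x² + y²` -/
theorem nrm_sq_add (x y : OK n) : (nrm x + nrm y) ^ 2 - nrm (x * x + y * y) =
    (4 * n + 3) * (x * star y).im ^ 2 := by
  unfold nrm
  simp only [QuadraticAlgebra.re_add, QuadraticAlgebra.im_add, QuadraticAlgebra.re_mul,
    QuadraticAlgebra.im_mul, QuadraticAlgebra.re_star, QuadraticAlgebra.im_star]
  ring

theorem sq_eq_zero_of (a b : ℤ) (h : a ^ 2 = (4 * n + 3) * b ^ 2) : a = 0 := by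
  by_cases hb : b = 0
  · rw [hb] at h
    simpa using h
  · exfalso
    have h1 : b ^ 2 ∣ a ^ 2 := ⟨4 * n + 3, by rw [h]; ring⟩
    obtain ⟨k, rfl⟩ := (Int.pow_dvd_pow_iff (two_ne_zero)).1 h1
    have h2 : k ^ 2 = 4 * n + 3 := by
      have h3 : b ^ 2 * (k ^ 2 - (4 * n + 3)) = 0 := by
        rw [mul_sub, ← mul_pow, h]; ring
      rcases mul_eq_zero.1 h3 with h4 | h4
      · exact absurd (pow_eq_zero_iff (two_ne_zero) |>.1 h4) hb
      · linarith
    have h5 : k % 4 = 0 ∨ k % 4 = 1 ∨ k % 4 = 2 ∨ k % 4 = 3 := by omega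
    have h6 : k ^ 2 % 4 = 3 := by rw [h2]; omega
    rcases h5 with h5 | h5 | h5 | h5 <;> simp [pow_two, Int.mul_emod, h5] at h6

theorem sq_add_ne_zero {x y : OK n} (h : x ≠ 0 ∨ y ≠ 0) : x * x + y * y ≠ 0 := by
  intro h0
  have h1 := nrm_sq_add x y
  rw [h0, nrm_eq_zero.2 rfl, sub_zero] at h1
  have h2 := sq_eq_zero_of _ _ h1
  have h3 := nrm_nonneg x
  have h4 := nrm_nonneg y
  rcases h with h | h
  · exact h (nrm_eq_zero.1 (by omega))
  · exact h (nrm_eq_zero.1 (by omega))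

end basic

/-- (2) descent -/
theorem descent (n : ℕ) [IsPrincipalIdealRing (OK n)] (B : ℕ)
    (htab : ∀ ρ : OK n, Prime ρ → nrm ρ ≤ B → (∃ l, ρ ∣ l ^ 2 + 1) →
      ∃ w : Gi (OK n), Associated w.norm ρ) (π : OK n) (hπ : Prime π) (l : OK n)
    (hl : π ∣ l ^ 2 + 1) :
    ∀ (m : ℕ) (x y κ : OK n), κ ≠ 0 → nrm κ = m → nrm κ ≤ B → x * x + y * y = π * κ →
      ∃ w : Gi (OK n), Associated w.norm π := by
  intro m
  induction m using Nat.strong_induction_on with
  | _ m ih =>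
    intro x y κ hκ hm hB hxy
    by_cases hu : IsUnit κ
    · obtain ⟨u, rfl⟩ := hu
      refine ⟨⟨x, y⟩, ?_⟩
      rw [gi_norm]
      change Associated (x * x + y * y) π
      rw [hxy]
      exact (associated_mul_unit_left π _ u.isUnit)
    · obtain ⟨ρ, hρi, κ', rfl⟩ := WfDvdMonoid.exists_irreducible_factor hu hκ
      have hρ : Prime ρ := hρi.prime
      have hκ' : κ' ≠ 0 := right_ne_zero_of_mul hκ
      have hNρ : 1 < nrm ρ := by
        have h1 := nrm_pos hρ.ne_zero
        have h2 : nrm ρ ≠ 1 := fun h => hρ.not_isUnit (nrm_isUnit.2 h)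
        omega
      have hNκ' : 0 < nrm κ' := nrm_pos hκ'
      have hlt : nrm κ' < nrm (ρ * κ') := by
        rw [nrm_mul]
        nlinarith
      have hρB : nrm ρ ≤ B := by
        refine le_trans ?_ hB
        rw [nrm_mul]
        nlinarith
      by_cases hboth : ρ ∣ x ∧ ρ ∣ y
      · obtain ⟨⟨x', rfl⟩, ⟨y', rfl⟩⟩ := hboth
        have h1 : ρ * (x' * x' + y' * y') = π * κ' := by
          apply mul_left_cancel₀ hρ.ne_zero
          calc ρ * (ρ * (x' * x' + y' * y')) = ρ * x' * (ρ * x') + ρ * y' * (ρ * y') := by ring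
            _ = π * (ρ * κ') := hxy
            _ = ρ * (π * κ') := by ring
        rcases hρ.dvd_or_dvd (Dvd.intro _ h1) with h2 | ⟨κ'', rfl⟩
        · -- `ρ` is associated to `π`
          have hass : Associated ρ π := hρ.associated_of_dvd hπ h2
          obtain ⟨u, hu'⟩ := hass
          have hN : nrm π = nrm ρ := by
            rw [← hu', nrm_mul, nrm_isUnit.1 u.isUnit, mul_one]
          exact htab π hπ (by rw [hN]; exact hρB) ⟨l, hl⟩
        · have hκ'' : κ'' ≠ 0 := right_ne_zero_of_mul hκ'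
          have hN3 : nrm κ'' < nrm (ρ * κ'') := by
            rw [nrm_mul]
            have := nrm_pos hκ''
            nlinarith
          have h4 : x' * x' + y' * y' = π * κ'' := by
            apply mul_left_cancel₀ hρ.ne_zero
            rw [h1]
            ring
          have h5 : nrm κ'' = ((nrm κ'').toNat : ℤ) := (Int.toNat_of_nonneg (nrm_nonneg _)).symm
          refine ih (nrm κ'').toNat ?_ x' y' κ'' hκ'' h5 ?_ h4
          · have := nrm_nonneg κ''
            omega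
          · omega
      · -- `-1` is a square modulo `ρ`
        have hρxy : ρ ∣ x * x + y * y := by
          rw [hxy]
          exact ⟨π * κ', by ring⟩
        have hy : ¬ ρ ∣ y := by
          intro hy
          refine hboth ⟨?_, hy⟩
          have h1 : ρ ∣ x * x := by
            have := dvd_sub hρxy (hy.mul_left y)
            simpa using this
          exact (hρ.dvd_or_dvd h1).elim id id
        have hcop : IsCoprime ρ y := (hρi.coprime_iff_not_dvd).2 hy
        obtain ⟨a, b, hab⟩ := hcop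
        have hsq : ρ ∣ (b * x) ^ 2 + 1 := by
          have e : (b * x) ^ 2 + 1 = b ^ 2 * (x * x + y * y) +
              ρ * (a * (a * ρ + b * y + b * y)) := by
            have e1 : (1 : OK n) = (a * ρ + b * y) ^ 2 := by rw [hab]; ring
            calc (b * x) ^ 2 + 1 = (b * x) ^ 2 + (a * ρ + b * y) ^ 2 := by rw [← e1]
              _ = _ := by ring
          rw [e]
          exact dvd_add (hρxy.mul_left _) (Dvd.intro _ rfl)
        obtain ⟨v, hv⟩ := htab ρ hρ hρB ⟨_, hsq⟩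
        rw [gi_norm] at hv
        obtain ⟨u, hu'⟩ := hv
        set r := v.re with hr
        set s := v.im with hs
        have hrs : r * r + s * s = ρ * (u⁻¹ : (OK n)ˣ) := by
          rw [← hu', mul_assoc, Units.mul_inv, mul_one]
        have hρrs : ρ ∣ r * r + s * s := ⟨_, hrs⟩
        have hprod : ρ ∣ (y * r - x * s) * (y * r + x * s) := by
          have e : (y * r - x * s) * (y * r + x * s) =
              (x * x + y * y) * (r * r) - (r * r + s * s) * (x * x) := by ring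
          rw [e]
          exact dvd_sub (hρxy.mul_right _) (hρrs.mul_right _)
        -- the common end of both cases
        have hend : ∀ p q : OK n, p * p + q * q = (x * x + y * y) * (r * r + s * s) → ρ ∣ q →
            ∃ w : Gi (OK n), Associated w.norm π := by
          rintro p q hpq hq
          have h1 : ρ ∣ p := by
            have h2 : ρ ∣ p * p := by
              have h3 : ρ ∣ p * p + q * q := by
                rw [hpq]
                exact hρxy.mul_right _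
              have := dvd_sub h3 (hq.mul_left q)
              simpa using this
            exact (hρ.dvd_or_dvd h2).elim id id
          obtain ⟨p', rfl⟩ := h1
          obtain ⟨q', rfl⟩ := hq
          have h4 : p' * p' + q' * q' = π * (κ' * (u⁻¹ : (OK n)ˣ)) := by
            apply mul_left_cancel₀ (mul_ne_zero hρ.ne_zero hρ.ne_zero)
            calc ρ * ρ * (p' * p' + q' * q') = ρ * p' * (ρ * p') + ρ * q' * (ρ * q') := by ring
              _ = (x * x + y * y) * (r * r + s * s) := hpq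
              _ = _ := by rw [hxy, hrs]; ring
          have hN : nrm (κ' * ((u⁻¹ : (OK n)ˣ) : OK n)) = nrm κ' := by
            rw [nrm_mul, nrm_isUnit.1 (Units.isUnit _), mul_one]
          have h5 : nrm (κ' * ((u⁻¹ : (OK n)ˣ) : OK n)) = ((nrm κ').toNat : ℤ) := by
            rw [hN]
            exact (Int.toNat_of_nonneg (nrm_nonneg _)).symm
          refine ih (nrm κ').toNat ?_ p' q' (κ' * ((u⁻¹ : (OK n)ˣ) : OK n)) (mul_ne_zero hκ' (Units.ne_zero _)) h5 ?_ h4
          · omega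
          · omega
        rcases hρ.dvd_or_dvd hprod with h | h
        · exact hend (x * r + y * s) (y * r - x * s) (by ring) h
        · exact hend (x * r - y * s) (y * r + x * s) (by ring) h

/-- the number of residue classes -/
theorem card_quot (n : ℕ) [IsPrincipalIdealRing (OK n)] (π : OK n) :
    Nat.card (OK n ⧸ Ideal.span {π}) = (nrm π).natAbs := by
  have h1 : Ideal.absNorm (Ideal.span {π}) = (Algebra.norm ℤ π).natAbs :=
    Ideal.absNorm_span_singleton π
  rw [Ideal.absNorm_apply, Submodule.cardQuot_apply] at h1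
  rw [h1, nrm_eq, ← QuadraticAlgebra.det_toLinearMap_eq_norm, Algebra.norm_apply]
  rfl

/-- (1) pigeonhole -/
theorem exists_small (n : ℕ) [IsPrincipalIdealRing (OK n)] (π l : OK n) (hπ : π ≠ 0) :
    ∃ x y : OK n, (x ≠ 0 ∨ y ≠ 0) ∧ π ∣ x - l * y ∧
      (nrm x : ℝ) ≤ (2 * Real.sqrt (n + 1) + 1) * Real.sqrt (nrm π) ∧
      (nrm y : ℝ) ≤ (2 * Real.sqrt (n + 1) + 1) * Real.sqrt (nrm π) := by
  have hm : 0 < nrm π := nrm_pos hπ
  have hmR : (0 : ℝ) < nrm π := by exact_mod_cast hm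
  set m : ℝ := (nrm π : ℝ) with hmdef
  set t : ℝ := Real.sqrt (n + 1) with ht
  have htpos : 0 < t := Real.sqrt_pos.2 (by positivity)
  have htt : t * t = n + 1 := Real.mul_self_sqrt (by positivity)
  have hsm : 0 < Real.sqrt m := Real.sqrt_pos.2 hmR
  set α : ℝ := Real.sqrt (Real.sqrt m * t) with hα
  set β : ℝ := Real.sqrt (Real.sqrt m / t) with hβ
  have hα0 : 0 ≤ α := Real.sqrt_nonneg _
  have hβ0 : 0 ≤ β := Real.sqrt_nonneg _
  have hαα : α * α = Real.sqrt m * t := Real.mul_self_sqrt (by positivity)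
  have hββ : β * β = Real.sqrt m / t := Real.mul_self_sqrt (by positivity)
  have hαβ : α * β = Real.sqrt m := by
    rw [hα, hβ, ← Real.sqrt_mul (by positivity)]
    rw [show Real.sqrt m * t * (Real.sqrt m / t) = Real.sqrt m * Real.sqrt m by field_simp]
    exact Real.sqrt_mul_self hsm.le
  set A : ℕ := ⌊α⌋₊ + 1 with hA
  set C : ℕ := ⌊β⌋₊ + 1 with hC
  have hAα : α < A := by
    rw [hA]
    push_cast
    exact Nat.lt_floor_add_one α
  have hCβ : β < C := by
    rw [hC]
    push_cast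
    exact Nat.lt_floor_add_one β
  have hAle : (A : ℝ) - 1 ≤ α := by
    rw [hA]
    push_cast
    have := Nat.floor_le hα0
    linarith
  have hCle : (C : ℝ) - 1 ≤ β := by
    rw [hC]
    push_cast
    have := Nat.floor_le hβ0
    linarith
  -- more pairs than residue classes
  have hcard : Nat.card (OK n ⧸ Ideal.span {π}) < A * C * (A * C) := by
    rw [card_quot]
    have h1 : Real.sqrt m < (A : ℝ) * C := by
      rw [← hαβ]
      exact mul_lt_mul'' hAα hCβ hα0 hβ0
    have h2 : m < (A : ℝ) * C * (A * C) := by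
      calc m = Real.sqrt m * Real.sqrt m := (Real.mul_self_sqrt hmR.le).symm
        _ < _ := mul_lt_mul'' h1 h1 hsm.le hsm.le
    have h3 : (nrm π : ℝ) = ((nrm π).natAbs : ℝ) := by
      rw [Nat.cast_natAbs, abs_of_pos hm]
    rw [hmdef, h3] at h2
    exact_mod_cast h2
  have hfin : Finite (OK n ⧸ Ideal.span {π}) := by
    apply Nat.finite_of_card_ne_zero
    rw [card_quot]
    omega
  have hft : Fintype (OK n ⧸ Ideal.span {π}) := Fintype.ofFinite _
  let F : (Fin A × Fin C) × (Fin A × Fin C) → OK n ⧸ Ideal.span {π} := fun z =>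
    Ideal.Quotient.mk _ ((⟨(z.1.1 : ℤ), (z.1.2 : ℤ)⟩ : OK n) - l * ⟨(z.2.1 : ℤ), (z.2.2 : ℤ)⟩)
  obtain ⟨z, z', hne, hF⟩ := Fintype.exists_ne_map_eq_of_card_lt F (by
    rw [← Nat.card_eq_fintype_card]
    simpa using hcard)
  have hbound : ∀ (a a' : Fin A) (b b' : Fin C),
      (nrm (⟨(a : ℤ) - a', (b : ℤ) - b'⟩ : OK n) : ℝ) ≤ (2 * t + 1) * Real.sqrt m := by
    intro a a' b b'
    set u : ℝ := (a : ℝ) - (a' : ℝ) with hu
    set v : ℝ := (b : ℝ) - (b' : ℝ) with hv
    have hcast : (nrm (⟨(a : ℤ) - a', (b : ℤ) - b'⟩ : OK n) : ℝ) =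
        u ^ 2 + u * v + (n + 1) * v ^ 2 := by
      unfold nrm
      push_cast
      rfl
    have hfin1 : ∀ (k : ℕ) (i j : Fin k), |((i : ℕ) : ℝ) - ((j : ℕ) : ℝ)| ≤ (k : ℝ) - 1 := by
      intro k i j
      have h1 : ((i : ℕ) : ℝ) + 1 ≤ k := by exact_mod_cast i.2
      have h2 : ((j : ℕ) : ℝ) + 1 ≤ k := by exact_mod_cast j.2
      have h3 : (0 : ℝ) ≤ ((i : ℕ) : ℝ) := Nat.cast_nonneg _
      have h4 : (0 : ℝ) ≤ ((j : ℕ) : ℝ) := Nat.cast_nonneg _
      rw [abs_le]
      constructor <;> linarith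
    have hu1 : |u| ≤ α := (hfin1 A a a').trans hAle
    have hv1 : |v| ≤ β := (hfin1 C b b').trans hCle
    have e1 : u ^ 2 ≤ α * α := by
      rw [← sq_abs, pow_two]
      exact mul_le_mul hu1 hu1 (abs_nonneg _) hα0
    have e2 : v ^ 2 ≤ β * β := by
      rw [← sq_abs, pow_two]
      exact mul_le_mul hv1 hv1 (abs_nonneg _) hβ0
    have e3 : u * v ≤ α * β := by
      calc u * v ≤ |u * v| := le_abs_self _
        _ = |u| * |v| := abs_mul _ _
        _ ≤ _ := mul_le_mul hu1 hv1 (abs_nonneg _) hα0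
    have e4 : ((n : ℝ) + 1) * v ^ 2 ≤ (n + 1) * (β * β) := by gcongr
    have e5 : ((n : ℝ) + 1) * (β * β) = t * Real.sqrt m := by
      rw [hββ, ← htt]
      field_simp
    rw [hcast]
    calc u ^ 2 + u * v + (n + 1) * v ^ 2 ≤ α * α + α * β + (n + 1) * (β * β) := by linarith
      _ = (2 * t + 1) * Real.sqrt m := by rw [e5, hαα, hαβ]; ring
  refine ⟨⟨(z.1.1 : ℤ) - z'.1.1, (z.1.2 : ℤ) - z'.1.2⟩, ⟨(z.2.1 : ℤ) - z'.2.1,
    (z.2.2 : ℤ) - z'.2.2⟩, ?_, ?_, hbound _ _ _ _, hbound _ _ _ _⟩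
  · by_contra hcon
    rw [not_or, not_not, not_not] at hcon
    obtain ⟨h1, h2⟩ := hcon
    have e1 := congrArg QuadraticAlgebra.re h1
    have e2 := congrArg QuadraticAlgebra.im h1
    have e3 := congrArg QuadraticAlgebra.re h2
    have e4 := congrArg QuadraticAlgebra.im h2
    simp only [QuadraticAlgebra.re_zero, QuadraticAlgebra.im_zero] at e1 e2 e3 e4
    apply hne
    refine Prod.ext (Prod.ext (Fin.ext ?_) (Fin.ext ?_)) (Prod.ext (Fin.ext ?_) (Fin.ext ?_))
    · omega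
    · omega
    · omega
    · omega
  · have h1 : Ideal.Quotient.mk (Ideal.span {π})
        (((⟨(z.1.1 : ℤ), (z.1.2 : ℤ)⟩ : OK n) - l * ⟨(z.2.1 : ℤ), (z.2.2 : ℤ)⟩) -
        ((⟨(z'.1.1 : ℤ), (z'.1.2 : ℤ)⟩ : OK n) - l * ⟨(z'.2.1 : ℤ), (z'.2.2 : ℤ)⟩)) = 0 := by
      rw [map_sub, sub_eq_zero]
      exact hF
    rw [Ideal.Quotient.eq_zero_iff_mem, Ideal.mem_span_singleton] at h1
    convert h1 using 1
    have e1 : (⟨(z.1.1 : ℤ) - z'.1.1, (z.1.2 : ℤ) - z'.1.2⟩ : OK n) =
        ⟨(z.1.1 : ℤ), (z.1.2 : ℤ)⟩ - ⟨(z'.1.1 : ℤ), (z'.1.2 : ℤ)⟩ := rfl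
    have e2 : (⟨(z.2.1 : ℤ) - z'.2.1, (z.2.2 : ℤ) - z'.2.2⟩ : OK n) =
        ⟨(z.2.1 : ℤ), (z.2.2 : ℤ)⟩ - ⟨(z'.2.1 : ℤ), (z'.2.2 : ℤ)⟩ := rfl
    rw [e1, e2]
    ring

theorem tsq_of_table (n : ℕ) [IsPrincipalIdealRing (OK n)] (B : ℕ)
    (hB : 4 * (2 * Real.sqrt (n + 1) + 1) ^ 2 < B + 1)
    (htab : ∀ ρ : OK n, Prime ρ → nrm ρ ≤ B → (∃ l, ρ ∣ l ^ 2 + 1) →
      ∃ w : Gi (OK n), Associated w.norm ρ) :
    ∀ π : OK n, Prime π → ∀ l, π ∣ l ^ 2 + 1 → ∃ w : Gi (OK n), Associated w.norm π := by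
  intro π hπ l hl
  obtain ⟨x, y, hxy, hdvd, hx, hy⟩ := exists_small n π l hπ.ne_zero
  have h1 : π ∣ x * x + y * y := by
    have e : x * x + y * y = (x - l * y) * (x + l * y) + (l ^ 2 + 1) * (y * y) := by ring
    rw [e]
    exact dvd_add (hdvd.mul_right _) (hl.mul_right _)
  obtain ⟨κ, hκ⟩ := h1
  have hne := sq_add_ne_zero hxy
  have hκ0 : κ ≠ 0 := by
    rintro rfl
    rw [mul_zero] at hκ
    exact hne hκ
  have hm : 0 < nrm π := nrm_pos hπ.ne_zero
  have hmR : (0 : ℝ) < nrm π := by exact_mod_cast hm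
  have hN : nrm π * nrm κ ≤ (nrm x + nrm y) ^ 2 := by
    rw [← nrm_mul, ← hκ]
    have h2 := nrm_sq_add x y
    have h3 : 0 ≤ (4 * (n : ℤ) + 3) * (x * star y).im ^ 2 := by positivity
    linarith
  have hNR : (nrm π : ℝ) * nrm κ ≤ ((nrm x : ℝ) + nrm y) ^ 2 := by exact_mod_cast hN
  have hx0 : (0 : ℝ) ≤ nrm x := by exact_mod_cast nrm_nonneg x
  have hy0 : (0 : ℝ) ≤ nrm y := by exact_mod_cast nrm_nonneg y
  have h4 : ((nrm x : ℝ) + nrm y) ^ 2 ≤
      (4 * (2 * Real.sqrt (n + 1) + 1) ^ 2) * nrm π := by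
    have h5 : (nrm x : ℝ) + nrm y ≤
        2 * ((2 * Real.sqrt (n + 1) + 1) * Real.sqrt (nrm π)) := by linarith
    calc ((nrm x : ℝ) + nrm y) ^ 2
        ≤ (2 * ((2 * Real.sqrt (n + 1) + 1) * Real.sqrt (nrm π))) ^ 2 := by
          exact pow_le_pow_left₀ (by positivity) h5 2
      _ = (4 * (2 * Real.sqrt (n + 1) + 1) ^ 2) * (Real.sqrt (nrm π) ^ 2) := by ring
      _ = _ := by rw [Real.sq_sqrt hmR.le]
  have h6 : (nrm κ : ℝ) < B + 1 := by
    refine lt_of_le_of_lt ?_ hB
    have h7 : (nrm π : ℝ) * nrm κ ≤ nrm π * (4 * (2 * Real.sqrt (n + 1) + 1) ^ 2) := by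
      calc (nrm π : ℝ) * nrm κ ≤ _ := hNR
        _ ≤ _ := h4
        _ = _ := by ring
    exact le_of_mul_le_mul_left h7 hmR
  have h8 : nrm κ ≤ B := by
    have : nrm κ < (B : ℤ) + 1 := by exact_mod_cast h6
    omega
  exact descent n B htab π hπ l hl (nrm κ).toNat x y κ hκ0
    (Int.toNat_of_nonneg (nrm_nonneg _)).symm h8 hκ

/-- a prime divides a rational prime -/
theorem exists_rat_prime {n : ℕ} {ρ : OK n} (hρ : Prime ρ) :
    ∃ p : ℕ, p.Prime ∧ ρ ∣ (p : OK n) := by
  have key : ∀ k : ℕ, k ≠ 0 → ρ ∣ (k : OK n) → ∃ p : ℕ, p.Prime ∧ ρ ∣ (p : OK n) := by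
    intro k
    induction k using induction_on_primes with
    | zero => exact fun h => absurd rfl h
    | one =>
      intro _ h
      rw [Nat.cast_one] at h
      exact absurd (isUnit_of_dvd_one h) hρ.not_isUnit
    | prime_mul p a hp ih =>
      intro h0 h
      rw [Nat.cast_mul] at h
      rcases hρ.dvd_or_dvd h with h | h
      · exact ⟨p, hp, h⟩
      · exact ih (right_ne_zero_of_mul h0) h
  refine key (nrm ρ).natAbs ?_ ?_
  · have := nrm_pos hρ.ne_zero
    omega
  · refine ⟨star ρ, ?_⟩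
    rw [mul_star_eq]
    have : (((nrm ρ).natAbs : ℕ) : ℤ) = nrm ρ := Int.natAbs_of_nonneg (nrm_nonneg _)
    conv_rhs => rw [← this]
    rw [Int.cast_natCast]

theorem table_of_rational (n : ℕ) [IsPrincipalIdealRing (OK n)] (B : ℕ)
    (hs : ∀ p : ℕ, p.Prime → p ≤ B → (p = 2 ∨ p % 4 = 1) →
      (∃ x : ℤ, (p : ℤ) ∣ x ^ 2 - x + (n + 1)) → ∃ w : Gi (OK n), nrm w.norm = p)
    (hi : ∀ q : ℕ, q.Prime → q ^ 2 ≤ B → (∀ x : ℤ, ¬ (q : ℤ) ∣ x ^ 2 - x + (n + 1)) →
      ∃ w : Gi (OK n), w.norm = q ∨ w.norm = -(q : OK n)) :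
    ∀ ρ : OK n, Prime ρ → nrm ρ ≤ B → (∃ l, ρ ∣ l ^ 2 + 1) →
      ∃ w : Gi (OK n), Associated w.norm ρ := by
  rintro ρ hρ hB ⟨l, hl⟩
  obtain ⟨p, hp, hρp⟩ := exists_rat_prime hρ
  have hpZ : Prime (p : ℤ) := Nat.prime_iff_prime_int.1 hp
  have hρ1 : nrm ρ ≠ 1 := fun h => hρ.not_isUnit (nrm_isUnit.2 h)
  obtain ⟨τ, hτ⟩ := hρp
  have hN : (p : ℤ) ^ 2 = nrm ρ * nrm τ := by
    rw [← nrm_mul, ← hτ, nrm_natCast]
  have hcases : nrm ρ = p ∨ nrm ρ = (p : ℤ) ^ 2 := by
    have h1 : (nrm ρ).natAbs ∣ p ^ 2 := by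
      have h2 : (nrm ρ) ∣ ((p ^ 2 : ℕ) : ℤ) := ⟨nrm τ, by push_cast; exact hN⟩
      exact Int.natAbs_dvd_natAbs.2 h2 |>.trans (by simp)
    obtain ⟨i, hi2, hi3⟩ := (Nat.dvd_prime_pow hp).1 h1
    have h3 : nrm ρ = ((nrm ρ).natAbs : ℤ) := (Int.natAbs_of_nonneg (nrm_nonneg _)).symm
    rw [hi3] at h3
    interval_cases i
    · exact absurd (by simpa using h3) hρ1
    · left; simpa using h3
    · right; simpa using h3
  rcases hcases with h1 | h2
  · -- split or ramified
    obtain ⟨a, b⟩ := ρ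
    have hnab : a ^ 2 + a * b + (n + 1) * b ^ 2 = p := h1
    have hpb : ¬ (p : ℤ) ∣ b := by
      intro hb
      have h2 : (p : ℤ) ∣ a ^ 2 := by
        have e : a ^ 2 = p - b * (a + (n + 1) * b) := by rw [← hnab]; ring
        rw [e]
        exact dvd_sub dvd_rfl (hb.mul_right _)
      have ha : (p : ℤ) ∣ a := hpZ.dvd_of_dvd_pow h2
      obtain ⟨a', rfl⟩ := ha
      obtain ⟨b', rfl⟩ := hb
      have e : (p : ℤ) * (p * (a' ^ 2 + a' * b' + (n + 1) * b' ^ 2)) = p * 1 := by
        rw [mul_one]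
        conv_rhs => rw [← hnab]
        ring
      have e2 := mul_left_cancel₀ hpZ.ne_zero e
      exact hpZ.not_isUnit (IsUnit.of_mul_eq_one _ e2)
    have hcop : IsCoprime b (p : ℤ) :=
      ((hpZ.irreducible.coprime_iff_not_dvd).2 hpb).symm
    obtain ⟨c, v, hcv⟩ := hcop
    set x : ℤ := -a * c with hx
    have hroot : (p : ℤ) ∣ x ^ 2 - x + (n + 1) := by
      refine ⟨c ^ 2 + c * a * v + (n + 1) * (2 * v - v ^ 2 * p), ?_⟩
      have e1 : c * b = 1 - v * p := by linarith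
      calc x ^ 2 - x + (n + 1) = c ^ 2 * a ^ 2 + c * a + (n + 1) := by rw [hx]; ring
        _ = c ^ 2 * (a ^ 2 + a * b + (n + 1) * b ^ 2) + c * a * (1 - c * b) +
            (n + 1) * (1 - (c * b) ^ 2) := by ring
        _ = _ := by rw [hnab, e1]; ring
    -- `ω` is congruent to `x`
    have hom : (⟨a, b⟩ : OK n) ∣ ((⟨0, 1⟩ : OK n) - (x : OK n)) := by
      have e : ((⟨0, 1⟩ : OK n) - (x : OK n)) =
          (c : OK n) * ⟨a, b⟩ + (p : OK n) * ((v : OK n) * ⟨0, 1⟩) := by
        apply QuadraticAlgebra.ext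
        · simp only [QuadraticAlgebra.re_sub, QuadraticAlgebra.re_intCast, Int.cast_id,
            QuadraticAlgebra.re_add, QuadraticAlgebra.re_mul, QuadraticAlgebra.im_intCast,
            QuadraticAlgebra.re_natCast, QuadraticAlgebra.im_natCast, QuadraticAlgebra.im_mul]
          rw [hx]
          ring
        · simp only [QuadraticAlgebra.im_sub, QuadraticAlgebra.re_intCast, Int.cast_id,
            QuadraticAlgebra.im_add, QuadraticAlgebra.re_mul, QuadraticAlgebra.im_intCast,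
            QuadraticAlgebra.re_natCast, QuadraticAlgebra.im_natCast, QuadraticAlgebra.im_mul]
          linear_combination -hcv
      rw [e, hτ]
      exact dvd_add (Dvd.intro_left _ rfl) ⟨τ * ((v : OK n) * ⟨0, 1⟩), by ring⟩
    have hp4 : p = 2 ∨ p % 4 = 1 := by
      set L : ℤ := l.re + l.im * x with hL
      have h3 : (⟨a, b⟩ : OK n) ∣ l - (L : OK n) := by
        have e : l - (L : OK n) = ((⟨0, 1⟩ : OK n) - (x : OK n)) * (l.im : OK n) := by
          apply QuadraticAlgebra.ext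
          · simp only [QuadraticAlgebra.re_sub, QuadraticAlgebra.re_intCast, Int.cast_id,
              QuadraticAlgebra.re_mul, QuadraticAlgebra.im_intCast, QuadraticAlgebra.im_sub]
            rw [hL]
            ring
          · simp only [QuadraticAlgebra.im_sub, QuadraticAlgebra.re_intCast, Int.cast_id,
              QuadraticAlgebra.re_sub, QuadraticAlgebra.im_intCast, QuadraticAlgebra.im_mul]
            ring
        rw [e]
        exact hom.mul_right _
      have h4 : (⟨a, b⟩ : OK n) ∣ ((L ^ 2 + 1 : ℤ) : OK n) := by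
        have e : ((L ^ 2 + 1 : ℤ) : OK n) =
            (l ^ 2 + 1) - (l - (L : OK n)) * (l + (L : OK n)) := by
          push_cast
          ring
        rw [e]
        exact dvd_sub hl (h3.mul_right _)
      have h5 : (p : ℤ) ∣ L ^ 2 + 1 := by
        obtain ⟨z, hz⟩ := h4
        have h6 : (L ^ 2 + 1) ^ 2 = p * nrm z := by
          rw [← nrm_intCast (n := n), hz, nrm_mul, h1]
        exact hpZ.dvd_of_dvd_pow ⟨nrm z, h6⟩
      have : Fact p.Prime := ⟨hp⟩
      have h7 : ((L : ℤ) : ZMod p) ^ 2 = -1 := by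
        have := (ZMod.intCast_zmod_eq_zero_iff_dvd (L ^ 2 + 1) p).2 h5
        push_cast at this
        linear_combination this
      have h8 := ZMod.mod_four_ne_three_of_sq_eq_neg_one h7
      rcases hp.eq_two_or_odd with h | h
      · exact Or.inl h
      · right
        omega
    have hpB : p ≤ B := by
      have : nrm (⟨a, b⟩ : OK n) ≤ B := hB
      rw [h1] at this
      exact_mod_cast this
    obtain ⟨w, hw⟩ := hs p hp hpB hp4 ⟨x, hroot⟩
    have hdvd : (⟨a, b⟩ : OK n) ∣ w.norm * star w.norm := by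
      rw [mul_star_eq, hw]
      refine ⟨star ⟨a, b⟩, ?_⟩
      rw [mul_star_eq, h1]
    have hass : ∀ σ : OK n, nrm σ = p → (⟨a, b⟩ : OK n) ∣ σ → Associated σ ⟨a, b⟩ := by
      rintro σ hσ ⟨u, rfl⟩
      have h3 : nrm u = 1 := by
        rw [nrm_mul, h1] at hσ
        exact mul_left_cancel₀ hpZ.ne_zero (by rw [hσ, mul_one])
      exact associated_mul_unit_left _ _ (nrm_isUnit.2 h3)
    rcases hρ.dvd_or_dvd hdvd with h | h
    · exact ⟨w, hass _ hw h⟩
    · refine ⟨⟨star w.re, star w.im⟩, ?_⟩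
      have e : (⟨star w.re, star w.im⟩ : Gi (OK n)).norm = star w.norm := by
        rw [gi_norm, gi_norm, star_add, star_mul, star_mul]
      rw [e]
      exact hass _ (by rw [nrm_star, hw]) h
  · -- inert
    have hτ1 : nrm τ = 1 := by
      rw [h2] at hN
      exact (mul_left_cancel₀ (pow_ne_zero 2 hpZ.ne_zero) (by rw [← hN, mul_one])).symm
    have hass : Associated (p : OK n) ρ := by
      rw [hτ]
      exact associated_mul_unit_left _ _ (nrm_isUnit.2 hτ1)
    have hpp : Prime (p : OK n) := hass.prime_iff.2 hρ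
    have hinert : ∀ x : ℤ, ¬ (p : ℤ) ∣ x ^ 2 - x + (n + 1) := by
      rintro x ⟨k, hk⟩
      have h3 : (p : OK n) ∣ (⟨x, -1⟩ : OK n) * star ⟨x, -1⟩ := by
        rw [mul_star_eq]
        refine ⟨(k : OK n), ?_⟩
        have e : nrm (⟨x, -1⟩ : OK n) = (p : ℤ) * k := by
          rw [← hk]
          unfold nrm
          ring
        rw [e]
        push_cast
        ring
      have him : ∀ z : OK n, (p : OK n) ∣ z → (p : ℤ) ∣ z.im := by
        rintro z ⟨u, rfl⟩
        refine ⟨u.im, ?_⟩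
        simp [QuadraticAlgebra.im_mul]
      rcases hpp.dvd_or_dvd h3 with h | h
      · have := him _ h
        change (p : ℤ) ∣ -1 at this
        exact hpZ.not_isUnit (isUnit_of_dvd_unit this (by norm_num))
      · have := him _ h
        rw [QuadraticAlgebra.im_star] at this
        change (p : ℤ) ∣ - -1 at this
        exact hpZ.not_isUnit (isUnit_of_dvd_unit this (by norm_num))
    have hpB : p ^ 2 ≤ B := by
      rw [h2] at hB
      exact_mod_cast hB
    obtain ⟨w, hw | hw⟩ := hi p hp hpB hinert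
    · exact ⟨w, by rw [hw]; exact hass⟩
    · exact ⟨w, by rw [hw]; exact hass.neg_left⟩

end SerreK
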